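import Pool.Agent.Lib.MP_0a1b52_lc.Defs

/-!
Basic theory of circuits: evaluation, frozen evaluation, monotonicity.
-/

namespace Pool.Agent.CliqueCircuits

/-- Evaluation, written with a case distinction on the kind of the gate. -/
def Circuit.IsEvalM {V : Type} {s : ℕ} (C : Circuit V s) (x : V → Prop) (val : Fin s → Prop) :
    Prop :=
  ∀ i : Fin s, val i ↔
    match C.kind i with
    | GateKind.and => ∀ w ∈ C.wires i, Sum.elim x val w
    | GateKind.or => ∃ w ∈ C.wires i, Sum.elim x val w
    | GateKind.not => ∀ w ∈ C.wires i, ¬ Sum.elim x val w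

theorem Circuit.isEval_iff {V : Type} {s : ℕ} (C : Circuit V s) (x : V → Prop)
    (val : Fin s → Prop) : C.IsEval x val ↔ C.IsEvalM x val := by
  constructor
  · intro h i
    obtain ⟨h1, h2, h3⟩ := h i
    cases hk : C.kind i with
    | and => exact h1 hk
    | or => exact h2 hk
    | not => exact h3 hk
  · intro h i
    have hi := h i
    refine ⟨fun hk => ?_, fun hk => ?_, fun hk => ?_⟩
    · rw [hk] at hi; exact hi
    · rw [hk] at hi; exact hi
    · rw [hk] at hi; exact hi

def Circuit.ComputesCliqueM {n s : ℕ} (C : Circuit {p : Fin n × Fin n // p.1 < p.2} s) : Prop :=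
  ∀ G : SimpleGraph (Fin n), ∃ val : Fin s → Prop,
    C.IsEvalM (fun e => G.Adj e.1.1 e.1.2) val ∧
    (val C.out ↔ ∃ c : Finset (Fin n), G.IsClique (c : Set (Fin n)) ∧
      Real.sqrt (n : ℝ) < (c.card : ℝ))

theorem Circuit.ComputesClique.toM {n s : ℕ} {C : Circuit {p : Fin n × Fin n // p.1 < p.2} s}
    (h : C.ComputesClique) : C.ComputesCliqueM := by
  intro G
  obtain ⟨val, h1, h2⟩ := h G
  exact ⟨val, (C.isEval_iff _ _).1 h1, h2⟩

section Theory

variable {V : Type} {s : ℕ}

/-- A local recursion over `Fin s` has a solution. -/
theorem exists_rec {α : Type} (Φ : Fin s → (Fin s → α) → α)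
    (hΦ : ∀ i f g, (∀ j, j < i → f j = g j) → Φ i f = Φ i g) [Inhabited α] :
    ∃ f : Fin s → α, ∀ i, f i = Φ i f := by
  classical
  let F : (i : Fin s) → ((j : Fin s) → j < i → α) → α :=
    fun i rec => Φ i (fun j => if h : j < i then rec j h else default)
  refine ⟨WellFounded.fix (wellFounded_lt (α := Fin s)) F, fun i => ?_⟩
  rw [WellFounded.fix_eq]
  refine hΦ i _ _ ?_
  intro j hj
  simp [hj]

/-- `val` is the vector of gate values on the assignment `x`, when the output of each NOT gate `i`
is frozen to `b i`. -/
def Circuit.IsFrozen (C : Circuit V s) (b : Fin s → Prop) (x : V → Prop) (val : Fin s → Prop) :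
    Prop :=
  ∀ i : Fin s, val i ↔
    match C.kind i with
    | GateKind.and => ∀ w ∈ C.wires i, Sum.elim x val w
    | GateKind.or => ∃ w ∈ C.wires i, Sum.elim x val w
    | GateKind.not => b i

theorem Circuit.exists_frozen (C : Circuit V s) (b : Fin s → Prop) (x : V → Prop) :
    ∃ val, C.IsFrozen b x val := by
  classical
  let Φ : Fin s → (Fin s → Prop) → Prop := fun i val =>
      match C.kind i with
      | GateKind.and => ∀ w ∈ C.wires i, Sum.elim x val w
      | GateKind.or => ∃ w ∈ C.wires i, Sum.elim x val w
      | GateKind.not => b i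
  have hΦ : ∀ i f g, (∀ j, j < i → f j = g j) → Φ i f = Φ i g := by
    intro i f g hfg
    have h : ∀ w ∈ C.wires i, Sum.elim x f w = Sum.elim x g w := by
      intro w hw
      cases w with
      | inl v => rfl
      | inr j => exact hfg j (C.acyclic i j hw)
    simp only [Φ]
    cases hk : C.kind i with
    | and =>
      simp only
      exact propext (forall₂_congr fun w hw => by rw [h w hw])
    | or =>
      simp only
      apply propext
      constructor
      · rintro ⟨w, hw, hv⟩
        exact ⟨w, hw, by rw [← h w hw]; exact hv⟩
      · rintro ⟨w, hw, hv⟩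
        exact ⟨w, hw, by rw [h w hw]; exact hv⟩
    | not => simp only
  obtain ⟨f, hf⟩ := exists_rec Φ hΦ
  refine ⟨f, fun i => ?_⟩
  have := hf i
  simp only [Φ] at this
  rw [← this]

theorem Circuit.IsFrozen.mono {C : Circuit V s} {b : Fin s → Prop} {x x' : V → Prop}
    {val val' : Fin s → Prop} (h : C.IsFrozen b x val) (h' : C.IsFrozen b x' val')
    (hx : ∀ v, x v → x' v) : ∀ w : V ⊕ Fin s, Sum.elim x val w → Sum.elim x' val' w := by
  have key : ∀ N : ℕ, ∀ i : Fin s, i.val = N → val i → val' i := by
    intro N
    induction N using Nat.strong_induction_on with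
    | _ N ih =>
      intro i hi hv
      have hw : ∀ w ∈ C.wires i, Sum.elim x val w → Sum.elim x' val' w := by
        intro w hw hvw
        cases w with
        | inl v => exact hx v hvw
        | inr j =>
          have hj := C.acyclic i j hw
          exact ih j.val (by rw [← hi]; exact hj) j rfl hvw
      rw [h i] at hv
      rw [h' i]
      cases hk : C.kind i with
      | and =>
        simp only [hk] at hv ⊢
        exact fun w hw' => hw w hw' (hv w hw')
      | or =>
        simp only [hk] at hv ⊢
        obtain ⟨w, hw', hvw⟩ := hv
        exact ⟨w, hw', hw w hw' hvw⟩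
      | not =>
        simp only [hk] at hv ⊢
        exact hv
  intro w hw
  cases w with
  | inl v => exact hx v hw
  | inr j => exact key j.val j rfl hw

theorem Circuit.IsEvalM.unique {C : Circuit V s} {x : V → Prop} {val val' : Fin s → Prop}
    (h : C.IsEvalM x val) (h' : C.IsEvalM x val') : val = val' := by
  have key : ∀ N : ℕ, ∀ i : Fin s, i.val = N → (val i ↔ val' i) := by
    intro N
    induction N using Nat.strong_induction_on with
    | _ N ih =>
      intro i hi
      have hw : ∀ w ∈ C.wires i, (Sum.elim x val w ↔ Sum.elim x val' w) := by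
        intro w hw
        cases w with
        | inl v => exact Iff.rfl
        | inr j =>
          have hj := C.acyclic i j hw
          exact ih j.val (by rw [← hi]; exact hj) j rfl
      rw [h i, h' i]
      cases hk : C.kind i with
      | and =>
        simp only
        exact forall₂_congr hw
      | or =>
        simp only
        constructor
        · rintro ⟨w, hw', hv⟩
          exact ⟨w, hw', (hw w hw').1 hv⟩
        · rintro ⟨w, hw', hv⟩
          exact ⟨w, hw', (hw w hw').2 hv⟩
      | not =>
        simp only
        exact forall₂_congr fun w hw' => not_congr (hw w hw')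
  funext i
  exact propext (key i.val i rfl)

/-- If the frozen value `b i` of each NOT gate is consistent with the computed value of its input,
then a frozen evaluation is the true evaluation. -/
theorem Circuit.IsFrozen.isEval {C : Circuit V s} {b : Fin s → Prop} {x : V → Prop}
    {val : Fin s → Prop} (h : C.IsFrozen b x val)
    (hb : ∀ i, C.kind i = GateKind.not → (b i ↔ ∀ w ∈ C.wires i, ¬ Sum.elim x val w)) :
    C.IsEvalM x val := by
  intro i
  rw [h i]
  cases hk : C.kind i with
  | and => simp only
  | or => simp only
  | not =>
    simp only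
    exact hb i hk

theorem Circuit.IsEvalM.isFrozen {C : Circuit V s} {b : Fin s → Prop} {x : V → Prop}
    {val : Fin s → Prop} (h : C.IsEvalM x val)
    (hb : ∀ i, C.kind i = GateKind.not → (b i ↔ val i)) :
    C.IsFrozen b x val := by
  intro i
  cases hk : C.kind i with
  | and =>
    have := h i
    rw [hk] at this
    simpa using this
  | or =>
    have := h i
    rw [hk] at this
    simpa using this
  | not =>
    simp only
    exact (hb i hk).symm

end Theory

end Pool.Agent.CliqueCircuits
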