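import Pool.Agent.Lib.MP_0a1b52_lc.Approx

/-!
Graphs on `Fin n` made of `L` completely joined blocks (each a `k`-partite graph with classes of
size `m`), `e` universal vertices, and isolated vertices.
-/

namespace Pool.Agent.CliqueCircuits

open Finset

/-- the state of a block: complete `k`-partite, a planted transversal clique, or a coloured graph -/
inductive BState (k m K : ℕ)
  | full
  | tr (p : Fin k → Fin m)
  | col (c : Fin k × Fin m → Fin K)

def BState.rel {k m K : ℕ} : BState k m K → Fin k × Fin m → Fin k × Fin m → Prop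
  | .full, _, _ => True
  | .tr p, u, v => p u.1 = u.2 ∧ p v.1 = v.2
  | .col c, u, v => c u ≠ c v

theorem BState.rel_symm {k m K : ℕ} (b : BState k m K) (u v : Fin k × Fin m)
    (h : b.rel u v) : b.rel v u := by
  cases b with
  | full => trivial
  | tr p => exact ⟨h.2, h.1⟩
  | col c => exact fun h' => h h'.symm

/-- vertices: block vertices and universal vertices -/
abbrev Vtx (L k m e : ℕ) := (Fin L × (Fin k × Fin m)) ⊕ Fin e

def adjV {L k m e K : ℕ} (st : Fin L → BState k m K) : Vtx L k m e → Vtx L k m e → Prop
  | .inr a, .inr b => a ≠ b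
  | .inr _, .inl _ => True
  | .inl _, .inr _ => True
  | .inl (i, u), .inl (j, v) => i ≠ j ∨ (u.1 ≠ v.1 ∧ (st i).rel u v)

theorem adjV_symm {L k m e K : ℕ} (st : Fin L → BState k m K) (a b : Vtx L k m e)
    (h : adjV st a b) : adjV st b a := by
  rcases a with ⟨i, u⟩ | a <;> rcases b with ⟨j, v⟩ | b
  · simp only [adjV] at h ⊢
    by_cases hij : i = j
    · subst hij
      rcases h with h | h
      · exact absurd rfl h
      · exact Or.inr ⟨fun h' => h.1 h'.symm, BState.rel_symm _ _ _ h.2⟩
    · exact Or.inl (fun h' => hij h'.symm)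
  · trivial
  · trivial
  · exact fun h' => h h'.symm

theorem adjV_irrefl {L k m e K : ℕ} (st : Fin L → BState k m K) (a : Vtx L k m e) :
    ¬ adjV st a a := by
  rcases a with ⟨i, u⟩ | a
  · simp [adjV]
  · simp [adjV]

/-- the block graph on `Fin n` -/
def blockGraph {L k m e K n : ℕ} (φ : Vtx L k m e ↪ Fin n) (st : Fin L → BState k m K) :
    SimpleGraph (Fin n) where
  Adj x y := ∃ a b, φ a = x ∧ φ b = y ∧ adjV st a b
  symm := ⟨by
    rintro x y ⟨a, b, ha, hb, h⟩
    exact ⟨b, a, hb, ha, adjV_symm st a b h⟩⟩
  loopless := ⟨by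
    rintro x ⟨a, b, ha, hb, h⟩
    have : a = b := φ.injective (ha.trans hb.symm)
    subst this
    exact adjV_irrefl st a h⟩

theorem blockGraph_adj {L k m e K n : ℕ} (φ : Vtx L k m e ↪ Fin n) (st : Fin L → BState k m K)
    (a b : Vtx L k m e) : (blockGraph φ st).Adj (φ a) (φ b) ↔ adjV st a b := by
  constructor
  · rintro ⟨a', b', ha, hb, h⟩
    rw [φ.injective ha, φ.injective hb] at h
    exact h
  · intro h
    exact ⟨a, b, rfl, rfl, h⟩

/-- planted cliques in all blocks give a clique of size `L * k + e` -/
theorem blockGraph_clique {L k m e K n : ℕ} (φ : Vtx L k m e ↪ Fin n)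
    (st : Fin L → BState k m K) (p : Fin L → Fin k → Fin m)
    (h : ∀ i, st i = BState.full ∨ st i = BState.tr (p i)) :
    ∃ S : Finset (Fin n), (blockGraph φ st).IsClique (S : Set (Fin n)) ∧ S.card = L * k + e := by
  classical
  let ψ : (Fin L × Fin k) ⊕ Fin e → Fin n := fun z => φ (Sum.map
    (fun ic => (ic.1, (ic.2, p ic.1 ic.2))) id z)
  have hψ : Function.Injective ψ := by
    intro z z' hz
    have hz := φ.injective hz
    rcases z with ⟨i, c⟩ | a <;> rcases z' with ⟨i', c'⟩ | a' <;> simp at hz
    · obtain ⟨rfl, rfl, _⟩ := hz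
      rfl
    · rw [hz]
  refine ⟨univ.image ψ, ?_, ?_⟩
  · intro x hx y hy hxy
    simp only [coe_image, coe_univ, Set.image_univ, Set.mem_range] at hx hy
    obtain ⟨z, rfl⟩ := hx
    obtain ⟨z', rfl⟩ := hy
    have hne : z ≠ z' := fun h => hxy (by rw [h])
    refine (blockGraph_adj φ st _ _).2 ?_
    rcases z with ⟨i, c⟩ | a <;> rcases z' with ⟨i', c'⟩ | a'
    · simp only [Sum.map_inl, adjV]
      by_cases hii : i = i'
      · subst hii
        right
        refine ⟨?_, ?_⟩
        · intro hc
          apply hne
          have hc : c = c' := hc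
          rw [hc]
        · rcases h i with h | h
          · rw [h]; trivial
          · rw [h]; exact ⟨rfl, rfl⟩
      · exact Or.inl hii
    · trivial
    · trivial
    · simp only [Sum.map_inr, id, adjV]
      exact fun h => hne (by rw [h])
  · rw [card_image_of_injective _ hψ, card_univ]
    simp

/-- a coloured block reduces the clique number -/
theorem blockGraph_no_clique {L k m e K n : ℕ} (φ : Vtx L k m e ↪ Fin n)
    (st : Fin L → BState k m K) (hK : K < k) (j : Fin L) (c : Fin k × Fin m → Fin K)
    (hj : st j = BState.col c) (S : Finset (Fin n))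
    (hS : (blockGraph φ st).IsClique (S : Set (Fin n))) : S.card < L * k + e ∨ S.card ≤ 1 := by
  classical
  by_cases hcard : S.card ≤ 1
  · exact Or.inr hcard
  left
  -- every vertex of `S` is in the range of `φ`
  have hrange : ∀ x ∈ S, ∃ a, φ a = x := by
    intro x hx
    obtain ⟨y, hy, hxy⟩ := exists_mem_ne (by omega : 1 < S.card) x
    obtain ⟨a, b, ha, _, _⟩ := hS hx hy (fun h => hxy h.symm)
    exact ⟨a, ha⟩
  let Ψ : Vtx L k m e → (Fin L × Fin k) ⊕ Fin e := fun a =>
    Sum.map (fun iu => if iu.1 = j then (j, (c iu.2).castLE hK.le) else (iu.1, iu.2.1)) id a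
  have hcardS : S.card ≤ (univ.erase (Sum.inl (j, ⟨K, hK⟩) : (Fin L × Fin k) ⊕ Fin e)).card := by
    have : Nonempty (Vtx L k m e) := by
      obtain ⟨x, hx⟩ := card_pos.1 (by omega : 0 < S.card)
      exact ⟨(hrange x hx).choose⟩
    choose! g hg using hrange
    refine card_le_card_of_injOn (fun x => Ψ (g x)) ?_ ?_
    · intro x hx
      simp only [coe_erase, coe_univ, Set.mem_sdiff, Set.mem_univ, Set.mem_singleton_iff, true_and]
      rcases hgx : g x with ⟨i, u⟩ | a
      · simp only [Ψ, Sum.map_inl]
        by_cases hij : i = j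
        · simp only [hij, if_true]
          intro h
          have h := congrArg (fun z : Fin L × Fin k => z.2.val) (Sum.inl_injective h)
          simp only [Fin.val_castLE] at h
          exact absurd h (c u).isLt.ne
        · simp only [hij, if_false]
          intro h
          have h := congrArg (fun z : Fin L × Fin k => z.1) (Sum.inl_injective h)
          exact hij h
      · simp [Ψ]
    · intro x hx y hy hxy
      by_contra hne
      have hadj := hS hx hy hne
      rw [← hg x hx, ← hg y hy, blockGraph_adj] at hadj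
      simp only at hxy
      rcases hgx : g x with ⟨i, u⟩ | a <;> rcases hgy : g y with ⟨i', u'⟩ | a' <;>
        rw [hgx, hgy] at hadj hxy
      · simp only [Ψ, Sum.map_inl, adjV] at hxy hadj
        have hxy := Sum.inl_injective hxy
        by_cases hij : i = j
        · by_cases hij' : i' = j
          · simp only [hij, hij', if_true] at hxy
            subst hij
            subst hij'
            rcases hadj with h | ⟨_, h⟩
            · exact h rfl
            · rw [hj] at h
              apply h
              have := congrArg (fun z : Fin L × Fin k => z.2.val) hxy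
              simp only [Fin.val_castLE] at this
              exact Fin.ext this
          · simp only [hij, hij', if_true, if_false] at hxy
            exact hij' (congrArg Prod.fst hxy).symm
        · by_cases hij' : i' = j
          · simp only [hij, hij', if_true, if_false] at hxy
            exact hij (congrArg Prod.fst hxy)
          · simp only [hij, hij', if_false, Prod.mk.injEq] at hxy
            rcases hadj with h | ⟨h, _⟩
            · exact h hxy.1
            · exact h hxy.2
      · simp [Ψ] at hxy
      · simp [Ψ] at hxy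
      · simp only [Ψ, Sum.map_inr, id, adjV] at hxy hadj
        exact hadj (Sum.inr_injective hxy)
  rw [card_erase_of_mem (mem_univ _), card_univ] at hcardS
  simp only [Fintype.card_sum, Fintype.card_prod, Fintype.card_fin] at hcardS
  have hpos : 0 < L * k := Nat.mul_pos (by have := j.isLt; omega) (by omega)
  omega

open Classical in
/-- the input type of an edge, with respect to block `j` in the context `st` -/
noncomputable def edgeTy {L k m e K n : ℕ} (φ : Vtx L k m e ↪ Fin n)
    (st : Fin L → BState k m K) (j : Fin L) (x y : Fin n) : InTy (Fin k × Fin m) :=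
  if h : ∃ uv : (Fin k × Fin m) × (Fin k × Fin m), φ (Sum.inl (j, uv.1)) = x ∧
      φ (Sum.inl (j, uv.2)) = y then
    (if h.choose.1.1 ≠ h.choose.2.1 then InTy.pair h.choose.1 h.choose.2 else InTy.ff)
  else (if (blockGraph φ st).Adj x y then InTy.tt else InTy.ff)

theorem edgeTy_ne {L k m e K n : ℕ} (φ : Vtx L k m e ↪ Fin n)
    (st : Fin L → BState k m K) (j : Fin L) (x y : Fin n) (u v : Fin k × Fin m)
    (h : edgeTy φ st j x y = InTy.pair u v) : u ≠ v := by
  unfold edgeTy at h
  split_ifs at h with h1 h2 h3
  · rw [InTy.pair.injEq] at h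
    rintro rfl
    apply h2
    rw [h.1, h.2]

theorem adjV_update {L k m e K : ℕ} (st : Fin L → BState k m K) (j : Fin L) (b : BState k m K)
    (x y : Vtx L k m e) (h : ¬ ∃ u v, x = Sum.inl (j, u) ∧ y = Sum.inl (j, v)) :
    adjV (Function.update st j b) x y ↔ adjV st x y := by
  rcases x with ⟨i, u⟩ | a <;> rcases y with ⟨i', v⟩ | a'
  · simp only [adjV]
    by_cases hii : i = i'
    · subst hii
      by_cases hij : i = j
      · subst hij
        exact absurd ⟨u, v, rfl, rfl⟩ h
      · rw [Function.update_of_ne hij]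
    · simp [hii]
  · exact Iff.rfl
  · exact Iff.rfl
  · exact Iff.rfl

/-- the type of an edge describes its presence for every state of block `j` -/
theorem edgeTy_spec {L k m e K n : ℕ} (φ : Vtx L k m e ↪ Fin n)
    (st : Fin L → BState k m K) (j : Fin L) (x y : Fin n) (b : BState k m K)
    (val : InTy (Fin k × Fin m) → Prop) (htt : val InTy.tt) (hff : ¬ val InTy.ff)
    (hpair : ∀ u v, val (InTy.pair u v) ↔ b.rel u v) :
    val (edgeTy φ st j x y) ↔ (blockGraph φ (Function.update st j b)).Adj x y := by
  classical
  unfold edgeTy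
  by_cases h1 : ∃ uv : (Fin k × Fin m) × (Fin k × Fin m), φ (Sum.inl (j, uv.1)) = x ∧
      φ (Sum.inl (j, uv.2)) = y
  · rw [dif_pos h1]
    have hxy := h1.choose_spec
    set uv := h1.choose with huv
    have hadj : (blockGraph φ (Function.update st j b)).Adj x y ↔ (uv.1.1 ≠ uv.2.1 ∧
        b.rel uv.1 uv.2) := by
      rw [← hxy.1, ← hxy.2, blockGraph_adj]
      simp [adjV]
    rw [hadj]
    by_cases h2 : uv.1.1 ≠ uv.2.1
    · rw [if_pos h2, hpair]
      simp [h2]
    · rw [if_neg h2]
      constructor
      · intro h; exact absurd h hff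
      · intro h; exact absurd h.1 h2
  · rw [dif_neg h1]
    have hadj : (blockGraph φ (Function.update st j b)).Adj x y ↔ (blockGraph φ st).Adj x y := by
      constructor
      · rintro ⟨a, a', ha, ha', h⟩
        refine ⟨a, a', ha, ha', (adjV_update st j b a a' ?_).1 h⟩
        rintro ⟨u, v, rfl, rfl⟩
        exact h1 ⟨(u, v), ha, ha'⟩
      · rintro ⟨a, a', ha, ha', h⟩
        refine ⟨a, a', ha, ha', (adjV_update st j b a a' ?_).2 h⟩
        rintro ⟨u, v, rfl, rfl⟩
        exact h1 ⟨(u, v), ha, ha'⟩
    rw [hadj]
    by_cases h3 : (blockGraph φ st).Adj x y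
    · simp [h3, htt]
    · simp [h3, hff]

theorem edgeTy_pos {L k m e K n : ℕ} (φ : Vtx L k m e ↪ Fin n)
    (st : Fin L → BState k m K) (j : Fin L) (x y : Fin n) (p : Fin k → Fin m) :
    (edgeTy φ st j x y).pos p ↔
      (blockGraph φ (Function.update st j (BState.tr p))).Adj x y :=
  edgeTy_spec φ st j x y (BState.tr p) (fun τ => τ.pos p) trivial (fun h => h)
    (fun _ _ => Iff.rfl)

theorem edgeTy_neg {L k m e K n : ℕ} (φ : Vtx L k m e ↪ Fin n)
    (st : Fin L → BState k m K) (j : Fin L) (x y : Fin n) (c : Fin k × Fin m → Fin K) :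
    (edgeTy φ st j x y).neg c ↔
      (blockGraph φ (Function.update st j (BState.col c))).Adj x y :=
  edgeTy_spec φ st j x y (BState.col c) (fun τ => τ.neg c) trivial (fun h => h)
    (fun _ _ => Iff.rfl)

/-- monotonicity of block graphs -/
theorem blockGraph_mono {L k m e K n : ℕ} (φ : Vtx L k m e ↪ Fin n)
    (st st' : Fin L → BState k m K) (h : ∀ i u v, (st i).rel u v → (st' i).rel u v)
    (x y : Fin n) (hxy : (blockGraph φ st).Adj x y) : (blockGraph φ st').Adj x y := by
  obtain ⟨a, b, ha, hb, hab⟩ := hxy
  refine ⟨a, b, ha, hb, ?_⟩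
  rcases a with ⟨i, u⟩ | a <;> rcases b with ⟨i', v⟩ | a'
  · simp only [adjV] at hab ⊢
    rcases hab with h' | ⟨h1, h2⟩
    · exact Or.inl h'
    · exact Or.inr ⟨h1, h i u v h2⟩
  · trivial
  · trivial
  · exact hab

end Pool.Agent.CliqueCircuits
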