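import Pool.Agent.Lib.MP_0a1b52_lc.Packing

/-!
Cells: for every label there are many candidate edges inside a given set of edges, and the
candidates of different labels are vertex-disjoint (up to a common centre).
-/

namespace Pool.Agent.CliqueCircuits

open Finset

theorem card_fst_mem {α β : Type} [DecidableEq α] (E : Finset (α × β)) (A : Finset α) :
    (E.filter (fun q => q.1 ∈ A)).card = ∑ a ∈ A, (E.filter (fun q => q.1 = a)).card := by
  have h : Set.MapsTo Prod.fst (E.filter (fun q => q.1 ∈ A) : Set (α × β)) (A : Set α) :=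
    fun q hq => (mem_filter.1 hq).2
  rw [card_eq_sum_card_fiberwise h]
  refine sum_congr rfl fun a ha => ?_
  congr 1
  ext q
  simp only [mem_filter]
  constructor
  · rintro ⟨⟨h3, _⟩, h4⟩; exact ⟨h3, h4⟩
  · rintro ⟨h3, h4⟩; exact ⟨⟨h3, by rw [h4]; exact ha⟩, h4⟩

theorem card_snd_mem {α β : Type} [DecidableEq β] (E : Finset (α × β)) (B : Finset β) :
    (E.filter (fun q => q.2 ∈ B)).card = ∑ b ∈ B, (E.filter (fun q => q.2 = b)).card := by
  have h : Set.MapsTo Prod.snd (E.filter (fun q => q.2 ∈ B) : Set (α × β)) (B : Set β) :=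
    fun q hq => (mem_filter.1 hq).2
  rw [card_eq_sum_card_fiberwise h]
  refine sum_congr rfl fun a ha => ?_
  congr 1
  ext q
  simp only [mem_filter]
  constructor
  · rintro ⟨⟨h3, _⟩, h4⟩; exact ⟨h3, h4⟩
  · rintro ⟨h3, h4⟩; exact ⟨⟨h3, by rw [h4]; exact ha⟩, h4⟩

/-- Fair division: items `S` with small values are divided among the agents `I`. -/
theorem fair_division {α ι : Type} [DecidableEq α] [DecidableEq ι] (δ θ : ℕ) (I : Finset ι) :
    ∀ (S : Finset α) (f : ι → α → ℕ), (∀ i ∈ I, ∀ b ∈ S, f i b ≤ δ) →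
      (∀ i ∈ I, I.card * (θ + δ) ≤ ∑ b ∈ S, f i b) →
      ∃ part : ι → Finset α, (∀ i ∈ I, part i ⊆ S) ∧
        (∀ i ∈ I, ∀ j ∈ I, i ≠ j → Disjoint (part i) (part j)) ∧
        ∀ i ∈ I, θ ≤ ∑ b ∈ part i, f i b := by
  induction I using Finset.strongInduction with
  | H I ih =>
    intro S f hδ hsum
    rcases Nat.eq_zero_or_pos θ with hθ | hθ
    · subst hθ
      exact ⟨fun _ => ∅, by simp, by simp, by simp⟩
    rcases I.eq_empty_or_nonempty with hI | hI
    · subst hI
      exact ⟨fun _ => ∅, by simp, by simp, by simp⟩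
    have hIc : 1 ≤ I.card := card_pos.2 hI
    obtain ⟨i₁, hi₁⟩ := hI
    let PP := S.powerset.filter (fun P => ∃ i ∈ I, θ ≤ ∑ b ∈ P, f i b)
    have hne : PP.Nonempty := by
      refine ⟨S, mem_filter.2 ⟨mem_powerset_self S, i₁, hi₁, ?_⟩⟩
      calc θ ≤ 1 * (θ + δ) := by omega
        _ ≤ I.card * (θ + δ) := Nat.mul_le_mul_right _ hIc
        _ ≤ _ := hsum i₁ hi₁
    obtain ⟨P, hP, hmin⟩ := exists_min_image PP card hne
    obtain ⟨hPS, i₀, hi₀, hPi₀⟩ := mem_filter.1 hP
    rw [mem_powerset] at hPS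
    have hPne : P.Nonempty := by
      by_contra h
      rw [not_nonempty_iff_eq_empty] at h
      rw [h] at hPi₀
      simp at hPi₀
      omega
    have hupper : ∀ i ∈ I, ∑ b ∈ P, f i b ≤ θ + δ := by
      intro i hi
      obtain ⟨b, hb⟩ := hPne
      have h1 : P.erase b ∉ PP := by
        intro h
        have := hmin _ h
        rw [card_erase_of_mem hb] at this
        have := card_pos.2 ⟨b, hb⟩
        omega
      have h2 : ∑ b ∈ P.erase b, f i b < θ := by
        by_contra h
        push Not at h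
        exact h1 (mem_filter.2 ⟨mem_powerset.2 ((erase_subset _ _).trans hPS), i, hi, h⟩)
      rw [← add_sum_erase P (f i) hb]
      have := hδ i hi b (hPS hb)
      omega
    obtain ⟨part, h1, h2, h3⟩ := ih (I.erase i₀) (erase_ssubset hi₀) (S \ P) f
      (fun i hi b hb => hδ i (mem_of_mem_erase hi) b (sdiff_subset hb)) (by
        intro i hi
        have hi' := mem_of_mem_erase hi
        have e1 : ∑ b ∈ S \ P, f i b + ∑ b ∈ P, f i b = ∑ b ∈ S, f i b := sum_sdiff hPS
        have e2 := hupper i hi'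
        have e3 := hsum i hi'
        rw [card_erase_of_mem hi₀]
        have e4 : I.card * (θ + δ) = (I.card - 1) * (θ + δ) + (θ + δ) := by
          conv_lhs => rw [show I.card = (I.card - 1) + 1 by omega]
          ring
        omega)
    refine ⟨Function.update part i₀ P, ?_, ?_, ?_⟩
    · intro i hi
      by_cases h : i = i₀
      · subst h
        rw [Function.update_self]
        exact hPS
      · rw [Function.update_of_ne h]
        exact (h1 i (mem_erase.2 ⟨h, hi⟩)).trans sdiff_subset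
    · intro i hi j hj hij
      by_cases h : i = i₀
      · subst h
        rw [Function.update_self, Function.update_of_ne (fun h => hij h.symm)]
        exact disjoint_sdiff.mono_right (h1 j (mem_erase.2 ⟨fun h => hij h.symm, hj⟩))
      · rw [Function.update_of_ne h]
        by_cases h' : j = i₀
        · subst h'
          rw [Function.update_self]
          exact (disjoint_sdiff.mono_right (h1 i (mem_erase.2 ⟨h, hi⟩))).symm
        · rw [Function.update_of_ne h']
          exact h2 i (mem_erase.2 ⟨h, hi⟩) j (mem_erase.2 ⟨h', hj⟩) hij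
    · intro i hi
      by_cases h : i = i₀
      · subst h
        rw [Function.update_self]
        exact hPi₀
      · rw [Function.update_of_ne h]
        exact h3 i (mem_erase.2 ⟨h, hi⟩)

/-- orientation of a quarter of the edges, avoiding `e` reserved vertices -/
theorem pack_orient {n : ℕ} (H : Finset {p : Fin n × Fin n // p.1 < p.2}) (e : ℕ)
    (he : 4 * e ≤ n) :
    ∃ (U : Fin e → Fin n) (f : Fin n → Bool) (E : Finset (Fin n × Fin n)),
      Function.Injective U ∧ H.card ≤ 4 * E.card ∧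
      ∀ q ∈ E, f q.1 = true ∧ f q.2 = false ∧ HR H q.1 q.2 ∧ ∀ a, U a ≠ q.1 ∧ U a ≠ q.2 := by
  classical
  obtain ⟨U, H', hU, hH', hH'c, hUH'⟩ := pack_reserve H e he
  obtain ⟨f, hf⟩ := pack_cut H'
  set Hc := H'.filter fun p => f p.1.1 ≠ f p.1.2 with hHc
  let o : {p : Fin n × Fin n // p.1 < p.2} → Fin n × Fin n :=
    fun p => if f p.1.1 = true then (p.1.1, p.1.2) else (p.1.2, p.1.1)
  have ho : Set.InjOn o Hc := by
    intro p hp q hq hpq
    simp only [o] at hpq
    have lp := p.2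
    have lq := q.2
    apply Subtype.ext
    by_cases h1 : f p.1.1 = true <;> by_cases h2 : f q.1.1 = true
    · rw [if_pos h1, if_pos h2] at hpq
      exact Prod.ext (congrArg Prod.fst hpq) (congrArg Prod.snd hpq)
    · rw [if_pos h1, if_neg h2] at hpq
      have h3 := congrArg Prod.fst hpq
      have h4 := congrArg Prod.snd hpq
      simp only at h3 h4
      rw [h3, h4] at lp
      exact absurd lp (lt_asymm lq)
    · rw [if_neg h1, if_pos h2] at hpq
      have h3 := congrArg Prod.fst hpq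
      have h4 := congrArg Prod.snd hpq
      simp only at h3 h4
      rw [h3, h4] at lp
      exact absurd lp (lt_asymm lq)
    · rw [if_neg h1, if_neg h2] at hpq
      exact Prod.ext (congrArg Prod.snd hpq) (congrArg Prod.fst hpq)
  set E := Hc.image o with hE
  have hEc : E.card = Hc.card := card_image_of_injOn ho
  refine ⟨U, f, E, hU, by omega, ?_⟩
  intro q hq
  obtain ⟨p, hp, rfl⟩ := mem_image.1 hq
  obtain ⟨hp', hne⟩ := mem_filter.1 hp
  have hu := hUH' p hp'
  by_cases h1 : f p.1.1 = true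
  · simp only [o, if_pos h1]
    refine ⟨h1, ?_, ⟨p, hH' hp', Or.inl ⟨rfl, rfl⟩⟩, hu⟩
    rw [h1] at hne
    cases h2 : f p.1.2
    · rfl
    · rw [h2] at hne; exact absurd rfl hne
  · simp only [o, if_neg h1]
    refine ⟨?_, by simpa using h1, ⟨p, hH' hp', Or.inr ⟨rfl, rfl⟩⟩, fun a => (hu a).symm⟩
    cases h2 : f p.1.2
    · rw [h2] at hne
      exfalso
      apply hne
      simpa using h1
    · rfl

/-- a star with `h` candidate leaves for each label -/
def StarCells {n : ℕ} (H : Finset {p : Fin n × Fin n // p.1 < p.2}) (Λ : Type) (e h : ℕ) : Prop :=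
  ∃ (U : Fin e → Fin n) (v : Fin n) (w : Λ → Fin h → Fin n), Function.Injective U ∧
    (∀ ξ i ξ' i', w ξ i = w ξ' i' → ξ = ξ' ∧ i = i') ∧ (∀ ξ i, v ≠ w ξ i) ∧ (∀ a, U a ≠ v) ∧
    (∀ a ξ i, U a ≠ w ξ i) ∧ ∀ ξ i, HR H v (w ξ i)

/-- `h` candidate edges for each label, vertex-disjoint for different labels -/
def PairCells {n : ℕ} (H : Finset {p : Fin n × Fin n // p.1 < p.2}) (Λ : Type) (e h : ℕ) : Prop :=
  ∃ (U : Fin e → Fin n) (z w : Λ → Fin h → Fin n), Function.Injective U ∧
    (∀ ξ i ξ' i', z ξ i = z ξ' i' → ξ = ξ') ∧ (∀ ξ i ξ' i', w ξ i = w ξ' i' → ξ = ξ') ∧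
    (∀ ξ i ξ' i', z ξ i ≠ w ξ' i') ∧ (∀ a ξ i, U a ≠ z ξ i) ∧ (∀ a ξ i, U a ≠ w ξ i) ∧
    (∀ ξ i j, z ξ i = z ξ j → w ξ i = w ξ j → i = j) ∧ ∀ ξ i, HR H (z ξ i) (w ξ i)

theorem cells_star {n : ℕ} (H : Finset {p : Fin n × Fin n // p.1 < p.2}) (Λ : Type) [Fintype Λ]
    (e h : ℕ) (U : Fin e → Fin n) (hU : Function.Injective U) (v : Fin n) (N : Finset (Fin n))
    (hN : Fintype.card Λ * h ≤ N.card)
    (hv : ∀ b ∈ N, v ≠ b ∧ HR H v b ∧ ∀ a, U a ≠ v ∧ U a ≠ b) (hne : N.Nonempty) :
    StarCells H Λ e h := by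
  classical
  have hcard : Fintype.card (Λ × Fin h) ≤ Fintype.card N := by
    simpa using hN
  obtain ⟨g⟩ := Function.Embedding.nonempty_of_card_le hcard
  obtain ⟨b₀, hb₀⟩ := hne
  refine ⟨U, v, fun ξ i => (g (ξ, i)).1, hU, ?_, ?_, ?_, ?_, ?_⟩
  · intro ξ i ξ' i' h
    have := g.injective (Subtype.ext h)
    exact ⟨congrArg Prod.fst this, congrArg Prod.snd this⟩
  · exact fun ξ i => (hv _ (g (ξ, i)).2).1
  · exact fun a => ((hv b₀ hb₀).2.2 a).1
  · exact fun a ξ i => ((hv _ (g (ξ, i)).2).2.2 a).2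
  · exact fun ξ i => (hv _ (g (ξ, i)).2).2.1

theorem exists_cells {n : ℕ} (H : Finset {p : Fin n × Fin n // p.1 < p.2}) (Λ : Type)
    [Fintype Λ] (κ e h : ℕ) (hκ : Fintype.card Λ = κ) (hκ1 : 1 ≤ κ) (he : 4 * e ≤ n)
    (hh1 : 1 ≤ h) (hH : 12 * κ ^ 3 * h ≤ H.card) :
    StarCells H Λ e h ∨ PairCells H Λ e h := by
  classical
  obtain ⟨U, f, E, hU, hEc, hE⟩ := pack_orient H e he
  have hδpos : 1 ≤ κ * h := Nat.mul_pos hκ1 hh1
  by_cases hA : ∃ v, κ * h ≤ (E.filter (fun q => q.1 = v)).card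
  · left
    obtain ⟨v, hv⟩ := hA
    have himg : ((E.filter (fun q => q.1 = v)).image Prod.snd).card =
        (E.filter (fun q => q.1 = v)).card := by
      refine card_image_of_injOn ?_
      intro q hq q' hq' hqq
      simp only [coe_filter, Set.mem_ofPred_eq] at hq hq'
      exact Prod.ext (hq.2.trans hq'.2.symm) hqq
    refine cells_star H Λ e h U hU v ((E.filter (fun q => q.1 = v)).image Prod.snd)
      (by rw [himg, hκ]; exact hv) ?_ ?_
    · intro b hb
      obtain ⟨q, hq, rfl⟩ := mem_image.1 hb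
      obtain ⟨hqE, hqv⟩ := mem_filter.1 hq
      have h1 := hE q hqE
      rw [← hqv]
      refine ⟨h1.2.2.1.ne, h1.2.2.1, h1.2.2.2⟩
    · rw [← card_pos, himg]
      omega
  by_cases hB : ∃ v, κ * h ≤ (E.filter (fun q => q.2 = v)).card
  · left
    obtain ⟨v, hv⟩ := hB
    have himg : ((E.filter (fun q => q.2 = v)).image Prod.fst).card =
        (E.filter (fun q => q.2 = v)).card := by
      refine card_image_of_injOn ?_
      intro q hq q' hq' hqq
      simp only [coe_filter, Set.mem_ofPred_eq] at hq hq'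
      exact Prod.ext hqq (hq.2.trans hq'.2.symm)
    refine cells_star H Λ e h U hU v ((E.filter (fun q => q.2 = v)).image Prod.fst)
      (by rw [himg, hκ]; exact hv) ?_ ?_
    · intro b hb
      obtain ⟨q, hq, rfl⟩ := mem_image.1 hb
      obtain ⟨hqE, hqv⟩ := mem_filter.1 hq
      have h1 := hE q hqE
      rw [← hqv]
      exact ⟨h1.2.2.1.symm.ne, h1.2.2.1.symm, fun a => (h1.2.2.2 a).symm⟩
    · rw [← card_pos, himg]
      omega
  push Not at hA hB
  right
  -- first division
  obtain ⟨A, -, hAdisj, hAsum⟩ := fair_division (κ * h) (κ * (h + κ * h)) (univ : Finset Λ)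
    (univ : Finset (Fin n)) (fun _ a => (E.filter (fun q => q.1 = a)).card)
    (fun _ _ a _ => (hA a).le) (by
      intro _ _
      have h1 : ∑ a : Fin n, (E.filter (fun q => q.1 = a)).card = E.card :=
        (card_eq_sum_card_fiberwise (fun q _ => mem_univ q.1)).symm
      rw [h1, card_univ, hκ]
      have h2 : κ * (κ * (h + κ * h) + κ * h) ≤ 3 * κ ^ 3 * h := by
        have e1 : κ * (κ * (h + κ * h) + κ * h) = 2 * (κ ^ 2 * h) + κ ^ 3 * h := by ring
        have e2 : κ ^ 2 * h ≤ κ ^ 3 * h :=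
          Nat.mul_le_mul_right _ (Nat.pow_le_pow_right hκ1 (by norm_num))
        rw [e1]
        have e3 : 3 * κ ^ 3 * h = 3 * (κ ^ 3 * h) := by ring
        rw [e3]
        omega
      have h3 : 12 * κ ^ 3 * h = 4 * (3 * κ ^ 3 * h) := by ring
      omega)
  -- second division
  obtain ⟨B, -, hBdisj, hBsum⟩ := fair_division (κ * h) h (univ : Finset Λ)
    (univ : Finset (Fin n))
    (fun ξ b => ((E.filter (fun q => q.1 ∈ A ξ)).filter (fun q => q.2 = b)).card)
    (fun ξ _ b _ => by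
      refine le_trans (card_le_card ?_) (hB b).le
      intro q hq
      simp only [mem_filter] at hq ⊢
      exact ⟨hq.1.1, hq.2⟩) (by
      intro ξ _
      have h1 : ∑ b : Fin n, ((E.filter (fun q => q.1 ∈ A ξ)).filter (fun q => q.2 = b)).card =
          (E.filter (fun q => q.1 ∈ A ξ)).card :=
        (card_eq_sum_card_fiberwise (fun q _ => mem_univ q.2)).symm
      rw [h1, card_fst_mem, card_univ, hκ]
      exact hAsum ξ (mem_univ ξ))
  -- candidates
  have hcand : ∀ ξ : Λ, ∃ g : Fin h → Fin n × Fin n, Function.Injective g ∧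
      ∀ i, g i ∈ E ∧ (g i).1 ∈ A ξ ∧ (g i).2 ∈ B ξ := by
    intro ξ
    have h1 : h ≤ ((E.filter (fun q => q.1 ∈ A ξ)).filter (fun q => q.2 ∈ B ξ)).card := by
      rw [card_snd_mem]
      exact hBsum ξ (mem_univ ξ)
    set E' := (E.filter (fun q => q.1 ∈ A ξ)).filter (fun q => q.2 ∈ B ξ) with hE'
    obtain ⟨T, hT, hTc⟩ := exists_subset_card_eq h1
    refine ⟨fun i => (T.equivFinOfCardEq hTc).symm i, ?_, ?_⟩
    · intro i j hij
      exact (T.equivFinOfCardEq hTc).symm.injective (Subtype.ext hij)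
    · intro i
      have h2 := hT ((T.equivFinOfCardEq hTc).symm i).2
      rw [hE', mem_filter, mem_filter] at h2
      exact ⟨h2.1.1, h2.1.2, h2.2⟩
  choose g hginj hg using hcand
  refine ⟨U, fun ξ i => (g ξ i).1, fun ξ i => (g ξ i).2, hU, ?_, ?_, ?_, ?_, ?_, ?_, ?_⟩
  · intro ξ i ξ' i' h
    by_contra hne
    have h1 := hAdisj ξ (mem_univ _) ξ' (mem_univ _) hne
    rw [disjoint_left] at h1
    refine h1 (hg ξ i).2.1 ?_
    have h : (g ξ i).1 = (g ξ' i').1 := h
    rw [h]
    exact (hg ξ' i').2.1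
  · intro ξ i ξ' i' h
    by_contra hne
    have h1 := hBdisj ξ (mem_univ _) ξ' (mem_univ _) hne
    rw [disjoint_left] at h1
    refine h1 (hg ξ i).2.2 ?_
    have h : (g ξ i).2 = (g ξ' i').2 := h
    rw [h]
    exact (hg ξ' i').2.2
  · intro ξ i ξ' i' h
    have h1 := (hE _ (hg ξ i).1).1
    have h2 := (hE _ (hg ξ' i').1).2.1
    have h : (g ξ i).1 = (g ξ' i').2 := h
    rw [h, h2] at h1
    exact absurd h1 (by simp)
  · exact fun a ξ i => ((hE _ (hg ξ i).1).2.2.2 a).1
  · exact fun a ξ i => ((hE _ (hg ξ i).1).2.2.2 a).2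
  · intro ξ i j h1 h2
    exact hginj ξ (Prod.ext h1 h2)
  · exact fun ξ i => (hE _ (hg ξ i).1).2.2.1

end Pool.Agent.CliqueCircuits
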