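import Pool.Agent.Lib.MP_0a1b52_lc.Basic

/-!
Markov's argument: along a chain of more than `2 ^ r` inputs, a circuit with `r` NOT gates has
the same vector of NOT-gate values on two consecutive inputs.
-/

namespace Pool.Agent.CliqueCircuits

open Finset

variable {V : Type} {s : ℕ}

/-- If all NOT gates before gate `i` have the same value on `x` and `x'`, where `x ≤ x'`, then
every gate before `i` true on `x` is true on `x'`. -/
theorem Circuit.mono_before {C : Circuit V s} {x x' : V → Prop} {val val' : Fin s → Prop}
    (h : C.IsEvalM x val) (h' : C.IsEvalM x' val') (hx : ∀ v, x v → x' v) (i : Fin s)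
    (hi : ∀ j, j < i → C.kind j = GateKind.not → (val j ↔ val' j)) :
    ∀ j, j < i → val j → val' j := by
  have key : ∀ N : ℕ, ∀ j : Fin s, j.val = N → j < i → val j → val' j := by
    intro N
    induction N using Nat.strong_induction_on with
    | _ N ih =>
      intro j hj hji hv
      have hw : ∀ w ∈ C.wires j, Sum.elim x val w → Sum.elim x' val' w := by
        intro w hw hvw
        cases w with
        | inl v => exact hx v hvw
        | inr j' =>
          have hj' := C.acyclic j j' hw
          exact ih j'.val (by rw [← hj]; exact hj') j' rfl (hj'.trans hji) hvw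
      cases hk : C.kind j with
      | and =>
        have h1 := (h j).1 hv
        simp only [hk] at h1
        rw [h' j]
        simp only [hk]
        exact fun w hw' => hw w hw' (h1 w hw')
      | or =>
        have h1 := (h j).1 hv
        simp only [hk] at h1
        rw [h' j]
        simp only [hk]
        obtain ⟨w, hw', hvw⟩ := h1
        exact ⟨w, hw', hw w hw' hvw⟩
      | not => exact (hi j hji hk).1 hv
  exact fun j hj hv => key j.val j rfl hj hv

open Classical in
theorem markov {C : Circuit V s} {r : ℕ} (hr : C.numNot ≤ r) (x : ℕ → V → Prop)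
    (val : ℕ → Fin s → Prop) (hval : ∀ j, C.IsEvalM (x j) (val j))
    (hx : ∀ j v, x j v → x (j + 1) v) :
    ∃ j, j < 2 ^ r ∧ ∀ i, C.kind i = GateKind.not → (val j i ↔ val (j + 1) i) := by
  by_contra hcon
  push Not at hcon
  let β : ℕ → Lex (Fin s → Bool) := fun j =>
    toLex (fun i => decide (C.kind i = GateKind.not ∧ val j i))
  -- strict decrease at each step
  have hstep : ∀ j, j < 2 ^ r → β (j + 1) < β j := by
    intro j hj
    have hex : ∃ i, C.kind i = GateKind.not ∧ ¬ (val j i ↔ val (j + 1) i) := by
      obtain ⟨i, hi, hne⟩ := hcon j hj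
      refine ⟨i, hi, ?_⟩
      tauto
    -- the first such index
    obtain ⟨i, ⟨hik, hine⟩, hmin⟩ : ∃ i, (C.kind i = GateKind.not ∧ ¬ (val j i ↔ val (j + 1) i)) ∧
        ∀ i', i' < i → ¬ (C.kind i' = GateKind.not ∧ ¬ (val j i' ↔ val (j + 1) i')) := by
      obtain ⟨i, hi, hmin⟩ := WellFounded.has_min (wellFounded_lt (α := Fin s))
        {i | C.kind i = GateKind.not ∧ ¬ (val j i ↔ val (j + 1) i)} hex
      exact ⟨i, hi, fun i' hi' hi'' => hmin i' hi'' hi'⟩
    have hbefore : ∀ i', i' < i → C.kind i' = GateKind.not → (val j i' ↔ val (j + 1) i') := by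
      intro i' hi' hk
      by_contra hne
      exact hmin i' hi' ⟨hk, hne⟩
    have hmono := Circuit.mono_before (hval j) (hval (j + 1)) (hx j) i hbefore
    have hdec : val (j + 1) i → val j i := by
      intro hv
      have h1 := (hval (j + 1) i).1 hv
      rw [hval j i]
      simp only [hik] at h1 ⊢
      intro w hw hvw
      apply h1 w hw
      cases w with
      | inl v => exact hx j v hvw
      | inr j' => exact hmono j' (C.acyclic i j' hw) hvw
    have h1 : val j i := by tauto
    have h2 : ¬ val (j + 1) i := by tauto
    refine ⟨i, ?_, ?_⟩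
    · intro i' hi'
      by_cases hk : C.kind i' = GateKind.not
      · have := hbefore i' hi' hk
        simp only [β, Pi.toLex_apply, hk, true_and]
        by_cases hv : val j i'
        · simp [hv, this.1 hv]
        · have : ¬ val (j + 1) i' := fun h => hv (this.2 h)
          simp [hv, this]
      · simp [β, hk]
    · simp [β, hik, h1, h2]
  have hlt : ∀ d j, j + d + 1 ≤ 2 ^ r → β (j + d + 1) < β j := by
    intro d
    induction d with
    | zero =>
      intro j hj
      exact hstep j hj
    | succ d ih =>
      intro j hj
      have h1 := ih j (by omega)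
      have h2 := hstep (j + d + 1) (by omega)
      exact h2.trans h1
  have hinj : ∀ j j', j < j' → j' ≤ 2 ^ r → β j ≠ β j' := by
    intro j j' hjj hj'
    obtain ⟨d, rfl⟩ : ∃ d, j' = j + d + 1 := ⟨j' - j - 1, by omega⟩
    exact (hlt d j hj').ne'
  -- count
  let N : Finset (Fin s) := univ.filter (fun i => C.kind i = GateKind.not)
  have hN : N.card = C.numNot := by
    simp only [N, Circuit.numNot]
    rw [Nat.card_eq_fintype_card, Fintype.card_subtype]
  have hcard : (range (2 ^ r + 1)).card ≤ N.powerset.card := by
    refine card_le_card_of_injOn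
      (fun j => univ.filter (fun i => C.kind i = GateKind.not ∧ val j i)) ?_ ?_
    · intro j _
      simp only [coe_powerset, Set.mem_preimage, Set.mem_powerset_iff, coe_subset, N]
      intro i hi
      simp only [mem_filter, mem_univ, true_and] at hi ⊢
      exact hi.1
    · intro j hj j' hj' heq
      have hββ : β j = β j' := by
        simp only [β]
        congr 1
        funext i
        have : (i ∈ univ.filter (fun i => C.kind i = GateKind.not ∧ val j i)) ↔
            (i ∈ univ.filter (fun i => C.kind i = GateKind.not ∧ val j' i)) := by
          simp only at heq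
          rw [heq]
        simp only [mem_filter, mem_univ, true_and] at this
        exact decide_eq_decide.2 this
      simp only [coe_range, Set.mem_Iio] at hj hj'
      rcases lt_trichotomy j j' with h | h | h
      · exact absurd hββ (hinj j j' h (by omega))
      · exact h
      · exact absurd hββ.symm (hinj j' j h (by omega))
  rw [card_range, card_powerset, hN] at hcard
  have : 2 ^ C.numNot ≤ 2 ^ r := Nat.pow_le_pow_right (by norm_num) hr
  omega

/-- The finishing step: if the NOT gates have the same values `b` on `P ≤ P'`, and `N ≤ P'` is such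
that every input of a NOT gate, and the output, true on `P` is true on `N` (NOT gates frozen to
`b`), then the circuit accepts `N` if it accepts `P`. -/
theorem Circuit.finish {C : Circuit V s} {P P' N : V → Prop} {valP valP' valN : Fin s → Prop}
    (hP : C.IsEvalM P valP) (hP' : C.IsEvalM P' valP')
    (hb : ∀ i, C.kind i = GateKind.not → (valP i ↔ valP' i))
    (hN : C.IsFrozen valP N valN) (hNP : ∀ v, N v → P' v)
    (hgood : ∀ i, C.kind i = GateKind.not → ∀ w ∈ C.wires i,
      Sum.elim P valP w → Sum.elim N valN w) :
    C.IsEvalM N valN := by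
  have hP'f : C.IsFrozen valP P' valP' := hP'.isFrozen (fun i hi => hb i hi)
  have hmono := hN.mono hP'f hNP
  refine hN.isEval ?_
  intro i hi
  have h1 := hP i
  have h2 := hP' i
  simp only [hi] at h1 h2
  constructor
  · intro hv w hw hvw
    exact (h2.1 ((hb i hi).1 hv)) w hw (hmono w hvw)
  · intro hv
    rw [h1]
    intro w hw hvw
    exact hv w hw (hgood i hi w hw hvw)

end Pool.Agent.CliqueCircuits
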