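import Pool.Agent.Lib.MP_0a1b52_lc.Block
import Pool.Agent.Lib.MP_0a1b52_lc.Markov

/-!
The chain argument for circuits with few NOT gates.
-/

namespace Pool.Agent.CliqueCircuits

open Finset

theorem Circuit.IsFrozen.congr {V : Type} {s : ℕ} {C : Circuit V s} {b b' : Fin s → Prop}
    {x : V → Prop} {val : Fin s → Prop} (h : C.IsFrozen b x val)
    (hb : ∀ i, C.kind i = GateKind.not → (b i ↔ b' i)) : C.IsFrozen b' x val := by
  intro i
  rw [h i]
  cases hk : C.kind i with
  | and => simp only
  | or => simp only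
  | not => simp only; exact hb i hk

open Classical in
/-- the NOT gates -/
noncomputable def Circuit.nots {V : Type} {s : ℕ} (C : Circuit V s) : Finset (Fin s) :=
  univ.filter (fun i => C.kind i = GateKind.not)

theorem Circuit.card_nots {V : Type} {s : ℕ} (C : Circuit V s) : C.nots.card = C.numNot := by
  classical
  simp only [Circuit.nots, Circuit.numNot]
  rw [Nat.card_eq_fintype_card, Fintype.card_subtype]

/-- the nodes whose values matter -/
def Circuit.IsTarget {V : Type} {s : ℕ} (C : Circuit V s) (w : V ⊕ Fin s) : Prop :=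
  w = Sum.inr C.out ∨ ∃ i, C.kind i = GateKind.not ∧ w ∈ C.wires i

theorem Circuit.exists_targets {V : Type} {s : ℕ} (C : Circuit V s) :
    ∃ T : Finset (V ⊕ Fin s), T.card ≤ C.numNot + 1 ∧ ∀ w, C.IsTarget w → w ∈ T := by
  classical
  refine ⟨insert (Sum.inr C.out) (C.nots.biUnion C.wires), ?_, ?_⟩
  · refine (card_insert_le _ _).trans ?_
    have := card_biUnion_le_card_mul C.nots C.wires 1 (by
      intro i hi
      simp only [Circuit.nots, mem_filter, mem_univ, true_and] at hi
      exact (C.unary i hi).le)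
    rw [C.card_nots] at this
    omega
  · rintro w (rfl | ⟨i, hi, hw⟩)
    · exact mem_insert_self _ _
    · refine mem_insert_of_mem (mem_biUnion.2 ⟨i, ?_, hw⟩)
      simp only [Circuit.nots, mem_filter, mem_univ, true_and]
      exact hi

/-- the input assignment of a block graph -/
def asg {L k m e K n : ℕ} (φ : Vtx L k m e ↪ Fin n) (st : Fin L → BState k m K) :
    {p : Fin n × Fin n // p.1 < p.2} → Prop :=
  fun e => (blockGraph φ st).Adj e.1.1 e.1.2

/-- the choice of good tests for one block -/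
theorem choose_step {n s L k m e K : ℕ} (C : Circuit {p : Fin n × Fin n // p.1 < p.2} s)
    (φ : Vtx L k m e ↪ Fin n) (r : ℕ) (hr : C.numNot ≤ r) (q l : ℕ) (hq : 1 ≤ q) (hl : 2 ≤ l)
    (h1 : 2 ^ r * (s * (l * l) ^ (q + 1)) < K ^ (q + 1))
    (h2 : 2 * (2 ^ r * (s * q ^ (l + 1))) ≤ m ^ (l + 1))
    (h3 : 2 * (2 ^ r * ((r + 1) * q ^ 2)) < m ^ 2)
    (st : Fin L → BState k m K) (j : Fin L) :
    ∃ (p : Fin k → Fin m) (c : Fin k × Fin m → Fin K), ∀ (b valP valN : Fin s → Prop),
      C.IsFrozen b (asg φ (Function.update st j (BState.tr p))) valP →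
      C.IsFrozen b (asg φ (Function.update st j (BState.col c))) valN →
      ∀ w, C.IsTarget w →
        Sum.elim (asg φ (Function.update st j (BState.tr p))) valP w →
        Sum.elim (asg φ (Function.update st j (BState.col c))) valN w := by
  classical
  obtain ⟨T, hTc, hT⟩ := C.exists_targets
  let τ : {p : Fin n × Fin n // p.1 < p.2} → InTy (Fin k × Fin m) :=
    fun e => edgeTy φ st j e.1.1 e.1.2
  have hτ : ∀ v u u', τ v = InTy.pair u u' → u ≠ u' :=
    fun v u u' h => edgeTy_ne φ st j _ _ u u' h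
  have happ := fun B : Finset (Fin s) => approx_main C (fun i => i ∈ B) τ hτ K q l hq hl
  choose BadP BadN hPc hNc hdich using happ
  have hdich' : ∀ (B : Finset (Fin s)) (w : {p : Fin n × Fin n // p.1 < p.2} ⊕ Fin s),
      ∃ I : Finset (Finset (Fin k × Fin m)), I.card ≤ q ^ 2 ∧ (∀ y ∈ I, y.card = 2) ∧
        ((∀ c ∉ BadN B, ∀ val, C.IsFrozen (fun i => i ∈ B) (fun v => (τ v).neg c) val →
          Sum.elim (fun v => (τ v).neg c) val w) ∨
          ∀ p ∉ BadP B, ∀ val, C.IsFrozen (fun i => i ∈ B) (fun v => (τ v).pos p) val →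
            Sum.elim (fun v => (τ v).pos p) val w → ∃ y ∈ I, y ⊆ trans p) := by
    intro B w
    rcases hdich B w with h | ⟨I, hI, hI2, h⟩
    · exact ⟨∅, by simp, by simp, Or.inl h⟩
    · exact ⟨I, hI, hI2, Or.inr h⟩
  choose I hIc hI2 hI using hdich'
  have hpow : C.nots.powerset.card ≤ 2 ^ r := by
    rw [card_powerset, C.card_nots]
    exact Nat.pow_le_pow_right (by norm_num) hr
  -- choose the colouring
  have hc : ∃ c : Fin k × Fin m → Fin K, c ∉ C.nots.powerset.biUnion BadN := by
    by_contra hcon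
    push Not at hcon
    have huniv : (univ : Finset (Fin k × Fin m → Fin K)) ⊆ C.nots.powerset.biUnion BadN :=
      fun c _ => hcon c
    have hcard := card_le_card huniv
    rw [card_univ, Fintype.card_fun, Fintype.card_fin, Fintype.card_prod, Fintype.card_fin,
      Fintype.card_fin] at hcard
    have hle : (C.nots.powerset.biUnion BadN).card * K ^ (q + 1) ≤
        2 ^ r * (s * (l * l) ^ (q + 1)) * K ^ (k * m) := by
      calc (C.nots.powerset.biUnion BadN).card * K ^ (q + 1)
          ≤ (∑ B ∈ C.nots.powerset, (BadN B).card) * K ^ (q + 1) :=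
            Nat.mul_le_mul_right _ card_biUnion_le
        _ = ∑ B ∈ C.nots.powerset, (BadN B).card * K ^ (q + 1) := by rw [sum_mul]
        _ ≤ ∑ B ∈ C.nots.powerset, s * ((l * l) ^ (q + 1) * K ^ (k * m)) :=
            sum_le_sum fun B _ => hNc B
        _ = C.nots.powerset.card * (s * ((l * l) ^ (q + 1) * K ^ (k * m))) := by
            rw [sum_const, smul_eq_mul]
        _ ≤ 2 ^ r * (s * ((l * l) ^ (q + 1) * K ^ (k * m))) := Nat.mul_le_mul_right _ hpow
        _ = 2 ^ r * (s * (l * l) ^ (q + 1)) * K ^ (k * m) := by ring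
    have hKpos : 0 < K := by
      rcases Nat.eq_zero_or_pos K with h | h
      · subst h
        rw [zero_pow (Nat.succ_ne_zero q)] at h1
        exact absurd h1 (Nat.not_lt_zero _)
      · exact h
    have hlt : 2 ^ r * (s * (l * l) ^ (q + 1)) * K ^ (k * m) < K ^ (q + 1) * K ^ (k * m) :=
      Nat.mul_lt_mul_of_pos_right h1 (pow_pos hKpos _)
    have := (Nat.mul_le_mul_right (K ^ (q + 1)) hcard).trans hle
    have h5 := this.trans_lt hlt
    rw [Nat.mul_comm] at h5
    exact absurd h5 (lt_irrefl _)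
  -- choose the transversal
  have hp : ∃ p : Fin k → Fin m, p ∉ C.nots.powerset.biUnion BadP ∧
      ∀ B ∈ C.nots.powerset, ∀ w ∈ T, ∀ y ∈ I B w, ¬ y ⊆ trans p := by
    by_contra hcon
    push Not at hcon
    let H : Finset (Fin k → Fin m) := (C.nots.powerset ×ˢ T).biUnion
      (fun Bw => (I Bw.1 Bw.2).biUnion (fun y => univ.filter (fun p => y ⊆ trans p)))
    have huniv : (univ : Finset (Fin k → Fin m)) ⊆ C.nots.powerset.biUnion BadP ∪ H := by
      intro p _
      rw [mem_union]
      by_cases hpB : p ∈ C.nots.powerset.biUnion BadP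
      · exact Or.inl hpB
      · right
        obtain ⟨B, hB, w, hw, v, hv, hpv⟩ := hcon p hpB
        simp only [H, mem_biUnion, mem_product, mem_filter, mem_univ, true_and]
        exact ⟨(B, w), ⟨hB, hw⟩, v, hv, hpv⟩
    have hcard := (card_le_card huniv).trans (card_union_le _ _)
    rw [card_univ, Fintype.card_fun, Fintype.card_fin, Fintype.card_fin] at hcard
    have hmpos : 0 < m := by
      rcases Nat.eq_zero_or_pos m with h | h
      · subst h
        simp at h3
      · exact h
    have hX : (C.nots.powerset.biUnion BadP).card * m ^ (l + 1) ≤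
        2 ^ r * (s * q ^ (l + 1)) * m ^ k := by
      calc (C.nots.powerset.biUnion BadP).card * m ^ (l + 1)
          ≤ (∑ B ∈ C.nots.powerset, (BadP B).card) * m ^ (l + 1) :=
            Nat.mul_le_mul_right _ card_biUnion_le
        _ = ∑ B ∈ C.nots.powerset, (BadP B).card * m ^ (l + 1) := by rw [sum_mul]
        _ ≤ ∑ B ∈ C.nots.powerset, s * (q ^ (l + 1) * m ^ k) :=
            sum_le_sum fun B _ => hPc B
        _ = C.nots.powerset.card * (s * (q ^ (l + 1) * m ^ k)) := by
            rw [sum_const, smul_eq_mul]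
        _ ≤ 2 ^ r * (s * (q ^ (l + 1) * m ^ k)) := Nat.mul_le_mul_right _ hpow
        _ = 2 ^ r * (s * q ^ (l + 1)) * m ^ k := by ring
    have hY : H.card * m ^ 2 ≤ 2 ^ r * ((r + 1) * q ^ 2) * m ^ k := by
      calc H.card * m ^ 2 ≤ (∑ Bw ∈ C.nots.powerset ×ˢ T, ((I Bw.1 Bw.2).biUnion
            (fun y => univ.filter (fun p : Fin k → Fin m => y ⊆ trans p))).card) * m ^ 2 :=
            Nat.mul_le_mul_right _ card_biUnion_le
        _ = ∑ Bw ∈ C.nots.powerset ×ˢ T, ((I Bw.1 Bw.2).biUnion
            (fun y => univ.filter (fun p : Fin k → Fin m => y ⊆ trans p))).card * m ^ 2 := by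
            rw [sum_mul]
        _ ≤ ∑ Bw ∈ C.nots.powerset ×ˢ T, q ^ 2 * m ^ k := by
            refine sum_le_sum fun Bw _ => ?_
            calc _ ≤ (∑ y ∈ I Bw.1 Bw.2,
                  (univ.filter (fun p : Fin k → Fin m => y ⊆ trans p)).card) * m ^ 2 :=
                  Nat.mul_le_mul_right _ card_biUnion_le
              _ = ∑ y ∈ I Bw.1 Bw.2,
                  (univ.filter (fun p : Fin k → Fin m => y ⊆ trans p)).card * m ^ 2 := by
                  rw [sum_mul]
              _ ≤ ∑ y ∈ I Bw.1 Bw.2, m ^ k := sum_le_sum fun y hy => by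
                  have := trans_card_le y
                  rwa [hI2 _ _ y hy] at this
              _ = (I Bw.1 Bw.2).card * m ^ k := by rw [sum_const, smul_eq_mul]
              _ ≤ q ^ 2 * m ^ k := Nat.mul_le_mul_right _ (hIc _ _)
        _ = (C.nots.powerset.card * T.card) * (q ^ 2 * m ^ k) := by
            rw [sum_const, smul_eq_mul, card_product]
        _ ≤ (2 ^ r * (r + 1)) * (q ^ 2 * m ^ k) :=
            Nat.mul_le_mul_right _ (Nat.mul_le_mul hpow (hTc.trans (by omega)))
        _ = 2 ^ r * ((r + 1) * q ^ 2) * m ^ k := by ring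
    have hX' : 2 * (C.nots.powerset.biUnion BadP).card ≤ m ^ k := by
      have hpos : 0 < m ^ (l + 1) := pow_pos hmpos _
      refine Nat.le_of_mul_le_mul_right ?_ hpos
      calc 2 * (C.nots.powerset.biUnion BadP).card * m ^ (l + 1)
          = 2 * ((C.nots.powerset.biUnion BadP).card * m ^ (l + 1)) := by ring
        _ ≤ 2 * (2 ^ r * (s * q ^ (l + 1)) * m ^ k) := Nat.mul_le_mul_left _ hX
        _ = 2 * (2 ^ r * (s * q ^ (l + 1))) * m ^ k := by ring
        _ ≤ m ^ (l + 1) * m ^ k := Nat.mul_le_mul_right _ h2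
        _ = m ^ k * m ^ (l + 1) := by ring
    have hY' : 2 * H.card < m ^ k := by
      refine Nat.lt_of_mul_lt_mul_right (a := m ^ 2) ?_
      calc 2 * H.card * m ^ 2 = 2 * (H.card * m ^ 2) := by ring
        _ ≤ 2 * (2 ^ r * ((r + 1) * q ^ 2) * m ^ k) := Nat.mul_le_mul_left _ hY
        _ = 2 * (2 ^ r * ((r + 1) * q ^ 2)) * m ^ k := by ring
        _ < m ^ 2 * m ^ k := Nat.mul_lt_mul_of_pos_right h3 (pow_pos hmpos _)
        _ = m ^ k * m ^ 2 := by ring
    omega
  obtain ⟨c, hc⟩ := hc
  obtain ⟨p, hpB, hpI⟩ := hp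
  refine ⟨p, c, ?_⟩
  intro b valP valN hvP hvN w hw hvw
  -- replace b by a subset of the NOT gates
  let B : Finset (Fin s) := C.nots.filter (fun i => b i)
  have hB : B ∈ C.nots.powerset := mem_powerset.2 (filter_subset _ _)
  have hbB : ∀ i, C.kind i = GateKind.not → (b i ↔ i ∈ B) := by
    intro i hi
    simp only [B, mem_filter, Circuit.nots, mem_univ, true_and, hi]
  have hxP : (fun v => (τ v).pos p) = asg φ (Function.update st j (BState.tr p)) := by
    funext v
    exact propext (edgeTy_pos φ st j _ _ p)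
  have hxN : (fun v => (τ v).neg c) = asg φ (Function.update st j (BState.col c)) := by
    funext v
    exact propext (edgeTy_neg φ st j _ _ c)
  have hvP' := hvP.congr hbB
  have hvN' := hvN.congr hbB
  have hcB : c ∉ BadN B := fun h => hc (mem_biUnion.2 ⟨B, hB, h⟩)
  have hpBB : p ∉ BadP B := fun h => hpB (mem_biUnion.2 ⟨B, hB, h⟩)
  rcases hI B w with h | h
  · have := h c hcB valN (by rw [hxN]; exact hvN')
    rwa [hxN] at this
  · exfalso
    obtain ⟨v, hv, hpv⟩ := h p hpBB valP (by rw [hxP]; exact hvP') (by rw [hxP]; exact hvw)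
    exact hpI B hB w (hT w hw) v hv hpv

end Pool.Agent.CliqueCircuits
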