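import Pool.Agent.Lib.MP_0a1b52_lc.Finite

/-!
An abstract form of the chain argument: the NOT gates outside a set `R` have the same value on all
inputs considered, and only the NOT gates in `R` are counted.
-/

namespace Pool.Agent.CliqueCircuits

open Finset

variable {V : Type} {s : ℕ}

open Classical in
/-- Markov's argument, counting only the NOT gates in `R`. -/
theorem markov' {C : Circuit V s} {ρ : ℕ} (R : Finset (Fin s)) (hR : R.card ≤ ρ)
    (x : ℕ → V → Prop) (val : ℕ → Fin s → Prop) (hval : ∀ j, C.IsEvalM (x j) (val j))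
    (hx : ∀ j v, x j v → x (j + 1) v)
    (hconst : ∀ i, C.kind i = GateKind.not → i ∉ R → ∀ j, (val j i ↔ val (j + 1) i)) :
    ∃ j, j < 2 ^ ρ ∧ ∀ i, C.kind i = GateKind.not → (val j i ↔ val (j + 1) i) := by
  by_contra hcon
  push Not at hcon
  let β : ℕ → Lex (Fin s → Bool) := fun j =>
    toLex (fun i => decide (i ∈ R ∧ C.kind i = GateKind.not ∧ val j i))
  have hstep : ∀ j, j < 2 ^ ρ → β (j + 1) < β j := by
    intro j hj
    have hex : ∃ i, C.kind i = GateKind.not ∧ ¬ (val j i ↔ val (j + 1) i) := by
      obtain ⟨i, hi, hne⟩ := hcon j hj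
      refine ⟨i, hi, ?_⟩
      tauto
    obtain ⟨i, ⟨hik, hine⟩, hmin⟩ : ∃ i, (C.kind i = GateKind.not ∧ ¬ (val j i ↔ val (j + 1) i)) ∧
        ∀ i', i' < i → ¬ (C.kind i' = GateKind.not ∧ ¬ (val j i' ↔ val (j + 1) i')) := by
      obtain ⟨i, hi, hmin⟩ := WellFounded.has_min (wellFounded_lt (α := Fin s))
        {i | C.kind i = GateKind.not ∧ ¬ (val j i ↔ val (j + 1) i)} hex
      exact ⟨i, hi, fun i' hi' hi'' => hmin i' hi'' hi'⟩
    have hiR : i ∈ R := by
      by_contra h
      exact hine (hconst i hik h j)
    have hbefore : ∀ i', i' < i → C.kind i' = GateKind.not → (val j i' ↔ val (j + 1) i') := by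
      intro i' hi' hk
      by_contra hne
      exact hmin i' hi' ⟨hk, hne⟩
    have hmono := Circuit.mono_before (hval j) (hval (j + 1)) (hx j) i hbefore
    have hdec : val (j + 1) i → val j i := by
      intro hv
      have h1 := (hval (j + 1) i).1 hv
      rw [hval j i]
      simp only [hik] at h1 ⊢
      intro w hw hvw
      apply h1 w hw
      cases w with
      | inl v => exact hx j v hvw
      | inr j' => exact hmono j' (C.acyclic i j' hw) hvw
    have h1 : val j i := by tauto
    have h2 : ¬ val (j + 1) i := by tauto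
    refine ⟨i, ?_, ?_⟩
    · intro i' hi'
      by_cases hk : C.kind i' = GateKind.not
      · have := hbefore i' hi' hk
        simp only [β, Pi.toLex_apply, hk, true_and]
        by_cases hv : val j i'
        · simp [hv, this.1 hv]
        · have : ¬ val (j + 1) i' := fun h => hv (this.2 h)
          simp [hv, this]
      · simp [β, hk]
    · simp [β, hik, hiR, h1, h2]
  have hlt : ∀ d j, j + d + 1 ≤ 2 ^ ρ → β (j + d + 1) < β j := by
    intro d
    induction d with
    | zero =>
      intro j hj
      exact hstep j hj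
    | succ d ih =>
      intro j hj
      have h1 := ih j (by omega)
      have h2 := hstep (j + d + 1) (by omega)
      exact h2.trans h1
  have hinj : ∀ j j', j < j' → j' ≤ 2 ^ ρ → β j ≠ β j' := by
    intro j j' hjj hj'
    obtain ⟨d, rfl⟩ : ∃ d, j' = j + d + 1 := ⟨j' - j - 1, by omega⟩
    exact (hlt d j hj').ne'
  have hcard : (range (2 ^ ρ + 1)).card ≤ R.powerset.card := by
    refine card_le_card_of_injOn
      (fun j => R.filter (fun i => C.kind i = GateKind.not ∧ val j i)) ?_ ?_
    · intro j _
      simp only [coe_powerset, Set.mem_preimage, Set.mem_powerset_iff, coe_subset]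
      exact filter_subset _ _
    · intro j hj j' hj' heq
      have hββ : β j = β j' := by
        simp only [β]
        congr 1
        funext i
        have : (i ∈ R.filter (fun i => C.kind i = GateKind.not ∧ val j i)) ↔
            (i ∈ R.filter (fun i => C.kind i = GateKind.not ∧ val j' i)) := by
          simp only at heq
          rw [heq]
        simp only [mem_filter] at this
        exact decide_eq_decide.2 this
      simp only [coe_range, Set.mem_Iio] at hj hj'
      rcases lt_trichotomy j j' with h | h | h
      · exact absurd hββ (hinj j j' h (by omega))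
      · exact h
      · exact absurd hββ.symm (hinj j' j h (by omega))
  rw [card_range, card_powerset] at hcard
  have : 2 ^ R.card ≤ 2 ^ ρ := Nat.pow_le_pow_right (by norm_num) hR
  omega

/-- the nodes whose values matter -/
def Circuit.IsTgt (C : Circuit V s) (R : Finset (Fin s)) (w : V ⊕ Fin s) : Prop :=
  w = Sum.inr C.out ∨ ∃ i ∈ R, C.kind i = GateKind.not ∧ w ∈ C.wires i

theorem Circuit.exists_tgts (C : Circuit V s) (R : Finset (Fin s)) :
    ∃ T : Finset (V ⊕ Fin s), T.card ≤ R.card + 1 ∧ ∀ w, C.IsTgt R w → w ∈ T := by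
  classical
  refine ⟨insert (Sum.inr C.out) ((R.filter (fun i => C.kind i = GateKind.not)).biUnion C.wires),
    ?_, ?_⟩
  · refine (card_insert_le _ _).trans ?_
    have := card_biUnion_le_card_mul (R.filter (fun i => C.kind i = GateKind.not)) C.wires 1 (by
      intro i hi
      simp only [mem_filter] at hi
      exact (C.unary i hi.2).le)
    have h2 := card_filter_le R (fun i => C.kind i = GateKind.not)
    omega
  · rintro w (rfl | ⟨i, hi, hk, hw⟩)
    · exact mem_insert_self _ _
    · refine mem_insert_of_mem (mem_biUnion.2 ⟨i, ?_, hw⟩)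
      simp only [mem_filter]
      exact ⟨hi, hk⟩

/-- A frozen evaluation on `N` agrees with the true one, if the inputs of the NOT gates of `R` are
squeezed, and the NOT gates outside `R` have the right frozen values. -/
theorem Circuit.finish' {C : Circuit V s} (R : Finset (Fin s)) {P P' N : V → Prop}
    {valP valP' valN valN' : Fin s → Prop}
    (hP : C.IsEvalM P valP) (hP' : C.IsEvalM P' valP')
    (hb : ∀ i, C.kind i = GateKind.not → (valP i ↔ valP' i))
    (hN : C.IsFrozen valP' N valN) (hNP : ∀ v, N v → P' v) (hN' : C.IsEvalM N valN')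
    (hconst : ∀ i, C.kind i = GateKind.not → i ∉ R → (valN' i ↔ valP' i))
    (hgood : ∀ i ∈ R, C.kind i = GateKind.not → ∀ w ∈ C.wires i,
      Sum.elim P valP w → Sum.elim N valN w) :
    ∀ i, valN i ↔ valN' i := by
  have hP'f : C.IsFrozen valP' P' valP' := hP'.isFrozen (fun i _ => Iff.rfl)
  have hmono := hN.mono hP'f hNP
  have key : ∀ M : ℕ, ∀ i : Fin s, i.val = M → (valN i ↔ valN' i) := by
    intro M
    induction M using Nat.strong_induction_on with
    | _ M ih =>
      intro i hi
      have hw : ∀ w ∈ C.wires i, (Sum.elim N valN w ↔ Sum.elim N valN' w) := by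
        intro w hw
        cases w with
        | inl v => exact Iff.rfl
        | inr j =>
          have hj := C.acyclic i j hw
          exact ih j.val (by rw [← hi]; exact hj) j rfl
      have e1 := hN i
      have e2 := hN' i
      cases hk : C.kind i with
      | and =>
        simp only [hk] at e1 e2
        rw [e1, e2]
        exact forall₂_congr hw
      | or =>
        simp only [hk] at e1 e2
        rw [e1, e2]
        constructor
        · rintro ⟨w, hw', hv⟩
          exact ⟨w, hw', (hw w hw').1 hv⟩
        · rintro ⟨w, hw', hv⟩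
          exact ⟨w, hw', (hw w hw').2 hv⟩
      | not =>
        simp only [hk] at e1
        rw [e1]
        by_cases hiR : i ∈ R
        · simp only [hk] at e2
          rw [e2]
          have h1 := hP i
          have h2 := hP' i
          simp only [hk] at h1 h2
          constructor
          · intro hv w hw' hvw
            exact h2.1 hv w hw' (hmono w ((hw w hw').2 hvw))
          · intro hv
            rw [← hb i hk, h1]
            intro w hw' hvw
            exact hv w hw' ((hw w hw').1 (hgood i hiR hk w hw' hvw))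
        · exact (hconst i hk hiR).symm
  exact fun i => key i.val i rfl

/-- A family of inputs indexed by the states of `L` blocks. -/
structure BlockFamily (V : Type) (L k m K : ℕ) where
  asg : (Fin L → BState k m K) → V → Prop
  mono : ∀ st st' : Fin L → BState k m K, (∀ i u v, (st i).rel u v → (st' i).rel u v) →
    ∀ v, asg st v → asg st' v
  loc : ∀ (st : Fin L → BState k m K) (j : Fin L), ∃ τ : V → InTy (Fin k × Fin m),
    (∀ v u u', τ v = InTy.pair u u' → u ≠ u') ∧
    (∀ p v, (τ v).pos p ↔ asg (Function.update st j (BState.tr p)) v) ∧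
    (∀ c v, (τ v).neg c ↔ asg (Function.update st j (BState.col c)) v)

/-- the choice of good tests for one block, for given frozen values of the NOT gates -/
theorem choose_step' {L k m K : ℕ} (C : Circuit V s) (F : BlockFamily V L k m K)
    (ρ : ℕ) (R : Finset (Fin s)) (hR : R.card ≤ ρ) (q l : ℕ) (hq : 1 ≤ q) (hl : 2 ≤ l)
    (h1 : s * (l * l) ^ (q + 1) < K ^ (q + 1))
    (h2 : 2 * (s * q ^ (l + 1)) ≤ m ^ (l + 1))
    (h3 : 2 * ((ρ + 1) * q ^ 2) < m ^ 2)
    (st : Fin L → BState k m K) (j : Fin L) (b : Fin s → Prop) :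
    ∃ (p : Fin k → Fin m) (c : Fin k × Fin m → Fin K), ∀ (valP valN : Fin s → Prop),
      C.IsFrozen b (F.asg (Function.update st j (BState.tr p))) valP →
      C.IsFrozen b (F.asg (Function.update st j (BState.col c))) valN →
      ∀ w, C.IsTgt R w →
        Sum.elim (F.asg (Function.update st j (BState.tr p))) valP w →
        Sum.elim (F.asg (Function.update st j (BState.col c))) valN w := by
  classical
  obtain ⟨T, hTc, hT⟩ := C.exists_tgts R
  obtain ⟨τ, hτ, hτP, hτN⟩ := F.loc st j
  obtain ⟨BadP, BadN, hPc, hNc, hdich⟩ := approx_main C b τ hτ K q l hq hl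
  have hdich' : ∀ (w : V ⊕ Fin s),
      ∃ I : Finset (Finset (Fin k × Fin m)), I.card ≤ q ^ 2 ∧ (∀ y ∈ I, y.card = 2) ∧
        ((∀ c ∉ BadN, ∀ val, C.IsFrozen b (fun v => (τ v).neg c) val →
          Sum.elim (fun v => (τ v).neg c) val w) ∨
          ∀ p ∉ BadP, ∀ val, C.IsFrozen b (fun v => (τ v).pos p) val →
            Sum.elim (fun v => (τ v).pos p) val w → ∃ y ∈ I, y ⊆ trans p) := by
    intro w
    rcases hdich w with h | ⟨I, hI, hI2, h⟩
    · exact ⟨∅, by simp, by simp, Or.inl h⟩
    · exact ⟨I, hI, hI2, Or.inr h⟩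
  choose I hIc hI2 hI using hdich'
  -- choose the colouring
  have hc : ∃ c : Fin k × Fin m → Fin K, c ∉ BadN := by
    by_contra hcon
    push Not at hcon
    have huniv : (univ : Finset (Fin k × Fin m → Fin K)) ⊆ BadN := fun c _ => hcon c
    have hcard := card_le_card huniv
    rw [card_univ, Fintype.card_fun, Fintype.card_fin, Fintype.card_prod, Fintype.card_fin,
      Fintype.card_fin] at hcard
    have hKpos : 0 < K := by
      rcases Nat.eq_zero_or_pos K with h | h
      · subst h
        rw [zero_pow (Nat.succ_ne_zero q)] at h1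
        exact absurd h1 (Nat.not_lt_zero _)
      · exact h
    have hlt : s * (l * l) ^ (q + 1) * K ^ (k * m) < K ^ (q + 1) * K ^ (k * m) :=
      Nat.mul_lt_mul_of_pos_right h1 (pow_pos hKpos _)
    have := (Nat.mul_le_mul_right (K ^ (q + 1)) hcard).trans hNc
    rw [← mul_assoc] at this
    have h5 := this.trans_lt hlt
    rw [Nat.mul_comm] at h5
    exact absurd h5 (lt_irrefl _)
  -- choose the transversal
  have hp : ∃ p : Fin k → Fin m, p ∉ BadP ∧ ∀ w ∈ T, ∀ y ∈ I w, ¬ y ⊆ trans p := by
    by_contra hcon
    push Not at hcon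
    let H : Finset (Fin k → Fin m) := T.biUnion
      (fun w => (I w).biUnion (fun y => univ.filter (fun p => y ⊆ trans p)))
    have huniv : (univ : Finset (Fin k → Fin m)) ⊆ BadP ∪ H := by
      intro p _
      rw [mem_union]
      by_cases hpB : p ∈ BadP
      · exact Or.inl hpB
      · right
        obtain ⟨w, hw, v, hv, hpv⟩ := hcon p hpB
        simp only [H, mem_biUnion, mem_filter, mem_univ, true_and]
        exact ⟨w, hw, v, hv, hpv⟩
    have hcard := (card_le_card huniv).trans (card_union_le _ _)
    rw [card_univ, Fintype.card_fun, Fintype.card_fin, Fintype.card_fin] at hcard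
    have hmpos : 0 < m := by
      rcases Nat.eq_zero_or_pos m with h | h
      · subst h
        simp at h3
      · exact h
    have hY : H.card * m ^ 2 ≤ (ρ + 1) * q ^ 2 * m ^ k := by
      calc H.card * m ^ 2 ≤ (∑ w ∈ T, ((I w).biUnion
            (fun y => univ.filter (fun p : Fin k → Fin m => y ⊆ trans p))).card) * m ^ 2 :=
            Nat.mul_le_mul_right _ card_biUnion_le
        _ = ∑ w ∈ T, ((I w).biUnion
            (fun y => univ.filter (fun p : Fin k → Fin m => y ⊆ trans p))).card * m ^ 2 := by
            rw [sum_mul]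
        _ ≤ ∑ w ∈ T, q ^ 2 * m ^ k := by
            refine sum_le_sum fun w _ => ?_
            calc _ ≤ (∑ y ∈ I w,
                  (univ.filter (fun p : Fin k → Fin m => y ⊆ trans p)).card) * m ^ 2 :=
                  Nat.mul_le_mul_right _ card_biUnion_le
              _ = ∑ y ∈ I w,
                  (univ.filter (fun p : Fin k → Fin m => y ⊆ trans p)).card * m ^ 2 := by
                  rw [sum_mul]
              _ ≤ ∑ y ∈ I w, m ^ k := sum_le_sum fun y hy => by
                  have := trans_card_le y
                  rwa [hI2 _ y hy] at this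
              _ = (I w).card * m ^ k := by rw [sum_const, smul_eq_mul]
              _ ≤ q ^ 2 * m ^ k := Nat.mul_le_mul_right _ (hIc _)
        _ = T.card * (q ^ 2 * m ^ k) := by
            rw [sum_const, smul_eq_mul]
        _ ≤ (ρ + 1) * (q ^ 2 * m ^ k) :=
            Nat.mul_le_mul_right _ (hTc.trans (by omega))
        _ = (ρ + 1) * q ^ 2 * m ^ k := by ring
    have hX' : 2 * BadP.card ≤ m ^ k := by
      have hpos : 0 < m ^ (l + 1) := pow_pos hmpos _
      refine Nat.le_of_mul_le_mul_right ?_ hpos
      calc 2 * BadP.card * m ^ (l + 1) = 2 * (BadP.card * m ^ (l + 1)) := by ring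
        _ ≤ 2 * (s * (q ^ (l + 1) * m ^ k)) := Nat.mul_le_mul_left _ hPc
        _ = 2 * (s * q ^ (l + 1)) * m ^ k := by ring
        _ ≤ m ^ (l + 1) * m ^ k := Nat.mul_le_mul_right _ h2
        _ = m ^ k * m ^ (l + 1) := by ring
    have hY' : 2 * H.card < m ^ k := by
      refine Nat.lt_of_mul_lt_mul_right (a := m ^ 2) ?_
      calc 2 * H.card * m ^ 2 = 2 * (H.card * m ^ 2) := by ring
        _ ≤ 2 * ((ρ + 1) * q ^ 2 * m ^ k) := Nat.mul_le_mul_left _ hY
        _ = 2 * ((ρ + 1) * q ^ 2) * m ^ k := by ring
        _ < m ^ 2 * m ^ k := Nat.mul_lt_mul_of_pos_right h3 (pow_pos hmpos _)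
        _ = m ^ k * m ^ 2 := by ring
    omega
  obtain ⟨c, hc⟩ := hc
  obtain ⟨p, hpB, hpI⟩ := hp
  refine ⟨p, c, ?_⟩
  intro valP valN hvP hvN w hw hvw
  have hxP : (fun v => (τ v).pos p) = F.asg (Function.update st j (BState.tr p)) := by
    funext v
    exact propext (hτP p v)
  have hxN : (fun v => (τ v).neg c) = F.asg (Function.update st j (BState.col c)) := by
    funext v
    exact propext (hτN c v)
  rcases hI w with h | h
  · have := h c hc valN (by rw [hxN]; exact hvN)
    rwa [hxN] at this
  · exfalso
    obtain ⟨v, hv, hpv⟩ := h p hpB valP (by rw [hxP]; exact hvP) (by rw [hxP]; exact hvw)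
    exact hpI w (hT w hw) v hv hpv

def Good' {L k m K : ℕ} (C : Circuit V s) (F : BlockFamily V L k m K) (R : Finset (Fin s))
    (p : Fin L → Fin k → Fin m) (c : Fin L → Fin k × Fin m → Fin K) (j : Fin L) : Prop :=
  ∀ (valP' valP valN : Fin s → Prop), C.IsEvalM (F.asg (stP p (j.val + 1))) valP' →
    C.IsFrozen valP' (F.asg (stP p j)) valP →
    C.IsFrozen valP' (F.asg (Function.update (stP p j) j (BState.col (c j)))) valN →
    ∀ w, C.IsTgt R w →
      Sum.elim (F.asg (stP p j)) valP w →
      Sum.elim (F.asg (Function.update (stP p j) j (BState.col (c j)))) valN w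

theorem Circuit.exists_eval (C : Circuit V s) (x : V → Prop) : ∃ val, C.IsEvalM x val := by
  classical
  let Φ : Fin s → (Fin s → Prop) → Prop := fun i val =>
      match C.kind i with
      | GateKind.and => ∀ w ∈ C.wires i, Sum.elim x val w
      | GateKind.or => ∃ w ∈ C.wires i, Sum.elim x val w
      | GateKind.not => ∀ w ∈ C.wires i, ¬ Sum.elim x val w
  have hΦ : ∀ i f g, (∀ j, j < i → f j = g j) → Φ i f = Φ i g := by
    intro i f g hfg
    have h : ∀ w ∈ C.wires i, Sum.elim x f w = Sum.elim x g w := by
      intro w hw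
      cases w with
      | inl v => rfl
      | inr j => exact hfg j (C.acyclic i j hw)
    simp only [Φ]
    cases hk : C.kind i with
    | and =>
      simp only
      exact propext (forall₂_congr fun w hw => by rw [h w hw])
    | or =>
      simp only
      apply propext
      constructor
      · rintro ⟨w, hw, hv⟩
        exact ⟨w, hw, by rw [← h w hw]; exact hv⟩
      · rintro ⟨w, hw, hv⟩
        exact ⟨w, hw, by rw [h w hw]; exact hv⟩
    | not =>
      simp only
      exact propext (forall₂_congr fun w hw => by rw [h w hw])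
  obtain ⟨f, hf⟩ := exists_rec Φ hΦ
  exact ⟨f, fun i => Iff.of_eq (hf i)⟩

theorem choose_all' {L k m K : ℕ} (C : Circuit V s) (F : BlockFamily V L k m K)
    (ρ : ℕ) (R : Finset (Fin s)) (hR : R.card ≤ ρ) (q l : ℕ) (hq : 1 ≤ q) (hl : 2 ≤ l)
    (h1 : s * (l * l) ^ (q + 1) < K ^ (q + 1))
    (h2 : 2 * (s * q ^ (l + 1)) ≤ m ^ (l + 1))
    (h3 : 2 * ((ρ + 1) * q ^ 2) < m ^ 2) (t : ℕ) (ht : t ≤ L) :
    ∃ (p : Fin L → Fin k → Fin m) (c : Fin L → Fin k × Fin m → Fin K),
      ∀ j : Fin L, L ≤ j.val + t → Good' C F R p c j := by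
  classical
  have hKpos : 0 < K := by
    rcases Nat.eq_zero_or_pos K with h | h
    · subst h
      rw [zero_pow (Nat.succ_ne_zero q)] at h1
      exact absurd h1 (Nat.not_lt_zero _)
    · exact h
  have hmpos : 0 < m := by
    rcases Nat.eq_zero_or_pos m with h | h
    · subst h
      simp at h3
    · exact h
  induction t with
  | zero =>
    refine ⟨fun _ _ => ⟨0, hmpos⟩, fun _ _ => ⟨0, hKpos⟩, ?_⟩
    intro j hj
    have := j.isLt
    omega
  | succ t ih =>
    obtain ⟨p, c, hpc⟩ := ih (by omega)
    let j₀ : Fin L := ⟨L - t - 1, by omega⟩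
    obtain ⟨b, hb⟩ := C.exists_eval (F.asg (stP p (j₀.val + 1)))
    obtain ⟨p', c', hpc'⟩ := choose_step' C F ρ R hR q l hq hl h1 h2 h3 (stP (K := K) p j₀) j₀ b
    refine ⟨Function.update p j₀ p', Function.update c j₀ c', ?_⟩
    intro j hj
    have hstP : ∀ j : ℕ, j₀.val < j →
        (stP (Function.update p j₀ p') j : Fin L → BState k m K) = stP p j := by
      intro j hlt
      funext i
      simp only [stP]
      by_cases hi : i.val < j
      · rw [if_pos hi, if_pos hi]
      · rw [if_neg hi, if_neg hi]
        rw [Function.update_of_ne]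
        intro h
        rw [h] at hi
        exact hi hlt
    by_cases hjj : j = j₀
    · subst hjj
      have e1 : (stP (Function.update p j₀ p') j₀ : Fin L → BState k m K) =
          Function.update (stP p j₀) j₀ (BState.tr p') := by
        funext i
        by_cases hi : i = j₀
        · subst hi
          simp [stP]
        · rw [Function.update_of_ne hi]
          simp only [stP]
          rw [Function.update_of_ne hi]
      have e2 : (Function.update c j₀ c') j₀ = c' := by simp
      unfold Good'
      rw [hstP (j₀.val + 1) (Nat.lt_succ_self _), e1, e2, Function.update_idem]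
      intro valP' valP valN hv' hvP hvN
      have : valP' = b := hv'.unique hb
      subst this
      exact hpc' valP valN hvP hvN
    · have hlt : j₀.val < j.val := by
        have h0 : j₀.val ≠ j.val := fun h => hjj (Fin.ext h.symm)
        have h1 : j₀.val = L - t - 1 := rfl
        omega
      have e2 : (Function.update c j₀ c') j = c j := Function.update_of_ne hjj _ _
      unfold Good'
      rw [hstP (j.val + 1) (by omega), hstP j.val hlt, e2]
      refine hpc j ?_
      have h1 : j₀.val = L - t - 1 := rfl
      omega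

/-- The abstract chain theorem: on some pair (positive test `stP p j`, negative test) the output
of the circuit does not decrease. -/
theorem chain_main {L k m K : ℕ} (C : Circuit V s) (F : BlockFamily V L k m K)
    (ρ : ℕ) (R : Finset (Fin s)) (hR : R.card ≤ ρ) (hL : L = 2 ^ ρ)
    (hconst : ∀ i, C.kind i = GateKind.not → i ∉ R → ∀ st st' val val',
      C.IsEvalM (F.asg st) val → C.IsEvalM (F.asg st') val' → (val i ↔ val' i))
    (q l : ℕ) (hq : 1 ≤ q) (hl : 2 ≤ l)
    (h1 : s * (l * l) ^ (q + 1) < K ^ (q + 1))
    (h2 : 2 * (s * q ^ (l + 1)) ≤ m ^ (l + 1))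
    (h3 : 2 * ((ρ + 1) * q ^ 2) < m ^ 2) :
    ∃ (p : Fin L → Fin k → Fin m) (j : Fin L) (c : Fin k × Fin m → Fin K), ∀ valP valN,
      C.IsEvalM (F.asg (stP p j)) valP →
      C.IsEvalM (F.asg (Function.update (stP p j) j (BState.col c))) valN →
      valP C.out → valN C.out := by
  classical
  obtain ⟨p, c, hgood⟩ := choose_all' C F ρ R hR q l hq hl h1 h2 h3 L le_rfl
  have hev := fun j : ℕ => C.exists_eval (F.asg (stP p j))
  choose val hval using hev
  have hx : ∀ j v, F.asg (stP p j) v → F.asg (stP p (j + 1)) v := by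
    intro j v hv
    refine F.mono _ _ ?_ v hv
    intro i u u' h
    simp only [stP] at h ⊢
    by_cases hi : i.val < j
    · rw [if_pos (by omega)]
      trivial
    · by_cases hi' : i.val < j + 1
      · rw [if_pos hi']
        trivial
      · rw [if_neg hi']
        rwa [if_neg hi] at h
  obtain ⟨j, hj, hnot⟩ := markov' R hR (fun j => F.asg (stP p j)) val hval hx
    (fun i hi hiR j => hconst i hi hiR _ _ _ _ (hval j) (hval (j + 1)))
  rw [← hL] at hj
  let J : Fin L := ⟨j, hj⟩
  refine ⟨p, J, c J, ?_⟩
  intro valP valN' hvP hvN' hout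
  have hvP' : valP = val j := hvP.unique (hval j)
  subst hvP'
  obtain ⟨valN, hvalN⟩ := C.exists_frozen (val (j + 1))
    (F.asg (Function.update (stP p j) J (BState.col (c J))))
  have hNP : ∀ v, F.asg (Function.update (stP p j) J (BState.col (c J))) v →
      F.asg (stP p (j + 1)) v := by
    intro v hv
    refine F.mono _ _ ?_ v hv
    intro i u u' h
    simp only [stP]
    by_cases hi : i.val < j + 1
    · rw [if_pos hi]
      trivial
    · have hiJ : i ≠ J := by
        intro h
        rw [h] at hi
        exact hi (Nat.lt_succ_self j)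
      rw [Function.update_of_ne hiJ] at h
      simp only [stP] at h
      rw [if_neg (by omega)] at h
      rwa [if_neg hi]
  have hPfrozen : C.IsFrozen (val (j + 1)) (F.asg (stP p j)) (val j) :=
    (hval j).isFrozen (fun i hi => (hnot i hi).symm)
  have hgoodJ := hgood J (by omega) (val (j + 1)) (val j) valN (hval (j + 1)) hPfrozen hvalN
  have hiff := Circuit.finish' R (hval j) (hval (j + 1)) hnot hvalN hNP hvN'
    (fun i hi hiR => hconst i hi hiR _ _ _ _ hvN' (hval (j + 1)))
    (fun i hi hk w hw => hgoodJ w (Or.inr ⟨i, hi, hk, hw⟩))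
  exact (hiff C.out).1 (hgoodJ (Sum.inr C.out) (Or.inl rfl) hout)

end Pool.Agent.CliqueCircuits
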