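import Mathlib

/-!
Boolean circuits with AND, OR gates of unbounded fan-in and NOT gates, and the clique function.
-/

namespace Pool.Agent.CliqueCircuits

/-- The three kinds of gates. -/
inductive GateKind
  | and
  | or
  | not

/-- A Boolean circuit with `s` gates over the variables `V`. The gates are numbered
`0, …, s - 1` in a topological order; `wires i` is the set of all nodes (variables `Sum.inl v` or
gates `Sum.inr j`) feeding gate `i`. AND and OR gates have arbitrary fan-in, NOT gates have
exactly one incoming wire. `out` is the output gate. -/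
structure Circuit (V : Type) (s : ℕ) where
  kind : Fin s → GateKind
  wires : Fin s → Finset (V ⊕ Fin s)
  acyclic : ∀ i j : Fin s, Sum.inr j ∈ wires i → j < i
  unary : ∀ i : Fin s, kind i = GateKind.not → (wires i).card = 1
  out : Fin s

/-- `val` is the vector of values of the gates of `C` on the assignment `x` (it is unique, since
the gates are numbered topologically). -/
def Circuit.IsEval {V : Type} {s : ℕ} (C : Circuit V s) (x : V → Prop) (val : Fin s → Prop) :
    Prop :=
  ∀ i : Fin s,
    (C.kind i = GateKind.and → (val i ↔ ∀ w ∈ C.wires i, Sum.elim x val w)) ∧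
    (C.kind i = GateKind.or → (val i ↔ ∃ w ∈ C.wires i, Sum.elim x val w)) ∧
    (C.kind i = GateKind.not → (val i ↔ ∀ w ∈ C.wires i, ¬ Sum.elim x val w))

/-- The number of NOT gates of a circuit. -/
noncomputable def Circuit.numNot {V : Type} {s : ℕ} (C : Circuit V s) : ℕ :=
  Nat.card {i : Fin s // C.kind i = GateKind.not}

/-- The circuit `C`, whose variables are the pairs `i < j` of vertices of an `n`-vertex graph,
computes the function `CLIQUE_n`: for every graph `G` on `Fin n` the output is true iff `G` has a
clique with more than `√n` vertices. -/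
def Circuit.ComputesClique {n s : ℕ} (C : Circuit {p : Fin n × Fin n // p.1 < p.2} s) : Prop :=
  ∀ G : SimpleGraph (Fin n), ∃ val : Fin s → Prop,
    C.IsEval (fun e => G.Adj e.1.1 e.1.2) val ∧
    (val C.out ↔ ∃ c : Finset (Fin n), G.IsClique (c : Set (Fin n)) ∧
      Real.sqrt (n : ℝ) < (c.card : ℝ))

end Pool.Agent.CliqueCircuits
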