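import Pool.Agent.Lib.MP_0a1b52_lc.Defs

/-!
Dependence of gates on a set of variables.
-/

namespace Pool.Agent.CliqueCircuits

/-- The value of gate `i` depends on the variables in `H`: some two assignments which agree on all
variables outside `H` give it different values. -/
def Circuit.DependsOn {V : Type} {s : ℕ} (C : Circuit V s) (H : Finset V) (i : Fin s) : Prop :=
  ∃ (x x' : V → Prop) (val val' : Fin s → Prop), (∀ v, v ∉ H → (x v ↔ x' v)) ∧
    C.IsEval x val ∧ C.IsEval x' val' ∧ ¬ (val i ↔ val' i)

/-- The number of NOT gates whose value depends on the variables in `H`. -/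
noncomputable def Circuit.numNotOn {V : Type} {s : ℕ} (C : Circuit V s) (H : Finset V) : ℕ :=
  Nat.card {i : Fin s // C.kind i = GateKind.not ∧ C.DependsOn H i}

end Pool.Agent.CliqueCircuits
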