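import Pool.Agent.Lib.MP_0a1b52_lc.Defs

/-!
Circuits whose inputs are literals, and their negation width.
-/

namespace Pool.Agent.CliqueCircuits

/-- The value of the literals on the assignment `x`: the literal `(v, true)` is the variable `v`,
the literal `(v, false)` is its negation. -/
def litVal {V : Type} (x : V → Prop) : V × Bool → Prop
  | (v, true) => x v
  | (v, false) => ¬ x v

/-- The same, except that the negated literals of all variables in `T` outside `B` are replaced by
`False`. -/
def litValOn {V : Type} (T B : Finset V) (x : V → Prop) : V × Bool → Prop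
  | (v, true) => x v
  | (v, false) => ¬ x v ∧ (v ∈ T → v ∈ B)

/-- The variables `x_ij`, `i < j`, of graphs on `Fin n`. -/
abbrev EdgeV (n : ℕ) : Type := {p : Fin n × Fin n // p.1 < p.2}

/-- The circuit `C`, whose inputs are the literals of the variables `x_ij`, consists of AND and OR
gates only and computes `CLIQUE_n`: for every graph `G` on `Fin n` the output is true iff `G` has a
clique with more than `√n` vertices. -/
def Circuit.IsDeMorganClique {n s : ℕ} (C : Circuit (EdgeV n × Bool) s) : Prop :=
  (∀ i, C.kind i ≠ GateKind.not) ∧
  ∀ G : SimpleGraph (Fin n), ∃ val : Fin s → Prop,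
    C.IsEval (litVal (fun e => G.Adj e.1.1 e.1.2)) val ∧
    (val C.out ↔ ∃ c : Finset (Fin n), G.IsClique (c : Set (Fin n)) ∧
      Real.sqrt (n : ℝ) < (c.card : ℝ))

/-- The `T`-negation width of `C` is at most `w`: for every assignment `x` accepted by `C` there is
a set `B` of at most `w` variables such that `C` still accepts when the negated literals of all
variables in `T` outside `B` are replaced by `False`. -/
def Circuit.NegWidthLE {V : Type} {s : ℕ} (C : Circuit (V × Bool) s) (T : Finset V) (w : ℕ) :
    Prop :=
  ∀ (x : V → Prop) (val : Fin s → Prop), C.IsEval (litVal x) val → val C.out →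
    ∃ (B : Finset V) (val' : Fin s → Prop), B.card ≤ w ∧
      C.IsEval (litValOn T B x) val' ∧ val' C.out

end Pool.Agent.CliqueCircuits
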