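import Pool.Agent.Lib.MP_0a1b52_lc.Defs

/-!
Monotone circuits with oracle functions among their inputs.
-/

namespace Pool.Agent.CliqueCircuits

/-- The inputs of a circuit with oracles: the variables `x v`, the values `φ i x` of the functions
`φ i` (`i < t`) and the values `ψ i x` of the functions `ψ i` (`i < u`). -/
def withOracles {V : Type} {t u : ℕ} (φ : Fin t → (V → Prop) → Prop)
    (ψ : Fin u → (V → Prop) → Prop) (x : V → Prop) : V ⊕ (Fin t ⊕ Fin u) → Prop :=
  Sum.elim x (Sum.elim (fun i => φ i x) (fun i => ψ i x))

/-- The Boolean function `f` is antitone in the variables in `H`: if `x ≤ x'` and the two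
assignments agree outside `H`, then `f x' ≤ f x`. -/
def AntitoneIn {V : Type} (H : Finset V) (f : (V → Prop) → Prop) : Prop :=
  ∀ x x' : V → Prop, (∀ v, v ∉ H → (x v ↔ x' v)) → (∀ v, x v → x' v) → f x' → f x

/-- The Boolean function `f` does not depend on the variables in `H`. -/
def IndependentOf {V : Type} (H : Finset V) (f : (V → Prop) → Prop) : Prop :=
  ∀ x x' : V → Prop, (∀ v, v ∉ H → (x v ↔ x' v)) → (f x ↔ f x')

end Pool.Agent.CliqueCircuits
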