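import Mathlib

/-!
Every set of at least `2 M²` edges contains a star or a matching with `M` edges; both are star
forests in the sense below.
-/

namespace Pool.Agent.CliqueCircuits

open Finset

variable {n : ℕ}

/-- the pair `x y` is an edge of `H` -/
def HR (H : Finset {p : Fin n × Fin n // p.1 < p.2}) (x y : Fin n) : Prop :=
  ∃ e ∈ H, (e.1.1 = x ∧ e.1.2 = y) ∨ (e.1.1 = y ∧ e.1.2 = x)

theorem HR.ne {H : Finset {p : Fin n × Fin n // p.1 < p.2}} {x y : Fin n} (h : HR H x y) :
    x ≠ y := by
  obtain ⟨e, _, he⟩ := h
  have := e.2
  rintro rfl
  rcases he with ⟨h1, h2⟩ | ⟨h1, h2⟩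
  · rw [h1, h2] at this; exact lt_irrefl _ this
  · rw [h1, h2] at this; exact lt_irrefl _ this

theorem HR.mem {H : Finset {p : Fin n × Fin n // p.1 < p.2}} {x y : Fin n} (h : HR H x y)
    (e : {p : Fin n × Fin n // p.1 < p.2})
    (he : (e.1.1 = x ∧ e.1.2 = y) ∨ (e.1.1 = y ∧ e.1.2 = x)) : e ∈ H := by
  obtain ⟨e', he'H, he'⟩ := h
  have h1 := e.2
  have h2 := e'.2
  have : e = e' := by
    apply Subtype.ext
    apply Prod.ext
    · rcases he with ⟨a, b⟩ | ⟨a, b⟩ <;> rcases he' with ⟨c, d⟩ | ⟨c, d⟩
      · rw [a, c]
      · rw [a, b] at h1; rw [c, d] at h2; exact absurd h2 (lt_asymm h1)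
      · rw [a, b] at h1; rw [c, d] at h2; exact absurd h2 (lt_asymm h1)
      · rw [a, c]
    · rcases he with ⟨a, b⟩ | ⟨a, b⟩ <;> rcases he' with ⟨c, d⟩ | ⟨c, d⟩
      · rw [b, d]
      · rw [a, b] at h1; rw [c, d] at h2; exact absurd h2 (lt_asymm h1)
      · rw [a, b] at h1; rw [c, d] at h2; exact absurd h2 (lt_asymm h1)
      · rw [b, d]
  rw [this]
  exact he'H

open Classical in
theorem exists_star_forest (H : Finset {p : Fin n × Fin n // p.1 < p.2}) (M : ℕ)
    (hH : 2 * M * M ≤ H.card) :
    ∃ z w : Fin M → Fin n, Function.Injective w ∧ (∀ a b, z a ≠ w b) ∧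
      ∀ a, HR H (z a) (w a) := by
  by_cases hstar : ∃ v, M ≤ (univ.filter (fun x => HR H v x)).card
  · obtain ⟨v, hv⟩ := hstar
    obtain ⟨T, hT, hTc⟩ := exists_subset_card_eq hv
    have hf : ∀ a, HR H v (T.orderEmbOfFin hTc a) := by
      intro a
      have := hT (T.orderEmbOfFin_mem hTc a)
      simpa using this
    refine ⟨fun _ => v, fun a => T.orderEmbOfFin hTc a, ?_, ?_, ?_⟩
    · exact (T.orderEmbOfFin hTc).injective
    · intro a b
      exact (hf b).ne
    · exact hf
  · push Not at hstar
    have key : ∀ t, t ≤ M → ∃ z w : Fin t → Fin n, Function.Injective w ∧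
        (∀ a b, z a ≠ w b) ∧ ∀ a, HR H (z a) (w a) := by
      intro t
      induction t with
      | zero =>
        intro _
        exact ⟨Fin.elim0, Fin.elim0, fun a => a.elim0, fun a => a.elim0, fun a => a.elim0⟩
      | succ t ih =>
        intro ht
        obtain ⟨z, w, hw, hzw, hzwH⟩ := ih (by omega)
        let W : Finset (Fin n) := univ.image z ∪ univ.image w
        have hWc : W.card ≤ 2 * t := by
          refine (card_union_le _ _).trans ?_
          have h1 : (univ.image z).card ≤ t := by
            simpa using (card_image_le (s := (univ : Finset (Fin t))) (f := z))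
          have h2 : (univ.image w).card ≤ t := by
            simpa using (card_image_le (s := (univ : Finset (Fin t))) (f := w))
          omega
        -- edges incident to a vertex
        have hinc : ∀ v, (H.filter (fun e => e.1.1 = v ∨ e.1.2 = v)).card ≤ M := by
          intro v
          refine le_trans ?_ (hstar v).le
          refine card_le_card_of_injOn (fun e => if e.1.1 = v then e.1.2 else e.1.1) ?_ ?_
          · intro e he
            simp only [coe_filter, Set.mem_ofPred_eq, mem_univ, true_and] at he ⊢
            by_cases h1 : e.1.1 = v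
            · rw [if_pos h1]
              exact ⟨e, he.1, Or.inl ⟨h1, rfl⟩⟩
            · rw [if_neg h1]
              have h2 : e.1.2 = v := by tauto
              exact ⟨e, he.1, Or.inr ⟨rfl, h2⟩⟩
          · intro e he e' he' hee
            simp only [coe_filter, Set.mem_ofPred_eq] at he he'
            simp only at hee
            have l1 := e.2
            have l2 := e'.2
            apply Subtype.ext
            by_cases h1 : e.1.1 = v <;> by_cases h2 : e'.1.1 = v
            · rw [if_pos h1, if_pos h2] at hee
              exact Prod.ext (h1.trans h2.symm) hee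
            · rw [if_pos h1, if_neg h2] at hee
              have h3 : e'.1.2 = v := by tauto
              rw [h1, hee] at l1
              rw [h3] at l2
              exact absurd l2 (lt_asymm l1)
            · rw [if_neg h1, if_pos h2] at hee
              have h3 : e.1.2 = v := by tauto
              rw [h3] at l1
              rw [h2, ← hee] at l2
              exact absurd l2 (lt_asymm l1)
            · rw [if_neg h1, if_neg h2] at hee
              have h3 : e.1.2 = v := by tauto
              have h4 : e'.1.2 = v := by tauto
              exact Prod.ext hee (h3.trans h4.symm)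
        have hex : ∃ e ∈ H, e.1.1 ∉ W ∧ e.1.2 ∉ W := by
          by_contra hcon
          push Not at hcon
          have hsub : H ⊆ W.biUnion (fun v => H.filter (fun e => e.1.1 = v ∨ e.1.2 = v)) := by
            intro e he
            rw [mem_biUnion]
            by_cases h1 : e.1.1 ∈ W
            · exact ⟨e.1.1, h1, mem_filter.2 ⟨he, Or.inl rfl⟩⟩
            · exact ⟨e.1.2, hcon e he h1, mem_filter.2 ⟨he, Or.inr rfl⟩⟩
          have h1 := (card_le_card hsub).trans (card_biUnion_le_card_mul W _ M (fun v _ => hinc v))
          have h2 : W.card * M ≤ 2 * t * M := Nat.mul_le_mul_right _ hWc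
          have h3 : 2 * t * M < 2 * M * M := by
            refine Nat.mul_lt_mul_of_pos_right ?_ (by omega)
            omega
          omega
        obtain ⟨e, heH, he1, he2⟩ := hex
        have hz1 : ∀ a, z a ≠ e.1.1 := fun a h => he1 (by
          rw [← h]; exact mem_union_left _ (mem_image_of_mem z (mem_univ a)))
        have hz2 : ∀ a, z a ≠ e.1.2 := fun a h => he2 (by
          rw [← h]; exact mem_union_left _ (mem_image_of_mem z (mem_univ a)))
        have hw1 : ∀ a, w a ≠ e.1.1 := fun a h => he1 (by
          rw [← h]; exact mem_union_right _ (mem_image_of_mem w (mem_univ a)))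
        have hw2 : ∀ a, w a ≠ e.1.2 := fun a h => he2 (by
          rw [← h]; exact mem_union_right _ (mem_image_of_mem w (mem_univ a)))
        have heH' : HR H e.1.1 e.1.2 := ⟨e, heH, Or.inl ⟨rfl, rfl⟩⟩
        refine ⟨Fin.cons e.1.1 z, Fin.cons e.1.2 w, ?_, ?_, ?_⟩
        · intro a b
          refine Fin.cases ?_ (fun a => ?_) a <;> refine Fin.cases ?_ (fun b => ?_) b
          · intro _; rfl
          · simp only [Fin.cons_zero, Fin.cons_succ]
            intro h
            exact absurd h.symm (hw2 b)
          · simp only [Fin.cons_zero, Fin.cons_succ]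
            intro h
            exact absurd h (hw2 a)
          · simp only [Fin.cons_succ]
            intro h
            rw [hw h]
        · intro a b
          refine Fin.cases ?_ (fun a => ?_) a <;> refine Fin.cases ?_ (fun b => ?_) b
          · simp only [Fin.cons_zero]
            exact heH'.ne
          · simp only [Fin.cons_zero, Fin.cons_succ]
            exact fun h => hw1 b h.symm
          · simp only [Fin.cons_zero, Fin.cons_succ]
            exact hz2 a
          · simp only [Fin.cons_succ]
            exact hzw a b
        · intro a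
          refine Fin.cases ?_ (fun a => ?_) a
          · simp only [Fin.cons_zero]
            exact heH'
          · simp only [Fin.cons_succ]
            exact hzwH a
    exact key M le_rfl

end Pool.Agent.CliqueCircuits
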