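import Pool.Agent.Lib.MP_0a1b52_lc.Chain

/-!
The finite form of the lower bound.
-/

namespace Pool.Agent.CliqueCircuits

open Finset

/-- blocks before `j` are complete, the others contain planted cliques -/
def stP {L k m K : ℕ} (p : Fin L → Fin k → Fin m) (j : ℕ) : Fin L → BState k m K :=
  fun i => if i.val < j then BState.full else BState.tr (p i)

section

variable {n s L k m e K : ℕ}

def Good (C : Circuit {p : Fin n × Fin n // p.1 < p.2} s) (φ : Vtx L k m e ↪ Fin n)
    (p : Fin L → Fin k → Fin m) (c : Fin L → Fin k × Fin m → Fin K) (j : Fin L) : Prop :=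
  ∀ (b valP valN : Fin s → Prop),
    C.IsFrozen b (asg φ (stP (K := K) p j)) valP →
    C.IsFrozen b (asg φ (Function.update (stP p j) j (BState.col (c j)))) valN →
    ∀ w, C.IsTarget w →
      Sum.elim (asg φ (stP (K := K) p j)) valP w →
      Sum.elim (asg φ (Function.update (stP p j) j (BState.col (c j)))) valN w

theorem choose_all (C : Circuit {p : Fin n × Fin n // p.1 < p.2} s)
    (φ : Vtx L k m e ↪ Fin n) (r : ℕ) (hr : C.numNot ≤ r) (q l : ℕ) (hq : 1 ≤ q) (hl : 2 ≤ l)
    (h1 : 2 ^ r * (s * (l * l) ^ (q + 1)) < K ^ (q + 1))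
    (h2 : 2 * (2 ^ r * (s * q ^ (l + 1))) ≤ m ^ (l + 1))
    (h3 : 2 * (2 ^ r * ((r + 1) * q ^ 2)) < m ^ 2) (t : ℕ) (ht : t ≤ L) :
    ∃ (p : Fin L → Fin k → Fin m) (c : Fin L → Fin k × Fin m → Fin K),
      ∀ j : Fin L, L ≤ j.val + t → Good C φ p c j := by
  classical
  have hKpos : 0 < K := by
    rcases Nat.eq_zero_or_pos K with h | h
    · subst h
      rw [zero_pow (Nat.succ_ne_zero q)] at h1
      exact absurd h1 (Nat.not_lt_zero _)
    · exact h
  have hmpos : 0 < m := by
    rcases Nat.eq_zero_or_pos m with h | h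
    · subst h
      simp at h3
    · exact h
  induction t with
  | zero =>
    refine ⟨fun _ _ => ⟨0, hmpos⟩, fun _ _ => ⟨0, hKpos⟩, ?_⟩
    intro j hj
    have := j.isLt
    omega
  | succ t ih =>
    obtain ⟨p, c, hpc⟩ := ih (by omega)
    let j₀ : Fin L := ⟨L - t - 1, by omega⟩
    obtain ⟨p', c', hpc'⟩ := choose_step C φ r hr q l hq hl h1 h2 h3 (stP (K := K) p j₀) j₀
    refine ⟨Function.update p j₀ p', Function.update c j₀ c', ?_⟩
    intro j hj
    by_cases hjj : j = j₀
    · subst hjj
      have e1 : (stP (Function.update p j₀ p') j₀ : Fin L → BState k m K) =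
          Function.update (stP p j₀) j₀ (BState.tr p') := by
        funext i
        by_cases hi : i = j₀
        · subst hi
          simp [stP]
        · rw [Function.update_of_ne hi]
          simp only [stP]
          rw [Function.update_of_ne hi]
      have e2 : (Function.update c j₀ c') j₀ = c' := by simp
      unfold Good
      rw [e1, e2, Function.update_idem]
      exact hpc'
    · have hlt : j₀ < j := by
        have h0 : j₀.val ≠ j.val := fun h => hjj (Fin.ext h.symm)
        have h1 : j₀.val = L - t - 1 := rfl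
        rw [Fin.lt_def]
        omega
      have e1 : (stP (Function.update p j₀ p') j : Fin L → BState k m K) = stP p j := by
        funext i
        simp only [stP]
        by_cases hi : i.val < j.val
        · rw [if_pos hi, if_pos hi]
        · rw [if_neg hi, if_neg hi]
          rw [Function.update_of_ne]
          intro h
          rw [h] at hi
          exact hi hlt
      have e2 : (Function.update c j₀ c') j = c j := Function.update_of_ne hjj _ _
      unfold Good
      rw [e1, e2]
      refine hpc j ?_
      have h1 : j₀.val = L - t - 1 := rfl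
      have h2 := Fin.lt_def.1 hlt
      omega

theorem finite_bound {r : ℕ} (C : Circuit {p : Fin n × Fin n // p.1 < p.2} s)
    (hC : C.ComputesCliqueM) (hr : C.numNot ≤ r) (hL : L = 2 ^ r) (hK : K < k)
    (hT : L * k + e = Nat.sqrt n + 1) (hn : L * (k * m) + e ≤ n) (hn1 : 1 ≤ n)
    (q l : ℕ) (hq : 1 ≤ q) (hl : 2 ≤ l)
    (h1 : 2 ^ r * (s * (l * l) ^ (q + 1)) < K ^ (q + 1))
    (h2 : 2 * (2 ^ r * (s * q ^ (l + 1))) ≤ m ^ (l + 1))
    (h3 : 2 * (2 ^ r * ((r + 1) * q ^ 2)) < m ^ 2) : False := by
  classical
  have hcardV : Fintype.card (Vtx L k m e) ≤ Fintype.card (Fin n) := by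
    simpa using hn
  obtain ⟨φ⟩ := Function.Embedding.nonempty_of_card_le hcardV
  obtain ⟨p, c, hgood⟩ := choose_all C φ r hr q l hq hl h1 h2 h3 L le_rfl
  -- evaluations along the chain
  have hev := fun j : ℕ => hC (blockGraph φ (stP (K := K) p j))
  choose val hval hout using hev
  have hx : ∀ j v, asg φ (stP (K := K) p j) v → asg φ (stP (K := K) p (j + 1)) v := by
    intro j v hv
    refine blockGraph_mono φ _ _ ?_ _ _ hv
    intro i u u' h
    simp only [stP] at h ⊢
    by_cases hi : i.val < j
    · rw [if_pos (by omega)]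
      trivial
    · by_cases hi' : i.val < j + 1
      · rw [if_pos hi']
        trivial
      · rw [if_neg hi']
        rwa [if_neg hi] at h
  obtain ⟨j, hj, hnot⟩ := markov hr (fun j => asg φ (stP (K := K) p j)) val hval hx
  rw [← hL] at hj
  let J : Fin L := ⟨j, hj⟩
  obtain ⟨valN, hvalN⟩ := C.exists_frozen (val j)
    (asg φ (Function.update (stP (K := K) p j) J (BState.col (c J))))
  have hNP : ∀ v, asg φ (Function.update (stP (K := K) p j) J (BState.col (c J))) v →
      asg φ (stP (K := K) p (j + 1)) v := by
    intro v hv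
    refine blockGraph_mono φ _ _ ?_ _ _ hv
    intro i u u' h
    simp only [stP]
    by_cases hi : i.val < j + 1
    · rw [if_pos hi]
      trivial
    · have hiJ : i ≠ J := by
        intro h
        rw [h] at hi
        exact hi (Nat.lt_succ_self j)
      rw [Function.update_of_ne hiJ] at h
      simp only [stP] at h
      rw [if_neg (by omega)] at h
      rwa [if_neg hi]
  have hJ : Good C φ p c J := hgood J (by omega)
  have hPfrozen : C.IsFrozen (val j) (asg φ (stP (K := K) p j)) (val j) :=
    (hval j).isFrozen (fun _ _ => Iff.rfl)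
  have hgoodJ := hJ (val j) (val j) valN hPfrozen hvalN
  have hNeval : C.IsEvalM _ valN := Circuit.finish (hval j) (hval (j + 1)) hnot hvalN hNP
    (fun i hi w hw => hgoodJ w (Or.inr ⟨i, hi, hw⟩))
  -- the output is true on the positive test
  have hposout : val j C.out := by
    rw [hout j]
    obtain ⟨S, hS, hcard⟩ := blockGraph_clique φ (stP (K := K) p j) p (by
      intro i
      simp only [stP]
      by_cases hi : i.val < j
      · left; rw [if_pos hi]
      · right; rw [if_neg hi])
    refine ⟨S, hS, ?_⟩
    rw [hcard, hT]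
    push_cast
    exact Real.real_sqrt_lt_nat_sqrt_succ
  have hNout : valN C.out := hgoodJ (Sum.inr C.out) (Or.inl rfl) hposout
  -- but the negative test has no large clique
  obtain ⟨val', hval', hout'⟩ := hC (blockGraph φ
    (Function.update (stP (K := K) p j) J (BState.col (c J))))
  have heq : valN = val' := hNeval.unique hval'
  rw [heq, hout'] at hNout
  obtain ⟨S, hS, hcard⟩ := hNout
  have hsqrt : (Nat.sqrt n : ℝ) ≤ Real.sqrt n := Real.nat_sqrt_le_real_sqrt
  have hcard' : Nat.sqrt n < S.card := by
    have : (Nat.sqrt n : ℝ) < (S.card : ℝ) := hsqrt.trans_lt hcard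
    exact_mod_cast this
  have hsq1 : 1 ≤ Nat.sqrt n := Nat.sqrt_pos.2 hn1
  rcases blockGraph_no_clique φ _ hK J (c J) (by simp) S hS with h | h
  · omega
  · omega

end

end Pool.Agent.CliqueCircuits
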