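import Pool.Agent.Lib.MP_0a1b52_lc.Gadget
import Pool.Agent.Lib.MP_0a1b52_lc.Extract
import Pool.Agent.Lib.MP_0a1b52_lc.Defs2

/-!
Lower bound for circuits in which the NOT gates not depending on a set `H` of edges are free.
-/

namespace Pool.Agent.CliqueCircuits

open Finset

/-- the map of the vertices of the gadget -/
def gmap {n L k m e : ℕ} {Z : Finset (Fin n)} (w : Xi L k m → Fin n)
    (g : Xi L k m ⊕ (Xi L k m ⊕ Fin e) → Fin n) : GV {x // x ∈ Z} L k m e → Fin n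
  | .ctr v => v.1
  | .on ξ => w ξ
  | .off ξ => g (Sum.inl ξ)
  | .opt ξ => g (Sum.inr (Sum.inl ξ))
  | .ext a => g (Sum.inr (Sum.inr a))

theorem gmap_injective {n L k m e : ℕ} {Z : Finset (Fin n)} (w : Xi L k m → Fin n)
    (g : Xi L k m ⊕ (Xi L k m ⊕ Fin e) → Fin n) (hw : Function.Injective w)
    (hg : Function.Injective g) (hwZ : ∀ ξ, w ξ ∉ Z) (hgZ : ∀ a, g a ∉ Z)
    (hgw : ∀ a ξ, g a ≠ w ξ) : Function.Injective (gmap (Z := Z) w g) := by
  have hZw : ∀ (v : {x // x ∈ Z}) ξ, v.1 ≠ w ξ := fun v ξ h => hwZ ξ (by rw [← h]; exact v.2)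
  have hZg : ∀ (v : {x // x ∈ Z}) a, v.1 ≠ g a := fun v ξ h => hgZ ξ (by rw [← h]; exact v.2)
  intro a b hab
  cases a with
  | ctr v =>
    cases b with
    | ctr v' => simp only [gmap] at hab; rw [Subtype.ext hab]
    | on ξ => exact absurd hab (hZw _ _)
    | off ξ => exact absurd hab (hZg _ _)
    | opt ξ => exact absurd hab (hZg _ _)
    | ext a => exact absurd hab (hZg _ _)
  | on ξ =>
    cases b with
    | ctr v' => exact absurd hab.symm (hZw _ _)
    | on ξ => simp only [gmap] at hab; rw [hw hab]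
    | off ξ => exact absurd hab.symm (hgw _ _)
    | opt ξ => exact absurd hab.symm (hgw _ _)
    | ext a => exact absurd hab.symm (hgw _ _)
  | off ξ =>
    cases b with
    | ctr v' => exact absurd hab.symm (hZg _ _)
    | on ξ => exact absurd hab (hgw _ _)
    | off ξ => simp only [gmap] at hab; rw [Sum.inl_injective (hg hab)]
    | opt ξ => simp only [gmap] at hab; exact absurd (hg hab) (by simp)
    | ext a => simp only [gmap] at hab; exact absurd (hg hab) (by simp)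
  | opt ξ =>
    cases b with
    | ctr v' => exact absurd hab.symm (hZg _ _)
    | on ξ => exact absurd hab (hgw _ _)
    | off ξ => simp only [gmap] at hab; exact absurd (hg hab) (by simp)
    | opt ξ =>
      simp only [gmap] at hab
      rw [Sum.inl_injective (Sum.inr_injective (hg hab))]
    | ext a => simp only [gmap] at hab; exact absurd (hg hab) (by simp)
  | ext a =>
    cases b with
    | ctr v' => exact absurd hab.symm (hZg _ _)
    | on ξ => exact absurd hab (hgw _ _)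
    | off ξ => simp only [gmap] at hab; exact absurd (hg hab) (by simp)
    | opt ξ => simp only [gmap] at hab; exact absurd (hg hab) (by simp)
    | ext a =>
      simp only [gmap] at hab
      rw [Sum.inr_injective (Sum.inr_injective (hg hab))]

theorem card_pairT_le (k m : ℕ) : Fintype.card (PairT k m) ≤ (k * m) ^ 2 := by
  refine (Fintype.card_subtype_le _).trans ?_
  simp [sq]

theorem card_classPair_le (k : ℕ) : Fintype.card {c : Fin k × Fin k // c.1 < c.2} ≤ k ^ 2 := by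
  refine (Fintype.card_subtype_le _).trans ?_
  simp [sq]

theorem free_finite {n s ρ L k m K : ℕ} (C : Circuit {p : Fin n × Fin n // p.1 < p.2} s)
    (hC : C.ComputesCliqueM) (H : Finset {p : Fin n × Fin n // p.1 < p.2})
    (R : Finset (Fin s)) (hRc : R.card ≤ ρ)
    (hR : ∀ i, C.kind i = GateKind.not → i ∉ R → ∀ x x' val val',
      (∀ v, v ∉ H → (x v ↔ x' v)) → C.IsEvalM x val → C.IsEvalM x' val' → (val i ↔ val' i))
    (hL : L = 2 ^ ρ) (hK : K < k) (hk2 : 2 ≤ k) (hm1 : 1 ≤ m) (q l : ℕ) (hq : 1 ≤ q) (hl : 2 ≤ l)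
    (h1 : s * (l * l) ^ (q + 1) < K ^ (q + 1))
    (h2 : 2 * (s * q ^ (l + 1)) ≤ m ^ (l + 1))
    (h3 : 2 * ((ρ + 1) * q ^ 2) < m ^ 2)
    (c2 : 2 * (L * (k * m) ^ 2) * (L * (k * m) ^ 2) ≤ H.card)
    (c3 : 3 * (L * (k * m) ^ 2) ≤ Nat.sqrt n + 1)
    (c4 : 4 * (L * (k * m) ^ 2) + (Nat.sqrt n + 1) ≤ n) : False := by
  classical
  obtain ⟨M, hM⟩ : ∃ M, M = Fintype.card (Xi L k m) := ⟨_, rfl⟩
  have hMle : M ≤ L * (k * m) ^ 2 := by
    rw [hM, Fintype.card_prod, Fintype.card_fin]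
    exact Nat.mul_le_mul_left _ (card_pairT_le k m)
  obtain ⟨z', w', hw', hzw', hH'⟩ := exists_star_forest H M (by
    refine le_trans ?_ c2
    exact Nat.mul_le_mul (Nat.mul_le_mul_left _ hMle) hMle)
  let E : Xi L k m ≃ Fin M := Fintype.equivOfCardEq (by rw [← hM, Fintype.card_fin])
  let z : Xi L k m → Fin n := fun ξ => z' (E ξ)
  let w : Xi L k m → Fin n := fun ξ => w' (E ξ)
  have hw : Function.Injective w := hw'.comp E.injective
  have hzw : ∀ ξ ξ', z ξ ≠ w ξ' := fun ξ ξ' => hzw' _ _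
  have hHzw : ∀ ξ, HR H (z ξ) (w ξ) := fun ξ => hH' _
  let Z : Finset (Fin n) := univ.image z
  have hZc : Z.card ≤ M := by
    refine card_image_le.trans ?_
    rw [card_univ, hM]
  let Wi : Finset (Fin n) := univ.image w
  have hWc : Wi.card ≤ M := by
    refine card_image_le.trans ?_
    rw [card_univ, hM]
  -- the number of slots
  obtain ⟨C2, hC2⟩ : ∃ C2, C2 = Fintype.card {c : Fin k × Fin k // c.1 < c.2} := ⟨_, rfl⟩
  have hC2le : L * C2 ≤ L * (k * m) ^ 2 := by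
    refine Nat.mul_le_mul_left _ ?_
    rw [hC2]
    refine (card_classPair_le k).trans ?_
    exact Nat.pow_le_pow_left (Nat.le_mul_of_pos_right _ (by omega)) 2
  have hslots : Z.card + M + L * C2 ≤ Nat.sqrt n + 1 := by omega
  obtain ⟨e, he⟩ : ∃ e, e = Nat.sqrt n + 1 - (Z.card + M + L * C2) := ⟨_, rfl⟩
  -- the remaining vertices
  have hcard : Fintype.card (Xi L k m ⊕ (Xi L k m ⊕ Fin e)) ≤
      Fintype.card {x : Fin n // x ∉ Z ∪ Wi} := by
    rw [Fintype.card_subtype_compl]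
    simp only [Fintype.card_sum, ← hM, Fintype.card_fin, Fintype.card_coe]
    have := card_union_le Z Wi
    omega
  obtain ⟨g'⟩ := Function.Embedding.nonempty_of_card_le hcard
  let g : Xi L k m ⊕ (Xi L k m ⊕ Fin e) → Fin n := fun a => (g' a).1
  have hg : Function.Injective g := fun a b hab => g'.injective (Subtype.ext hab)
  have hgA : ∀ a, g a ∉ Z ∪ Wi := fun a => (g' a).2
  let φ : GV {x // x ∈ Z} L k m e → Fin n := gmap w g
  have hφ : Function.Injective φ := by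
    refine gmap_injective w g hw hg ?_ ?_ ?_
    · intro ξ hξ
      simp only [Z, mem_image, mem_univ, true_and] at hξ
      obtain ⟨ξ', h⟩ := hξ
      exact hzw ξ' ξ h
    · intro a ha
      exact hgA a (mem_union_left _ ha)
    · intro a ξ h
      apply hgA a
      rw [h]
      exact mem_union_right _ (mem_image_of_mem w (mem_univ ξ))
  let zf : Xi L k m → {x // x ∈ Z} := fun ξ => ⟨z ξ, mem_image_of_mem z (mem_univ ξ)⟩
  have hslotcard : Fintype.card (Slot {x // x ∈ Z} L k m e) = Nat.sqrt n + 1 := by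
    simp only [Slot, Fintype.card_sum, Fintype.card_prod, Fintype.card_fin]
    have e1 : Fintype.card {x // x ∈ Z} = Z.card := Fintype.card_coe Z
    have e2 : L * Fintype.card (PairT k m) = M := by rw [hM]; simp
    rw [e1, e2, ← hC2]
    omega
  -- variable edges are in H
  have hvarH : ∀ (ed : {p : Fin n × Fin n // p.1 < p.2}) ξ, IsVar φ zf ξ ed.1.1 ed.1.2 →
      ed ∈ H := by
    intro ed ξ hv
    refine (hHzw ξ).mem ed ?_
    rcases hv with ⟨a, b⟩ | ⟨a, b⟩
    · left; exact ⟨a.symm, b.symm⟩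
    · right; exact ⟨a.symm, b.symm⟩
  let F : BlockFamily {p : Fin n × Fin n // p.1 < p.2} L k m K := gadgetFamily φ hφ zf
  have hconst : ∀ i, C.kind i = GateKind.not → i ∉ R → ∀ st st' val val',
      C.IsEvalM (F.asg st) val → C.IsEvalM (F.asg st') val' → (val i ↔ val' i) := by
    intro i hi hiR st st' val val' hv hv'
    refine hR i hi hiR _ _ val val' ?_ hv hv'
    intro ed hed
    constructor
    · exact gadget_adj_congr φ hφ zf _ _ _ _ (fun ξ hξ => absurd (hvarH ed ξ hξ) hed)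
    · exact gadget_adj_congr φ hφ zf _ _ _ _ (fun ξ hξ => absurd (hvarH ed ξ hξ) hed)
  obtain ⟨p, j, c, hmain⟩ := chain_main C F ρ R hRc hL hconst q l hq hl h1 h2 h3
  obtain ⟨valP, hvP, hoP⟩ := hC (gadgetGraph φ hφ zf (xOf (stP (K := K) p j)))
  obtain ⟨valN, hvN, hoN⟩ := hC (gadgetGraph φ hφ zf
    (xOf (Function.update (stP (K := K) p j) j (BState.col c))))
  have hP : valP C.out := by
    rw [hoP]
    obtain ⟨S, hS, hcard⟩ := gadget_clique φ hφ zf (stP (K := K) p j) p (by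
      intro i
      simp only [stP]
      by_cases hi : i.val < j.val
      · left; rw [if_pos hi]
      · right; rw [if_neg hi])
    refine ⟨S, hS, ?_⟩
    rw [hcard, hslotcard]
    push_cast
    exact Real.real_sqrt_lt_nat_sqrt_succ
  have hN := hmain valP valN hvP hvN hP
  rw [hoN] at hN
  obtain ⟨S, hS, hcardS⟩ := hN
  have hsqrt : (Nat.sqrt n : ℝ) ≤ Real.sqrt n := Real.nat_sqrt_le_real_sqrt
  have hcard' : Nat.sqrt n < S.card := by
    have : (Nat.sqrt n : ℝ) < (S.card : ℝ) := hsqrt.trans_lt hcardS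
    exact_mod_cast this
  have hsq1 : 1 ≤ Nat.sqrt n := by
    refine Nat.sqrt_pos.2 ?_
    omega
  exact gadget_no_clique φ hφ zf _ hK hk2 j c (by simp) S hS
    (by rw [hslotcard]; exact hcard') (by omega)

/-- natural-number form -/
theorem free_nat {n s ρ a : ℕ} (C : Circuit {p : Fin n × Fin n // p.1 < p.2} s)
    (hC : C.ComputesCliqueM) (H : Finset {p : Fin n × Fin n // p.1 < p.2})
    (R : Finset (Fin s)) (hRc : R.card ≤ ρ)
    (hR : ∀ i, C.kind i = GateKind.not → i ∉ R → ∀ x x' val val',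
      (∀ v, v ∉ H → (x v ↔ x' v)) → C.IsEvalM x val → C.IsEvalM x' val' → (val i ↔ val' i))
    (ha : 2 ≤ a) (hh : (108 * a ^ 8 * 2 ^ ρ) ^ 2 ≤ H.card)
    (hn : (108 * a ^ 8 * 2 ^ ρ) ^ 2 ≤ n) : 2 ^ a ≤ n * s := by
  by_contra hlt
  push Not at hlt
  obtain ⟨B, hB⟩ : ∃ B, B = a ^ 8 * 2 ^ ρ := ⟨_, rfl⟩
  have hB' : 108 * a ^ 8 * 2 ^ ρ = 108 * B := by rw [hB]; ring
  rw [hB'] at hh hn
  have hBpos : 1 ≤ B := by
    rw [hB]
    exact Nat.mul_pos (pow_pos (by omega) _) (pow_pos (by norm_num) _)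
  have hkm : 2 ^ ρ * ((2 * a ^ 2 + 1) * (2 * a ^ 2)) ^ 2 ≤ 36 * B := by
    have e1 : 2 * a ^ 2 + 1 ≤ 3 * a ^ 2 := by
      have : 1 ≤ a ^ 2 := Nat.one_le_pow _ _ (by omega)
      omega
    calc 2 ^ ρ * ((2 * a ^ 2 + 1) * (2 * a ^ 2)) ^ 2
        ≤ 2 ^ ρ * ((3 * a ^ 2) * (2 * a ^ 2)) ^ 2 :=
          Nat.mul_le_mul_left _ (Nat.pow_le_pow_left (Nat.mul_le_mul_right _ e1) 2)
      _ = 36 * B := by rw [hB]; ring
  have hsq : 108 * B ≤ Nat.sqrt n := by
    rw [Nat.le_sqrt]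
    calc 108 * B * (108 * B) = (108 * B) ^ 2 := by ring
      _ ≤ n := hn
  have hsqn : Nat.sqrt n * Nat.sqrt n ≤ n := Nat.sqrt_le n
  have hs : s < 2 ^ a := by
    refine lt_of_le_of_lt ?_ hlt
    exact Nat.le_mul_of_pos_left _ (by nlinarith)
  have hρa : ρ + 1 ≤ a := by
    have h1 : (2 ^ ρ) ^ 2 ≤ n := by
      refine le_trans (Nat.pow_le_pow_left ?_ 2) hn
      rw [hB]
      calc 2 ^ ρ = 1 * 2 ^ ρ := (one_mul _).symm
        _ ≤ a ^ 8 * 2 ^ ρ := Nat.mul_le_mul_right _ (Nat.one_le_pow _ _ (by omega))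
        _ ≤ 108 * (a ^ 8 * 2 ^ ρ) := Nat.le_mul_of_pos_left _ (by norm_num)
    have hspos : 1 ≤ s := by
      have := C.out.isLt
      omega
    have h2 : n < 2 ^ a := lt_of_le_of_lt (Nat.le_mul_of_pos_right _ hspos) hlt
    have h3 : 2 ^ (ρ * 2) < 2 ^ a := by
      rw [pow_mul]
      omega
    have h4 : ρ * 2 < a := (Nat.pow_lt_pow_iff_right (by norm_num)).1 h3
    omega
  refine free_finite (L := 2 ^ ρ) (k := 2 * a ^ 2 + 1) (m := 2 * a ^ 2) (K := 2 * a ^ 2) C hC H R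
    hRc hR rfl (by omega) ?_ ?_ a a (by omega) ha ?_ ?_ ?_ ?_ ?_ ?_
  · have : 1 ≤ a ^ 2 := Nat.one_le_pow _ _ (by omega)
    omega
  · have : 1 ≤ a ^ 2 := Nat.one_le_pow _ _ (by omega)
    omega
  · -- (h1)
    calc s * (a * a) ^ (a + 1) < 2 ^ (a + 1) * (a * a) ^ (a + 1) := by
          refine Nat.mul_lt_mul_of_pos_right ?_ (pow_pos (Nat.mul_pos (by omega) (by omega)) _)
          exact hs.trans (Nat.pow_lt_pow_right (by norm_num) (by omega))
      _ = (2 * (a * a)) ^ (a + 1) := (mul_pow _ _ _).symm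
      _ = (2 * a ^ 2) ^ (a + 1) := by rw [sq]
  · -- (h2)
    calc 2 * (s * a ^ (a + 1)) = 2 * s * a ^ (a + 1) := by ring
      _ ≤ 2 ^ (a + 1) * a ^ (a + 1) := by
          refine Nat.mul_le_mul_right _ ?_
          rw [pow_succ]
          omega
      _ = (2 * a) ^ (a + 1) := (mul_pow _ _ _).symm
      _ ≤ (2 * a ^ 2) ^ (a + 1) := by
          refine Nat.pow_le_pow_left (Nat.mul_le_mul_left _ ?_) _
          exact Nat.le_self_pow (by norm_num) a
  · -- (h3)
    calc 2 * ((ρ + 1) * a ^ 2) ≤ 2 * (a * a ^ 2) :=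
          Nat.mul_le_mul_left _ (Nat.mul_le_mul_right _ hρa)
      _ < (2 * a ^ 2) ^ 2 := by
          have : 1 ≤ a ^ 3 := Nat.one_le_pow _ _ (by omega)
          have e1 : 2 * (a * a ^ 2) = 2 * a ^ 3 := by ring
          have e2 : (2 * a ^ 2) ^ 2 = 4 * (a * a ^ 3) := by ring
          rw [e1, e2]
          nlinarith
  · calc 2 * (2 ^ ρ * ((2 * a ^ 2 + 1) * (2 * a ^ 2)) ^ 2) *
          (2 ^ ρ * ((2 * a ^ 2 + 1) * (2 * a ^ 2)) ^ 2)
        ≤ 2 * (36 * B) * (36 * B) :=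
          Nat.mul_le_mul (Nat.mul_le_mul_left _ hkm) hkm
      _ ≤ (108 * B) ^ 2 := by nlinarith
      _ ≤ H.card := hh
  · omega
  · have h1 : 2 ≤ Nat.sqrt n := by omega
    have h2 : 3 * Nat.sqrt n ≤ Nat.sqrt n * Nat.sqrt n := Nat.mul_le_mul_right _ (by omega)
    omega

theorem free_real {n s : ℕ} (hn : 2 ≤ n)
    (C : Circuit {p : Fin n × Fin n // p.1 < p.2} s) (hC : C.ComputesClique)
    (H : Finset {p : Fin n × Fin n // p.1 < p.2}) :
    (2 : ℝ) ^ ((1 / 4 : ℝ) * (Real.sqrt (min H.card n : ℕ) / 2 ^ C.numNotOn H) ^ (1 / 8 : ℝ)) ≤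
      n * s := by
  classical
  by_contra hlt
  push Not at hlt
  obtain ⟨ρ, hρ⟩ : ∃ ρ, ρ = C.numNotOn H := ⟨_, rfl⟩
  rw [← hρ] at hlt
  set y : ℝ := Real.sqrt (min H.card n : ℕ) / 2 ^ ρ with hy
  have hy0 : 0 ≤ y := by positivity
  set x : ℝ := (1 / 4 : ℝ) * y ^ (1 / 8 : ℝ) with hx
  have hx0 : 0 ≤ x := by positivity
  have hs : 1 ≤ s := by
    have := C.out.isLt
    omega
  have hnR : (2 : ℝ) ≤ n := by exact_mod_cast hn
  have hsR : (1 : ℝ) ≤ s := by exact_mod_cast hs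
  have hx1 : 1 < x := by
    by_contra hcon
    push Not at hcon
    have h1 : (2 : ℝ) ^ x ≤ (2 : ℝ) ^ (1 : ℝ) :=
      Real.rpow_le_rpow_of_exponent_le (by norm_num) hcon
    rw [Real.rpow_one] at h1
    nlinarith
  set a : ℕ := ⌈x⌉₊ with ha
  have hax : x ≤ a := Nat.le_ceil x
  have hax' : (a : ℝ) < x + 1 := Nat.ceil_lt_add_one hx0
  have ha2 : 2 ≤ a := by
    have : (1 : ℝ) < a := hx1.trans_le hax
    have : 1 < a := by exact_mod_cast this
    omega
  have h1 : (108 : ℝ) * a ^ 8 ≤ y := by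
    have h2 : (a : ℝ) ≤ 2 * x := by linarith
    have h3 : (a : ℝ) ^ 8 ≤ (2 * x) ^ 8 := pow_le_pow_left₀ (by positivity) h2 8
    have h4 : (2 * x) ^ 8 = (1 / 256) * y := by
      rw [hx]
      have : (y ^ (1 / 8 : ℝ)) ^ 8 = y := by
        rw [← Real.rpow_natCast, ← Real.rpow_mul hy0]
        norm_num
      calc (2 * ((1 / 4 : ℝ) * y ^ (1 / 8 : ℝ))) ^ 8
          = (1 / 256) * (y ^ (1 / 8 : ℝ)) ^ 8 := by ring
        _ = _ := by rw [this]
    rw [h4] at h3
    linarith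
  have h2 : (108 : ℝ) * a ^ 8 * 2 ^ ρ ≤ Real.sqrt (min H.card n : ℕ) := by
    rw [hy] at h1
    rwa [le_div_iff₀ (by positivity)] at h1
  have h3 : (108 * a ^ 8 * 2 ^ ρ) ^ 2 ≤ min H.card n := by
    have h4 : ((108 : ℝ) * a ^ 8 * 2 ^ ρ) ^ 2 ≤ ((min H.card n : ℕ) : ℝ) := by
      have := pow_le_pow_left₀ (by positivity) h2 2
      rwa [Real.sq_sqrt (by positivity)] at this
    exact_mod_cast h4
  let R : Finset (Fin s) := univ.filter (fun i => C.kind i = GateKind.not ∧ C.DependsOn H i)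
  have hRc : R.card ≤ ρ := by
    rw [hρ]
    simp only [R, Circuit.numNotOn]
    rw [Nat.card_eq_fintype_card, Fintype.card_subtype]
  have h4 := free_nat C hC.toM H R hRc (by
    intro i hi hiR x x' val val' hxx hv hv'
    by_contra hne
    apply hiR
    simp only [R, mem_filter, mem_univ, true_and]
    exact ⟨hi, x, x', val, val', hxx, (C.isEval_iff _ _).2 hv, (C.isEval_iff _ _).2 hv', hne⟩)
    ha2 (h3.trans (min_le_left _ _)) (h3.trans (min_le_right _ _))
  have h5 : (2 : ℝ) ^ x ≤ (2 : ℝ) ^ (a : ℝ) :=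
    Real.rpow_le_rpow_of_exponent_le (by norm_num) hax
  rw [Real.rpow_natCast] at h5
  have h6 : ((2 ^ a : ℕ) : ℝ) ≤ ((n * s : ℕ) : ℝ) := by exact_mod_cast h4
  push_cast at h6
  linarith

end Pool.Agent.CliqueCircuits
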