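import Pool.Agent.Lib.MP_0a1b52_lc.ChainA

/-!
A gadget graph in which the blocks of `k`-partite clique instances are controlled by a prescribed
star forest of edges: the variable `ξ` is the edge between the centre `zf ξ` and the leaf `on ξ`.
-/

namespace Pool.Agent.CliqueCircuits

open Finset

/-- pairs of vertices of a block in increasing classes -/
abbrev PairT (k m : ℕ) := {e : (Fin k × Fin m) × (Fin k × Fin m) // e.1.1 < e.2.1}

/-- the variables -/
abbrev Xi (L k m : ℕ) := Fin L × PairT k m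

/-- vertices of the gadget graph -/
inductive GV (Zt : Type) (L k m e : ℕ)
  | ctr (v : Zt)
  | on (ξ : Xi L k m)
  | off (ξ : Xi L k m)
  | opt (ξ : Xi L k m)
  | ext (a : Fin e)

/-- slots: every clique has at most one vertex in each slot -/
abbrev Slot (Zt : Type) (L k m e : ℕ) :=
  Zt ⊕ (Xi L k m ⊕ ((Fin L × {c : Fin k × Fin k // c.1 < c.2}) ⊕ Fin e))

section

variable {Zt : Type} {L k m e K n : ℕ}

def GV.slot : GV Zt L k m e → Slot Zt L k m e
  | .ctr v => Sum.inl v
  | .on ξ => Sum.inr (Sum.inl ξ)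
  | .off ξ => Sum.inr (Sum.inl ξ)
  | .opt ξ => Sum.inr (Sum.inr (Sum.inl (ξ.1, ⟨(ξ.2.1.1.1, ξ.2.1.2.1), ξ.2.2⟩)))
  | .ext a => Sum.inr (Sum.inr (Sum.inr a))

/-- two pairs agree on common classes -/
def Consistent (ξ ξ' : Xi L k m) : Prop :=
  (ξ.2.1.1.1 = ξ'.2.1.1.1 → ξ.2.1.1 = ξ'.2.1.1) ∧
  (ξ.2.1.1.1 = ξ'.2.1.2.1 → ξ.2.1.1 = ξ'.2.1.2) ∧
  (ξ.2.1.2.1 = ξ'.2.1.1.1 → ξ.2.1.2 = ξ'.2.1.1) ∧
  (ξ.2.1.2.1 = ξ'.2.1.2.1 → ξ.2.1.2 = ξ'.2.1.2)

def Conflict (zf : Xi L k m → Zt) (x : Xi L k m → Prop) : GV Zt L k m e → GV Zt L k m e → Prop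
  | .ctr v, .on ξ => v = zf ξ ∧ ¬ x ξ
  | .off ξ, .opt ξ' => ξ = ξ'
  | .opt ξ, .opt ξ' => ξ.1 = ξ'.1 ∧ ¬ Consistent ξ ξ'
  | _, _ => False

def gadj (zf : Xi L k m → Zt) (x : Xi L k m → Prop) (a b : GV Zt L k m e) : Prop :=
  a.slot ≠ b.slot ∧ ¬ Conflict zf x a b ∧ ¬ Conflict zf x b a

/-- the gadget graph -/
def gadgetGraph (φ : GV Zt L k m e → Fin n) (hφ : Function.Injective φ) (zf : Xi L k m → Zt)
    (x : Xi L k m → Prop) : SimpleGraph (Fin n) where
  Adj s t := ∃ a b, φ a = s ∧ φ b = t ∧ gadj zf x a b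
  symm := ⟨by
    rintro s t ⟨a, b, ha, hb, h⟩
    exact ⟨b, a, hb, ha, fun h' => h.1 h'.symm, h.2.2, h.2.1⟩⟩
  loopless := ⟨by
    rintro s ⟨a, b, ha, hb, h⟩
    have : a = b := hφ (ha.trans hb.symm)
    subst this
    exact h.1 rfl⟩

theorem gadgetGraph_adj (φ : GV Zt L k m e → Fin n) (hφ : Function.Injective φ)
    (zf : Xi L k m → Zt) (x : Xi L k m → Prop) (a b : GV Zt L k m e) :
    (gadgetGraph φ hφ zf x).Adj (φ a) (φ b) ↔ gadj zf x a b := by
  constructor
  · rintro ⟨a', b', ha, hb, h⟩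
    rw [hφ ha, hφ hb] at h
    exact h
  · intro h
    exact ⟨a, b, rfl, rfl, h⟩

/-- values of the variables in a state -/
def xOf (st : Fin L → BState k m K) (ξ : Xi L k m) : Prop := (st ξ.1).rel ξ.2.1.1 ξ.2.1.2

theorem gadget_clique [Fintype Zt] (φ : GV Zt L k m e → Fin n) (hφ : Function.Injective φ)
    (zf : Xi L k m → Zt) (st : Fin L → BState k m K) (p : Fin L → Fin k → Fin m)
    (h : ∀ i, st i = BState.full ∨ st i = BState.tr (p i)) :
    ∃ S : Finset (Fin n), (gadgetGraph φ hφ zf (xOf st)).IsClique (S : Set (Fin n)) ∧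
      S.card = Fintype.card (Slot Zt L k m e) := by
  classical
  let matched : Xi L k m → Prop := fun ξ =>
    p ξ.1 ξ.2.1.1.1 = ξ.2.1.1.2 ∧ p ξ.1 ξ.2.1.2.1 = ξ.2.1.2.2
  let pick : Slot Zt L k m e → GV Zt L k m e
    | Sum.inl v => GV.ctr v
    | Sum.inr (Sum.inl ξ) => if matched ξ then GV.on ξ else GV.off ξ
    | Sum.inr (Sum.inr (Sum.inl ic)) =>
        GV.opt (ic.1, ⟨((ic.2.1.1, p ic.1 ic.2.1.1), (ic.2.1.2, p ic.1 ic.2.1.2)), ic.2.2⟩)
    | Sum.inr (Sum.inr (Sum.inr a)) => GV.ext a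
  have hslot : ∀ σ, (pick σ).slot = σ := by
    intro σ
    rcases σ with v | ξ | ic | a
    · rfl
    · simp only [pick]
      by_cases hm : matched ξ
      · rw [if_pos hm]; rfl
      · rw [if_neg hm]; rfl
    · rfl
    · rfl
  have hpick : Function.Injective pick := by
    intro σ σ' hσ
    rw [← hslot σ, ← hslot σ', hσ]
  have hconf : ∀ σ σ', ¬ Conflict zf (xOf st) (pick σ) (pick σ') := by
    intro σ σ'
    rcases σ with v | ξ | ic | a <;> rcases σ' with v' | ξ' | ic' | a'
    · simp [pick, Conflict]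
    · simp only [pick]
      by_cases hm : matched ξ'
      · rw [if_pos hm]
        simp only [Conflict, not_and, not_not]
        intro _
        simp only [xOf]
        rcases h ξ'.1 with h | h
        · rw [h]; trivial
        · rw [h]; exact hm
      · rw [if_neg hm]
        simp [Conflict]
    · simp [pick, Conflict]
    · simp [pick, Conflict]
    · simp only [pick]
      by_cases hm : matched ξ
      · rw [if_pos hm]; simp [Conflict]
      · rw [if_neg hm]; simp [Conflict]
    · simp only [pick]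
      by_cases hm : matched ξ <;> by_cases hm' : matched ξ' <;> simp [hm, hm', Conflict]
    · simp only [pick]
      by_cases hm : matched ξ
      · rw [if_pos hm]; simp [Conflict]
      · rw [if_neg hm]
        simp only [Conflict]
        rintro rfl
        exact hm ⟨rfl, rfl⟩
    · simp only [pick]
      by_cases hm : matched ξ
      · rw [if_pos hm]; simp [Conflict]
      · rw [if_neg hm]; simp [Conflict]
    · simp [pick, Conflict]
    · simp only [pick]
      by_cases hm : matched ξ'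
      · rw [if_pos hm]; simp [Conflict]
      · rw [if_neg hm]; simp [Conflict]
    · simp only [pick, Conflict, not_and, not_not]
      intro hii
      refine ⟨?_, ?_, ?_, ?_⟩ <;>
      · intro hc
        simp only at hc ⊢
        rw [hc, hii]
    · simp [pick, Conflict]
    · simp [pick, Conflict]
    · simp only [pick]
      by_cases hm : matched ξ'
      · rw [if_pos hm]; simp [Conflict]
      · rw [if_neg hm]; simp [Conflict]
    · simp [pick, Conflict]
    · simp [pick, Conflict]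
  refine ⟨univ.image (fun σ => φ (pick σ)), ?_, ?_⟩
  · intro s hs t ht hst
    simp only [coe_image, coe_univ, Set.image_univ, Set.mem_range] at hs ht
    obtain ⟨σ, rfl⟩ := hs
    obtain ⟨σ', rfl⟩ := ht
    refine (gadgetGraph_adj φ hφ zf _ _ _).2 ⟨?_, hconf _ _, hconf _ _⟩
    rw [hslot, hslot]
    intro h
    exact hst (by rw [h])
  · exact (card_image_of_injective univ (hφ.comp hpick)).trans card_univ

theorem gadget_no_clique [Fintype Zt] (φ : GV Zt L k m e → Fin n) (hφ : Function.Injective φ)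
    (zf : Xi L k m → Zt) (st : Fin L → BState k m K) (hK : K < k) (hk2 : 2 ≤ k) (j : Fin L)
    (c : Fin k × Fin m → Fin K) (hj : st j = BState.col c) (S : Finset (Fin n))
    (hS : (gadgetGraph φ hφ zf (xOf st)).IsClique (S : Set (Fin n)))
    (hcard : Fintype.card (Slot Zt L k m e) ≤ S.card) (hS2 : 2 ≤ S.card) : False := by
  classical
  have hrange : ∀ x ∈ S, ∃ a, φ a = x := by
    intro x hx
    obtain ⟨y, hy, hxy⟩ := exists_mem_ne (by omega : 1 < S.card) x
    obtain ⟨a, b, ha, _, _⟩ := hS hx hy (fun h => hxy h.symm)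
    exact ⟨a, ha⟩
  -- selected vertices
  have hadj : ∀ a b, φ a ∈ S → φ b ∈ S → a ≠ b → gadj zf (xOf st) a b := by
    intro a b ha hb hab
    exact (gadgetGraph_adj φ hφ zf _ a b).1 (hS ha hb (fun h => hab (hφ h)))
  -- every slot is hit
  have hhit : ∀ σ, ∃ a, φ a ∈ S ∧ a.slot = σ := by
    have hne : Nonempty (GV Zt L k m e) := by
      obtain ⟨x, hx⟩ := card_pos.1 (by omega : 0 < S.card)
      exact ⟨(hrange x hx).choose⟩
    choose! g hg using hrange
    have hinj : Set.InjOn (fun x => (g x).slot) S := by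
      intro x hx y hy hxy
      by_contra hne
      have h1 : g x ≠ g y := by
        intro h
        apply hne
        rw [← hg x hx, ← hg y hy, h]
      have := hadj (g x) (g y) (by rw [hg x hx]; exact hx) (by rw [hg y hy]; exact hy) h1
      exact this.1 hxy
    have himg : S.image (fun x => (g x).slot) = univ := by
      apply eq_univ_of_card
      apply le_antisymm (card_le_univ _)
      rw [card_image_of_injOn hinj]
      exact hcard
    intro σ
    have : σ ∈ S.image (fun x => (g x).slot) := by rw [himg]; exact mem_univ _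
    rw [mem_image] at this
    obtain ⟨x, hx, hxσ⟩ := this
    exact ⟨g x, by rw [hg x hx]; exact hx, hxσ⟩
  -- options in block `j`
  have hopt : ∀ (c c' : Fin k), c < c' → ∃ ξ : Xi L k m, φ (GV.opt ξ) ∈ S ∧ ξ.1 = j ∧
      ξ.2.1.1.1 = c ∧ ξ.2.1.2.1 = c' := by
    intro c c' hcc
    obtain ⟨a, ha, hslot⟩ := hhit (Sum.inr (Sum.inr (Sum.inl (j, ⟨(c, c'), hcc⟩))))
    cases a with
    | ctr v => simp [GV.slot] at hslot
    | on ξ => simp [GV.slot] at hslot
    | off ξ => simp [GV.slot] at hslot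
    | ext a => simp [GV.slot] at hslot
    | opt ξ =>
      simp only [GV.slot, Sum.inr.injEq, Sum.inl.injEq, Prod.mk.injEq, Subtype.mk.injEq] at hslot
      exact ⟨ξ, ha, hslot.1, hslot.2.1, hslot.2.2⟩
  let Used : Fin k × Fin m → Prop := fun u => ∃ ξ : Xi L k m, φ (GV.opt ξ) ∈ S ∧ ξ.1 = j ∧
    (u = ξ.2.1.1 ∨ u = ξ.2.1.2)
  have huniq : ∀ u u', Used u → Used u' → u.1 = u'.1 → u = u' := by
    rintro u u' ⟨ξ, hξ, hξj, hu⟩ ⟨ξ', hξ', hξ'j, hu'⟩ hcl
    by_cases hξξ : ξ = ξ'
    · subst hξξ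
      have hlt := ξ.2.2
      rcases hu with rfl | rfl <;> rcases hu' with rfl | rfl
      · rfl
      · exact absurd hcl hlt.ne
      · exact absurd hcl hlt.ne'
      · rfl
    · have hg := hadj (GV.opt ξ) (GV.opt ξ') hξ hξ' (by
        intro h
        exact hξξ (by injection h))
      have hcons : Consistent ξ ξ' := by
        by_contra hcon
        exact hg.2.1 ⟨hξj.trans hξ'j.symm, hcon⟩
      obtain ⟨h1, h2, h3, h4⟩ := hcons
      rcases hu with rfl | rfl <;> rcases hu' with rfl | rfl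
      · exact h1 hcl
      · exact h2 hcl
      · exact h3 hcl
      · exact h4 hcl
  have hex : ∀ c : Fin k, ∃ u, Used u ∧ u.1 = c := by
    intro c
    by_cases h0 : c.val = 0
    · obtain ⟨ξ, hξ, hξj, h1, _⟩ := hopt c ⟨1, hk2⟩ (by rw [Fin.lt_def]; simp [h0])
      exact ⟨ξ.2.1.1, ⟨ξ, hξ, hξj, Or.inl rfl⟩, h1⟩
    · obtain ⟨ξ, hξ, hξj, _, h2⟩ := hopt ⟨0, by omega⟩ c (by rw [Fin.lt_def]; simp; omega)
      exact ⟨ξ.2.1.2, ⟨ξ, hξ, hξj, Or.inr rfl⟩, h2⟩
  choose P hPused hPc using hex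
  have hcol : ∀ a b : Fin k, a < b → c (P a) ≠ c (P b) := by
    intro a b hab
    obtain ⟨ξ, hξ, hξj, h1, h2⟩ := hopt a b hab
    have e1 : ξ.2.1.1 = P a := huniq _ _ ⟨ξ, hξ, hξj, Or.inl rfl⟩ (hPused a) (by rw [h1, hPc])
    have e2 : ξ.2.1.2 = P b := huniq _ _ ⟨ξ, hξ, hξj, Or.inr rfl⟩ (hPused b) (by rw [h2, hPc])
    -- the on vertex is selected
    have hon : φ (GV.on ξ) ∈ S := by
      obtain ⟨d, hd, hslot⟩ := hhit (Sum.inr (Sum.inl ξ))
      cases d with
      | ctr v => simp [GV.slot] at hslot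
      | on ξ' =>
        simp only [GV.slot, Sum.inr.injEq, Sum.inl.injEq] at hslot
        rw [← hslot]; exact hd
      | off ξ' =>
        simp only [GV.slot, Sum.inr.injEq, Sum.inl.injEq] at hslot
        subst hslot
        have := hadj (GV.off ξ') (GV.opt ξ') hd hξ (by intro h; cases h)
        exact absurd rfl this.2.1
      | ext a => simp [GV.slot] at hslot
      | opt ξ' => simp [GV.slot] at hslot
    have hctr : φ (GV.ctr (zf ξ)) ∈ S := by
      obtain ⟨d, hd, hslot⟩ := hhit (Sum.inl (zf ξ))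
      cases d with
      | ctr v =>
        simp only [GV.slot, Sum.inl.injEq] at hslot
        rw [← hslot]; exact hd
      | on ξ' => simp [GV.slot] at hslot
      | off ξ' => simp [GV.slot] at hslot
      | ext a => simp [GV.slot] at hslot
      | opt ξ' => simp [GV.slot] at hslot
    have hg := hadj (GV.ctr (zf ξ)) (GV.on ξ) hctr hon (by intro h; cases h)
    have hx : xOf st ξ := by
      by_contra hx
      exact hg.2.1 ⟨rfl, hx⟩
    simp only [xOf, hξj, hj, BState.rel] at hx
    rw [e1, e2] at hx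
    exact hx
  -- too many colours
  have hinj : Function.Injective (fun a => c (P a)) := by
    intro a b hab
    rcases lt_trichotomy a b with h | h | h
    · exact absurd hab (hcol a b h)
    · exact h
    · exact absurd hab.symm (hcol b a h)
  have := Fintype.card_le_of_injective _ hinj
  simp at this
  omega

/-- `e` is the variable edge of `ξ` -/
def IsVar (φ : GV Zt L k m e → Fin n) (zf : Xi L k m → Zt) (ξ : Xi L k m) (s t : Fin n) : Prop :=
  (φ (GV.ctr (zf ξ)) = s ∧ φ (GV.on ξ) = t) ∨ (φ (GV.on ξ) = s ∧ φ (GV.ctr (zf ξ)) = t)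

theorem gadget_adj_congr (φ : GV Zt L k m e → Fin n) (hφ : Function.Injective φ)
    (zf : Xi L k m → Zt) (x x' : Xi L k m → Prop) (s t : Fin n)
    (h : ∀ ξ, IsVar φ zf ξ s t → (x ξ → x' ξ)) :
    (gadgetGraph φ hφ zf x).Adj s t → (gadgetGraph φ hφ zf x').Adj s t := by
  have hconf : ∀ a b : GV Zt L k m e, (∀ ξ, a = GV.ctr (zf ξ) → b = GV.on ξ → (x ξ → x' ξ)) →
      ¬ Conflict zf x a b → ¬ Conflict zf x' a b := by
    intro a b hab hnc hc
    apply hnc
    cases a <;> cases b <;> simp only [Conflict] at hc ⊢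
    · obtain ⟨h1, h2⟩ := hc
      refine ⟨h1, fun h3 => h2 (hab _ (by rw [h1]) rfl h3)⟩
    · exact hc
    · exact hc
  rintro ⟨a, b, rfl, rfl, h1, h2, h3⟩
  refine ⟨a, b, rfl, rfl, h1, hconf a b ?_ h2, hconf b a ?_ h3⟩
  · rintro ξ rfl rfl
    exact h ξ (Or.inl ⟨rfl, rfl⟩)
  · rintro ξ rfl rfl
    exact h ξ (Or.inr ⟨rfl, rfl⟩)

theorem gadget_adj_var (φ : GV Zt L k m e → Fin n) (hφ : Function.Injective φ)
    (zf : Xi L k m → Zt) (x : Xi L k m → Prop) (ξ : Xi L k m) (s t : Fin n)
    (h : IsVar φ zf ξ s t) : (gadgetGraph φ hφ zf x).Adj s t ↔ x ξ := by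
  have key : gadj (e := e) zf x (GV.ctr (zf ξ)) (GV.on ξ) ↔ x ξ := by
    constructor
    · intro hg
      by_contra hx
      exact hg.2.1 ⟨rfl, hx⟩
    · intro hx
      refine ⟨by simp [GV.slot], ?_, by simp [Conflict]⟩
      simp only [Conflict, not_and, not_not]
      exact fun _ => hx
  rcases h with ⟨rfl, rfl⟩ | ⟨rfl, rfl⟩
  · rw [gadgetGraph_adj, key]
  · rw [SimpleGraph.adj_comm, gadgetGraph_adj, key]

/-- The gadget graphs form a block family. -/
noncomputable def gadgetFamily (φ : GV Zt L k m e → Fin n) (hφ : Function.Injective φ)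
    (zf : Xi L k m → Zt) :
    BlockFamily {p : Fin n × Fin n // p.1 < p.2} L k m K where
  asg st := fun ed => (gadgetGraph φ hφ zf (xOf st)).Adj ed.1.1 ed.1.2
  mono := by
    intro st st' h v hv
    exact gadget_adj_congr φ hφ zf _ _ _ _ (fun ξ _ hx => h _ _ _ hx) hv
  loc := by
    classical
    intro st j
    let Pr : {p : Fin n × Fin n // p.1 < p.2} → Xi L k m → Prop := fun ed ξ =>
      ξ.1 = j ∧ IsVar φ zf ξ ed.1.1 ed.1.2
    let τ : {p : Fin n × Fin n // p.1 < p.2} → InTy (Fin k × Fin m) := fun ed =>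
      if h : ∃ ξ, Pr ed ξ then InTy.pair h.choose.2.1.1 h.choose.2.1.2
      else (if (gadgetGraph φ hφ zf (xOf st)).Adj ed.1.1 ed.1.2 then InTy.tt else InTy.ff)
    have hspec : ∀ (b : BState k m K) (val : InTy (Fin k × Fin m) → Prop), val InTy.tt →
        ¬ val InTy.ff → (∀ u v, val (InTy.pair u v) ↔ b.rel u v) → ∀ ed, val (τ ed) ↔
          (gadgetGraph φ hφ zf (xOf (Function.update st j b))).Adj ed.1.1 ed.1.2 := by
      intro b val htt hff hpair ed
      by_cases h : ∃ ξ, Pr ed ξ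
      · have hτ : τ ed = InTy.pair h.choose.2.1.1 h.choose.2.1.2 := by simp only [τ, dif_pos h]
        obtain ⟨h1, h2⟩ := h.choose_spec
        rw [hτ, hpair, gadget_adj_var φ hφ zf _ _ _ _ h2]
        simp only [xOf, h1, Function.update_self]
      · have hcongr : (gadgetGraph φ hφ zf (xOf (Function.update st j b))).Adj ed.1.1 ed.1.2 ↔
            (gadgetGraph φ hφ zf (xOf st)).Adj ed.1.1 ed.1.2 := by
          have hx : ∀ ξ, IsVar φ zf ξ ed.1.1 ed.1.2 →
              (xOf (Function.update st j b) ξ ↔ xOf st ξ) := by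
            intro ξ hξ
            have hj : ξ.1 ≠ j := fun hj => h ⟨ξ, hj, hξ⟩
            simp only [xOf, Function.update_of_ne hj]
          exact ⟨gadget_adj_congr φ hφ zf _ _ _ _ (fun ξ hξ => (hx ξ hξ).1),
            gadget_adj_congr φ hφ zf _ _ _ _ (fun ξ hξ => (hx ξ hξ).2)⟩
        have hτ : τ ed = (if (gadgetGraph φ hφ zf (xOf st)).Adj ed.1.1 ed.1.2 then InTy.tt
            else InTy.ff) := by simp only [τ, dif_neg h]
        rw [hτ, hcongr]
        by_cases h3 : (gadgetGraph φ hφ zf (xOf st)).Adj ed.1.1 ed.1.2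
        · rw [if_pos h3]
          exact ⟨fun _ => h3, fun _ => htt⟩
        · rw [if_neg h3]
          exact ⟨fun h => absurd h hff, fun h => absurd h h3⟩
    refine ⟨τ, ?_, ?_, ?_⟩
    · intro ed u u' h
      simp only [τ] at h
      split_ifs at h with h1
      rw [InTy.pair.injEq] at h
      intro huu
      have hlt := h1.choose.2.2
      rw [h.1, h.2, huu] at hlt
      exact lt_irrefl _ hlt
    · intro p v
      exact hspec (BState.tr p) (fun τ => τ.pos p) trivial (fun h => h) (fun _ _ => Iff.rfl) v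
    · intro c v
      exact hspec (BState.col c) (fun τ => τ.neg c) trivial (fun h => h) (fun _ _ => Iff.rfl) v

end

end Pool.Agent.CliqueCircuits
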