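import Pool.Agent.Lib.MP_0a1b52_lc.Width

/-!
Numerical form of the negation width bound.
-/

namespace Pool.Agent.CliqueCircuits

open Finset

theorem PairCells.mono {n e e' h : ℕ} {H : Finset {p : Fin n × Fin n // p.1 < p.2}} {Λ : Type}
    (hc : PairCells H Λ e h) (he : e' ≤ e) : PairCells H Λ e' h := by
  obtain ⟨U, z, w, hU, a1, a2, a3, a4, a5, a6, a7⟩ := hc
  exact ⟨fun a => U (Fin.castLE he a), z, w, hU.comp (Fin.castLE_injective he), a1, a2, a3,
    fun a => a4 _, fun a => a5 _, a6, a7⟩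

/-- the hidden gadget of a star -/
theorem star_hidden {n k m e h : ℕ} (H : Finset {p : Fin n × Fin n // p.1 < p.2})
    (hc : StarCells H (PairT k m) e h) :
    ∃ D : HidData n k m e h, (∀ ξ i, HR H (D.z ξ i) (D.w ξ i)) ∧
      ∀ γ, (D.toRole γ).slots = e + (1 + Fintype.card (CP k)) := by
  classical
  obtain ⟨U, v, w, hU, hw, hvw, hUv, hUw, hHR⟩ := hc
  let role : Fin n → Role Unit Unit Unit k m e := fun t =>
    if hu : ∃ a, U a = t then Role.uni hu.choose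
    else if v = t then Role.ctr () ()
    else if hx : ∃ x : PairT k m × Fin h, w x.1 x.2 = t then Role.leaf () hx.choose.1
    else Role.none
  have hroleU : ∀ a, role (U a) = Role.uni a := by
    intro a
    have h : ∃ a', U a' = U a := ⟨a, rfl⟩
    simp only [role, dif_pos h]
    rw [hU h.choose_spec]
  have hrolev : role v = Role.ctr () () := by
    have h1 : ¬ ∃ a, U a = v := fun ⟨a, ha⟩ => hUv _ ha
    simp only [role, dif_neg h1, if_true]
  have hrolew : ∀ ξ i, role (w ξ i) = Role.leaf () ξ := by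
    intro ξ i
    have h1 : ¬ ∃ a, U a = w ξ i := fun ⟨a, ha⟩ => hUw _ _ _ ha
    have h2 : ¬ v = w ξ i := hvw _ _
    have h3 : ∃ x : PairT k m × Fin h, w x.1 x.2 = w ξ i := ⟨(ξ, i), rfl⟩
    simp only [role, dif_neg h1, if_neg h2, dif_pos h3]
    rw [(hw _ _ _ _ h3.choose_spec).1]
  let D : HidData n k m e h :=
    { Η := Unit
      Sc := Unit
      fintypeSc := inferInstance
      nonemptySc := inferInstance
      role := role
      σc := fun _ => ()
      π := fun _ => ()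
      z := fun _ _ => v
      w := w
      zsel := fun _ _ => v
      U := U
      roleU := hroleU
      rolez := fun _ _ => hrolev
      zsel_eq := fun _ _ => rfl
      rolew := hrolew
      hsel := fun p => ⟨fun _ => (), fun _ => rfl, fun _ => rfl⟩
      inj := fun ξ i j _ h2 => (hw _ _ _ _ h2).2 }
  refine ⟨D, hHR, ?_⟩
  intro γ
  rw [(D.toRole γ).slots_eq]
  have : Nat.card (D.toRole γ).Sc = 1 := by
    change Nat.card Unit = 1
    simp
  rw [this]

/-- the hidden gadget of candidate edges -/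
theorem pair_hidden {n k m e h : ℕ} (hk2 : 2 ≤ k)
    (H : Finset {p : Fin n × Fin n // p.1 < p.2})
    (hc : PairCells H (PairT k m) e h) :
    ∃ D : HidData n k m e h, (∀ ξ i, HR H (D.z ξ i) (D.w ξ i)) ∧
      ∀ γ, (D.toRole γ).slots = e + (Fintype.card (CP k) + Fintype.card (CP k)) := by
  classical
  obtain ⟨U, z, w, hU, hz, hw, hzw, hUz, hUw, hinj, hHR⟩ := hc
  let role : Fin n → Role Unit Unit (PairT k m) k m e := fun t =>
    if hu : ∃ a, U a = t then Role.uni hu.choose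
    else if hx : ∃ x : PairT k m × Fin h, z x.1 x.2 = t then Role.ctr () hx.choose.1
    else if hx : ∃ x : PairT k m × Fin h, w x.1 x.2 = t then Role.leaf () hx.choose.1
    else Role.none
  have hroleU : ∀ a, role (U a) = Role.uni a := by
    intro a
    have h : ∃ a', U a' = U a := ⟨a, rfl⟩
    simp only [role, dif_pos h]
    rw [hU h.choose_spec]
  have hrolez : ∀ ξ i, role (z ξ i) = Role.ctr () ξ := by
    intro ξ i
    have h1 : ¬ ∃ a, U a = z ξ i := fun ⟨a, ha⟩ => hUz _ _ _ ha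
    have h3 : ∃ x : PairT k m × Fin h, z x.1 x.2 = z ξ i := ⟨(ξ, i), rfl⟩
    simp only [role, dif_neg h1, dif_pos h3]
    rw [hz _ _ _ _ h3.choose_spec]
  have hrolew : ∀ ξ i, role (w ξ i) = Role.leaf () ξ := by
    intro ξ i
    have h1 : ¬ ∃ a, U a = w ξ i := fun ⟨a, ha⟩ => hUw _ _ _ ha
    have h2 : ¬ ∃ x : PairT k m × Fin h, z x.1 x.2 = w ξ i := fun ⟨x, hx⟩ => hzw _ _ _ _ hx
    have h3 : ∃ x : PairT k m × Fin h, w x.1 x.2 = w ξ i := ⟨(ξ, i), rfl⟩
    simp only [role, dif_neg h1, dif_neg h2, dif_pos h3]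
    rw [hw _ _ _ _ h3.choose_spec]
  let D : HidData n k m e h :=
    { Η := PairT k m
      Sc := CP k
      fintypeSc := inferInstance
      nonemptySc := ⟨⟨(⟨0, by omega⟩, ⟨1, by omega⟩), by rw [Fin.lt_def]; simp⟩⟩
      role := role
      σc := clsOf
      π := id
      z := z
      w := w
      zsel := fun γ η => z η (γ η)
      U := U
      roleU := hroleU
      rolez := fun γ η => hrolez η _
      zsel_eq := fun _ _ => rfl
      rolew := hrolew
      hsel := fun p => ⟨fun ab => pairOf p ab, fun _ => rfl, fun _ => rfl⟩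
      inj := hinj }
  refine ⟨D, hHR, ?_⟩
  intro γ
  rw [(D.toRole γ).slots_eq]
  have : Nat.card (D.toRole γ).Sc = Fintype.card (CP k) := by
    change Nat.card (CP k) = _
    rw [Nat.card_eq_fintype_card]
  rw [this]

theorem width_nat {n s w a : ℕ}
    (C : Circuit ({p : Fin n × Fin n // p.1 < p.2} × Bool) s)
    (hnot : ∀ i, C.kind i ≠ GateKind.not)
    (hC : ∀ G : SimpleGraph (Fin n), ∃ val : Fin s → Prop,
      C.IsEvalM (litVal (fun e => G.Adj e.1.1 e.1.2)) val ∧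
      (val C.out ↔ ∃ c : Finset (Fin n), G.IsClique (c : Set (Fin n)) ∧
        Real.sqrt (n : ℝ) < (c.card : ℝ)))
    (T : Finset {p : Fin n × Fin n // p.1 < p.2})
    (hw : ∀ G : SimpleGraph (Fin n), (∃ c : Finset (Fin n), G.IsClique (c : Set (Fin n)) ∧
        Real.sqrt (n : ℝ) < (c.card : ℝ)) →
      ∃ (B : Finset {p : Fin n × Fin n // p.1 < p.2}) (val : Fin s → Prop), B.card ≤ w ∧
        C.IsEvalM (litValOn T B (fun e => G.Adj e.1.1 e.1.2)) val ∧ val C.out)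
    (ha : 2 ≤ a) (hh : (2 * a) ^ 18 * (w + 1) ≤ T.card) : 2 ^ a ≤ n * s := by
  by_contra hlt
  push Not at hlt
  have hspos : 1 ≤ s := by
    have := C.out.isLt
    omega
  have hTn : T.card ≤ n ^ 2 := by
    refine (card_le_univ T).trans ((Fintype.card_subtype_le _).trans ?_)
    simp [sq]
  have hn9 : 512 * a ^ 9 ≤ n := by
    have h1 : (512 * a ^ 9) ^ 2 ≤ n ^ 2 := by
      calc (512 * a ^ 9) ^ 2 = (2 * a) ^ 18 * 1 := by ring
        _ ≤ (2 * a) ^ 18 * (w + 1) := Nat.mul_le_mul_left _ (by omega)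
        _ ≤ n ^ 2 := hh.trans hTn
    exact (Nat.pow_le_pow_iff_left (by norm_num)).1 h1
  have ha1 : 1 ≤ a ^ 4 := Nat.one_le_pow _ _ (by omega)
  have hsq : 16 * a ^ 4 ≤ Nat.sqrt n := by
    rw [Nat.le_sqrt]
    calc 16 * a ^ 4 * (16 * a ^ 4) = 256 * a ^ 8 * 1 := by ring
      _ ≤ 256 * a ^ 8 * (2 * a) := Nat.mul_le_mul_left _ (by omega)
      _ = 512 * a ^ 9 := by ring
      _ ≤ n := hn9
  have hsqn : Nat.sqrt n * Nat.sqrt n ≤ n := Nat.sqrt_le n
  have hn2 : 2 ≤ n := by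
    have : 1 ≤ a ^ 9 := Nat.one_le_pow _ _ (by omega)
    omega
  have hs : 2 * s < 2 ^ a := lt_of_le_of_lt (Nat.mul_le_mul_right _ hn2) hlt
  obtain ⟨k, hk⟩ : ∃ k, k = 2 * a ^ 2 + 1 := ⟨_, rfl⟩
  obtain ⟨m, hm⟩ : ∃ m, m = 2 * a := ⟨_, rfl⟩
  have ha2 : 4 ≤ a ^ 2 := by nlinarith
  have hk2 : 2 ≤ k := by omega
  have hk16 : 16 * k ^ 2 ≤ 81 * a ^ 4 := by
    have h1 : 4 * k ≤ 9 * a ^ 2 := by omega
    calc 16 * k ^ 2 = (4 * k) ^ 2 := by ring
      _ ≤ (9 * a ^ 2) ^ 2 := Nat.pow_le_pow_left h1 2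
      _ = 81 * a ^ 4 := by ring
  obtain ⟨κ, hκ⟩ : ∃ κ, κ = Fintype.card (PairT k m) := ⟨_, rfl⟩
  have hκle : 4 * κ ≤ 81 * a ^ 6 := by
    have h1 : κ ≤ (k * m) ^ 2 := by rw [hκ]; exact card_pairT_le k m
    have h2 : 16 * κ ≤ 324 * a ^ 6 := by
      calc 16 * κ ≤ 16 * (k * m) ^ 2 := Nat.mul_le_mul_left _ h1
        _ = (16 * k ^ 2) * m ^ 2 := by ring
        _ ≤ (81 * a ^ 4) * m ^ 2 := Nat.mul_le_mul_right _ hk16
        _ = 324 * a ^ 6 := by rw [hm]; ring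
    omega
  have hκ1 : 1 ≤ κ := by
    rw [hκ]
    refine Fintype.card_pos_iff.2 ⟨⟨((⟨0, by omega⟩, ⟨0, by omega⟩), (⟨1, by omega⟩,
      ⟨0, by omega⟩)), ?_⟩⟩
    rw [Fin.lt_def]; simp
  obtain ⟨Q, hQ⟩ : ∃ Q, Q = Fintype.card (CP k) := ⟨_, rfl⟩
  have hQle : 16 * Q ≤ 81 * a ^ 4 := by
    have h1 : Q ≤ k ^ 2 := by rw [hQ]; exact card_classPair_le k
    exact (Nat.mul_le_mul_left _ h1).trans hk16
  have hQs : 2 * Q ≤ Nat.sqrt n := by omega
  have hQ1 : 1 ≤ Q := by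
    rw [hQ]
    refine Fintype.card_pos_iff.2 ⟨⟨(⟨0, by omega⟩, ⟨1, by omega⟩), ?_⟩⟩
    rw [Fin.lt_def]; simp
  obtain ⟨e, he⟩ : ∃ e, e = Nat.sqrt n + 1 - (1 + Q) := ⟨_, rfl⟩
  have he4 : 4 * e ≤ n := by
    have h1 : 4 * Nat.sqrt n ≤ Nat.sqrt n * Nat.sqrt n := Nat.mul_le_mul_right _ (by omega)
    omega
  have hcond : 12 * κ ^ 3 * (2 * w + 1) ≤ T.card := by
    refine le_trans ?_ hh
    have e1 : (4 * κ) ^ 3 ≤ (81 * a ^ 6) ^ 3 := Nat.pow_le_pow_left hκle 3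
    have e2 : 64 * (12 * κ ^ 3 * (2 * w + 1)) ≤ 64 * ((2 * a) ^ 18 * (w + 1)) := by
      calc 64 * (12 * κ ^ 3 * (2 * w + 1)) = 12 * (4 * κ) ^ 3 * (2 * w + 1) := by ring
        _ ≤ 12 * (81 * a ^ 6) ^ 3 * (2 * w + 1) :=
            Nat.mul_le_mul_right _ (Nat.mul_le_mul_left _ e1)
        _ ≤ 12 * (81 * a ^ 6) ^ 3 * (2 * (w + 1)) := Nat.mul_le_mul_left _ (by omega)
        _ = 12754584 * a ^ 18 * (w + 1) := by ring
        _ ≤ 16777216 * a ^ 18 * (w + 1) :=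
            Nat.mul_le_mul_right _ (Nat.mul_le_mul_right _ (by norm_num))
        _ = 64 * ((2 * a) ^ 18 * (w + 1)) := by ring
    exact Nat.le_of_mul_le_mul_left e2 (by norm_num)
  have h1 : s * (a * a) ^ (a + 1) < (2 * a ^ 2) ^ (a + 1) := param_h1 ha (by omega)
  have h2 : 4 * (s * a ^ (a + 1)) < m ^ (a + 1) := by
    calc 4 * (s * a ^ (a + 1)) = 2 * (2 * s) * a ^ (a + 1) := by ring
      _ < 2 ^ (a + 1) * a ^ (a + 1) := by
          refine Nat.mul_lt_mul_of_pos_right ?_ (pow_pos (by omega) _)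
          rw [pow_succ]
          omega
      _ = m ^ (a + 1) := by rw [hm, mul_pow]
  have h3 : 4 * a ^ 2 ≤ m ^ 2 := by
    rw [hm]
    exact le_of_eq (by ring)
  rcases exists_cells T (PairT k m) κ e (2 * w + 1) hκ.symm hκ1 he4 (by omega) hcond with hst | hpr
  · obtain ⟨D, hD1, hD2⟩ := star_hidden T hst
    refine width_finite (K := 2 * a ^ 2) D C hnot hC T hD1 hw (by omega) (by omega) (by omega)
      hk2 (by omega) a a (by omega) ha h1 h2 h3 ?_
    intro γ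
    rw [hD2, ← hQ]
    omega
  · have hpr' := hpr.mono (e' := Nat.sqrt n + 1 - (Q + Q)) (by omega)
    obtain ⟨D, hD1, hD2⟩ := pair_hidden hk2 T hpr'
    refine width_finite (K := 2 * a ^ 2) D C hnot hC T hD1 hw (by omega) (by omega) (by omega)
      hk2 (by omega) a a (by omega) ha h1 h2 h3 ?_
    intro γ
    rw [hD2, ← hQ]
    omega

/-- conversion of a natural-number form to a real form, with exponent `d` -/
theorem real_of_nat_pow {n s h L d : ℕ} (hd : 1 ≤ d) (hn : 1 ≤ n) (hs : 1 ≤ s) (hL : 1 ≤ L)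
    (h1 : n = 1 → h = 0)
    (key : ∀ a, 2 ≤ a → (2 * a) ^ d * L ≤ h → 2 ^ a ≤ n * s) :
    (2 : ℝ) ^ (((h : ℝ) / L) ^ (1 / (d : ℝ)) / 4) ≤ n * s := by
  by_contra hlt
  push Not at hlt
  have hd0 : (0 : ℝ) < d := by exact_mod_cast hd
  set y : ℝ := (h : ℝ) / L with hy
  have hLR : (0 : ℝ) < L := by exact_mod_cast hL
  have hy0 : 0 ≤ y := by positivity
  set x : ℝ := y ^ (1 / (d : ℝ)) / 4 with hx
  have hx0 : 0 ≤ x := by positivity
  have hnR : (1 : ℝ) ≤ n := by exact_mod_cast hn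
  have hsR : (1 : ℝ) ≤ s := by exact_mod_cast hs
  have hx1 : 1 < x := by
    by_contra hcon
    push Not at hcon
    have h2 : (2 : ℝ) ^ x ≤ (2 : ℝ) ^ (1 : ℝ) :=
      Real.rpow_le_rpow_of_exponent_le (by norm_num) hcon
    rw [Real.rpow_one] at h2
    have h3 : (n : ℝ) * s < 2 := hlt.trans_le h2
    have h4 : n * s < 2 := by exact_mod_cast h3
    have h5 : n = 1 := by nlinarith
    have h6 : y = 0 := by rw [hy, h1 h5]; simp
    have h7 : x = 0 := by
      rw [hx, h6, Real.zero_rpow (by positivity)]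
      simp
    rw [h7, Real.rpow_zero] at hlt
    nlinarith
  set a : ℕ := ⌈x⌉₊ with ha
  have hax : x ≤ a := Nat.le_ceil x
  have hax' : (a : ℝ) < x + 1 := Nat.ceil_lt_add_one hx0
  have ha2 : 2 ≤ a := by
    have : (1 : ℝ) < a := hx1.trans_le hax
    have : 1 < a := by exact_mod_cast this
    omega
  have h2 : ((2 : ℝ) * a) ^ d ≤ y := by
    have h2 : (2 : ℝ) * a ≤ 4 * x := by linarith
    have h3 : ((2 : ℝ) * a) ^ d ≤ (4 * x) ^ d := pow_le_pow_left₀ (by positivity) h2 d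
    have h4 : (4 * x) ^ d = y := by
      have h5 : 4 * x = y ^ (1 / (d : ℝ)) := by rw [hx]; ring
      rw [h5, ← Real.rpow_natCast, ← Real.rpow_mul hy0]
      rw [one_div_mul_cancel hd0.ne', Real.rpow_one]
    rw [h4] at h3
    exact h3
  have h3 : (2 * a) ^ d * L ≤ h := by
    have h3 : ((2 : ℝ) * a) ^ d * L ≤ (h : ℝ) := by
      rw [hy] at h2
      rwa [le_div_iff₀ hLR] at h2
    exact_mod_cast h3
  have h4 := key a ha2 h3
  have h5 : (2 : ℝ) ^ x ≤ (2 : ℝ) ^ (a : ℝ) :=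
    Real.rpow_le_rpow_of_exponent_le (by norm_num) hax
  rw [Real.rpow_natCast] at h5
  have h6 : ((2 ^ a : ℕ) : ℝ) ≤ ((n * s : ℕ) : ℝ) := by exact_mod_cast h4
  push_cast at h6
  linarith

theorem width_real {n s w : ℕ} (hn : 1 ≤ n)
    (C : Circuit ({p : Fin n × Fin n // p.1 < p.2} × Bool) s)
    (hnot : ∀ i, C.kind i ≠ GateKind.not)
    (hC : ∀ G : SimpleGraph (Fin n), ∃ val : Fin s → Prop,
      C.IsEval (litVal (fun e => G.Adj e.1.1 e.1.2)) val ∧
      (val C.out ↔ ∃ c : Finset (Fin n), G.IsClique (c : Set (Fin n)) ∧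
        Real.sqrt (n : ℝ) < (c.card : ℝ)))
    (T : Finset {p : Fin n × Fin n // p.1 < p.2})
    (hw : ∀ G : SimpleGraph (Fin n), (∃ c : Finset (Fin n), G.IsClique (c : Set (Fin n)) ∧
        Real.sqrt (n : ℝ) < (c.card : ℝ)) →
      ∃ (B : Finset {p : Fin n × Fin n // p.1 < p.2}) (val : Fin s → Prop), B.card ≤ w ∧
        C.IsEval (litValOn T B (fun e => G.Adj e.1.1 e.1.2)) val ∧ val C.out) :
    (2 : ℝ) ^ (((T.card : ℝ) / (w + 1)) ^ (1 / 18 : ℝ) / 4) ≤ n * s := by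
  have hs : 1 ≤ s := by
    have := C.out.isLt
    omega
  have h := real_of_nat_pow (L := w + 1) (d := 18) (by norm_num) hn hs (by omega)
    (card_eq_zero_of_one T) (fun a ha2 h2 => width_nat C hnot (by
      intro G
      obtain ⟨val, h1, h2⟩ := hC G
      exact ⟨val, (C.isEval_iff _ _).1 h1, h2⟩) T (by
      intro G hG
      obtain ⟨B, val, h1, h2, h3⟩ := hw G hG
      exact ⟨B, val, h1, (C.isEval_iff _ _).1 h2, h3⟩) ha2 h2)
  push_cast at h
  exact h

end Pool.Agent.CliqueCircuits
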