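import Pool.Agent.Lib.MP_0a1b52_lc.Defs3
import Pool.Agent.Lib.MP_0a1b52_lc.WidthFinal

/-!
# The negation width of circuits for the clique function

A circuit with literals at its inputs has `T`-negation width at most `w` if for every accepted
graph the negated literals of at most `w` variables of `T` are needed (they may depend on the
graph). Every circuit has `T`-negation width at most `|T|`. The theorem says that a circuit of
polynomial size for `CLIQUE_n` has `T`-negation width at least `|T| / (log n) ^ O(1)`, for every set
`T` of variables.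
-/

namespace Pool.Agent.Results.MP_0a1b52_lc.NegationWidth

open Pool.Agent.CliqueCircuits

/-- Let `C` be a circuit with `s` AND and OR gates (of unbounded fan-in), whose inputs are literals,
computing `CLIQUE_n`. If its `T`-negation width is at most `w`, for some set `T` of variables, then
`2 ^ ((|T| / (w + 1)) ^ (1/18) / 4) ≤ n * s`. -/
theorem result (n s w : ℕ) (hn : 1 ≤ n) (C : Circuit (EdgeV n × Bool) s)
    (hC : C.IsDeMorganClique) (T : Finset (EdgeV n)) (hw : C.NegWidthLE T w) :
    (2 : ℝ) ^ (((T.card : ℝ) / (w + 1)) ^ (1 / 18 : ℝ) / 4) ≤ n * s := by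
  refine width_real hn C hC.1 hC.2 T ?_
  intro G hG
  obtain ⟨val, h1, h2⟩ := hC.2 G
  obtain ⟨B, val', h3, h4, h5⟩ := hw _ val h1 (h2.2 hG)
  exact ⟨B, val', h3, h4, h5⟩

end Pool.Agent.Results.MP_0a1b52_lc.NegationWidth
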