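import Pool.Agent.Lib.MP_0a1b52_lc.Finite

/-!
The choice of parameters.
-/

namespace Pool.Agent.CliqueCircuits

theorem pow8_le (x : ℕ) : x ^ 8 ≤ 2 ^ (x + 19) := by
  induction x with
  | zero => norm_num
  | succ x ih =>
    by_cases hx : x < 12
    · interval_cases x <;> norm_num
    · push Not at hx
      have h1 : (x + 1) ^ 8 ≤ 2 * x ^ 8 := by
        -- `(x + 1) ≤ (13 / 12) x`
        have h2 : 12 * (x + 1) ≤ 13 * x := by omega
        have h3 : (12 * (x + 1)) ^ 8 ≤ (13 * x) ^ 8 := Nat.pow_le_pow_left h2 8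
        rw [mul_pow, mul_pow] at h3
        have h4 : 12 ^ 8 * (x + 1) ^ 8 ≤ 12 ^ 8 * (2 * x ^ 8) := by
          refine h3.trans ?_
          have : (13 : ℕ) ^ 8 ≤ 12 ^ 8 * 2 := by norm_num
          calc 13 ^ 8 * x ^ 8 ≤ (12 ^ 8 * 2) * x ^ 8 := Nat.mul_le_mul_right _ this
            _ = 12 ^ 8 * (2 * x ^ 8) := by ring
        exact Nat.le_of_mul_le_mul_left h4 (by norm_num)
      calc (x + 1) ^ 8 ≤ 2 * x ^ 8 := h1
        _ ≤ 2 * 2 ^ (x + 19) := Nat.mul_le_mul_left _ ih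
        _ = 2 ^ (x + 1 + 19) := by ring

theorem pow6_lt (x : ℕ) (hx : 21 ≤ x) : x ^ 6 < 2 ^ (x + 7) := by
  induction x, hx using Nat.le_induction with
  | base => norm_num
  | succ x hx ih =>
    have h1 : (x + 1) ^ 6 ≤ 2 * x ^ 6 := by
      have h2 : 21 * (x + 1) ≤ 22 * x := by omega
      have h3 : (21 * (x + 1)) ^ 6 ≤ (22 * x) ^ 6 := Nat.pow_le_pow_left h2 6
      rw [mul_pow, mul_pow] at h3
      have h4 : 21 ^ 6 * (x + 1) ^ 6 ≤ 21 ^ 6 * (2 * x ^ 6) := by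
        refine h3.trans ?_
        have : (22 : ℕ) ^ 6 ≤ 21 ^ 6 * 2 := by norm_num
        calc 22 ^ 6 * x ^ 6 ≤ (21 ^ 6 * 2) * x ^ 6 := Nat.mul_le_mul_right _ this
          _ = 21 ^ 6 * (2 * x ^ 6) := by ring
      exact Nat.le_of_mul_le_mul_left h4 (by norm_num)
    calc (x + 1) ^ 6 ≤ 2 * x ^ 6 := h1
      _ < 2 * 2 ^ (x + 7) := by omega
      _ = 2 ^ (x + 1 + 7) := by ring

/-- natural-number form of the lower bound -/
theorem nat_bound {n s r a : ℕ} (C : Circuit {p : Fin n × Fin n // p.1 < p.2} s)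
    (hC : C.ComputesCliqueM) (hr : C.numNot ≤ r) (ha : 2 ≤ a)
    (hR : 256 * a ^ 2 * 2 ^ r ≤ Nat.sqrt n) : n ^ a ≤ n * s := by
  by_contra hlt
  push Not at hlt
  obtain ⟨R, hRdef⟩ : ∃ R, R = Nat.sqrt n := ⟨_, rfl⟩
  have hRn : R * R ≤ n := by rw [hRdef]; exact Nat.sqrt_le n
  have hnR : n < (R + 1) * (R + 1) := by rw [hRdef]; exact Nat.lt_succ_sqrt n
  rw [← hRdef] at hR
  have h2r : 1 ≤ 2 ^ r := Nat.one_le_two_pow
  have ha2 : 4 ≤ a ^ 2 := by nlinarith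
  have hRa : 256 * a ^ 2 ≤ R := le_trans (Nat.le_mul_of_pos_right _ h2r) hR
  have hR1 : 1024 ≤ R := by omega
  have hnbig : 2 ^ 20 ≤ n := by nlinarith
  have hn0 : n ≠ 0 := by omega
  obtain ⟨lam, hlam⟩ : ∃ lam, lam = Nat.log 2 n + 1 := ⟨_, rfl⟩
  have hlam1 : n < 2 ^ lam := by rw [hlam]; exact Nat.lt_pow_succ_log_self (by norm_num) n
  have hlam2 : 2 ^ lam ≤ 2 * n := by
    rw [hlam, pow_succ]
    have := Nat.pow_log_le_self 2 hn0
    omega
  have hlam21 : 21 ≤ lam := by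
    by_contra h
    push Not at h
    have : 2 ^ lam ≤ 2 ^ 20 := Nat.pow_le_pow_right (by norm_num) (by omega)
    omega
  have hn2R : n ≤ 2 * (R * R) := by nlinarith
  have h2rR : 2 ^ r ≤ R := by
    calc 2 ^ r = 1 * 2 ^ r := (one_mul _).symm
      _ ≤ 256 * a ^ 2 * 2 ^ r := Nat.mul_le_mul_right _ (by omega)
      _ ≤ R := hR
  have h2rn : 2 ^ r ≤ n := h2rR.trans (by nlinarith)
  have hrlam : r + 1 ≤ lam := by
    have : 2 ^ r < 2 ^ lam := lt_of_le_of_lt h2rn hlam1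
    exact (Nat.pow_lt_pow_iff_right (by norm_num)).1 this
  -- the parameters
  obtain ⟨k, hk⟩ : ∃ k, k = (R + 1) / 2 ^ r := ⟨_, rfl⟩
  obtain ⟨m, hm⟩ : ∃ m, m = (n - (R + 1)) / (R + 1) := ⟨_, rfl⟩
  have hk1 : 256 * a ^ 2 ≤ k := by
    rw [hk, Nat.le_div_iff_mul_le (by omega)]
    omega
  have hk2 : 2 ^ r * k ≤ R + 1 := by rw [hk]; exact Nat.mul_div_le _ _
  have hm1 : R ≤ 2 * m := by
    have : R - 2 ≤ m := by
      rw [hm, Nat.le_div_iff_mul_le (by omega)]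
      obtain ⟨R', rfl⟩ : ∃ R', R = R' + 2 := ⟨R - 2, by omega⟩
      have : (R' + 2 - 2) * (R' + 2 + 1) = R' * R' + 3 * R' := by
        rw [Nat.add_sub_cancel]; ring
      rw [this]
      have : (R' + 2) * (R' + 2) = R' * R' + 4 * R' + 4 := by ring
      omega
    omega
  have hm2 : (R + 1) * m + (R + 1) ≤ n := by
    have h := Nat.mul_div_le (n - (R + 1)) (R + 1)
    rw [← hm] at h
    have : R + 1 ≤ n := by nlinarith
    omega
  -- size of `2 ^ r * s`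
  have hrs : 2 ^ r * s < n ^ a := lt_of_le_of_lt (Nat.mul_le_mul_right _ h2rn) hlt
  have hna : n ^ a ≤ 2 ^ (a * lam) := by
    rw [Nat.mul_comm, pow_mul]
    exact Nat.pow_le_pow_left hlam1.le a
  refine finite_bound (L := 2 ^ r) (k := k) (m := m) (e := R + 1 - 2 ^ r * k) (K := k - 1)
    C hC hr rfl (by omega) ?_ ?_ (by omega) (a * lam) (8 * a - 1) ?_ ?_ ?_ ?_ ?_
  · rw [← hRdef]; omega
  · have h1 : 2 ^ r * (k * m) ≤ (R + 1) * m := by
      rw [← mul_assoc]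
      exact Nat.mul_le_mul_right _ hk2
    omega
  · exact Nat.mul_pos (by omega) (by omega)
  · omega
  · -- (h1)
    have hl : 2 * ((8 * a - 1) * (8 * a - 1)) ≤ k - 1 := by
      obtain ⟨a', rfl⟩ : ∃ a', a = a' + 1 := ⟨a - 1, by omega⟩
      have h1 : 8 * (a' + 1) - 1 = 8 * a' + 7 := by omega
      rw [h1]
      have h2 : 2 * ((8 * a' + 7) * (8 * a' + 7)) = 128 * (a' * a') + 224 * a' + 98 := by ring
      have h3 : 256 * (a' + 1) ^ 2 = 256 * (a' * a') + 512 * a' + 256 := by ring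
      omega
    have hlpos : 0 < (8 * a - 1) * (8 * a - 1) := Nat.mul_pos (by omega) (by omega)
    calc 2 ^ r * (s * ((8 * a - 1) * (8 * a - 1)) ^ (a * lam + 1))
        = 2 ^ r * s * ((8 * a - 1) * (8 * a - 1)) ^ (a * lam + 1) := by ring
      _ < 2 ^ (a * lam + 1) * ((8 * a - 1) * (8 * a - 1)) ^ (a * lam + 1) := by
          refine Nat.mul_lt_mul_of_pos_right ?_ (pow_pos hlpos _)
          refine hrs.trans_le (hna.trans ?_)
          exact Nat.pow_le_pow_right (by norm_num) (by omega)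
      _ = (2 * ((8 * a - 1) * (8 * a - 1))) ^ (a * lam + 1) := (mul_pow _ _ _).symm
      _ ≤ (k - 1) ^ (a * lam + 1) := Nat.pow_le_pow_left hl _
  · -- (h2)
    have hl : 8 * a - 1 + 1 = 8 * a := by omega
    rw [hl]
    have hq : 2 * n * (a * lam) ^ 8 ≤ m ^ 8 := by
      have h1 : (256 * a ^ 2) ^ 4 ≤ R ^ 4 := Nat.pow_le_pow_left hRa 4
      have h2 : lam ^ 8 ≤ 2 ^ 20 * n := by
        refine (pow8_le lam).trans ?_
        calc 2 ^ (lam + 19) = 2 ^ 19 * 2 ^ lam := by ring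
          _ ≤ 2 ^ 19 * (2 * n) := Nat.mul_le_mul_left _ hlam2
          _ = 2 ^ 20 * n := by ring
      have h3 : R ^ 8 ≤ 2 ^ 8 * m ^ 8 := by
        rw [← mul_pow]
        exact Nat.pow_le_pow_left hm1 8
      have h4 : n * n ≤ 4 * R ^ 4 := by
        calc n * n ≤ (2 * (R * R)) * (2 * (R * R)) := Nat.mul_le_mul hn2R hn2R
          _ = 4 * R ^ 4 := by ring
      have h5 : 2 ^ 40 * (2 * n * (a * lam) ^ 8) ≤ 2 ^ 40 * m ^ 8 := by
        calc 2 ^ 40 * (2 * n * (a * lam) ^ 8)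
            = 2 ^ 9 * n * ((256 * a ^ 2) ^ 4 * lam ^ 8) := by ring
          _ ≤ 2 ^ 9 * n * (R ^ 4 * (2 ^ 20 * n)) :=
              Nat.mul_le_mul_left _ (Nat.mul_le_mul h1 h2)
          _ = 2 ^ 29 * R ^ 4 * (n * n) := by ring
          _ ≤ 2 ^ 29 * R ^ 4 * (4 * R ^ 4) := Nat.mul_le_mul_left _ h4
          _ = 2 ^ 31 * R ^ 8 := by ring
          _ ≤ 2 ^ 31 * (2 ^ 8 * m ^ 8) := Nat.mul_le_mul_left _ h3
          _ = 2 ^ 39 * m ^ 8 := by ring
          _ ≤ 2 ^ 40 * m ^ 8 := Nat.mul_le_mul_right _ (by norm_num)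
      exact Nat.le_of_mul_le_mul_left h5 (by norm_num)
    calc 2 * (2 ^ r * (s * (a * lam) ^ (8 * a)))
        = 2 * (2 ^ r * s) * ((a * lam) ^ 8) ^ a := by rw [pow_mul]; ring
      _ ≤ 2 * n ^ a * ((a * lam) ^ 8) ^ a :=
          Nat.mul_le_mul_right _ (Nat.mul_le_mul_left _ hrs.le)
      _ ≤ 2 ^ a * n ^ a * ((a * lam) ^ 8) ^ a := by
          refine Nat.mul_le_mul_right _ (Nat.mul_le_mul_right _ ?_)
          calc 2 = 2 ^ 1 := rfl
            _ ≤ 2 ^ a := Nat.pow_le_pow_right (by norm_num) (by omega)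
      _ = (2 * n * (a * lam) ^ 8) ^ a := by rw [mul_pow (2 * n), mul_pow 2 n]
      _ ≤ (m ^ 8) ^ a := Nat.pow_le_pow_left hq a
      _ = m ^ (8 * a) := by rw [← pow_mul]
  · -- (h3)
    have h1 : lam ^ 3 < 32 * R := by
      have h2 : lam ^ 6 < 2 ^ (lam + 7) := pow6_lt lam hlam21
      have h3 : 2 ^ (lam + 7) ≤ (32 * R) ^ 2 := by
        calc 2 ^ (lam + 7) = 2 ^ 7 * 2 ^ lam := by ring
          _ ≤ 2 ^ 7 * (2 * n) := Nat.mul_le_mul_left _ hlam2
          _ ≤ 2 ^ 7 * (2 * (2 * (R * R))) := Nat.mul_le_mul_left _ (Nat.mul_le_mul_left _ hn2R)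
          _ = 512 * (R * R) := by ring
          _ ≤ 1024 * (R * R) := Nat.mul_le_mul_right _ (by norm_num)
          _ = (32 * R) ^ 2 := by ring
      by_contra hcon
      push Not at hcon
      have h4 : (32 * R) ^ 2 ≤ (lam ^ 3) ^ 2 := Nat.pow_le_pow_left hcon 2
      have h5 : (lam ^ 3) ^ 2 = lam ^ 6 := by ring
      omega
    have h2 : 32 * (4 * (2 * (2 ^ r * ((r + 1) * (a * lam) ^ 2)))) < 32 * (4 * m ^ 2) := by
      calc 32 * (4 * (2 * (2 ^ r * ((r + 1) * (a * lam) ^ 2))))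
          = (256 * a ^ 2 * 2 ^ r) * ((r + 1) * lam ^ 2) := by ring
        _ ≤ R * (lam * lam ^ 2) := Nat.mul_le_mul hR (Nat.mul_le_mul_right _ hrlam)
        _ = R * lam ^ 3 := by ring
        _ < R * (32 * R) := Nat.mul_lt_mul_of_pos_left h1 (by omega)
        _ = 32 * (R * R) := by ring
        _ ≤ 32 * ((2 * m) * (2 * m)) := Nat.mul_le_mul_left _ (Nat.mul_le_mul hm1 hm1)
        _ = 32 * (4 * m ^ 2) := by ring
    have h3 := Nat.lt_of_mul_lt_mul_left h2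
    exact Nat.lt_of_mul_lt_mul_left h3

/-- real form of the lower bound -/
theorem real_bound {n s : ℕ} (hn : 1 ≤ n)
    (C : Circuit {p : Fin n × Fin n // p.1 < p.2} s) (hC : C.ComputesCliqueM) :
    (n : ℝ) ^ ((1 / 32 : ℝ) * Real.sqrt (Real.sqrt n / 2 ^ C.numNot)) ≤ n * s := by
  by_contra hlt
  push Not at hlt
  set x : ℝ := (1 / 32 : ℝ) * Real.sqrt (Real.sqrt n / 2 ^ C.numNot) with hx
  have hs : 1 ≤ s := by
    have := C.out.isLt
    omega
  have hnR : (1 : ℝ) ≤ n := by exact_mod_cast hn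
  have hsR : (1 : ℝ) ≤ s := by exact_mod_cast hs
  have hx0 : 0 ≤ x := by positivity
  -- `x > 1`
  have hx1 : 1 < x := by
    by_contra hcon
    push Not at hcon
    have h1 : (n : ℝ) ^ x ≤ (n : ℝ) ^ (1 : ℝ) := Real.rpow_le_rpow_of_exponent_le hnR hcon
    rw [Real.rpow_one] at h1
    nlinarith
  set a : ℕ := ⌈x⌉₊ with ha
  have hax : x ≤ a := Nat.le_ceil x
  have hax' : (a : ℝ) < x + 1 := Nat.ceil_lt_add_one hx0
  have ha2 : 2 ≤ a := by
    have : (1 : ℝ) < a := hx1.trans_le hax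
    have : 1 < a := by exact_mod_cast this
    omega
  -- the main condition
  have hκ0 : (0 : ℝ) ≤ Real.sqrt n / 2 ^ C.numNot := by positivity
  have h1 : (256 : ℝ) * a ^ 2 ≤ Real.sqrt n / 2 ^ C.numNot := by
    have h2 : (a : ℝ) ≤ 2 * x := by linarith
    have h3 : (a : ℝ) ^ 2 ≤ (2 * x) ^ 2 := pow_le_pow_left₀ (by positivity) h2 2
    have h4 : (2 * x) ^ 2 = (1 / 256) * (Real.sqrt n / 2 ^ C.numNot) := by
      rw [hx]
      have := Real.sq_sqrt hκ0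
      calc (2 * ((1 / 32 : ℝ) * Real.sqrt (Real.sqrt n / 2 ^ C.numNot))) ^ 2
          = (1 / 256) * (Real.sqrt (Real.sqrt n / 2 ^ C.numNot)) ^ 2 := by ring
        _ = _ := by rw [this]
    rw [h4] at h3
    linarith
  have h2 : (256 : ℝ) * a ^ 2 * 2 ^ C.numNot ≤ Real.sqrt n := by
    rwa [le_div_iff₀ (by positivity)] at h1
  have h3 : 256 * a ^ 2 * 2 ^ C.numNot ≤ Nat.sqrt n := by
    rw [Nat.le_sqrt]
    have h4 : ((256 : ℝ) * a ^ 2 * 2 ^ C.numNot) ^ 2 ≤ n := by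
      have := pow_le_pow_left₀ (by positivity) h2 2
      rwa [Real.sq_sqrt (by positivity)] at this
    have h5 : (((256 * a ^ 2 * 2 ^ C.numNot) * (256 * a ^ 2 * 2 ^ C.numNot) : ℕ) : ℝ) ≤ n := by
      push_cast
      nlinarith [h4]
    exact_mod_cast h5
  have h4 := nat_bound C hC le_rfl ha2 h3
  have h5 : (n : ℝ) ^ x ≤ (n : ℝ) ^ (a : ℝ) := Real.rpow_le_rpow_of_exponent_le hnR hax
  rw [Real.rpow_natCast] at h5
  have h6 : ((n ^ a : ℕ) : ℝ) ≤ ((n * s : ℕ) : ℝ) := by exact_mod_cast h4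
  push_cast at h6
  linarith

end Pool.Agent.CliqueCircuits
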