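import Pool.Agent.Lib.MP_0a1b52_lc.ChainA

/-!
The chain argument for a disjunction of blocks: the chain consists of negative inputs only, in
which more and more blocks are coloured graphs and the other blocks are empty. Only the NOT gates
in a set `R` are counted; the other NOT gates have the same value on all inputs considered.
-/

namespace Pool.Agent.CliqueCircuits

open Finset

variable {V : Type} {s : ℕ}

/-- the state of a block: empty, a planted transversal clique, or a coloured graph -/
inductive OState (k m K : ℕ)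
  | zero
  | tr (p : Fin k → Fin m)
  | col (c : Fin k × Fin m → Fin K)

def OState.rel {k m K : ℕ} : OState k m K → Fin k × Fin m → Fin k × Fin m → Prop
  | .zero, _, _ => False
  | .tr p, u, v => p u.1 = u.2 ∧ p v.1 = v.2
  | .col c, u, v => c u ≠ c v

/-- A family of inputs indexed by the states of `L` blocks. -/
structure OrFamily (V : Type) (L k m K : ℕ) where
  asg : (Fin L → OState k m K) → V → Prop
  mono : ∀ st st' : Fin L → OState k m K, (∀ i u v, (st i).rel u v → (st' i).rel u v) →
    ∀ v, asg st v → asg st' v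
  loc : ∀ (st : Fin L → OState k m K) (j : Fin L), ∃ τ : V → InTy (Fin k × Fin m),
    (∀ v u u', τ v = InTy.pair u u' → u ≠ u') ∧
    (∀ p v, (τ v).pos p ↔ asg (Function.update st j (OState.tr p)) v) ∧
    (∀ c v, (τ v).neg c ↔ asg (Function.update st j (OState.col c)) v)

/-- the choice of good tests for one block, for given frozen values of the NOT gates -/
theorem choose_core {k m : ℕ} (C : Circuit V s) (K : ℕ)
    (ρ : ℕ) (R : Finset (Fin s)) (hR : R.card ≤ ρ) (q l : ℕ) (hq : 1 ≤ q) (hl : 2 ≤ l)
    (h1 : s * (l * l) ^ (q + 1) < K ^ (q + 1))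
    (h2 : 2 * (s * q ^ (l + 1)) ≤ m ^ (l + 1))
    (h3 : 2 * ((ρ + 1) * q ^ 2) < m ^ 2)
    (τ : V → InTy (Fin k × Fin m)) (hτ : ∀ v u u', τ v = InTy.pair u u' → u ≠ u')
    (b : Fin s → Prop) :
    ∃ (p : Fin k → Fin m) (c : Fin k × Fin m → Fin K), ∀ (valP valN : Fin s → Prop),
      C.IsFrozen b (fun v => (τ v).pos p) valP →
      C.IsFrozen b (fun v => (τ v).neg c) valN →
      ∀ w, C.IsTgt R w →
        Sum.elim (fun v => (τ v).pos p) valP w → Sum.elim (fun v => (τ v).neg c) valN w := by
  classical
  obtain ⟨T, hTc, hT⟩ := C.exists_tgts R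
  obtain ⟨BadP, BadN, hPc, hNc, hdich⟩ := approx_main C b τ hτ K q l hq hl
  have hdich' : ∀ (w : V ⊕ Fin s),
      ∃ I : Finset (Finset (Fin k × Fin m)), I.card ≤ q ^ 2 ∧ (∀ y ∈ I, y.card = 2) ∧
        ((∀ c ∉ BadN, ∀ val, C.IsFrozen b (fun v => (τ v).neg c) val →
          Sum.elim (fun v => (τ v).neg c) val w) ∨
          ∀ p ∉ BadP, ∀ val, C.IsFrozen b (fun v => (τ v).pos p) val →
            Sum.elim (fun v => (τ v).pos p) val w → ∃ y ∈ I, y ⊆ trans p) := by
    intro w
    rcases hdich w with h | ⟨I, hI, hI2, h⟩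
    · exact ⟨∅, by simp, by simp, Or.inl h⟩
    · exact ⟨I, hI, hI2, Or.inr h⟩
  choose I hIc hI2 hI using hdich'
  -- choose the colouring
  have hc : ∃ c : Fin k × Fin m → Fin K, c ∉ BadN := by
    by_contra hcon
    push Not at hcon
    have huniv : (univ : Finset (Fin k × Fin m → Fin K)) ⊆ BadN := fun c _ => hcon c
    have hcard := card_le_card huniv
    rw [card_univ, Fintype.card_fun, Fintype.card_fin, Fintype.card_prod, Fintype.card_fin,
      Fintype.card_fin] at hcard
    have hKpos : 0 < K := by
      rcases Nat.eq_zero_or_pos K with h | h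
      · subst h
        rw [zero_pow (Nat.succ_ne_zero q)] at h1
        exact absurd h1 (Nat.not_lt_zero _)
      · exact h
    have hlt : s * (l * l) ^ (q + 1) * K ^ (k * m) < K ^ (q + 1) * K ^ (k * m) :=
      Nat.mul_lt_mul_of_pos_right h1 (pow_pos hKpos _)
    have := (Nat.mul_le_mul_right (K ^ (q + 1)) hcard).trans hNc
    rw [← mul_assoc] at this
    have h5 := this.trans_lt hlt
    rw [Nat.mul_comm] at h5
    exact absurd h5 (lt_irrefl _)
  -- choose the transversal
  have hp : ∃ p : Fin k → Fin m, p ∉ BadP ∧ ∀ w ∈ T, ∀ y ∈ I w, ¬ y ⊆ trans p := by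
    by_contra hcon
    push Not at hcon
    let H : Finset (Fin k → Fin m) := T.biUnion
      (fun w => (I w).biUnion (fun y => univ.filter (fun p => y ⊆ trans p)))
    have huniv : (univ : Finset (Fin k → Fin m)) ⊆ BadP ∪ H := by
      intro p _
      rw [mem_union]
      by_cases hpB : p ∈ BadP
      · exact Or.inl hpB
      · right
        obtain ⟨w, hw, v, hv, hpv⟩ := hcon p hpB
        simp only [H, mem_biUnion, mem_filter, mem_univ, true_and]
        exact ⟨w, hw, v, hv, hpv⟩
    have hcard := (card_le_card huniv).trans (card_union_le _ _)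
    rw [card_univ, Fintype.card_fun, Fintype.card_fin, Fintype.card_fin] at hcard
    have hmpos : 0 < m := by
      rcases Nat.eq_zero_or_pos m with h | h
      · subst h
        simp at h3
      · exact h
    have hY : H.card * m ^ 2 ≤ (ρ + 1) * q ^ 2 * m ^ k := by
      calc H.card * m ^ 2 ≤ (∑ w ∈ T, ((I w).biUnion
            (fun y => univ.filter (fun p : Fin k → Fin m => y ⊆ trans p))).card) * m ^ 2 :=
            Nat.mul_le_mul_right _ card_biUnion_le
        _ = ∑ w ∈ T, ((I w).biUnion
            (fun y => univ.filter (fun p : Fin k → Fin m => y ⊆ trans p))).card * m ^ 2 := by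
            rw [sum_mul]
        _ ≤ ∑ w ∈ T, q ^ 2 * m ^ k := by
            refine sum_le_sum fun w _ => ?_
            calc _ ≤ (∑ y ∈ I w,
                  (univ.filter (fun p : Fin k → Fin m => y ⊆ trans p)).card) * m ^ 2 :=
                  Nat.mul_le_mul_right _ card_biUnion_le
              _ = ∑ y ∈ I w,
                  (univ.filter (fun p : Fin k → Fin m => y ⊆ trans p)).card * m ^ 2 := by
                  rw [sum_mul]
              _ ≤ ∑ y ∈ I w, m ^ k := sum_le_sum fun y hy => by
                  have := trans_card_le y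
                  rwa [hI2 _ y hy] at this
              _ = (I w).card * m ^ k := by rw [sum_const, smul_eq_mul]
              _ ≤ q ^ 2 * m ^ k := Nat.mul_le_mul_right _ (hIc _)
        _ = T.card * (q ^ 2 * m ^ k) := by
            rw [sum_const, smul_eq_mul]
        _ ≤ (ρ + 1) * (q ^ 2 * m ^ k) :=
            Nat.mul_le_mul_right _ (hTc.trans (by omega))
        _ = (ρ + 1) * q ^ 2 * m ^ k := by ring
    have hX' : 2 * BadP.card ≤ m ^ k := by
      have hpos : 0 < m ^ (l + 1) := pow_pos hmpos _
      refine Nat.le_of_mul_le_mul_right ?_ hpos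
      calc 2 * BadP.card * m ^ (l + 1) = 2 * (BadP.card * m ^ (l + 1)) := by ring
        _ ≤ 2 * (s * (q ^ (l + 1) * m ^ k)) := Nat.mul_le_mul_left _ hPc
        _ = 2 * (s * q ^ (l + 1)) * m ^ k := by ring
        _ ≤ m ^ (l + 1) * m ^ k := Nat.mul_le_mul_right _ h2
        _ = m ^ k * m ^ (l + 1) := by ring
    have hY' : 2 * H.card < m ^ k := by
      refine Nat.lt_of_mul_lt_mul_right (a := m ^ 2) ?_
      calc 2 * H.card * m ^ 2 = 2 * (H.card * m ^ 2) := by ring
        _ ≤ 2 * ((ρ + 1) * q ^ 2 * m ^ k) := Nat.mul_le_mul_left _ hY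
        _ = 2 * ((ρ + 1) * q ^ 2) * m ^ k := by ring
        _ < m ^ 2 * m ^ k := Nat.mul_lt_mul_of_pos_right h3 (pow_pos hmpos _)
        _ = m ^ k * m ^ 2 := by ring
    omega
  obtain ⟨c, hc⟩ := hc
  obtain ⟨p, hpB, hpI⟩ := hp
  refine ⟨p, c, ?_⟩
  intro valP valN hvP hvN w hw hvw
  rcases hI w with h | h
  · exact h c hc valN hvN
  · exfalso
    obtain ⟨v, hv, hpv⟩ := h p hpB valP hvP hvw
    exact hpI w (hT w hw) v hv hpv

/-- blocks before `j` are coloured, the others empty -/
def stN {L k m K : ℕ} (c : Fin L → Fin k × Fin m → Fin K) (j : ℕ) : Fin L → OState k m K :=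
  fun i => if i.val < j then OState.col (c i) else OState.zero

theorem stN_succ {L k m K : ℕ} (c : Fin L → Fin k × Fin m → Fin K) (j : Fin L) :
    stN c (j.val + 1) = Function.update (stN c j.val) j (OState.col (c j)) := by
  funext i
  by_cases hi : i = j
  · subst hi
    simp [stN]
  · rw [Function.update_of_ne hi]
    simp only [stN]
    have : i.val ≠ j.val := fun h => hi (Fin.ext h)
    by_cases hlt : i.val < j.val
    · rw [if_pos hlt, if_pos (by omega)]
    · rw [if_neg hlt, if_neg (by omega)]

theorem stN_congr {L k m K : ℕ} (c c' : Fin L → Fin k × Fin m → Fin K) (j : ℕ)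
    (h : ∀ i : Fin L, i.val < j → c i = c' i) : stN c j = stN c' j := by
  funext i
  simp only [stN]
  by_cases hi : i.val < j
  · rw [if_pos hi, if_pos hi, h i hi]
  · rw [if_neg hi, if_neg hi]

def GoodO {L k m K : ℕ} (C : Circuit V s) (F : OrFamily V L k m K) (R : Finset (Fin s))
    (p : Fin L → Fin k → Fin m) (c : Fin L → Fin k × Fin m → Fin K) (j : Fin L) : Prop :=
  ∀ (val valP valN : Fin s → Prop), C.IsEvalM (F.asg (stN c j)) val →
    C.IsFrozen val (F.asg (Function.update (stN c j) j (OState.tr (p j)))) valP →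
    C.IsFrozen val (F.asg (stN c (j.val + 1))) valN →
    ∀ w, C.IsTgt R w →
      Sum.elim (F.asg (Function.update (stN c j) j (OState.tr (p j)))) valP w →
      Sum.elim (F.asg (stN c (j.val + 1))) valN w

theorem choose_allO {L k m K : ℕ} (C : Circuit V s) (F : OrFamily V L k m K)
    (ρ : ℕ) (R : Finset (Fin s)) (hR : R.card ≤ ρ) (q l : ℕ) (hq : 1 ≤ q) (hl : 2 ≤ l)
    (h1 : s * (l * l) ^ (q + 1) < K ^ (q + 1))
    (h2 : 2 * (s * q ^ (l + 1)) ≤ m ^ (l + 1))
    (h3 : 2 * ((ρ + 1) * q ^ 2) < m ^ 2) (t : ℕ) (ht : t ≤ L) :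
    ∃ (p : Fin L → Fin k → Fin m) (c : Fin L → Fin k × Fin m → Fin K),
      ∀ j : Fin L, j.val < t → GoodO C F R p c j := by
  classical
  have hKpos : 0 < K := by
    rcases Nat.eq_zero_or_pos K with h | h
    · subst h
      rw [zero_pow (Nat.succ_ne_zero q)] at h1
      exact absurd h1 (Nat.not_lt_zero _)
    · exact h
  have hmpos : 0 < m := by
    rcases Nat.eq_zero_or_pos m with h | h
    · subst h
      simp at h3
    · exact h
  induction t with
  | zero =>
    exact ⟨fun _ _ => ⟨0, hmpos⟩, fun _ _ => ⟨0, hKpos⟩, fun j hj => absurd hj (Nat.not_lt_zero _)⟩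
  | succ t ih =>
    obtain ⟨p, c, hpc⟩ := ih (by omega)
    let j₀ : Fin L := ⟨t, by omega⟩
    obtain ⟨b, hb⟩ := C.exists_eval (F.asg (stN c j₀))
    obtain ⟨τ, hτ, hτP, hτN⟩ := F.loc (stN c j₀) j₀
    obtain ⟨p', c', hpc'⟩ := choose_core C K ρ R hR q l hq hl h1 h2 h3 τ hτ b
    have hxP : (fun v => (τ v).pos p') = F.asg (Function.update (stN c j₀) j₀ (OState.tr p')) := by
      funext v
      exact propext (hτP p' v)
    have hxN : (fun v => (τ v).neg c') =
        F.asg (Function.update (stN c j₀) j₀ (OState.col c')) := by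
      funext v
      exact propext (hτN c' v)
    rw [hxP, hxN] at hpc'
    refine ⟨Function.update p j₀ p', Function.update c j₀ c', ?_⟩
    intro j hj
    have hc_congr : ∀ t', t' ≤ t → stN (Function.update c j₀ c') t' = stN c t' := by
      intro t' ht'
      refine stN_congr _ _ _ ?_
      intro i hi
      rw [Function.update_of_ne]
      intro h
      rw [h] at hi
      exact absurd hi (by simp only [j₀]; omega)
    by_cases hjj : j = j₀
    · subst hjj
      have e0 : (j₀ : Fin L).val = t := rfl
      unfold GoodO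
      rw [stN_succ, hc_congr _ (by rw [e0]), Function.update_self, Function.update_self]
      intro val valP valN hv hvP hvN
      have : val = b := hv.unique hb
      subst this
      exact hpc' valP valN hvP hvN
    · have hlt : j.val < t := by
        have h0 : j.val ≠ t := fun h => hjj (Fin.ext h)
        omega
      unfold GoodO
      rw [hc_congr (j.val + 1) (by omega), hc_congr j.val (by omega),
        Function.update_of_ne hjj]
      exact hpc j hlt

/-- A frozen evaluation on `P` agrees with the true one, if the inputs of the NOT gates of `R` are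
squeezed between those on `N` and `N'`, and the NOT gates outside `R` have the right values. -/
theorem Circuit.finishO {C : Circuit V s} (R : Finset (Fin s)) {N P N' : V → Prop}
    {valN valP valP' valN' : Fin s → Prop}
    (hN : C.IsEvalM N valN) (hN' : C.IsEvalM N' valN')
    (hb : ∀ i, C.kind i = GateKind.not → (valN i ↔ valN' i))
    (hP : C.IsFrozen valN P valP) (hNP : ∀ v, N v → P v) (hP' : C.IsEvalM P valP')
    (hconst : ∀ i, C.kind i = GateKind.not → i ∉ R → (valP' i ↔ valN i))
    (hgood : ∀ i ∈ R, C.kind i = GateKind.not → ∀ w ∈ C.wires i,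
      Sum.elim P valP w → Sum.elim N' valN' w) :
    ∀ i, valP i ↔ valP' i := by
  have hNf : C.IsFrozen valN N valN := hN.isFrozen (fun i _ => Iff.rfl)
  have hmono := hNf.mono hP hNP
  have key : ∀ M : ℕ, ∀ i : Fin s, i.val = M → (valP i ↔ valP' i) := by
    intro M
    induction M using Nat.strong_induction_on with
    | _ M ih =>
      intro i hi
      have hw : ∀ w ∈ C.wires i, (Sum.elim P valP w ↔ Sum.elim P valP' w) := by
        intro w hw
        cases w with
        | inl v => exact Iff.rfl
        | inr j =>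
          have hj := C.acyclic i j hw
          exact ih j.val (by rw [← hi]; exact hj) j rfl
      have e1 := hP i
      have e2 := hP' i
      cases hk : C.kind i with
      | and =>
        simp only [hk] at e1 e2
        rw [e1, e2]
        exact forall₂_congr hw
      | or =>
        simp only [hk] at e1 e2
        rw [e1, e2]
        constructor
        · rintro ⟨w, hw', hv⟩
          exact ⟨w, hw', (hw w hw').1 hv⟩
        · rintro ⟨w, hw', hv⟩
          exact ⟨w, hw', (hw w hw').2 hv⟩
      | not =>
        simp only [hk] at e1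
        rw [e1]
        by_cases hiR : i ∈ R
        · simp only [hk] at e2
          rw [e2]
          have h1 := hN i
          have h2 := hN' i
          simp only [hk] at h1 h2
          constructor
          · intro hv w hw' hvw
            exact h2.1 ((hb i hk).1 hv) w hw' (hgood i hiR hk w hw' ((hw w hw').2 hvw))
          · intro hv
            rw [h1]
            intro w hw' hvw
            exact hv w hw' ((hw w hw').1 (hmono w hvw))
        · exact (hconst i hk hiR).symm
  exact fun i => key i.val i rfl

/-- The chain theorem for disjunctions: for some `j`, if the output is true on the input in which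
block `j` is a planted clique, then it is true on the input in which block `j` is coloured. -/
theorem chain_or {L k m K : ℕ} (C : Circuit V s) (F : OrFamily V L k m K)
    (ρ : ℕ) (R : Finset (Fin s)) (hR : R.card ≤ ρ) (hL : L = 2 ^ ρ)
    (hconst : ∀ i, C.kind i = GateKind.not → i ∉ R → ∀ st st' val val',
      C.IsEvalM (F.asg st) val → C.IsEvalM (F.asg st') val' → (val i ↔ val' i))
    (q l : ℕ) (hq : 1 ≤ q) (hl : 2 ≤ l)
    (h1 : s * (l * l) ^ (q + 1) < K ^ (q + 1))
    (h2 : 2 * (s * q ^ (l + 1)) ≤ m ^ (l + 1))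
    (h3 : 2 * ((ρ + 1) * q ^ 2) < m ^ 2) :
    ∃ (c : Fin L → Fin k × Fin m → Fin K) (j : Fin L) (p : Fin k → Fin m), ∀ valP valN,
      C.IsEvalM (F.asg (Function.update (stN c j) j (OState.tr p))) valP →
      C.IsEvalM (F.asg (stN c (j.val + 1))) valN →
      valP C.out → valN C.out := by
  classical
  obtain ⟨p, c, hgood⟩ := choose_allO C F ρ R hR q l hq hl h1 h2 h3 L le_rfl
  have hev := fun j : ℕ => C.exists_eval (F.asg (stN c j))
  choose val hval using hev
  have hx : ∀ j v, F.asg (stN c j) v → F.asg (stN c (j + 1)) v := by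
    intro j v hv
    refine F.mono _ _ ?_ v hv
    intro i u u' h
    simp only [stN] at h ⊢
    by_cases hi : i.val < j
    · rw [if_pos hi] at h
      rw [if_pos (by omega)]
      exact h
    · rw [if_neg hi] at h
      exact absurd h (by simp [OState.rel])
  obtain ⟨j, hj, hnot⟩ := markov' R hR (fun j => F.asg (stN c j)) val hval hx
    (fun i hi hiR j => hconst i hi hiR _ _ _ _ (hval j) (hval (j + 1)))
  rw [← hL] at hj
  let J : Fin L := ⟨j, hj⟩
  refine ⟨c, J, p J, ?_⟩
  intro valP' valN' hvP' hvN' hout
  have hvN'' : valN' = val (j + 1) := hvN'.unique (hval (j + 1))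
  subst hvN''
  obtain ⟨valP, hvalP⟩ := C.exists_frozen (val j)
    (F.asg (Function.update (stN c j) J (OState.tr (p J))))
  have hNP : ∀ v, F.asg (stN c j) v →
      F.asg (Function.update (stN c j) J (OState.tr (p J))) v := by
    intro v hv
    refine F.mono _ _ ?_ v hv
    intro i u u' h
    by_cases hi : i = J
    · subst hi
      simp only [stN] at h
      rw [if_neg (lt_irrefl _)] at h
      exact absurd h (by simp [OState.rel])
    · rw [Function.update_of_ne hi]
      exact h
  have hNfrozen : C.IsFrozen (val j) (F.asg (stN c (j + 1))) (val (j + 1)) :=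
    (hval (j + 1)).isFrozen (fun i hi => hnot i hi)
  have hgoodJ := hgood J hj (val j) valP (val (j + 1)) (hval j) hvalP hNfrozen
  have hiff := Circuit.finishO R (hval j) (hval (j + 1)) hnot hvalP hNP hvP'
    (fun i hi hiR => hconst i hi hiR _ _ _ _ hvP' (hval j))
    (fun i hi hk w hw => hgoodJ w (Or.inr ⟨i, hi, hk, hw⟩))
  exact hgoodJ (Sum.inr C.out) (Or.inl rfl) ((hiff C.out).2 hout)

end Pool.Agent.CliqueCircuits
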