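import Pool.Agent.Lib.MP_0a1b52_lc.Oracle
import Pool.Agent.Lib.MP_0a1b52_lc.Free

/-!
Numerical form of the main lower bound.
-/

namespace Pool.Agent.CliqueCircuits

open Finset

theorem MatchPack.mono {n e e' M : ℕ} {H : Finset {p : Fin n × Fin n // p.1 < p.2}}
    (h : MatchPack H e M) (he : e' ≤ e) : MatchPack H e' M := by
  obtain ⟨U, z, w, hU, hz, hw, hzw, hUz, hUw, hHR⟩ := h
  exact ⟨fun a => U (Fin.castLE he a), z, w, hU.comp (Fin.castLE_injective he), hz, hw, hzw,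
    fun a i => hUz _ _, fun a i => hUw _ _, hHR⟩

/-- The gadget with `L` blocks inside `H`, with all parameters chosen. -/
theorem gadget_exists {n a L : ℕ} (H : Finset {p : Fin n × Fin n // p.1 < p.2})
    (ha : 2 ≤ a) (hn2a : n < 2 ^ a) (hL1 : 1 ≤ L) (hh : (2 * a) ^ 16 * L ≤ H.card) :
    ∃ (c e : ℕ) (D : RoleData n L (2 * a ^ 2 + 1) (a * c) e), 4 * a < c * c ∧ 2 ≤ c ∧
      (∀ j ξ, HR H (D.zc j (D.π ξ)) (D.wl j ξ)) ∧ D.slots = Nat.sqrt n + 1 := by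
  have hHn : H.card ≤ n ^ 2 := by
    refine (card_le_univ H).trans ((Fintype.card_subtype_le _).trans ?_)
    simp [sq]
  -- `n` is large
  have hn8 : 256 * a ^ 8 ≤ n := by
    have h1 : (256 * a ^ 8) ^ 2 ≤ n ^ 2 := by
      calc (256 * a ^ 8) ^ 2 = (2 * a) ^ 16 * 1 := by ring
        _ ≤ (2 * a) ^ 16 * L := Nat.mul_le_mul_left _ hL1
        _ ≤ n ^ 2 := hh.trans hHn
    exact (Nat.pow_le_pow_iff_left (by norm_num)).1 h1
  have ha1 : 1 ≤ a ^ 4 := Nat.one_le_pow _ _ (by omega)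
  have hsq : 16 * a ^ 4 ≤ Nat.sqrt n := by
    rw [Nat.le_sqrt]
    calc 16 * a ^ 4 * (16 * a ^ 4) = 256 * a ^ 8 := by ring
      _ ≤ n := hn8
  have hsqn : Nat.sqrt n * Nat.sqrt n ≤ n := Nat.sqrt_le n
  -- parameters
  obtain ⟨c, hc⟩ : ∃ c, c = Nat.sqrt (4 * a) + 1 := ⟨_, rfl⟩
  have hc1 : 4 * a < c * c := by
    rw [hc]
    exact Nat.lt_succ_sqrt _
  have hc2 : c * c ≤ 9 * a := by
    have h1 : Nat.sqrt (4 * a) * Nat.sqrt (4 * a) ≤ 4 * a := Nat.sqrt_le _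
    rw [hc]
    nlinarith [Nat.zero_le (Nat.sqrt (4 * a)), sq_nonneg ((Nat.sqrt (4 * a) : ℤ) - 1)]
  have hc3 : 2 ≤ c := by
    by_contra hcon
    have : c ≤ 1 := by omega
    have : c * c ≤ 1 * 1 := Nat.mul_le_mul this this
    omega
  refine ⟨c, ?_⟩
  obtain ⟨k, hk⟩ : ∃ k, k = 2 * a ^ 2 + 1 := ⟨_, rfl⟩
  obtain ⟨m, hm⟩ : ∃ m, m = a * c := ⟨_, rfl⟩
  rw [← hk, ← hm]
  have ha2 : 4 ≤ a ^ 2 := by nlinarith
  have hk16 : 16 * k ^ 2 ≤ 81 * a ^ 4 := by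
    have h1 : 4 * k ≤ 9 * a ^ 2 := by omega
    calc 16 * k ^ 2 = (4 * k) ^ 2 := by ring
      _ ≤ (9 * a ^ 2) ^ 2 := Nat.pow_le_pow_left h1 2
      _ = 81 * a ^ 4 := by ring
  obtain ⟨P, hP⟩ : ∃ P, P = Fintype.card (PairT k m) := ⟨_, rfl⟩
  have hm2 : m ^ 2 ≤ 9 * a ^ 3 := by
    calc m ^ 2 = a ^ 2 * (c * c) := by rw [hm]; ring
      _ ≤ a ^ 2 * (9 * a) := Nat.mul_le_mul_left _ hc2
      _ = 9 * a ^ 3 := by ring
  have hPle : 16 * P ≤ 729 * a ^ 7 := by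
    have h1 : P ≤ (k * m) ^ 2 := by rw [hP]; exact card_pairT_le k m
    calc 16 * P ≤ 16 * (k * m) ^ 2 := Nat.mul_le_mul_left _ h1
      _ = (16 * k ^ 2) * m ^ 2 := by ring
      _ ≤ (81 * a ^ 4) * (9 * a ^ 3) := Nat.mul_le_mul hk16 hm2
      _ = 729 * a ^ 7 := by ring
  obtain ⟨Q, hQ⟩ : ∃ Q, Q = Fintype.card (CP k) := ⟨_, rfl⟩
  have hQle : 16 * Q ≤ 81 * a ^ 4 := by
    have h1 : Q ≤ k ^ 2 := by rw [hQ]; exact card_classPair_le k
    exact (Nat.mul_le_mul_left _ h1).trans hk16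
  have hP1 : 1 ≤ P := by
    rw [hP]
    refine Fintype.card_pos_iff.2 ⟨⟨((⟨0, by omega⟩, ⟨0, ?_⟩), (⟨1, by omega⟩, ⟨0, ?_⟩)), ?_⟩⟩
    · rw [hm]; exact Nat.mul_pos (by omega) (by omega)
    · rw [hm]; exact Nat.mul_pos (by omega) (by omega)
    · rw [Fin.lt_def]; simp
  have hQs : 2 * Q ≤ Nat.sqrt n := by omega
  have hQ1 : 1 ≤ Q := by
    rw [hQ]
    refine Fintype.card_pos_iff.2 ⟨⟨(⟨0, by omega⟩, ⟨1, by omega⟩), ?_⟩⟩
    rw [Fin.lt_def]; simp
  obtain ⟨e, he⟩ : ∃ e, e = Nat.sqrt n + 1 - (1 + Q) := ⟨_, rfl⟩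
  have he4 : 4 * e ≤ n := by
    have h1 : 4 * Nat.sqrt n ≤ Nat.sqrt n * Nat.sqrt n := Nat.mul_le_mul_right _ (by omega)
    omega
  -- the packing
  have hcond : 192 * a * (a + 1) * P * L + 48 * a * P ^ 2 * L ≤ H.card := by
    refine le_trans ?_ hh
    have h1 : 192 * a * (a + 1) * P + 48 * a * P ^ 2 ≤ (2 * a) ^ 16 := by
      have e1 : 256 * (192 * a * (a + 1) * P + 48 * a * P ^ 2) =
          3072 * a * (a + 1) * (16 * P) + 48 * a * (16 * P) ^ 2 := by ring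
      have e2 : 3072 * a * (a + 1) * (16 * P) + 48 * a * (16 * P) ^ 2 ≤
          3072 * a * (a + 1) * (729 * a ^ 7) + 48 * a * (729 * a ^ 7) ^ 2 := by
        gcongr
      have e3 : 3072 * a * (a + 1) * (729 * a ^ 7) + 48 * a * (729 * a ^ 7) ^ 2 ≤
          256 * (2 * a) ^ 16 := by
        have f1 : a + 1 ≤ 2 * a := by omega
        have f2 : (1 : ℕ) ≤ a ^ 6 := Nat.one_le_pow _ _ (by omega)
        calc 3072 * a * (a + 1) * (729 * a ^ 7) + 48 * a * (729 * a ^ 7) ^ 2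
            ≤ 3072 * a * (2 * a) * (729 * a ^ 7) + 48 * a * (729 * a ^ 7) ^ 2 := by gcongr
          _ = (4478976 * a ^ 2) * a ^ 7 + (25509168 * a ^ 8) * a ^ 7 := by ring
          _ ≤ (4478976 * a ^ 2) * a ^ 7 * a ^ 6 + (25509168 * a ^ 8) * a ^ 7 :=
              Nat.add_le_add_right (Nat.le_mul_of_pos_right _ f2) _
          _ = (29988144 * a ^ 15) := by ring
          _ ≤ 256 * 65536 * a ^ 15 * 2 := by
              have : 29988144 ≤ 256 * 65536 * 2 := by norm_num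
              calc 29988144 * a ^ 15 ≤ (256 * 65536 * 2) * a ^ 15 := Nat.mul_le_mul_right _ this
                _ = 256 * 65536 * a ^ 15 * 2 := by ring
          _ ≤ 256 * 65536 * a ^ 15 * a := Nat.mul_le_mul_left _ ha
          _ = 256 * (2 * a) ^ 16 := by ring
      have e4 : 256 * (192 * a * (a + 1) * P + 48 * a * P ^ 2) ≤ 256 * (2 * a) ^ 16 := by
        rw [e1]
        exact e2.trans e3
      exact Nat.le_of_mul_le_mul_left e4 (by norm_num)
    calc 192 * a * (a + 1) * P * L + 48 * a * P ^ 2 * L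
        = (192 * a * (a + 1) * P + 48 * a * P ^ 2) * L := by ring
      _ ≤ (2 * a) ^ 16 * L := Nat.mul_le_mul_right _ h1
  have hk2 : 2 ≤ k := by omega
  rcases exists_packing H (PairT k m) P e a L hP.symm hP1 he4 hn2a (by omega) hL1 hcond with hst | hmt
  · obtain ⟨D, hD1, hD2⟩ := star_gadget H hst
    refine ⟨e, D, hc1, hc3, hD1, ?_⟩
    rw [hD2, ← hQ]
    omega
  · rw [hP] at hmt
    have hmt' := hmt.mono (e' := Nat.sqrt n + 1 - (Q + Q)) (by omega)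
    obtain ⟨D, hD1, hD2⟩ := match_gadget hk2 H hmt'
    refine ⟨_, D, hc1, hc3, hD1, ?_⟩
    rw [hD2, ← hQ]
    omega

theorem param_h1 {s a : ℕ} (ha : 2 ≤ a) (hs : s < 2 ^ a) :
    s * (a * a) ^ (a + 1) < (2 * a ^ 2) ^ (a + 1) := by
  calc s * (a * a) ^ (a + 1) < 2 ^ (a + 1) * (a * a) ^ (a + 1) := by
        refine Nat.mul_lt_mul_of_pos_right ?_ (pow_pos (Nat.mul_pos (by omega) (by omega)) _)
        exact hs.trans (Nat.pow_lt_pow_right (by norm_num) (by omega))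
    _ = (2 * (a * a)) ^ (a + 1) := (mul_pow _ _ _).symm
    _ = (2 * a ^ 2) ^ (a + 1) := by rw [sq]

theorem param_h2 {s a c : ℕ} (hs : s < 2 ^ a) (hc : 2 ≤ c) :
    2 * (s * a ^ (a + 1)) ≤ (a * c) ^ (a + 1) := by
  calc 2 * (s * a ^ (a + 1)) = 2 * s * a ^ (a + 1) := by ring
    _ ≤ 2 ^ (a + 1) * a ^ (a + 1) := by
        refine Nat.mul_le_mul_right _ ?_
        rw [pow_succ]
        omega
    _ ≤ c ^ (a + 1) * a ^ (a + 1) := by
        refine Nat.mul_le_mul_right _ (Nat.pow_le_pow_left hc _)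
    _ = (a * c) ^ (a + 1) := by rw [mul_pow, Nat.mul_comm]

/-- natural-number form -/
theorem or_nat {n s ρ a : ℕ} (C : Circuit {p : Fin n × Fin n // p.1 < p.2} s)
    (hC : C.ComputesCliqueM) (H : Finset {p : Fin n × Fin n // p.1 < p.2})
    (R : Finset (Fin s)) (hRc : R.card ≤ ρ)
    (hR : ∀ i, C.kind i = GateKind.not → i ∉ R → ∀ x x' val val',
      (∀ v, v ∉ H → (x v ↔ x' v)) → C.IsEvalM x val → C.IsEvalM x' val' → (val i ↔ val' i))
    (ha : 2 ≤ a) (hh : (2 * a) ^ 16 * 2 ^ ρ ≤ H.card) : 2 ^ a ≤ n * s := by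
  by_contra hlt
  push Not at hlt
  have hspos : 1 ≤ s := by
    have := C.out.isLt
    omega
  have hHn : H.card ≤ n ^ 2 := by
    refine (card_le_univ H).trans ((Fintype.card_subtype_le _).trans ?_)
    simp [sq]
  have hρpos : 1 ≤ 2 ^ ρ := Nat.one_le_two_pow
  have hn2a : n < 2 ^ a := lt_of_le_of_lt (Nat.le_mul_of_pos_right _ hspos) hlt
  have hn1 : 1 ≤ n := by
    have h1 : 0 < (2 * a) ^ 16 * 2 ^ ρ := Nat.mul_pos (pow_pos (by omega) _) hρpos
    have h2 : 0 < n ^ 2 := by omega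
    exact Nat.pos_of_ne_zero (fun h0 => by simp [h0] at h2)
  have hs : s < 2 ^ a := lt_of_le_of_lt (Nat.le_mul_of_pos_left _ hn1) hlt
  have hρa : ρ + 1 ≤ 2 * a := by
    have h1 : 2 ^ ρ ≤ n ^ 2 := by
      refine le_trans ?_ (hh.trans hHn)
      exact Nat.le_mul_of_pos_left _ (pow_pos (by omega) _)
    have h2 : n ^ 2 < (2 ^ a) ^ 2 := Nat.pow_lt_pow_left hn2a (by norm_num)
    rw [← pow_mul] at h2
    have h3 : ρ < a * 2 := (Nat.pow_lt_pow_iff_right (by norm_num)).1 (h1.trans_lt h2)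
    omega
  obtain ⟨c, e, D, hc1, hc3, hD1, hslots⟩ := gadget_exists H ha hn2a hρpos hh
  have ha2 : 4 ≤ a ^ 2 := by nlinarith
  have h3 : 2 * ((ρ + 1) * a ^ 2) < (a * c) ^ 2 := by
    calc 2 * ((ρ + 1) * a ^ 2) ≤ 2 * (2 * a * a ^ 2) :=
          Nat.mul_le_mul_left _ (Nat.mul_le_mul_right _ hρa)
      _ = 4 * a * a ^ 2 := by ring
      _ < c * c * a ^ 2 := Nat.mul_lt_mul_of_pos_right hc1 (by omega)
      _ = (a * c) ^ 2 := by ring
  exact or_finite (K := 2 * a ^ 2) D C hC H hD1 R hRc hR rfl (by omega) (by omega) hn1 a a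
    (by omega) ha (param_h1 ha hs) (param_h2 hs hc3) h3 hslots

/-- natural-number form, with oracles -/
theorem oracle_nat {n s t u a : ℕ}
    (C : Circuit ({p : Fin n × Fin n // p.1 < p.2} ⊕ (Fin t ⊕ Fin u)) s)
    (hnot : ∀ i, C.kind i ≠ GateKind.not)
    (φ : Fin t → ({p : Fin n × Fin n // p.1 < p.2} → Prop) → Prop)
    (ψ : Fin u → ({p : Fin n × Fin n // p.1 < p.2} → Prop) → Prop)
    (hC : ∀ G : SimpleGraph (Fin n), ∃ val : Fin s → Prop,
      C.IsEvalM (withOracles φ ψ (fun e => G.Adj e.1.1 e.1.2)) val ∧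
      (val C.out ↔ ∃ c : Finset (Fin n), G.IsClique (c : Set (Fin n)) ∧
        Real.sqrt (n : ℝ) < (c.card : ℝ)))
    (H : Finset {p : Fin n × Fin n // p.1 < p.2})
    (hφ : ∀ i x x', (∀ v, v ∉ H → (x v ↔ x' v)) → (∀ v, x v → x' v) → φ i x' → φ i x)
    (hψ : ∀ i x x', (∀ v, v ∉ H → (x v ↔ x' v)) → ψ i x → ψ i x')
    (ha : 2 ≤ a) (hh : (2 * a) ^ 16 * (t + 1) ≤ H.card) : 2 ^ a ≤ n * s := by
  by_contra hlt
  push Not at hlt
  have hspos : 1 ≤ s := by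
    have := C.out.isLt
    omega
  have hHn : H.card ≤ n ^ 2 := by
    refine (card_le_univ H).trans ((Fintype.card_subtype_le _).trans ?_)
    simp [sq]
  have hn2a : n < 2 ^ a := lt_of_le_of_lt (Nat.le_mul_of_pos_right _ hspos) hlt
  have hn1 : 1 ≤ n := by
    have h1 : 0 < (2 * a) ^ 16 * (t + 1) := Nat.mul_pos (pow_pos (by omega) _) (by omega)
    have h2 : 0 < n ^ 2 := by omega
    exact Nat.pos_of_ne_zero (fun h0 => by simp [h0] at h2)
  have hs : s < 2 ^ a := lt_of_le_of_lt (Nat.le_mul_of_pos_left _ hn1) hlt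
  obtain ⟨c, e, D, hc1, hc3, hD1, hslots⟩ := gadget_exists H ha hn2a (by omega) hh
  have ha2 : 4 ≤ a ^ 2 := by nlinarith
  have h3 : 2 * a ^ 2 < (a * c) ^ 2 := by
    calc 2 * a ^ 2 < c * c * a ^ 2 := Nat.mul_lt_mul_of_pos_right (by omega) (by omega)
      _ = (a * c) ^ 2 := by ring
  exact oracle_finite (K := 2 * a ^ 2) D C hnot φ ψ hC H hD1 hφ hψ rfl (by omega) (by omega) hn1
    a a (by omega) ha (param_h1 ha hs) (param_h2 hs hc3) h3 hslots

/-- conversion of the natural-number form to the real form -/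
theorem real_of_nat {n s h L : ℕ} (hn : 1 ≤ n) (hs : 1 ≤ s) (hL : 1 ≤ L) (h1 : n = 1 → h = 0)
    (key : ∀ a, 2 ≤ a → (2 * a) ^ 16 * L ≤ h → 2 ^ a ≤ n * s) :
    (2 : ℝ) ^ (((h : ℝ) / L) ^ (1 / 16 : ℝ) / 4) ≤ n * s := by
  by_contra hlt
  push Not at hlt
  set y : ℝ := (h : ℝ) / L with hy
  have hLR : (0 : ℝ) < L := by exact_mod_cast hL
  have hy0 : 0 ≤ y := by positivity
  set x : ℝ := y ^ (1 / 16 : ℝ) / 4 with hx
  have hx0 : 0 ≤ x := by positivity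
  have hnR : (1 : ℝ) ≤ n := by exact_mod_cast hn
  have hsR : (1 : ℝ) ≤ s := by exact_mod_cast hs
  have hx1 : 1 < x := by
    by_contra hcon
    push Not at hcon
    have h2 : (2 : ℝ) ^ x ≤ (2 : ℝ) ^ (1 : ℝ) :=
      Real.rpow_le_rpow_of_exponent_le (by norm_num) hcon
    rw [Real.rpow_one] at h2
    have h3 : (n : ℝ) * s < 2 := hlt.trans_le h2
    have h4 : n * s < 2 := by exact_mod_cast h3
    have h5 : n = 1 := by nlinarith
    have h6 : y = 0 := by rw [hy, h1 h5]; simp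
    have h7 : x = 0 := by
      rw [hx, h6, Real.zero_rpow (by norm_num)]
      simp
    rw [h7, Real.rpow_zero] at hlt
    nlinarith
  set a : ℕ := ⌈x⌉₊ with ha
  have hax : x ≤ a := Nat.le_ceil x
  have hax' : (a : ℝ) < x + 1 := Nat.ceil_lt_add_one hx0
  have ha2 : 2 ≤ a := by
    have : (1 : ℝ) < a := hx1.trans_le hax
    have : 1 < a := by exact_mod_cast this
    omega
  have h2 : ((2 : ℝ) * a) ^ 16 ≤ y := by
    have h2 : (2 : ℝ) * a ≤ 4 * x := by linarith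
    have h3 : ((2 : ℝ) * a) ^ 16 ≤ (4 * x) ^ 16 := pow_le_pow_left₀ (by positivity) h2 16
    have h4 : (4 * x) ^ 16 = y := by
      have h5 : 4 * x = y ^ (1 / 16 : ℝ) := by rw [hx]; ring
      rw [h5, ← Real.rpow_natCast, ← Real.rpow_mul hy0]
      norm_num
    rw [h4] at h3
    exact h3
  have h3 : (2 * a) ^ 16 * L ≤ h := by
    have h3 : ((2 : ℝ) * a) ^ 16 * L ≤ (h : ℝ) := by
      rw [hy] at h2
      rwa [le_div_iff₀ hLR] at h2
    exact_mod_cast h3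
  have h4 := key a ha2 h3
  have h5 : (2 : ℝ) ^ x ≤ (2 : ℝ) ^ (a : ℝ) :=
    Real.rpow_le_rpow_of_exponent_le (by norm_num) hax
  rw [Real.rpow_natCast] at h5
  have h6 : ((2 ^ a : ℕ) : ℝ) ≤ ((n * s : ℕ) : ℝ) := by exact_mod_cast h4
  push_cast at h6
  linarith

theorem card_eq_zero_of_one {n : ℕ} (H : Finset {p : Fin n × Fin n // p.1 < p.2}) (h : n = 1) :
    H.card = 0 := by
  subst h
  rw [card_eq_zero]
  ext e
  have := e.2
  have h6 : e.1.1 = e.1.2 := Subsingleton.elim _ _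
  rw [h6] at this
  exact absurd this (lt_irrefl _)

theorem or_real {n s : ℕ} (hn : 1 ≤ n)
    (C : Circuit {p : Fin n × Fin n // p.1 < p.2} s) (hC : C.ComputesClique)
    (H : Finset {p : Fin n × Fin n // p.1 < p.2}) :
    (2 : ℝ) ^ (((H.card : ℝ) / 2 ^ C.numNotOn H) ^ (1 / 16 : ℝ) / 4) ≤ n * s := by
  classical
  have hs : 1 ≤ s := by
    have := C.out.isLt
    omega
  let R : Finset (Fin s) := univ.filter (fun i => C.kind i = GateKind.not ∧ C.DependsOn H i)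
  have hRc : R.card ≤ C.numNotOn H := by
    simp only [R, Circuit.numNotOn]
    rw [Nat.card_eq_fintype_card, Fintype.card_subtype]
  have h := real_of_nat (L := 2 ^ C.numNotOn H) hn hs Nat.one_le_two_pow
    (card_eq_zero_of_one H) (fun a ha2 h2 => or_nat C hC.toM H R hRc (by
      intro i hi hiR x x' val val' hxx hv hv'
      by_contra hne
      apply hiR
      simp only [R, mem_filter, mem_univ, true_and]
      exact ⟨hi, x, x', val, val', hxx, (C.isEval_iff _ _).2 hv, (C.isEval_iff _ _).2 hv', hne⟩)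
      ha2 h2)
  push_cast at h
  exact h

theorem oracle_real {n s t u : ℕ} (hn : 1 ≤ n)
    (C : Circuit ({p : Fin n × Fin n // p.1 < p.2} ⊕ (Fin t ⊕ Fin u)) s)
    (hnot : ∀ i, C.kind i ≠ GateKind.not)
    (φ : Fin t → ({p : Fin n × Fin n // p.1 < p.2} → Prop) → Prop)
    (ψ : Fin u → ({p : Fin n × Fin n // p.1 < p.2} → Prop) → Prop)
    (hC : ∀ G : SimpleGraph (Fin n), ∃ val : Fin s → Prop,
      C.IsEval (withOracles φ ψ (fun e => G.Adj e.1.1 e.1.2)) val ∧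
      (val C.out ↔ ∃ c : Finset (Fin n), G.IsClique (c : Set (Fin n)) ∧
        Real.sqrt (n : ℝ) < (c.card : ℝ)))
    (H : Finset {p : Fin n × Fin n // p.1 < p.2})
    (hφ : ∀ i x x', (∀ v, v ∉ H → (x v ↔ x' v)) → (∀ v, x v → x' v) → φ i x' → φ i x)
    (hψ : ∀ i x x', (∀ v, v ∉ H → (x v ↔ x' v)) → ψ i x → ψ i x') :
    (2 : ℝ) ^ (((H.card : ℝ) / (t + 1)) ^ (1 / 16 : ℝ) / 4) ≤ n * s := by
  have hs : 1 ≤ s := by
    have := C.out.isLt
    omega
  have hC' : ∀ G : SimpleGraph (Fin n), ∃ val : Fin s → Prop,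
      C.IsEvalM (withOracles φ ψ (fun e => G.Adj e.1.1 e.1.2)) val ∧
      (val C.out ↔ ∃ c : Finset (Fin n), G.IsClique (c : Set (Fin n)) ∧
        Real.sqrt (n : ℝ) < (c.card : ℝ)) := by
    intro G
    obtain ⟨val, h1, h2⟩ := hC G
    exact ⟨val, (C.isEval_iff _ _).1 h1, h2⟩
  have h := real_of_nat (L := t + 1) hn hs (by omega)
    (card_eq_zero_of_one H) (fun a ha2 h2 => oracle_nat C hnot φ ψ hC' H hφ hψ ha2 h2)
  push_cast at h
  exact h

end Pool.Agent.CliqueCircuits
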