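import Mathlib
import Pool.Agent.Lib.MP_0a1b52_lc.Extract

/-!
Packing many labelled stars, or a large matching, into an arbitrary set of edges.
-/

namespace Pool.Agent.CliqueCircuits

open Finset

section packdefs

variable {n : ℕ}

def StarPack (H : Finset {p : Fin n × Fin n // p.1 < p.2}) (Λ : Type) (e L : ℕ) : Prop :=
  ∃ (U : Fin e → Fin n) (X Q : ℕ) (v : Fin X → Fin n) (lab : Fin n → Option (Fin Q × Λ))
    (w : Fin X → Fin Q → Λ → Fin n),
    Function.Injective U ∧ Function.Injective v ∧ (∀ a i, U a ≠ v i) ∧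
    (∀ a, lab (U a) = none) ∧ (∀ i, lab (v i) = none) ∧
    (∀ i y ξ, lab (w i y ξ) = some (y, ξ)) ∧ (∀ i y ξ, HR H (v i) (w i y ξ)) ∧ L ≤ X * Q

def MatchPack (H : Finset {p : Fin n × Fin n // p.1 < p.2}) (e M : ℕ) : Prop :=
  ∃ (U : Fin e → Fin n) (z w : Fin M → Fin n),
    Function.Injective U ∧ Function.Injective z ∧ Function.Injective w ∧
    (∀ a b, z a ≠ w b) ∧ (∀ a i, U a ≠ z i) ∧ (∀ a i, U a ≠ w i) ∧ ∀ i, HR H (z i) (w i)

end packdefs

/-- `2 (W-1)^W ≤ W^W`. -/
theorem pack_pow_le (W : ℕ) (hW : 1 ≤ W) : 2 * (W - 1) ^ W ≤ W ^ W := by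
  obtain ⟨y, rfl⟩ : ∃ y, W = y + 1 := ⟨W - 1, by omega⟩
  simp only [Nat.add_sub_cancel]
  rcases Nat.eq_zero_or_pos y with hy | hy
  · subst hy; simp
  have hy0 : (0 : ℝ) < y := by exact_mod_cast hy
  have h := one_add_mul_le_pow (a := (1 : ℝ) / y) (by
    have : (0 : ℝ) < 1 / y := by positivity
    linarith) (y + 1)
  have h1 : (2 : ℝ) ≤ (1 + 1 / y) ^ (y + 1) := by
    refine le_trans ?_ h
    push_cast
    have : ((y : ℝ) + 1) * (1 / y) = 1 + 1 / y := by field_simp
    rw [this]
    have : (0 : ℝ) < 1 / y := by positivity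
    linarith
  have h2 : (2 : ℝ) * (y : ℝ) ^ (y + 1) ≤ ((y : ℝ) + 1) ^ (y + 1) := by
    calc (2 : ℝ) * (y : ℝ) ^ (y + 1) ≤ (1 + 1 / y) ^ (y + 1) * (y : ℝ) ^ (y + 1) :=
          mul_le_mul_of_nonneg_right h1 (by positivity)
      _ = ((1 + 1 / y) * y) ^ (y + 1) := (mul_pow _ _ _).symm
      _ = ((y : ℝ) + 1) ^ (y + 1) := by
          congr 1
          field_simp
  exact_mod_cast h2

/-- dyadic pigeonhole -/
theorem pack_dyadic {α : Type*} (S : Finset α) (d : α → ℕ) (D0 ℓ : ℕ) (hD0 : 1 ≤ D0)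
    (h : ∀ a ∈ S, D0 ≤ d a) (h' : ∀ a ∈ S, d a < 2 ^ ℓ) :
    ∃ i, ∑ a ∈ S, d a ≤
      2 * (ℓ + 1) * (D0 * 2 ^ i * (S.filter (fun a => D0 * 2 ^ i ≤ d a)).card) := by
  classical
  by_contra hcon
  push Not at hcon
  let lg : α → ℕ := fun a => Nat.log 2 (d a / D0)
  have hlg1 : ∀ a ∈ S, D0 * 2 ^ lg a ≤ d a := by
    intro a ha
    have h1 : d a / D0 ≠ 0 := by
      have := Nat.div_pos (h a ha) hD0
      omega
    have h2 := Nat.pow_log_le_self 2 h1
    calc D0 * 2 ^ lg a ≤ D0 * (d a / D0) := Nat.mul_le_mul_left _ h2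
      _ ≤ d a := Nat.mul_div_le _ _
  have hlg2 : ∀ a ∈ S, d a ≤ 2 * (D0 * 2 ^ lg a) := by
    intro a ha
    have h2 : d a / D0 < 2 ^ (lg a + 1) := Nat.lt_pow_succ_log_self (by norm_num) _
    have h3 : d a < 2 ^ (lg a + 1) * D0 := (Nat.div_lt_iff_lt_mul hD0).1 h2
    rw [pow_succ] at h3
    nlinarith
  have hlg3 : ∀ a ∈ S, lg a ∈ range (ℓ + 1) := by
    intro a ha
    rw [mem_range]
    have h1 := hlg1 a ha
    have h2 := h' a ha
    have h3 : 2 ^ lg a < 2 ^ ℓ := by
      calc 2 ^ lg a ≤ D0 * 2 ^ lg a := Nat.le_mul_of_pos_left _ hD0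
        _ ≤ d a := h1
        _ < 2 ^ ℓ := h2
    have := (Nat.pow_lt_pow_iff_right (by norm_num : 1 < 2)).1 h3
    omega
  have hsum : ∑ a ∈ S, d a ≤
      2 * ∑ i ∈ range (ℓ + 1), D0 * 2 ^ i * (S.filter (fun a => D0 * 2 ^ i ≤ d a)).card := by
    rw [← sum_fiberwise_of_maps_to hlg3, mul_sum]
    refine sum_le_sum fun i _ => ?_
    calc ∑ a ∈ S.filter (fun a => lg a = i), d a
        ≤ ∑ a ∈ S.filter (fun a => lg a = i), 2 * (D0 * 2 ^ i) := by
          refine sum_le_sum fun a ha => ?_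
          obtain ⟨ha, hi⟩ := mem_filter.1 ha
          rw [← hi]
          exact hlg2 a ha
      _ = 2 * (D0 * 2 ^ i * (S.filter (fun a => lg a = i)).card) := by
          rw [sum_const, smul_eq_mul]; ring
      _ ≤ 2 * (D0 * 2 ^ i * (S.filter (fun a => D0 * 2 ^ i ≤ d a)).card) := by
          refine Nat.mul_le_mul_left _ (Nat.mul_le_mul_left _ (card_le_card ?_))
          intro a ha
          obtain ⟨ha, hi⟩ := mem_filter.1 ha
          rw [mem_filter, ← hi]
          exact ⟨ha, hlg1 a ha⟩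
  have hlt : ∑ i ∈ range (ℓ + 1),
      2 * (ℓ + 1) * (D0 * 2 ^ i * (S.filter (fun a => D0 * 2 ^ i ≤ d a)).card) <
      ∑ i ∈ range (ℓ + 1), ∑ a ∈ S, d a :=
    sum_lt_sum_of_nonempty ⟨0, by simp⟩ fun i _ => hcon i
  rw [← mul_sum, sum_const, card_range, smul_eq_mul] at hlt
  have : (ℓ + 1) * (2 * ∑ i ∈ range (ℓ + 1),
      D0 * 2 ^ i * (S.filter (fun a => D0 * 2 ^ i ≤ d a)).card) < (ℓ + 1) * ∑ a ∈ S, d a := by
    calc _ = _ := by ring
      _ < _ := hlt
  have := Nat.lt_of_mul_lt_mul_left this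
  omega

open Classical in
/-- number of labellings avoiding the label `k` on the set `S` -/
theorem pack_card_avoid {β κ : Type*} [Fintype β] [DecidableEq β] [Fintype κ] [DecidableEq κ]
    (S : Finset β) (k : κ) :
    (univ.filter fun f : β → κ => ∀ b ∈ S, f b ≠ k).card * Fintype.card κ ^ S.card =
      (Fintype.card κ - 1) ^ S.card * Fintype.card κ ^ Fintype.card β := by
  classical
  have : (univ.filter fun f : β → κ => ∀ b ∈ S, f b ≠ k) =
      Fintype.piFinset (fun b => if b ∈ S then univ.erase k else univ) := by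
    ext f
    simp only [mem_filter, mem_univ, true_and, Fintype.mem_piFinset]
    constructor
    · intro h b
      by_cases hb : b ∈ S
      · simp [hb, h b hb]
      · simp [hb]
    · intro h b hb
      have := h b
      simpa [hb] using this
  rw [this, Fintype.card_piFinset]
  have h1 : ∀ b : β, (if b ∈ S then (univ : Finset κ).erase k else univ).card =
      if b ∈ S then Fintype.card κ - 1 else Fintype.card κ := by
    intro b
    split_ifs
    · rw [card_erase_of_mem (mem_univ _), card_univ]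
    · rw [card_univ]
  simp only [h1]
  rw [prod_ite]
  simp only [prod_const]
  have h2 : (univ.filter fun b => b ∉ S) = univ \ S := by ext; simp
  have h3 : (univ.filter fun b => b ∈ S) = S := by ext; simp
  rw [h2, h3, card_sdiff_of_subset (subset_univ _), card_univ, mul_assoc, ← pow_add,
    Nat.sub_add_cancel (card_le_univ _)]

/-- a labelling such that every set of the family contains all labels -/
theorem pack_label {β κ ι : Type*} [Fintype β] [DecidableEq β] [Fintype κ] [DecidableEq κ]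
    [Nonempty κ] (I : Finset ι) (S : ι → Finset β) (D ℓ : ℕ)
    (hS : ∀ i ∈ I, D ≤ (S i).card) (hD : 2 * ℓ * Fintype.card κ ≤ D)
    (hI : I.card * Fintype.card κ < 2 ^ (2 * ℓ)) :
    ∃ f : β → κ, ∀ i ∈ I, ∀ k, ∃ b ∈ S i, f b = k := by
  classical
  set c := Fintype.card κ with hc
  have hcpos : 0 < c := Fintype.card_pos
  by_contra hcon
  push Not at hcon
  have hcov : (univ : Finset (β → κ)) ⊆ (I ×ˢ (univ : Finset κ)).biUnion
      (fun ik => univ.filter fun f : β → κ => ∀ b ∈ S ik.1, f b ≠ ik.2) := by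
    intro f _
    obtain ⟨i, hi, k, hk⟩ := hcon f
    rw [mem_biUnion]
    exact ⟨(i, k), mem_product.2 ⟨hi, mem_univ _⟩, mem_filter.2 ⟨mem_univ _, hk⟩⟩
  have hbad : ∀ ik ∈ I ×ˢ (univ : Finset κ),
      (univ.filter fun f : β → κ => ∀ b ∈ S ik.1, f b ≠ ik.2).card * 2 ^ (2 * ℓ) ≤
        c ^ Fintype.card β := by
    rintro ⟨i, k⟩ hik
    simp only [mem_product, mem_univ, and_true] at hik
    have h1 := pack_card_avoid (S i) k
    rw [← hc] at h1
    have h2 := (hD.trans (hS i hik))
    have h3 : (c - 1) ^ (S i).card * 2 ^ (2 * ℓ) ≤ c ^ (S i).card := by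
      obtain ⟨t, ht⟩ := Nat.exists_eq_add_of_le h2
      rw [ht]
      calc (c - 1) ^ (2 * ℓ * c + t) * 2 ^ (2 * ℓ)
          = (2 * (c - 1) ^ c) ^ (2 * ℓ) * (c - 1) ^ t := by
            rw [pow_add, mul_pow, ← pow_mul, mul_comm c (2 * ℓ)]; ring
        _ ≤ (c ^ c) ^ (2 * ℓ) * c ^ t :=
            Nat.mul_le_mul (Nat.pow_le_pow_left (pack_pow_le c hcpos) _)
              (Nat.pow_le_pow_left (Nat.sub_le _ _) _)
        _ = c ^ (2 * ℓ * c + t) := by
            rw [pow_add, ← pow_mul, mul_comm c (2 * ℓ)]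
    have h4 : 0 < c ^ (S i).card := pow_pos hcpos _
    refine Nat.le_of_mul_le_mul_right ?_ h4
    calc (univ.filter fun f : β → κ => ∀ b ∈ S i, f b ≠ k).card * 2 ^ (2 * ℓ) * c ^ (S i).card
        = ((univ.filter fun f : β → κ => ∀ b ∈ S i, f b ≠ k).card * c ^ (S i).card) *
            2 ^ (2 * ℓ) := by ring
      _ = ((c - 1) ^ (S i).card * 2 ^ (2 * ℓ)) * c ^ Fintype.card β := by rw [h1]; ring
      _ ≤ c ^ (S i).card * c ^ Fintype.card β := Nat.mul_le_mul_right _ h3
      _ = _ := by ring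
  have h1 := (card_le_card hcov).trans card_biUnion_le
  rw [card_univ, Fintype.card_fun, ← hc] at h1
  have h2 : c ^ Fintype.card β * 2 ^ (2 * ℓ) ≤
      (I.card * c) * c ^ Fintype.card β := by
    calc c ^ Fintype.card β * 2 ^ (2 * ℓ)
        ≤ (∑ ik ∈ I ×ˢ (univ : Finset κ),
            (univ.filter fun f : β → κ => ∀ b ∈ S ik.1, f b ≠ ik.2).card) * 2 ^ (2 * ℓ) :=
          Nat.mul_le_mul_right _ h1
      _ = ∑ ik ∈ I ×ˢ (univ : Finset κ),
            (univ.filter fun f : β → κ => ∀ b ∈ S ik.1, f b ≠ ik.2).card * 2 ^ (2 * ℓ) := by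
          rw [sum_mul]
      _ ≤ ∑ ik ∈ I ×ˢ (univ : Finset κ), c ^ Fintype.card β := sum_le_sum hbad
      _ = (I.card * c) * c ^ Fintype.card β := by
          rw [sum_const, card_product, card_univ, smul_eq_mul, ← hc]
  have h3 : 0 < c ^ Fintype.card β := pow_pos hcpos _
  have h4 : (I.card * c) * c ^ Fintype.card β < 2 ^ (2 * ℓ) * c ^ Fintype.card β :=
    Nat.mul_lt_mul_of_pos_right hI h3
  rw [mul_comm] at h2
  exact absurd (h2.trans_lt h4) (lt_irrefl _)

/-- greedy matching -/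
theorem pack_greedy {n : ℕ} (E : Finset (Fin n × Fin n)) (D M : ℕ) (hD : 1 ≤ D)
    (h1 : ∀ a, (E.filter fun p => p.1 = a).card ≤ D)
    (h2 : ∀ b, (E.filter fun p => p.2 = b).card ≤ D) (hE : 2 * D * M ≤ E.card) :
    ∃ z w : Fin M → Fin n, Function.Injective z ∧ Function.Injective w ∧
      ∀ i, (z i, w i) ∈ E := by
  classical
  have key : ∀ t, t ≤ M → ∃ z w : Fin t → Fin n, Function.Injective z ∧ Function.Injective w ∧
      ∀ i, (z i, w i) ∈ E := by
    intro t
    induction t with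
    | zero =>
      intro _
      exact ⟨Fin.elim0, Fin.elim0, fun a => a.elim0, fun a => a.elim0, fun a => a.elim0⟩
    | succ t ih =>
      intro ht
      obtain ⟨z, w, hz, hw, hzw⟩ := ih (by omega)
      have hex : ∃ p ∈ E, p.1 ∉ univ.image z ∧ p.2 ∉ univ.image w := by
        by_contra hcon
        push Not at hcon
        have hsub : E ⊆ (univ.image z).biUnion (fun a => E.filter fun p => p.1 = a) ∪
            (univ.image w).biUnion (fun b => E.filter fun p => p.2 = b) := by
          intro p hp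
          by_cases h : p.1 ∈ univ.image z
          · exact mem_union_left _ (mem_biUnion.2 ⟨p.1, h, mem_filter.2 ⟨hp, rfl⟩⟩)
          · exact mem_union_right _ (mem_biUnion.2 ⟨p.2, hcon p hp h, mem_filter.2 ⟨hp, rfl⟩⟩)
        have h3 : (univ.image z).card ≤ t := by
          simpa using (card_image_le (s := (univ : Finset (Fin t))) (f := z))
        have h4 : (univ.image w).card ≤ t := by
          simpa using (card_image_le (s := (univ : Finset (Fin t))) (f := w))
        have h5 := (card_le_card hsub).trans (card_union_le _ _)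
        have h6 := card_biUnion_le_card_mul (univ.image z) (fun a => E.filter fun p => p.1 = a) D
          (fun a _ => h1 a)
        have h7 := card_biUnion_le_card_mul (univ.image w) (fun b => E.filter fun p => p.2 = b) D
          (fun b _ => h2 b)
        have h8 : E.card ≤ t * D + t * D :=
          h5.trans (Nat.add_le_add (h6.trans (Nat.mul_le_mul_right _ h3))
            (h7.trans (Nat.mul_le_mul_right _ h4)))
        have h9 : t * D + t * D < 2 * D * M := by
          have : D * t < D * M := Nat.mul_lt_mul_of_pos_left (by omega) hD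
          nlinarith
        omega
      obtain ⟨p, hp, hp1, hp2⟩ := hex
      refine ⟨Fin.cons p.1 z, Fin.cons p.2 w, ?_, ?_, ?_⟩
      · rw [Fin.cons_injective_iff]
        refine ⟨?_, hz⟩
        rintro ⟨i, hi⟩
        exact hp1 (mem_image.2 ⟨i, mem_univ _, hi⟩)
      · rw [Fin.cons_injective_iff]
        refine ⟨?_, hw⟩
        rintro ⟨i, hi⟩
        exact hp2 (mem_image.2 ⟨i, mem_univ _, hi⟩)
      · intro i
        refine Fin.cases ?_ (fun i => ?_) i
        · simpa using hp
        · simpa using hzw i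
  exact key M le_rfl

/-- Stars: every centre has many neighbours. -/
theorem pack_star {n : ℕ} (H : Finset {p : Fin n × Fin n // p.1 < p.2}) (Λ : Type) [Fintype Λ]
    (P e ℓ L : ℕ) (hP : Fintype.card Λ = P) (hP1 : 1 ≤ P) (hℓ : n < 2 ^ ℓ) (hℓ1 : 1 ≤ ℓ)
    (hL : 1 ≤ L) (U : Fin e → Fin n) (hU : Function.Injective U) (f : Fin n → Bool) (t : Bool)
    (E : Finset (Fin n × Fin n))
    (hE : ∀ p ∈ E, f p.1 = t ∧ f p.2 = !t ∧ HR H p.1 p.2 ∧ ∀ a, U a ≠ p.1 ∧ U a ≠ p.2)
    (hdeg : ∀ p ∈ E, 2 * ℓ * P ≤ (E.filter fun q => q.1 = p.1).card)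
    (hcard : 4 * ℓ * (ℓ + 1) * P * L ≤ E.card) : StarPack H Λ e L := by
  classical
  set D0 := 2 * ℓ * P with hD0
  have hD0pos : 1 ≤ D0 := Nat.mul_pos (Nat.mul_pos (by norm_num) hℓ1) hP1
  set S : Finset (Fin n) := E.image Prod.fst with hS
  set d : Fin n → ℕ := fun a => (E.filter fun q => q.1 = a).card with hd
  have hsum : ∑ a ∈ S, d a = E.card := by
    rw [card_eq_sum_card_fiberwise (f := Prod.fst) (t := S)]
    intro p hp
    exact mem_image_of_mem _ hp
  have hnb : ∀ a, ((E.filter fun q => q.1 = a).image Prod.snd).card = d a := by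
    intro a
    apply card_image_of_injOn
    intro p hp q hq hpq
    simp only [coe_filter, Set.mem_ofPred_eq] at hp hq
    exact Prod.ext (hp.2.trans hq.2.symm) hpq
  have hdn : ∀ a, d a ≤ n := by
    intro a
    rw [← hnb a]
    exact (card_le_univ _).trans (by simp)
  obtain ⟨i, hi⟩ := pack_dyadic S d D0 ℓ hD0pos (by
    intro a ha
    obtain ⟨p, hp, rfl⟩ := mem_image.1 ha
    exact hdeg p hp) (fun a _ => (hdn a).trans_lt hℓ)
  rw [hsum] at hi
  set I : Finset (Fin n) := S.filter (fun a => D0 * 2 ^ i ≤ d a) with hI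
  set Q := 2 ^ i with hQ
  have hQpos : 0 < Q := pow_pos (by norm_num) _
  have hXQ : L ≤ I.card * Q := by
    have h1 : (4 * ℓ * (ℓ + 1) * P) * L ≤ (4 * ℓ * (ℓ + 1) * P) * (I.card * Q) := by
      calc (4 * ℓ * (ℓ + 1) * P) * L ≤ E.card := hcard
        _ ≤ 2 * (ℓ + 1) * (D0 * Q * I.card) := hi
        _ = (4 * ℓ * (ℓ + 1) * P) * (I.card * Q) := by rw [hD0]; ring
    refine Nat.le_of_mul_le_mul_left h1 ?_
    positivity
  have hIpos : 0 < I.card := by
    rcases Nat.eq_zero_or_pos I.card with h | h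
    · rw [h, zero_mul] at hXQ; omega
    · exact h
  have hc : Fintype.card (Fin Q × Λ) = Q * P := by
    rw [Fintype.card_prod, Fintype.card_fin, hP]
  have hne : Nonempty (Fin Q × Λ) := by
    rw [← Fintype.card_pos_iff, hc]
    exact Nat.mul_pos hQpos hP1
  have hcn : Q * P < 2 ^ ℓ := by
    obtain ⟨a, ha⟩ := card_pos.1 hIpos
    have h1 := (mem_filter.1 ha).2
    calc Q * P ≤ D0 * Q := by
          rw [hD0]
          calc Q * P = 1 * (P * Q) := by ring
            _ ≤ (2 * ℓ) * (P * Q) := Nat.mul_le_mul_right _ (by omega)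
            _ = _ := by ring
      _ ≤ d a := h1
      _ ≤ n := hdn a
      _ < 2 ^ ℓ := hℓ
  have hIn : I.card < 2 ^ ℓ := by
    refine lt_of_le_of_lt (card_le_univ _) ?_
    simpa using hℓ
  obtain ⟨g, hg⟩ := pack_label (κ := Fin Q × Λ) I
    (fun a => (E.filter fun q => q.1 = a).image Prod.snd) (D0 * Q) ℓ (by
      intro a ha
      rw [hnb a]
      exact (mem_filter.1 ha).2) (by
      rw [hc, hD0]
      exact le_of_eq (by ring)) (by
      rw [hc, two_mul, pow_add]
      exact Nat.mul_lt_mul'' hIn hcn)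
  choose! w hw1 hw2 using hg
  have hIE : ∀ a ∈ I, ∃ p ∈ E, p.1 = a := by
    intro a ha
    obtain ⟨p, hp, h⟩ := mem_image.1 (mem_filter.1 ha).1
    exact ⟨p, hp, h⟩
  have hwE : ∀ a ∈ I, ∀ k, (a, w a k) ∈ E := by
    intro a ha k
    obtain ⟨p, hp, h⟩ := mem_image.1 (hw1 a ha k)
    obtain ⟨hp1, hp2⟩ := mem_filter.1 hp
    have : p = (a, w a k) := Prod.ext hp2 h
    rw [← this]; exact hp1
  have hvI : ∀ i, I.orderEmbOfFin rfl i ∈ I := fun i => I.orderEmbOfFin_mem rfl i
  refine ⟨U, I.card, Q, fun i => I.orderEmbOfFin rfl i,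
    fun b => if f b = !t ∧ ∀ a, U a ≠ b then some (g b) else none,
    fun i y ξ => w (I.orderEmbOfFin rfl i) (y, ξ), hU, (I.orderEmbOfFin rfl).injective,
    ?_, ?_, ?_, ?_, ?_, hXQ⟩
  · intro a i
    obtain ⟨p, hp, h⟩ := hIE _ (hvI i)
    beta_reduce
    rw [← h]
    exact ((hE p hp).2.2.2 a).1
  · intro a
    beta_reduce
    rw [if_neg]
    rintro ⟨_, h⟩
    exact h a rfl
  · intro i
    beta_reduce
    rw [if_neg]
    rintro ⟨h, _⟩
    obtain ⟨p, hp, h'⟩ := hIE _ (hvI i)
    rw [← h', (hE p hp).1] at h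
    cases t <;> simp at h
  · intro i y ξ
    have hp := hwE _ (hvI i) (y, ξ)
    have h1 := hE _ hp
    beta_reduce
    rw [if_pos ⟨h1.2.1, fun a => (h1.2.2.2 a).2⟩, hw2 _ (hvI i)]
  · intro i y ξ
    exact (hE _ (hwE _ (hvI i) (y, ξ))).2.2.1

theorem HR.symm {n : ℕ} {H : Finset {p : Fin n × Fin n // p.1 < p.2}} {x y : Fin n}
    (h : HR H x y) : HR H y x := by
  obtain ⟨e, he, h⟩ := h
  exact ⟨e, he, h.symm⟩

/-- a set of `e` vertices touching at most half of the edges -/
theorem pack_reserve {n : ℕ} (H : Finset {p : Fin n × Fin n // p.1 < p.2}) (e : ℕ)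
    (he : 4 * e ≤ n) :
    ∃ (U : Fin e → Fin n) (H' : Finset {p : Fin n × Fin n // p.1 < p.2}),
      Function.Injective U ∧ H' ⊆ H ∧ H.card ≤ 2 * H'.card ∧
      ∀ p ∈ H', ∀ a, U a ≠ p.1.1 ∧ U a ≠ p.1.2 := by
  classical
  let U : Fin 4 → Fin e → Fin n := fun j a => ⟨j.val * e + a.val, by
    have h1 := j.isLt
    have h2 := a.isLt
    have h3 : j.val * e ≤ 3 * e := Nat.mul_le_mul_right _ (by omega)
    omega⟩
  have hU : ∀ j j' a a', U j a = U j' a' → j = j' := by
    intro j j' a a' h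
    have h := congrArg Fin.val h
    simp only [U] at h
    have h1 := a.isLt
    have h2 := a'.isLt
    apply Fin.ext
    rcases lt_trichotomy j.val j'.val with hj | hj | hj
    · have : (j.val + 1) * e ≤ j'.val * e := Nat.mul_le_mul_right _ hj
      rw [add_mul] at this
      omega
    · exact hj
    · have : (j'.val + 1) * e ≤ j.val * e := Nat.mul_le_mul_right _ hj
      rw [add_mul] at this
      omega
  let T : Fin 4 → Finset {p : Fin n × Fin n // p.1 < p.2} := fun j =>
    H.filter (fun p => ∃ a, U j a = p.1.1 ∨ U j a = p.1.2)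
  have hsum : ∑ j, (T j).card ≤ 2 * H.card := by
    have h1 : ∑ j, (T j).card = ∑ p ∈ H, (univ.filter fun j => ∃ a, U j a = p.1.1 ∨ U j a = p.1.2).card := by
      simp only [T, card_filter]
      rw [sum_comm]
    rw [h1]
    have h2 : ∀ p ∈ H, (univ.filter fun j => ∃ a, U j a = p.1.1 ∨ U j a = p.1.2).card ≤ 2 := by
      intro p _
      have h3 : ∀ x : Fin n, (univ.filter fun j => ∃ a, U j a = x).card ≤ 1 := by
        intro x
        rw [card_le_one]
        intro j hj j' hj'
        obtain ⟨a, ha⟩ := (mem_filter.1 hj).2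
        obtain ⟨a', ha'⟩ := (mem_filter.1 hj').2
        exact hU j j' a a' (ha.trans ha'.symm)
      calc (univ.filter fun j => ∃ a, U j a = p.1.1 ∨ U j a = p.1.2).card
          ≤ ((univ.filter fun j => ∃ a, U j a = p.1.1) ∪
              (univ.filter fun j => ∃ a, U j a = p.1.2)).card := by
            apply card_le_card
            intro j hj
            obtain ⟨a, ha⟩ := (mem_filter.1 hj).2
            rcases ha with ha | ha
            · exact mem_union_left _ (mem_filter.2 ⟨mem_univ _, a, ha⟩)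
            · exact mem_union_right _ (mem_filter.2 ⟨mem_univ _, a, ha⟩)
        _ ≤ _ := card_union_le _ _
        _ ≤ 1 + 1 := Nat.add_le_add (h3 _) (h3 _)
    calc _ ≤ ∑ p ∈ H, 2 := sum_le_sum h2
      _ = 2 * H.card := by rw [sum_const, smul_eq_mul, mul_comm]
  obtain ⟨j, hj⟩ : ∃ j, 2 * (T j).card ≤ H.card := by
    by_contra hcon
    push Not at hcon
    have h1 : ∀ j ∈ (univ : Finset (Fin 4)), H.card + 1 ≤ 2 * (T j).card := fun j _ => hcon j
    have h2 := sum_le_sum h1
    rw [← mul_sum, sum_const, card_univ, Fintype.card_fin, smul_eq_mul] at h2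
    omega
  refine ⟨U j, H \ T j, ?_, sdiff_subset, ?_, ?_⟩
  · intro a a' h
    have h := congrArg Fin.val h
    simp only [U] at h
    apply Fin.ext
    omega
  · have h1 : (H \ T j).card = H.card - (T j).card := card_sdiff_of_subset (filter_subset _ _)
    omega
  · intro p hp a
    obtain ⟨hpH, hpT⟩ := mem_sdiff.1 hp
    constructor
    · intro h
      exact hpT (mem_filter.2 ⟨hpH, a, Or.inl h⟩)
    · intro h
      exact hpT (mem_filter.2 ⟨hpH, a, Or.inr h⟩)

/-- a bipartition cutting at least half of the edges -/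
theorem pack_cut {n : ℕ} (H : Finset {p : Fin n × Fin n // p.1 < p.2}) :
    ∃ f : Fin n → Bool, H.card ≤ 2 * (H.filter fun p => f p.1.1 ≠ f p.1.2).card := by
  classical
  by_contra hcon
  push Not at hcon
  have hcut : ∀ p ∈ H, Fintype.card (Fin n → Bool) ≤
      2 * (univ.filter fun f : Fin n → Bool => f p.1.1 ≠ f p.1.2).card := by
    intro p _
    have h1 : (univ.filter fun f : Fin n → Bool => ¬ (f p.1.1 ≠ f p.1.2)).card ≤
        (univ.filter fun f : Fin n → Bool => f p.1.1 ≠ f p.1.2).card := by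
      refine card_le_card_of_injOn (fun f => Function.update f p.1.1 (!f p.1.1)) ?_ ?_
      · intro f hf
        simp only [coe_filter, mem_univ, true_and, Set.mem_ofPred_eq, ne_eq, not_not] at hf ⊢
        rw [Function.update_self, Function.update_of_ne (ne_of_gt p.2), hf]
        cases f p.1.2 <;> simp
      · intro f _ f' _ h
        funext x
        have h1 := congrFun h x
        by_cases hx : x = p.1.1
        · subst hx
          simp only [Function.update_self] at h1
          cases h2 : f p.1.1 <;> cases h3 : f' p.1.1 <;> simp_all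
        · simp only [Function.update_of_ne hx] at h1
          exact h1
    have h2 := card_filter_add_card_filter_not (s := (univ : Finset (Fin n → Bool)))
      (fun f => f p.1.1 ≠ f p.1.2)
    rw [card_univ] at h2
    omega
  have h1 : ∑ f : Fin n → Bool, 2 * (H.filter fun p => f p.1.1 ≠ f p.1.2).card <
      ∑ _f : Fin n → Bool, H.card :=
    sum_lt_sum_of_nonempty ⟨fun _ => true, mem_univ _⟩ fun f _ => hcon f
  have h2 : ∑ f : Fin n → Bool, 2 * (H.filter fun p => f p.1.1 ≠ f p.1.2).card =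
      ∑ p ∈ H, 2 * (univ.filter fun f : Fin n → Bool => f p.1.1 ≠ f p.1.2).card := by
    rw [← mul_sum, ← mul_sum]
    congr 1
    simp only [card_filter]
    rw [sum_comm]
  have h3 := sum_le_sum hcut
  rw [← h2] at h3
  simp only [sum_const, smul_eq_mul, card_univ] at h1 h3
  rw [mul_comm] at h3
  exact absurd (h3.trans_lt h1) (lt_irrefl _)

/-- Every set of edges contains many labelled stars or a large matching. -/
theorem exists_packing' {n : ℕ} (H : Finset {p : Fin n × Fin n // p.1 < p.2}) (Λ : Type)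
    [Fintype Λ] (P e ℓ L : ℕ) (hP : Fintype.card Λ = P) (hP1 : 1 ≤ P) (he : 4 * e ≤ n)
    (hℓ : n < 2 ^ ℓ) (hℓ1 : 1 ≤ ℓ) (hL : 1 ≤ L)
    (h : 32 * ℓ * (ℓ + 1) * P * L + 16 * ℓ * P ^ 2 * L ≤ H.card) :
    StarPack H Λ e L ∨ MatchPack H e (L * P) := by
  classical
  obtain ⟨U, H', hU, hH', hH'c, hUH'⟩ := pack_reserve H e he
  obtain ⟨f, hf⟩ := pack_cut H'
  -- oriented crossing pairs
  set Hc := H'.filter fun p => f p.1.1 ≠ f p.1.2 with hHc
  let o : {p : Fin n × Fin n // p.1 < p.2} → Fin n × Fin n :=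
    fun p => if f p.1.1 = true then (p.1.1, p.1.2) else (p.1.2, p.1.1)
  have ho : Set.InjOn o Hc := by
    intro p hp q hq hpq
    simp only [o] at hpq
    have lp := p.2
    have lq := q.2
    apply Subtype.ext
    by_cases h1 : f p.1.1 = true <;> by_cases h2 : f q.1.1 = true
    · rw [if_pos h1, if_pos h2] at hpq
      exact Prod.ext (congrArg Prod.fst hpq) (congrArg Prod.snd hpq)
    · rw [if_pos h1, if_neg h2] at hpq
      have h3 := congrArg Prod.fst hpq
      have h4 := congrArg Prod.snd hpq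
      simp only at h3 h4
      rw [h3, h4] at lp
      exact absurd lp (lt_asymm lq)
    · rw [if_neg h1, if_pos h2] at hpq
      have h3 := congrArg Prod.fst hpq
      have h4 := congrArg Prod.snd hpq
      simp only at h3 h4
      rw [h3, h4] at lp
      exact absurd lp (lt_asymm lq)
    · rw [if_neg h1, if_neg h2] at hpq
      exact Prod.ext (congrArg Prod.snd hpq) (congrArg Prod.fst hpq)
  set E := Hc.image o with hE
  have hEc : E.card = Hc.card := card_image_of_injOn ho
  have hEp : ∀ q ∈ E, f q.1 = true ∧ f q.2 = false ∧ HR H q.1 q.2 ∧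
      ∀ a, U a ≠ q.1 ∧ U a ≠ q.2 := by
    intro q hq
    obtain ⟨p, hp, rfl⟩ := mem_image.1 hq
    obtain ⟨hp', hne⟩ := mem_filter.1 hp
    have hu := hUH' p hp'
    by_cases h1 : f p.1.1 = true
    · simp only [o, if_pos h1]
      refine ⟨h1, ?_, ⟨p, hH' hp', Or.inl ⟨rfl, rfl⟩⟩, hu⟩
      rw [h1] at hne
      cases h2 : f p.1.2
      · rfl
      · rw [h2] at hne; exact absurd rfl hne
    · simp only [o, if_neg h1]
      refine ⟨?_, by simpa using h1, ⟨p, hH' hp', Or.inr ⟨rfl, rfl⟩⟩, fun a => (hu a).symm⟩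
      cases h2 : f p.1.2
      · rw [h2] at hne
        exfalso
        apply hne
        simpa using h1
      · rfl
  -- splitting
  set D0 := 2 * ℓ * P with hD0
  have hD0pos : 1 ≤ D0 := Nat.mul_pos (Nat.mul_pos (by norm_num) hℓ1) hP1
  set E1 := E.filter (fun p => D0 ≤ (E.filter fun q => q.1 = p.1).card) with hE1
  set E' := E.filter (fun p => ¬ D0 ≤ (E.filter fun q => q.1 = p.1).card) with hE'
  set E2 := E'.filter (fun p => D0 ≤ (E'.filter fun q => q.2 = p.2).card) with hE2
  set E3 := E'.filter (fun p => ¬ D0 ≤ (E'.filter fun q => q.2 = p.2).card) with hE3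
  have hc1 : E1.card + E'.card = E.card := card_filter_add_card_filter_not _
  have hc2 : E2.card + E3.card = E'.card := card_filter_add_card_filter_not _
  by_cases k1 : 4 * ℓ * (ℓ + 1) * P * L ≤ E1.card
  · left
    refine pack_star H Λ P e ℓ L hP hP1 hℓ hℓ1 hL U hU f true E1 ?_ ?_ k1
    · intro p hp
      exact hEp p (filter_subset _ _ hp)
    · intro p hp
      have h1 := (mem_filter.1 hp).2
      refine h1.trans (card_le_card ?_)
      intro q hq
      obtain ⟨hq1, hq2⟩ := mem_filter.1 hq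
      refine mem_filter.2 ⟨mem_filter.2 ⟨hq1, ?_⟩, hq2⟩
      rw [hq2]; exact h1
  by_cases k2 : 4 * ℓ * (ℓ + 1) * P * L ≤ E2.card
  · left
    have hsw : (E2.image Prod.swap).card = E2.card := card_image_of_injective _ Prod.swap_injective
    refine pack_star H Λ P e ℓ L hP hP1 hℓ hℓ1 hL U hU f false (E2.image Prod.swap) ?_ ?_
      (by rw [hsw]; exact k2)
    · intro p hp
      obtain ⟨q, hq, rfl⟩ := mem_image.1 hp
      have h1 := hEp q (filter_subset _ _ (filter_subset _ _ hq))
      exact ⟨h1.2.1, h1.1, h1.2.2.1.symm, fun a => (h1.2.2.2 a).symm⟩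
    · intro p hp
      obtain ⟨q, hq, rfl⟩ := mem_image.1 hp
      have h1 := (mem_filter.1 hq).2
      refine h1.trans ?_
      rw [← card_image_of_injective (E'.filter fun r => r.2 = q.2) Prod.swap_injective]
      apply card_le_card
      intro r hr
      obtain ⟨r', hr', rfl⟩ := mem_image.1 hr
      obtain ⟨hr1, hr2⟩ := mem_filter.1 hr'
      refine mem_filter.2 ⟨mem_image_of_mem _ (mem_filter.2 ⟨hr1, ?_⟩), hr2⟩
      rw [hr2]; exact h1
  · right
    push Not at k1 k2
    have h3 : 2 * D0 * (L * P) ≤ E3.card := by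
      have h4 : 2 * D0 * (L * P) = 4 * ℓ * P ^ 2 * L := by rw [hD0]; ring
      have h5 : 32 * ℓ * (ℓ + 1) * P * L = 8 * (4 * ℓ * (ℓ + 1) * P * L) := by ring
      have h6 : 16 * ℓ * P ^ 2 * L = 4 * (4 * ℓ * P ^ 2 * L) := by ring
      rw [h5, h6] at h
      rw [h4]
      omega
    obtain ⟨z, w, hz, hw, hzw⟩ := pack_greedy E3 D0 (L * P) hD0pos (by
      intro a
      by_contra hcon
      push Not at hcon
      have hne : (E3.filter fun p => p.1 = a).Nonempty := card_pos.1 (by omega)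
      obtain ⟨p, hp⟩ := hne
      obtain ⟨hp1, hp2⟩ := mem_filter.1 hp
      have h1 := (mem_filter.1 (mem_filter.1 hp1).1).2
      apply h1
      refine hcon.le.trans (card_le_card ?_)
      intro q hq
      obtain ⟨hq1, hq2⟩ := mem_filter.1 hq
      refine mem_filter.2 ⟨filter_subset _ _ (filter_subset _ _ hq1), hq2.trans hp2.symm⟩) (by
      intro b
      by_contra hcon
      push Not at hcon
      have hne : (E3.filter fun p => p.2 = b).Nonempty := card_pos.1 (by omega)
      obtain ⟨p, hp⟩ := hne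
      obtain ⟨hp1, hp2⟩ := mem_filter.1 hp
      have h1 := (mem_filter.1 hp1).2
      apply h1
      refine hcon.le.trans (card_le_card ?_)
      intro q hq
      obtain ⟨hq1, hq2⟩ := mem_filter.1 hq
      exact mem_filter.2 ⟨filter_subset _ _ hq1, hq2.trans hp2.symm⟩) h3
    have hq : ∀ i, (z i, w i) ∈ E := fun i => filter_subset _ _ (filter_subset _ _ (hzw i))
    refine ⟨U, z, w, hU, hz, hw, ?_, ?_, ?_, ?_⟩
    · intro a b hab
      have h1 := (hEp _ (hq a)).1
      have h2 := (hEp _ (hq b)).2.1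
      simp only at h1 h2
      rw [hab, h2] at h1
      exact absurd h1 (by simp)
    · intro a i
      exact ((hEp _ (hq i)).2.2.2 a).1
    · intro a i
      exact ((hEp _ (hq i)).2.2.2 a).2
    · intro i
      exact (hEp _ (hq i)).2.2.1

theorem exists_packing {n : ℕ} (H : Finset {p : Fin n × Fin n // p.1 < p.2}) (Λ : Type)
    [Fintype Λ] (P e ℓ L : ℕ) (hP : Fintype.card Λ = P) (hP1 : 1 ≤ P) (he : 4 * e ≤ n)
    (hℓ : n < 2 ^ ℓ) (hℓ1 : 1 ≤ ℓ) (hL : 1 ≤ L)
    (h : 192 * ℓ * (ℓ + 1) * P * L + 48 * ℓ * P ^ 2 * L ≤ H.card) :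
    StarPack H Λ e L ∨ MatchPack H e (L * P) := by
  refine exists_packing' H Λ P e ℓ L hP hP1 he hℓ hℓ1 hL (le_trans ?_ h)
  refine Nat.add_le_add ?_ ?_
  · have h1 : 32 * ℓ * (ℓ + 1) * P * L = 32 * (ℓ * (ℓ + 1) * P * L) := by ring
    have h2 : 192 * ℓ * (ℓ + 1) * P * L = 192 * (ℓ * (ℓ + 1) * P * L) := by ring
    rw [h1, h2]
    exact Nat.mul_le_mul_right _ (by norm_num)
  · have h1 : 16 * ℓ * P ^ 2 * L = 16 * (ℓ * P ^ 2 * L) := by ring
    have h2 : 48 * ℓ * P ^ 2 * L = 48 * (ℓ * P ^ 2 * L) := by ring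
    rw [h1, h2]
    exact Nat.mul_le_mul_right _ (by norm_num)

end Pool.Agent.CliqueCircuits
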