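import Pool.Agent.Lib.MP_0a1b52_lc.Role
import Pool.Agent.Lib.MP_0a1b52_lc.Packing
import Pool.Agent.Lib.MP_0a1b52_lc.Defs2

/-!
The main lower bound: only the NOT gates depending on a set `H` of edges count, and there are
`|H| / polylog` disjoint blocks inside `H`.
-/

namespace Pool.Agent.CliqueCircuits

open Finset

theorem or_finite {n s ρ L k m K e : ℕ} (D : RoleData n L k m e)
    (C : Circuit {p : Fin n × Fin n // p.1 < p.2} s)
    (hC : C.ComputesCliqueM) (H : Finset {p : Fin n × Fin n // p.1 < p.2})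
    (hvarH : ∀ j ξ, HR H (D.zc j (D.π ξ)) (D.wl j ξ))
    (R : Finset (Fin s)) (hRc : R.card ≤ ρ)
    (hR : ∀ i, C.kind i = GateKind.not → i ∉ R → ∀ x x' val val',
      (∀ v, v ∉ H → (x v ↔ x' v)) → C.IsEvalM x val → C.IsEvalM x' val' → (val i ↔ val' i))
    (hL : L = 2 ^ ρ) (hK : K < k) (hk2 : 2 ≤ k) (hn : 1 ≤ n) (q l : ℕ) (hq : 1 ≤ q) (hl : 2 ≤ l)
    (h1 : s * (l * l) ^ (q + 1) < K ^ (q + 1))
    (h2 : 2 * (s * q ^ (l + 1)) ≤ m ^ (l + 1))
    (h3 : 2 * ((ρ + 1) * q ^ 2) < m ^ 2)
    (hslots : D.slots = Nat.sqrt n + 1) : False := by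
  classical
  have hedH : ∀ (ed : {p : Fin n × Fin n // p.1 < p.2}) ξ, D.IsVar ξ ed.1.1 ed.1.2 →
      ed ∈ H := by
    intro ed ξ hv
    refine (hvarH ξ.1 ξ.2).mem ed ?_
    rcases hv with ⟨a, b⟩ | ⟨a, b⟩
    · left; exact ⟨a.symm, b.symm⟩
    · right; exact ⟨a.symm, b.symm⟩
  let F : OrFamily {p : Fin n × Fin n // p.1 < p.2} L k m K := D.family
  have hconst : ∀ i, C.kind i = GateKind.not → i ∉ R → ∀ st st' val val',
      C.IsEvalM (F.asg st) val → C.IsEvalM (F.asg st') val' → (val i ↔ val' i) := by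
    intro i hi hiR st st' val val' hv hv'
    refine hR i hi hiR _ _ val val' ?_ hv hv'
    intro ed hed
    constructor
    · exact D.adj_congr (fun ξ hξ => absurd (hedH ed ξ hξ) hed)
    · exact D.adj_congr (fun ξ hξ => absurd (hedH ed ξ hξ) hed)
  obtain ⟨c, j, p, hmain⟩ := chain_or C F ρ R hRc hL hconst q l hq hl h1 h2 h3
  obtain ⟨valP, hvP, hoP⟩ := hC (D.graph (xOfO (Function.update (stN c j) j (OState.tr p))))
  obtain ⟨valN, hvN, hoN⟩ := hC (D.graph (xOfO (stN c (j.val + 1))))
  have hP : valP C.out := by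
    rw [hoP]
    obtain ⟨S, hS, hcard⟩ := D.clique_of_tr (Function.update (stN c j) j (OState.tr p)) j p
      (by simp)
    refine ⟨S, hS, ?_⟩
    rw [hcard, hslots]
    push_cast
    exact Real.real_sqrt_lt_nat_sqrt_succ
  have hN := hmain valP valN hvP hvN hP
  rw [hoN] at hN
  obtain ⟨S, hS, hcardS⟩ := hN
  have hsqrt : (Nat.sqrt n : ℝ) ≤ Real.sqrt n := Real.nat_sqrt_le_real_sqrt
  have hcard' : Nat.sqrt n < S.card := by
    have : (Nat.sqrt n : ℝ) < (S.card : ℝ) := hsqrt.trans_lt hcardS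
    exact_mod_cast this
  have hsq1 : 1 ≤ Nat.sqrt n := Nat.sqrt_pos.2 hn
  refine D.no_clique (stN c (j.val + 1)) hK hk2 ?_ S hS (by rw [hslots]; exact hcard') (by omega)
  intro i
  simp only [stN]
  by_cases hi : i.val < j.val + 1
  · right
    exact ⟨c i, by rw [if_pos hi]⟩
  · left
    rw [if_neg hi]

/-- the gadget of a star packing -/
theorem star_gadget {n L k m e : ℕ} (H : Finset {p : Fin n × Fin n // p.1 < p.2})
    (h : StarPack H (PairT k m) e L) :
    ∃ D : RoleData n L k m e, (∀ j ξ, HR H (D.zc j (D.π ξ)) (D.wl j ξ)) ∧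
      D.slots = e + (1 + Fintype.card (CP k)) := by
  classical
  obtain ⟨U, X, Q, v, lab, w, hU, hv, hUv, hlU, hlv, hlw, hHR, hLXQ⟩ := h
  have hcard : Fintype.card (Fin L) ≤ Fintype.card (Fin X × Fin Q) := by
    simpa using hLXQ
  obtain ⟨f⟩ := Function.Embedding.nonempty_of_card_le hcard
  have hwU : ∀ i y ξ a, w i y ξ ≠ U a := by
    intro i y ξ a h
    have h1 := hlw i y ξ
    rw [h, hlU] at h1
    cases h1
  have hwv : ∀ i y ξ a, w i y ξ ≠ v a := by
    intro i y ξ a h
    have h1 := hlw i y ξ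
    rw [h, hlv] at h1
    cases h1
  let role : Fin n → Role (Fin X) (Fin Q) Unit k m e := fun t =>
    if h : ∃ a, U a = t then Role.uni h.choose
    else if h : ∃ i, v i = t then Role.ctr h.choose ()
    else match lab t with
      | some yξ => Role.leaf yξ.1 yξ.2
      | none => Role.none
  let D : RoleData n L k m e :=
    { X := Fin X
      Y := Fin Q
      Η := Unit
      Sc := Unit
      fintypeSc := inferInstance
      nonemptySc := inferInstance
      role := role
      σc := fun _ => ()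
      π := fun _ => ()
      xj := fun j => (f j).1
      yj := fun j => (f j).2
      zc := fun j _ => v (f j).1
      wl := fun j ξ => w (f j).1 (f j).2 ξ
      U := U
      inj := fun j j' h1 h2 => f.injective (Prod.ext h1 h2)
      roleU := by
        intro a
        have h : ∃ a', U a' = U a := ⟨a, rfl⟩
        simp only [role, dif_pos h]
        rw [hU h.choose_spec]
      rolez := by
        intro j _
        have h1 : ¬ ∃ a, U a = v (f j).1 := fun ⟨a, ha⟩ => hUv _ _ ha
        have h2 : ∃ i, v i = v (f j).1 := ⟨_, rfl⟩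
        simp only [role, dif_neg h1, dif_pos h2]
        rw [hv h2.choose_spec]
      rolew := by
        intro j ξ
        have h1 : ¬ ∃ a, U a = w (f j).1 (f j).2 ξ := fun ⟨a, ha⟩ => hwU _ _ _ _ ha.symm
        have h2 : ¬ ∃ a, v a = w (f j).1 (f j).2 ξ := fun ⟨a, ha⟩ => hwv _ _ _ _ ha.symm
        simp only [role, dif_neg h1, dif_neg h2, hlw]
      hsel := fun p => ⟨fun _ => (), fun _ => rfl, fun _ => rfl⟩ }
  refine ⟨D, fun j ξ => hHR _ _ _, ?_⟩
  rw [D.slots_eq]
  have : Nat.card D.Sc = 1 := by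
    change Nat.card Unit = 1
    simp
  rw [this]

/-- the gadget of a matching packing -/
theorem match_gadget {n L k m e : ℕ} (hk2 : 2 ≤ k)
    (H : Finset {p : Fin n × Fin n // p.1 < p.2})
    (h : MatchPack H e (L * Fintype.card (PairT k m))) :
    ∃ D : RoleData n L k m e, (∀ j ξ, HR H (D.zc j (D.π ξ)) (D.wl j ξ)) ∧
      D.slots = e + (Fintype.card (CP k) + Fintype.card (CP k)) := by
  classical
  obtain ⟨U, z, w, hU, hz, hw, hzw, hUz, hUw, hHR⟩ := h
  have hcard : Fintype.card (Fin L × PairT k m) =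
      Fintype.card (Fin (L * Fintype.card (PairT k m))) := by
    simp only [Fintype.card_prod, Fintype.card_fin]
  let E : Fin L × PairT k m ≃ Fin (L * Fintype.card (PairT k m)) := Fintype.equivOfCardEq hcard
  let role : Fin n → Role (Fin L) (Fin L) (PairT k m) k m e := fun t =>
    if h : ∃ a, U a = t then Role.uni h.choose
    else if h : ∃ i, z (E i) = t then Role.ctr h.choose.1 h.choose.2
    else if h : ∃ i, w (E i) = t then Role.leaf h.choose.1 h.choose.2
    else Role.none
  let D : RoleData n L k m e :=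
    { X := Fin L
      Y := Fin L
      Η := PairT k m
      Sc := CP k
      fintypeSc := inferInstance
      nonemptySc := ⟨⟨(⟨0, by omega⟩, ⟨1, by omega⟩), by rw [Fin.lt_def]; simp⟩⟩
      role := role
      σc := clsOf
      π := id
      xj := id
      yj := id
      zc := fun j ξ => z (E (j, ξ))
      wl := fun j ξ => w (E (j, ξ))
      U := U
      inj := fun j j' h1 _ => h1
      roleU := by
        intro a
        have h : ∃ a', U a' = U a := ⟨a, rfl⟩
        simp only [role, dif_pos h]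
        rw [hU h.choose_spec]
      rolez := by
        intro j ξ
        have h1 : ¬ ∃ a, U a = z (E (j, ξ)) := fun ⟨a, ha⟩ => hUz _ _ ha
        have h2 : ∃ i, z (E i) = z (E (j, ξ)) := ⟨_, rfl⟩
        have h3 : h2.choose = (j, ξ) := E.injective (hz h2.choose_spec)
        simp only [role, dif_neg h1, dif_pos h2, h3, id]
      rolew := by
        intro j ξ
        have h1 : ¬ ∃ a, U a = w (E (j, ξ)) := fun ⟨a, ha⟩ => hUw _ _ ha
        have h2 : ¬ ∃ i, z (E i) = w (E (j, ξ)) := fun ⟨i, hi⟩ => hzw _ _ hi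
        have h4 : ∃ i, w (E i) = w (E (j, ξ)) := ⟨_, rfl⟩
        have h3 : h4.choose = (j, ξ) := E.injective (hw h4.choose_spec)
        simp only [role, dif_neg h1, dif_neg h2, dif_pos h4, h3, id]
      hsel := fun p => ⟨fun ab => pairOf p ab, fun _ => rfl, fun _ => rfl⟩ }
  refine ⟨D, fun j ξ => hHR _, ?_⟩
  rw [D.slots_eq]
  have : Nat.card D.Sc = Fintype.card (CP k) := by
    change Nat.card (CP k) = _
    rw [Nat.card_eq_fintype_card]
  rw [this]

end Pool.Agent.CliqueCircuits
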