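import Pool.Agent.Lib.MP_0a1b52_lc.OrMain
import Pool.Agent.Lib.MP_0a1b52_lc.Defs4

/-!
Monotone circuits with antitone oracles: the chain argument when the circuit has no NOT gates, but
its inputs include arbitrary antitone functions `φ i` and arbitrary functions `ψ i` which are
constant on the inputs considered.
-/

namespace Pool.Agent.CliqueCircuits

open Finset

section

variable {V : Type} {s t u L k m K : ℕ}

theorem Circuit.IsEvalM.toFrozen {W : Type} {C : Circuit W s} (hnot : ∀ i, C.kind i ≠ GateKind.not)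
    {x : W → Prop} {val : Fin s → Prop} (h : C.IsEvalM x val) (b : Fin s → Prop) :
    C.IsFrozen b x val :=
  h.isFrozen (fun i hi => absurd hi (hnot i))

theorem Circuit.IsEvalM.mono_out {W : Type} {C : Circuit W s}
    (hnot : ∀ i, C.kind i ≠ GateKind.not) {x x' : W → Prop} {val val' : Fin s → Prop}
    (h : C.IsEvalM x val) (h' : C.IsEvalM x' val') (hx : ∀ v, x v → x' v)
    (ho : val C.out) : val' C.out :=
  (h.toFrozen hnot (fun _ => False)).mono (h'.toFrozen hnot (fun _ => False)) hx
    (Sum.inr C.out) ho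

/-- the inputs with frozen oracle values -/
def frz (x : V → Prop) (b : Fin t → Prop) (g : Fin u → Prop) : V ⊕ (Fin t ⊕ Fin u) → Prop :=
  Sum.elim x (Sum.elim b g)

def GoodE (C : Circuit (V ⊕ (Fin t ⊕ Fin u)) s) (F : OrFamily V L k m K)
    (φ : Fin t → (V → Prop) → Prop) (ψ : Fin u → (V → Prop) → Prop)
    (p : Fin L → Fin k → Fin m) (c : Fin L → Fin k × Fin m → Fin K) (j : Fin L) : Prop :=
  ∀ (valP valN : Fin s → Prop),
    C.IsEvalM (frz (F.asg (Function.update (stN c j) j (OState.tr (p j))))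
      (fun i => φ i (F.asg (stN c j))) (fun i => ψ i (F.asg (stN c j)))) valP →
    C.IsEvalM (frz (F.asg (stN c (j.val + 1)))
      (fun i => φ i (F.asg (stN c j))) (fun i => ψ i (F.asg (stN c j)))) valN →
    valP C.out → valN C.out

theorem choose_stepE (C : Circuit (V ⊕ (Fin t ⊕ Fin u)) s)
    (hnot : ∀ i, C.kind i ≠ GateKind.not) (F : OrFamily V L k m K)
    (q l : ℕ) (hq : 1 ≤ q) (hl : 2 ≤ l)
    (h1 : s * (l * l) ^ (q + 1) < K ^ (q + 1))
    (h2 : 2 * (s * q ^ (l + 1)) ≤ m ^ (l + 1))
    (h3 : 2 * q ^ 2 < m ^ 2) (st : Fin L → OState k m K) (j : Fin L)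
    (b : Fin t → Prop) (g : Fin u → Prop) :
    ∃ (p : Fin k → Fin m) (c : Fin k × Fin m → Fin K), ∀ (valP valN : Fin s → Prop),
      C.IsEvalM (frz (F.asg (Function.update st j (OState.tr p))) b g) valP →
      C.IsEvalM (frz (F.asg (Function.update st j (OState.col c))) b g) valN →
      valP C.out → valN C.out := by
  classical
  obtain ⟨τ, hτ, hτP, hτN⟩ := F.loc st j
  let τ' : V ⊕ (Fin t ⊕ Fin u) → InTy (Fin k × Fin m) :=
    Sum.elim τ (Sum.elim (fun i => if b i then InTy.tt else InTy.ff)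
      (fun i => if g i then InTy.tt else InTy.ff))
  have hτ' : ∀ v u u', τ' v = InTy.pair u u' → u ≠ u' := by
    intro v u u' h
    rcases v with v | v | v
    · exact hτ v u u' h
    · simp only [τ', Sum.elim_inr, Sum.elim_inl] at h
      split_ifs at h
    · simp only [τ', Sum.elim_inr] at h
      split_ifs at h
  obtain ⟨p, c, h⟩ := choose_core C K 0 ∅ (by simp) q l hq hl h1 h2 (by simpa using h3) τ' hτ'
    (fun _ => False)
  refine ⟨p, c, ?_⟩
  intro valP valN hvP hvN hout
  have hxP : (fun v => (τ' v).pos p) =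
      frz (F.asg (Function.update st j (OState.tr p))) b g := by
    funext v
    rcases v with v | v | v
    · exact propext (hτP p v)
    · by_cases hb : b v
      · simp [τ', frz, hb, InTy.pos]
      · simp [τ', frz, hb, InTy.pos]
    · by_cases hb : g v
      · simp [τ', frz, hb, InTy.pos]
      · simp [τ', frz, hb, InTy.pos]
  have hxN : (fun v => (τ' v).neg c) =
      frz (F.asg (Function.update st j (OState.col c))) b g := by
    funext v
    rcases v with v | v | v
    · exact propext (hτN c v)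
    · by_cases hb : b v
      · simp [τ', frz, hb, InTy.neg]
      · simp [τ', frz, hb, InTy.neg]
    · by_cases hb : g v
      · simp [τ', frz, hb, InTy.neg]
      · simp [τ', frz, hb, InTy.neg]
  rw [hxP, hxN] at h
  exact h valP valN (hvP.toFrozen hnot _) (hvN.toFrozen hnot _) (Sum.inr C.out) (Or.inl rfl) hout

theorem choose_allE (C : Circuit (V ⊕ (Fin t ⊕ Fin u)) s)
    (hnot : ∀ i, C.kind i ≠ GateKind.not) (F : OrFamily V L k m K)
    (φ : Fin t → (V → Prop) → Prop) (ψ : Fin u → (V → Prop) → Prop)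
    (q l : ℕ) (hq : 1 ≤ q) (hl : 2 ≤ l)
    (h1 : s * (l * l) ^ (q + 1) < K ^ (q + 1))
    (h2 : 2 * (s * q ^ (l + 1)) ≤ m ^ (l + 1))
    (h3 : 2 * q ^ 2 < m ^ 2) (r : ℕ) (hr : r ≤ L) :
    ∃ (p : Fin L → Fin k → Fin m) (c : Fin L → Fin k × Fin m → Fin K),
      ∀ j : Fin L, j.val < r → GoodE C F φ ψ p c j := by
  classical
  have hKpos : 0 < K := by
    rcases Nat.eq_zero_or_pos K with h | h
    · subst h
      rw [zero_pow (Nat.succ_ne_zero q)] at h1
      exact absurd h1 (Nat.not_lt_zero _)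
    · exact h
  have hmpos : 0 < m := by
    rcases Nat.eq_zero_or_pos m with h | h
    · subst h
      simp at h3
    · exact h
  induction r with
  | zero =>
    exact ⟨fun _ _ => ⟨0, hmpos⟩, fun _ _ => ⟨0, hKpos⟩, fun j hj => absurd hj (Nat.not_lt_zero _)⟩
  | succ r ih =>
    obtain ⟨p, c, hpc⟩ := ih (by omega)
    let j₀ : Fin L := ⟨r, by omega⟩
    obtain ⟨p', c', hpc'⟩ := choose_stepE C hnot F q l hq hl h1 h2 h3 (stN c j₀) j₀
      (fun i => φ i (F.asg (stN c j₀))) (fun i => ψ i (F.asg (stN c j₀)))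
    refine ⟨Function.update p j₀ p', Function.update c j₀ c', ?_⟩
    intro j hj
    have hc_congr : ∀ r', r' ≤ r → stN (Function.update c j₀ c') r' = stN c r' := by
      intro r' hr'
      refine stN_congr _ _ _ ?_
      intro i hi
      rw [Function.update_of_ne]
      intro h
      rw [h] at hi
      exact absurd hi (by simp only [j₀]; omega)
    by_cases hjj : j = j₀
    · subst hjj
      have e0 : (j₀ : Fin L).val = r := rfl
      unfold GoodE
      rw [stN_succ, hc_congr _ (by rw [e0]), Function.update_self, Function.update_self]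
      exact hpc'
    · have hlt : j.val < r := by
        have h0 : j.val ≠ r := fun h => hjj (Fin.ext h)
        omega
      unfold GoodE
      rw [hc_congr (j.val + 1) (by omega), hc_congr j.val (by omega),
        Function.update_of_ne hjj]
      exact hpc j hlt

/-- The chain theorem with antitone oracles. -/
theorem chain_oracle (C : Circuit (V ⊕ (Fin t ⊕ Fin u)) s)
    (hnot : ∀ i, C.kind i ≠ GateKind.not) (F : OrFamily V L k m K)
    (φ : Fin t → (V → Prop) → Prop) (ψ : Fin u → (V → Prop) → Prop)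
    (hφ : ∀ i st st', (∀ v, F.asg st v → F.asg st' v) → φ i (F.asg st') → φ i (F.asg st))
    (hψ : ∀ i st st', ψ i (F.asg st) → ψ i (F.asg st'))
    (hL : L = t + 1) (q l : ℕ) (hq : 1 ≤ q) (hl : 2 ≤ l)
    (h1 : s * (l * l) ^ (q + 1) < K ^ (q + 1))
    (h2 : 2 * (s * q ^ (l + 1)) ≤ m ^ (l + 1))
    (h3 : 2 * q ^ 2 < m ^ 2) :
    ∃ (c : Fin L → Fin k × Fin m → Fin K) (j : Fin L) (p : Fin k → Fin m), ∀ valP valN,
      C.IsEvalM (withOracles φ ψ (F.asg (Function.update (stN c j) j (OState.tr p)))) valP →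
      C.IsEvalM (withOracles φ ψ (F.asg (stN c (j.val + 1)))) valN →
      valP C.out → valN C.out := by
  classical
  obtain ⟨p, c, hgood⟩ := choose_allE C hnot F φ ψ q l hq hl h1 h2 h3 L le_rfl
  have hx : ∀ j v, F.asg (stN c j) v → F.asg (stN c (j + 1)) v := by
    intro j v hv
    refine F.mono _ _ ?_ v hv
    intro i u u' h
    simp only [stN] at h ⊢
    by_cases hi : i.val < j
    · rw [if_pos hi] at h
      rw [if_pos (by omega)]
      exact h
    · rw [if_neg hi] at h
      exact absurd h (by simp [OState.rel])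
  have hx' : ∀ d j v, F.asg (stN c j) v → F.asg (stN c (j + d)) v := by
    intro d
    induction d with
    | zero => intro j v hv; exact hv
    | succ d ih => intro j v hv; exact hx _ v (ih j v hv)
  -- a step at which the oracles do not change
  obtain ⟨j, hj⟩ : ∃ j : Fin L, ∀ i, φ i (F.asg (stN c j)) → φ i (F.asg (stN c (j.val + 1))) := by
    by_contra hcon
    push Not at hcon
    choose f hf1 hf2 using hcon
    have hinj : Function.Injective f := by
      intro a b hab
      by_contra hne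
      rcases lt_or_gt_of_ne (fun h => hne (Fin.ext h) : a.val ≠ b.val) with h | h
      · apply hf2 a
        rw [hab]
        refine hφ (f b) _ _ ?_ (hf1 b)
        intro v hv
        have := hx' (b.val - (a.val + 1)) (a.val + 1) v hv
        rwa [Nat.add_sub_cancel' (by omega)] at this
      · apply hf2 b
        rw [← hab]
        refine hφ (f a) _ _ ?_ (hf1 a)
        intro v hv
        have := hx' (a.val - (b.val + 1)) (b.val + 1) v hv
        rwa [Nat.add_sub_cancel' (by omega)] at this
    have := Fintype.card_le_of_injective f hinj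
    simp at this
    omega
  refine ⟨c, j, p j, ?_⟩
  intro valP valN hvP hvN hout
  have hNP : ∀ v, F.asg (stN c j) v →
      F.asg (Function.update (stN c j) j (OState.tr (p j))) v := by
    intro v hv
    refine F.mono _ _ ?_ v hv
    intro i u u' h
    by_cases hi : i = j
    · subst hi
      simp only [stN] at h
      rw [if_neg (lt_irrefl _)] at h
      exact absurd h (by simp [OState.rel])
    · rw [Function.update_of_ne hi]
      exact h
  obtain ⟨valP', hvP'⟩ := C.exists_eval (frz (F.asg (Function.update (stN c j) j (OState.tr (p j))))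
      (fun i => φ i (F.asg (stN c j))) (fun i => ψ i (F.asg (stN c j))))
  obtain ⟨valN', hvN'⟩ := C.exists_eval (frz (F.asg (stN c (j.val + 1)))
      (fun i => φ i (F.asg (stN c j))) (fun i => ψ i (F.asg (stN c j))))
  have o1 : valP' C.out := by
    refine hvP.mono_out hnot hvP' ?_ hout
    intro v hv
    rcases v with v | v | v
    · exact hv
    · exact hφ v _ _ hNP hv
    · exact hψ v _ _ hv
  have o2 : valN' C.out := hgood j j.isLt valP' valN' hvP' hvN' o1
  refine hvN'.mono_out hnot hvN ?_ o2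
  intro v hv
  rcases v with v | v | v
  · exact hv
  · exact hj v hv
  · exact hψ v _ _ hv

end

/-- finite form of the lower bound with oracles -/
theorem oracle_finite {n s t u L k m K e : ℕ} (D : RoleData n L k m e)
    (C : Circuit ({p : Fin n × Fin n // p.1 < p.2} ⊕ (Fin t ⊕ Fin u)) s)
    (hnot : ∀ i, C.kind i ≠ GateKind.not)
    (φ : Fin t → ({p : Fin n × Fin n // p.1 < p.2} → Prop) → Prop)
    (ψ : Fin u → ({p : Fin n × Fin n // p.1 < p.2} → Prop) → Prop)
    (hC : ∀ G : SimpleGraph (Fin n), ∃ val : Fin s → Prop,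
      C.IsEvalM (withOracles φ ψ (fun e => G.Adj e.1.1 e.1.2)) val ∧
      (val C.out ↔ ∃ c : Finset (Fin n), G.IsClique (c : Set (Fin n)) ∧
        Real.sqrt (n : ℝ) < (c.card : ℝ)))
    (H : Finset {p : Fin n × Fin n // p.1 < p.2})
    (hvarH : ∀ j ξ, HR H (D.zc j (D.π ξ)) (D.wl j ξ))
    (hφ : ∀ i x x', (∀ v, v ∉ H → (x v ↔ x' v)) → (∀ v, x v → x' v) → φ i x' → φ i x)
    (hψ : ∀ i x x', (∀ v, v ∉ H → (x v ↔ x' v)) → ψ i x → ψ i x')
    (hL : L = t + 1) (hK : K < k) (hk2 : 2 ≤ k) (hn : 1 ≤ n) (q l : ℕ) (hq : 1 ≤ q) (hl : 2 ≤ l)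
    (h1 : s * (l * l) ^ (q + 1) < K ^ (q + 1))
    (h2 : 2 * (s * q ^ (l + 1)) ≤ m ^ (l + 1))
    (h3 : 2 * q ^ 2 < m ^ 2)
    (hslots : D.slots = Nat.sqrt n + 1) : False := by
  classical
  have hedH : ∀ (ed : {p : Fin n × Fin n // p.1 < p.2}) ξ, D.IsVar ξ ed.1.1 ed.1.2 →
      ed ∈ H := by
    intro ed ξ hv
    refine (hvarH ξ.1 ξ.2).mem ed ?_
    rcases hv with ⟨a, b⟩ | ⟨a, b⟩
    · left; exact ⟨a.symm, b.symm⟩
    · right; exact ⟨a.symm, b.symm⟩
  let F : OrFamily {p : Fin n × Fin n // p.1 < p.2} L k m K := D.family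
  have hagree : ∀ st st' v, v ∉ H → (F.asg st v ↔ F.asg st' v) := by
    intro st st' ed hed
    constructor
    · exact D.adj_congr (fun ξ hξ => absurd (hedH ed ξ hξ) hed)
    · exact D.adj_congr (fun ξ hξ => absurd (hedH ed ξ hξ) hed)
  obtain ⟨c, j, p, hmain⟩ := chain_oracle C hnot F φ ψ
    (fun i st st' h => hφ i _ _ (hagree st st') h) (fun i st st' => hψ i _ _ (hagree st st'))
    hL q l hq hl h1 h2 h3
  obtain ⟨valP, hvP, hoP⟩ := hC (D.graph (xOfO (Function.update (stN c j) j (OState.tr p))))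
  obtain ⟨valN, hvN, hoN⟩ := hC (D.graph (xOfO (stN c (j.val + 1))))
  have hP : valP C.out := by
    rw [hoP]
    obtain ⟨S, hS, hcard⟩ := D.clique_of_tr (Function.update (stN c j) j (OState.tr p)) j p
      (by simp)
    refine ⟨S, hS, ?_⟩
    rw [hcard, hslots]
    push_cast
    exact Real.real_sqrt_lt_nat_sqrt_succ
  have hN := hmain valP valN hvP hvN hP
  rw [hoN] at hN
  obtain ⟨S, hS, hcardS⟩ := hN
  have hsqrt : (Nat.sqrt n : ℝ) ≤ Real.sqrt n := Real.nat_sqrt_le_real_sqrt
  have hcard' : Nat.sqrt n < S.card := by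
    have : (Nat.sqrt n : ℝ) < (S.card : ℝ) := hsqrt.trans_lt hcardS
    exact_mod_cast this
  have hsq1 : 1 ≤ Nat.sqrt n := Nat.sqrt_pos.2 hn
  refine D.no_clique (stN c (j.val + 1)) hK hk2 ?_ S hS (by rw [hslots]; exact hcard') (by omega)
  intro i
  simp only [stN]
  by_cases hi : i.val < j.val + 1
  · right
    exact ⟨c i, by rw [if_pos hi]⟩
  · left
    rw [if_neg hi]

end Pool.Agent.CliqueCircuits
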