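import Pool.Agent.Lib.MP_0a1b52_lc.OrChain
import Pool.Agent.Lib.MP_0a1b52_lc.Gadget

/-!
A gadget graph on `Fin n` described by roles of the vertices. Its large cliques are the cliques of
the blocks: each block is a `k`-partite clique instance whose variables are prescribed edges
between centres and leaves.
-/

namespace Pool.Agent.CliqueCircuits

open Finset

/-- pairs of classes -/
abbrev CP (k : ℕ) := {c : Fin k × Fin k // c.1 < c.2}

/-- roles of the vertices of the gadget graph -/
inductive Role (X Y Η : Type) (k m e : ℕ)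
  | none
  | uni (a : Fin e)
  | ctr (x : X) (η : Η)
  | leaf (y : Y) (ξ : PairT k m)

/-- the pair of classes of a label -/
def clsOf {k m : ℕ} (ξ : PairT k m) : CP k := ⟨(ξ.1.1.1, ξ.1.2.1), ξ.2⟩

/-- two labels agree on common classes -/
def ConsP {k m : ℕ} (ξ ξ' : PairT k m) : Prop :=
  (ξ.1.1.1 = ξ'.1.1.1 → ξ.1.1 = ξ'.1.1) ∧
  (ξ.1.1.1 = ξ'.1.2.1 → ξ.1.1 = ξ'.1.2) ∧
  (ξ.1.2.1 = ξ'.1.1.1 → ξ.1.2 = ξ'.1.1) ∧
  (ξ.1.2.1 = ξ'.1.2.1 → ξ.1.2 = ξ'.1.2)

/-- the label of a transversal at a pair of classes -/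
def pairOf {k m : ℕ} (p : Fin k → Fin m) (ab : CP k) : PairT k m :=
  ⟨((ab.1.1, p ab.1.1), (ab.1.2, p ab.1.2)), ab.2⟩

/-- The data of the gadget: roles of the vertices, centre slots `Sc`, and for each block `j` the
centre group `xj j`, the leaf group `yj j`, the centres `zc j η` and the leaves `wl j ξ`. -/
structure RoleData (n L k m e : ℕ) where
  X : Type
  Y : Type
  Η : Type
  Sc : Type
  fintypeSc : Fintype Sc
  nonemptySc : Nonempty Sc
  role : Fin n → Role X Y Η k m e
  σc : Η → Sc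
  π : PairT k m → Η
  xj : Fin L → X
  yj : Fin L → Y
  zc : Fin L → Η → Fin n
  wl : Fin L → PairT k m → Fin n
  U : Fin e → Fin n
  inj : ∀ j j', xj j = xj j' → yj j = yj j' → j = j'
  roleU : ∀ a, role (U a) = Role.uni a
  rolez : ∀ j η, role (zc j η) = Role.ctr (xj j) η
  rolew : ∀ j ξ, role (wl j ξ) = Role.leaf (yj j) ξ
  hsel : ∀ p : Fin k → Fin m, ∃ g : Sc → Η, (∀ σ, σc (g σ) = σ) ∧
    ∀ ab : CP k, g (σc (π (pairOf p ab))) = π (pairOf p ab)

namespace RoleData

variable {n L k m e K : ℕ} (D : RoleData n L k m e)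

/-- half of the adjacency relation -/
def half (x : Xi L k m → Prop) (s t : Fin n) : Prop :=
  match D.role s, D.role t with
  | .uni a, .uni b => a ≠ b
  | .uni _, .ctr _ _ => True
  | .uni _, .leaf _ _ => True
  | .ctr x η, .ctr x' η' => x = x' ∧ D.σc η ≠ D.σc η'
  | .leaf y ξ, .leaf y' ξ' => y = y' ∧ clsOf ξ ≠ clsOf ξ' ∧ ConsP ξ ξ'
  | .ctr x₁ η, .leaf y ξ => ∃ j, D.xj j = x₁ ∧ D.yj j = y ∧
      (D.σc η ≠ D.σc (D.π ξ) ∨ (D.zc j (D.π ξ) = s ∧ D.wl j ξ = t ∧ x (j, ξ)))
  | _, _ => False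

/-- the slot of a role -/
def slotO : Role D.X D.Y D.Η k m e → Option (Fin e ⊕ (D.Sc ⊕ CP k))
  | .none => Option.none
  | .uni a => some (Sum.inl a)
  | .ctr _ η => some (Sum.inr (Sum.inl (D.σc η)))
  | .leaf _ ξ => some (Sum.inr (Sum.inr (clsOf ξ)))

theorem half_slot {x : Xi L k m → Prop} {s t : Fin n} (h : D.half x s t) :
    D.slotO (D.role s) ≠ D.slotO (D.role t) ∧ D.slotO (D.role s) ≠ Option.none ∧
      D.slotO (D.role t) ≠ Option.none := by
  unfold half at h
  cases hs : D.role s <;> cases ht : D.role t <;> rw [hs, ht] at h <;>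
    simp only [slotO] <;> simp_all

/-- the gadget graph -/
def graph (x : Xi L k m → Prop) : SimpleGraph (Fin n) where
  Adj s t := D.half x s t ∨ D.half x t s
  symm := ⟨fun _ _ h => h.symm⟩
  loopless := ⟨by
    intro s h
    rcases h with h | h
    · exact (D.half_slot h).1 rfl
    · exact (D.half_slot h).1 rfl⟩

theorem adj_slot {x : Xi L k m → Prop} {s t : Fin n} (h : (D.graph x).Adj s t) :
    D.slotO (D.role s) ≠ D.slotO (D.role t) ∧ D.slotO (D.role s) ≠ Option.none ∧
      D.slotO (D.role t) ≠ Option.none := by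
  rcases h with h | h
  · exact D.half_slot h
  · have := D.half_slot h
    exact ⟨this.1.symm, this.2.2, this.2.1⟩

theorem half_mono {x x' : Xi L k m → Prop} {s t : Fin n}
    (h : ∀ j ξ, D.zc j (D.π ξ) = s → D.wl j ξ = t → (x (j, ξ) → x' (j, ξ)))
    (hh : D.half x s t) : D.half x' s t := by
  unfold half at hh ⊢
  cases hs : D.role s <;> cases ht : D.role t <;> rw [hs, ht] at hh <;> simp only at hh ⊢ <;>
    try exact hh
  obtain ⟨j, h1, h2, h3⟩ := hh
  refine ⟨j, h1, h2, ?_⟩
  rcases h3 with h3 | ⟨h3, h4, h5⟩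
  · exact Or.inl h3
  · exact Or.inr ⟨h3, h4, h j _ h3 h4 h5⟩

/-- `s t` is the variable edge of `ξ` -/
def IsVar (ξ : Xi L k m) (s t : Fin n) : Prop :=
  (D.zc ξ.1 (D.π ξ.2) = s ∧ D.wl ξ.1 ξ.2 = t) ∨ (D.wl ξ.1 ξ.2 = s ∧ D.zc ξ.1 (D.π ξ.2) = t)

theorem adj_congr {x x' : Xi L k m → Prop} {s t : Fin n}
    (h : ∀ ξ, D.IsVar ξ s t → (x ξ → x' ξ)) (hh : (D.graph x).Adj s t) :
    (D.graph x').Adj s t := by
  rcases hh with hh | hh
  · left
    exact D.half_mono (fun j ξ h1 h2 => h (j, ξ) (Or.inl ⟨h1, h2⟩)) hh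
  · right
    exact D.half_mono (fun j ξ h1 h2 => h (j, ξ) (Or.inr ⟨h2, h1⟩)) hh

theorem half_var (x : Xi L k m → Prop) (j : Fin L) (ξ : PairT k m) :
    D.half x (D.zc j (D.π ξ)) (D.wl j ξ) ↔ x (j, ξ) := by
  unfold half
  rw [D.rolez, D.rolew]
  simp only
  constructor
  · rintro ⟨j', h1, h2, h3⟩
    have := D.inj _ _ h1 h2
    subst this
    rcases h3 with h3 | ⟨_, _, h3⟩
    · exact absurd rfl h3
    · exact h3
  · intro h
    exact ⟨j, rfl, rfl, Or.inr ⟨rfl, rfl, h⟩⟩

theorem not_half_var (x : Xi L k m → Prop) (j : Fin L) (ξ : PairT k m) :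
    ¬ D.half x (D.wl j ξ) (D.zc j (D.π ξ)) := by
  unfold half
  rw [D.rolez, D.rolew]
  simp

theorem adj_var (x : Xi L k m → Prop) (ξ : Xi L k m) {s t : Fin n}
    (h : D.IsVar ξ s t) : (D.graph x).Adj s t ↔ x ξ := by
  have key : (D.graph x).Adj (D.zc ξ.1 (D.π ξ.2)) (D.wl ξ.1 ξ.2) ↔ x ξ := by
    constructor
    · rintro (h | h)
      · exact (D.half_var x ξ.1 ξ.2).1 h
      · exact absurd h (D.not_half_var x ξ.1 ξ.2)
    · intro h
      exact Or.inl ((D.half_var x ξ.1 ξ.2).2 h)
  rcases h with ⟨rfl, rfl⟩ | ⟨rfl, rfl⟩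
  · exact key
  · rw [SimpleGraph.adj_comm]
    exact key

/-- values of the variables in a state -/
def _root_.Pool.Agent.CliqueCircuits.xOfO (st : Fin L → OState k m K) (ξ : Xi L k m) : Prop :=
  (st ξ.1).rel ξ.2.1.1 ξ.2.1.2

/-- the number of slots -/
noncomputable def slots : ℕ := Nat.card (Fin e ⊕ (D.Sc ⊕ CP k))

theorem slots_eq : D.slots = e + (Nat.card D.Sc + Fintype.card (CP k)) := by
  classical
  have := D.fintypeSc
  unfold slots
  rw [Nat.card_eq_fintype_card, Nat.card_eq_fintype_card, Fintype.card_sum, Fintype.card_sum,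
    Fintype.card_fin]

theorem clique_of_tr (st : Fin L → OState k m K) (j : Fin L) (p : Fin k → Fin m)
    (hj : st j = OState.tr p) :
    ∃ S : Finset (Fin n), (D.graph (xOfO st)).IsClique (S : Set (Fin n)) ∧ S.card = D.slots := by
  classical
  have := D.fintypeSc
  obtain ⟨g, hg1, hg2⟩ := D.hsel p
  let pick : Fin e ⊕ (D.Sc ⊕ CP k) → Fin n
    | Sum.inl a => D.U a
    | Sum.inr (Sum.inl σ) => D.zc j (g σ)
    | Sum.inr (Sum.inr ab) => D.wl j (pairOf p ab)
  have hslot : ∀ σ, D.slotO (D.role (pick σ)) = some σ := by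
    intro σ
    rcases σ with a | σ | ab
    · simp only [pick, D.roleU, slotO]
    · simp only [pick, D.rolez, slotO, hg1]
    · simp only [pick, D.rolew, slotO]
      rfl
  have hpick : Function.Injective pick := by
    intro σ σ' h
    have := congrArg (fun s => D.slotO (D.role s)) h
    simp only [hslot] at this
    exact Option.some_injective _ this
  have hcl : ∀ a b : Fin e ⊕ (D.Sc ⊕ CP k), a ≠ b →
      (D.graph (xOfO st)).Adj (pick a) (pick b) := by
    have hzw : ∀ σ ab, D.half (xOfO st) (D.zc j (g σ)) (D.wl j (pairOf p ab)) := by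
      intro σ ab
      unfold half
      rw [D.rolez, D.rolew]
      refine ⟨j, rfl, rfl, ?_⟩
      by_cases h : σ = D.σc (D.π (pairOf p ab))
      · right
        refine ⟨?_, rfl, ?_⟩
        · rw [h, hg2]
        · simp only [xOfO, hj, OState.rel, pairOf, and_self]
      · left
        rw [hg1]
        exact h
    intro a b hab
    rcases a with a | σ | ab <;> rcases b with b | σ' | ab'
    · left
      unfold half
      simp only [pick, D.roleU]
      exact fun h => hab (by rw [h])
    · left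
      unfold half
      simp only [pick, D.roleU, D.rolez]
    · left
      unfold half
      simp only [pick, D.roleU, D.rolew]
    · right
      unfold half
      simp only [pick, D.roleU, D.rolez]
    · left
      unfold half
      simp only [pick, D.rolez]
      refine ⟨trivial, ?_⟩
      rw [hg1, hg1]
      exact fun h => hab (by rw [h])
    · exact Or.inl (hzw σ ab')
    · right
      unfold half
      simp only [pick, D.roleU, D.rolew]
    · exact Or.inr (hzw σ' ab)
    · left
      unfold half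
      simp only [pick, D.rolew]
      refine ⟨trivial, ?_, ?_⟩
      · intro h
        apply hab
        have : ab = ab' := h
        rw [this]
      · refine ⟨?_, ?_, ?_, ?_⟩ <;>
        · intro h
          simp only [pairOf] at h ⊢
          rw [h]
  refine ⟨univ.image pick, ?_, ?_⟩
  · intro s hs t ht hst
    simp only [coe_image, coe_univ, Set.image_univ, Set.mem_range] at hs ht
    obtain ⟨σ, rfl⟩ := hs
    obtain ⟨σ', rfl⟩ := ht
    exact hcl σ σ' (fun h => hst (by rw [h]))
  · rw [card_image_of_injective univ hpick, card_univ]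
    unfold slots
    rw [Nat.card_eq_fintype_card]

theorem no_clique (st : Fin L → OState k m K) (hK : K < k) (hk2 : 2 ≤ k)
    (hst : ∀ j, st j = OState.zero ∨ ∃ c, st j = OState.col c) (S : Finset (Fin n))
    (hS : (D.graph (xOfO st)).IsClique (S : Set (Fin n)))
    (hcard : D.slots ≤ S.card) (hS2 : 2 ≤ S.card) : False := by
  classical
  have := D.fintypeSc
  -- every slot is hit
  have hne : ∀ s ∈ S, D.slotO (D.role s) ≠ Option.none := by
    intro s hs
    obtain ⟨t, ht, hst'⟩ := exists_mem_ne (by omega : 1 < S.card) s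
    exact (D.adj_slot (hS hs ht (fun h => hst' h.symm))).2.1
  have hinj : Set.InjOn (fun s => D.slotO (D.role s)) S := by
    intro s hs t ht hst'
    by_contra hne'
    exact (D.adj_slot (hS hs ht hne')).1 hst'
  have hhit : ∀ σ, ∃ s ∈ S, D.slotO (D.role s) = some σ := by
    have himg : S.image (fun s => D.slotO (D.role s)) =
        (univ : Finset (Fin e ⊕ (D.Sc ⊕ CP k))).image some := by
      apply eq_of_subset_of_card_le
      · intro o ho
        rw [mem_image] at ho
        obtain ⟨s, hs, rfl⟩ := ho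
        obtain ⟨σ, hσ⟩ := Option.ne_none_iff_exists'.1 (hne s hs)
        rw [hσ]
        exact mem_image_of_mem _ (mem_univ _)
      · rw [card_image_of_injective _ (Option.some_injective _), card_univ,
          card_image_of_injOn hinj]
        unfold slots at hcard
        rwa [Nat.card_eq_fintype_card] at hcard
    intro σ
    have : some σ ∈ S.image (fun s => D.slotO (D.role s)) := by
      rw [himg]
      exact mem_image_of_mem _ (mem_univ _)
    rw [mem_image] at this
    exact this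
  -- leaves and centres
  have hleaf : ∀ ab : CP k, ∃ t ∈ S, ∃ y ξ, D.role t = Role.leaf y ξ ∧ clsOf ξ = ab := by
    intro ab
    obtain ⟨t, ht, h⟩ := hhit (Sum.inr (Sum.inr ab))
    refine ⟨t, ht, ?_⟩
    cases hr : D.role t with
    | none => simp [hr, slotO] at h
    | uni a => simp [hr, slotO] at h
    | ctr x η => simp [hr, slotO] at h
    | leaf y ξ =>
      simp only [hr, slotO, Option.some.injEq, Sum.inr.injEq] at h
      exact ⟨y, ξ, rfl, h⟩
  have hctr : ∀ σ : D.Sc, ∃ t ∈ S, ∃ x η, D.role t = Role.ctr x η ∧ D.σc η = σ := by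
    intro σ
    obtain ⟨t, ht, h⟩ := hhit (Sum.inr (Sum.inl σ))
    refine ⟨t, ht, ?_⟩
    cases hr : D.role t with
    | none => simp [hr, slotO] at h
    | uni a => simp [hr, slotO] at h
    | ctr x η =>
      simp only [hr, slotO, Option.some.injEq, Sum.inr.injEq, Sum.inl.injEq] at h
      exact ⟨x, η, rfl, h⟩
    | leaf y ξ => simp [hr, slotO] at h
  -- two leaves
  have hll : ∀ t ∈ S, ∀ t' ∈ S, ∀ y ξ y' ξ', D.role t = Role.leaf y ξ →
      D.role t' = Role.leaf y' ξ' → y = y' ∧ (ξ = ξ' ∨ ConsP ξ ξ' ∨ ConsP ξ' ξ) := by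
    intro t ht t' ht' y ξ y' ξ' hr hr'
    by_cases htt : t = t'
    · subst htt
      rw [hr] at hr'
      injection hr' with h1 h2
      exact ⟨h1, Or.inl h2⟩
    · rcases hS ht ht' htt with h | h
      · unfold half at h
        rw [hr, hr'] at h
        exact ⟨h.1, Or.inr (Or.inl h.2.2)⟩
      · unfold half at h
        rw [hr, hr'] at h
        exact ⟨h.1.symm, Or.inr (Or.inr h.2.2)⟩
  have hcc : ∀ t ∈ S, ∀ t' ∈ S, ∀ x η x' η', D.role t = Role.ctr x η →
      D.role t' = Role.ctr x' η' → x = x' := by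
    intro t ht t' ht' x η x' η' hr hr'
    by_cases htt : t = t'
    · subst htt
      rw [hr] at hr'
      injection hr' with h1 h2
    · rcases hS ht ht' htt with h | h
      · unfold half at h
        rw [hr, hr'] at h
        exact h.1
      · unfold half at h
        rw [hr, hr'] at h
        exact h.1.symm
  -- the block
  have hvar : ∀ t ∈ S, ∀ y ξ, D.role t = Role.leaf y ξ → ∀ s ∈ S, ∀ x η,
      D.role s = Role.ctr x η → ∃ j, D.xj j = x ∧ D.yj j = y ∧ xOfO st (j, ξ) := by
    intro t ht y ξ hr s hs x η hrs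
    obtain ⟨s', hs', x', η', hr', hσ⟩ := hctr (D.σc (D.π ξ))
    have hxx : x' = x := hcc s' hs' s hs _ _ _ _ hr' hrs
    subst hxx
    have hne' : s' ≠ t := by
      rintro rfl
      rw [hr] at hr'
      cases hr'
    rcases hS hs' ht hne' with h | h
    · unfold half at h
      rw [hr, hr'] at h
      obtain ⟨j, h1, h2, h3⟩ := h
      rcases h3 with h3 | ⟨_, _, h3⟩
      · exact absurd hσ h3
      · exact ⟨j, h1, h2, h3⟩
    · unfold half at h
      rw [hr, hr'] at h
      exact absurd h (by simp)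
  obtain ⟨σ₀⟩ := D.nonemptySc
  obtain ⟨s₀, hs₀, x₀, η₀, hr₀, _⟩ := hctr σ₀
  obtain ⟨t₀, ht₀, y₀, ξ₀, hrt₀, _⟩ := hleaf ⟨(⟨0, by omega⟩, ⟨1, by omega⟩), by
    rw [Fin.lt_def]; simp⟩
  obtain ⟨j, hjx, hjy, hj⟩ := hvar t₀ ht₀ y₀ ξ₀ hrt₀ s₀ hs₀ x₀ η₀ hr₀
  have hall : ∀ t ∈ S, ∀ y ξ, D.role t = Role.leaf y ξ → xOfO st (j, ξ) := by
    intro t ht y ξ hr
    obtain ⟨j', h1, h2, h3⟩ := hvar t ht y ξ hr s₀ hs₀ x₀ η₀ hr₀
    have hy : y = y₀ := (hll t ht t₀ ht₀ y ξ y₀ ξ₀ hr hrt₀).1
    have : j' = j := D.inj _ _ (h1.trans hjx.symm) (by rw [h2, hjy, hy])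
    rw [← this]
    exact h3
  -- the state of block `j` is a coloured graph
  rcases hst j with h0 | ⟨c, hc⟩
  · simp only [xOfO, h0, OState.rel] at hj
  · let Used : Fin k × Fin m → Prop := fun u => ∃ t ∈ S, ∃ y ξ, D.role t = Role.leaf y ξ ∧
      (u = ξ.1.1 ∨ u = ξ.1.2)
    have huniq : ∀ u u', Used u → Used u' → u.1 = u'.1 → u = u' := by
      rintro u u' ⟨t, ht, y, ξ, hr, hu⟩ ⟨t', ht', y', ξ', hr', hu'⟩ hcl
      rcases (hll t ht t' ht' y ξ y' ξ' hr hr').2 with h | h | h
      · subst h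
        have hlt := ξ.2
        rcases hu with rfl | rfl <;> rcases hu' with rfl | rfl
        · rfl
        · exact absurd hcl hlt.ne
        · exact absurd hcl hlt.ne'
        · rfl
      · obtain ⟨h1, h2, h3, h4⟩ := h
        rcases hu with rfl | rfl <;> rcases hu' with rfl | rfl
        · exact h1 hcl
        · exact h2 hcl
        · exact h3 hcl
        · exact h4 hcl
      · obtain ⟨h1, h2, h3, h4⟩ := h
        rcases hu with rfl | rfl <;> rcases hu' with rfl | rfl
        · exact (h1 hcl.symm).symm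
        · exact (h3 hcl.symm).symm
        · exact (h2 hcl.symm).symm
        · exact (h4 hcl.symm).symm
    have hex : ∀ a : Fin k, ∃ u, Used u ∧ u.1 = a := by
      intro a
      by_cases h0 : a.val = 0
      · obtain ⟨t, ht, y, ξ, hr, hcl⟩ := hleaf ⟨(a, ⟨1, hk2⟩), by rw [Fin.lt_def]; simp [h0]⟩
        refine ⟨ξ.1.1, ⟨t, ht, y, ξ, hr, Or.inl rfl⟩, ?_⟩
        exact congrArg (fun z : CP k => z.1.1) hcl
      · obtain ⟨t, ht, y, ξ, hr, hcl⟩ := hleaf ⟨(⟨0, by omega⟩, a), by
          rw [Fin.lt_def]; simp; omega⟩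
        refine ⟨ξ.1.2, ⟨t, ht, y, ξ, hr, Or.inr rfl⟩, ?_⟩
        exact congrArg (fun z : CP k => z.1.2) hcl
    choose P hPused hPc using hex
    have hcol : ∀ a b : Fin k, a < b → c (P a) ≠ c (P b) := by
      intro a b hab
      obtain ⟨t, ht, y, ξ, hr, hcl⟩ := hleaf ⟨(a, b), hab⟩
      have h1 : ξ.1.1.1 = a := congrArg (fun z : CP k => z.1.1) hcl
      have h2 : ξ.1.2.1 = b := congrArg (fun z : CP k => z.1.2) hcl
      have e1 : ξ.1.1 = P a := huniq _ _ ⟨t, ht, y, ξ, hr, Or.inl rfl⟩ (hPused a)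
        (by rw [h1, hPc])
      have e2 : ξ.1.2 = P b := huniq _ _ ⟨t, ht, y, ξ, hr, Or.inr rfl⟩ (hPused b)
        (by rw [h2, hPc])
      have hx := hall t ht y ξ hr
      simp only [xOfO, hc, OState.rel] at hx
      rw [e1, e2] at hx
      exact hx
    have hinj : Function.Injective (fun a => c (P a)) := by
      intro a b hab
      rcases lt_trichotomy a b with h | h | h
      · exact absurd hab (hcol a b h)
      · exact h
      · exact absurd hab.symm (hcol b a h)
    have := Fintype.card_le_of_injective _ hinj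
    simp at this
    omega

/-- The gadget graphs form a family of inputs. -/
noncomputable def family : OrFamily {p : Fin n × Fin n // p.1 < p.2} L k m K where
  asg st := fun ed => (D.graph (xOfO st)).Adj ed.1.1 ed.1.2
  mono := by
    intro st st' h v hv
    exact D.adj_congr (fun ξ _ hx => h _ _ _ hx) hv
  loc := by
    classical
    intro st j
    let Pr : {p : Fin n × Fin n // p.1 < p.2} → Xi L k m → Prop := fun ed ξ =>
      ξ.1 = j ∧ D.IsVar ξ ed.1.1 ed.1.2
    let τ : {p : Fin n × Fin n // p.1 < p.2} → InTy (Fin k × Fin m) := fun ed =>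
      if h : ∃ ξ, Pr ed ξ then InTy.pair h.choose.2.1.1 h.choose.2.1.2
      else (if (D.graph (xOfO st)).Adj ed.1.1 ed.1.2 then InTy.tt else InTy.ff)
    have hspec : ∀ (b : OState k m K) (val : InTy (Fin k × Fin m) → Prop), val InTy.tt →
        ¬ val InTy.ff → (∀ u v, val (InTy.pair u v) ↔ b.rel u v) → ∀ ed, val (τ ed) ↔
          (D.graph (xOfO (Function.update st j b))).Adj ed.1.1 ed.1.2 := by
      intro b val htt hff hpair ed
      by_cases h : ∃ ξ, Pr ed ξ
      · have hτ : τ ed = InTy.pair h.choose.2.1.1 h.choose.2.1.2 := by simp only [τ, dif_pos h]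
        obtain ⟨h1, h2⟩ := h.choose_spec
        rw [hτ, hpair, D.adj_var _ _ h2]
        simp only [xOfO, h1, Function.update_self]
      · have hcongr : (D.graph (xOfO (Function.update st j b))).Adj ed.1.1 ed.1.2 ↔
            (D.graph (xOfO st)).Adj ed.1.1 ed.1.2 := by
          have hx : ∀ ξ, D.IsVar ξ ed.1.1 ed.1.2 →
              (xOfO (Function.update st j b) ξ ↔ xOfO st ξ) := by
            intro ξ hξ
            have hj : ξ.1 ≠ j := fun hj => h ⟨ξ, hj, hξ⟩
            simp only [xOfO, Function.update_of_ne hj]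
          exact ⟨D.adj_congr (fun ξ hξ => (hx ξ hξ).1), D.adj_congr (fun ξ hξ => (hx ξ hξ).2)⟩
        have hτ : τ ed = (if (D.graph (xOfO st)).Adj ed.1.1 ed.1.2 then InTy.tt
            else InTy.ff) := by simp only [τ, dif_neg h]
        rw [hτ, hcongr]
        by_cases h3 : (D.graph (xOfO st)).Adj ed.1.1 ed.1.2
        · rw [if_pos h3]
          exact ⟨fun _ => h3, fun _ => htt⟩
        · rw [if_neg h3]
          exact ⟨fun h => absurd h hff, fun h => absurd h h3⟩
    refine ⟨τ, ?_, ?_, ?_⟩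
    · intro ed u u' h
      simp only [τ] at h
      split_ifs at h with h1
      rw [InTy.pair.injEq] at h
      intro huu
      have hlt := h1.choose.2.2
      rw [h.1, h.2, huu] at hlt
      exact lt_irrefl _ hlt
    · intro p v
      exact hspec (OState.tr p) (fun τ => τ.pos p) trivial (fun h => h) (fun _ _ => Iff.rfl) v
    · intro c v
      exact hspec (OState.col c) (fun τ => τ.neg c) trivial (fun h => h) (fun _ _ => Iff.rfl) v

end RoleData

end Pool.Agent.CliqueCircuits
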