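import Mathlib

/-!
Combinatorial core of the approximation method, in the form of two tree arguments
(no sunflower lemma is needed).

* A set `S` of vertices satisfies a family `A` of clauses if it meets every clause.
* A colouring `c` accepts a family `D` of terms if some term is rainbow (injectively coloured).
-/

namespace Pool.Agent.CliqueCircuits

open Finset

section Tree

variable {U : Type} [DecidableEq U]

/-- The vertex set `S` meets every clause of `A`. -/
def AccC (A : Finset (Finset U)) (S : Finset U) : Prop := ∀ I ∈ A, ∃ v ∈ I, v ∈ S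

/-- The vertex set `S` contains some term of `D`. -/
def AccD (D : Finset (Finset U)) (S : Finset U) : Prop := ∃ X ∈ D, X ⊆ S

theorem AccC.mono {A : Finset (Finset U)} {S S' : Finset U} (h : AccC A S) (hs : S ⊆ S') :
    AccC A S' := by
  intro I hI
  obtain ⟨v, hv, hvS⟩ := h I hI
  exact ⟨v, hv, hs hvS⟩

/-- Branching on unsatisfied clauses: a family of clauses of size at most `q` is satisfied only by
sets containing a satisfying set with fewer than `t` elements or one of at most `q ^ t` sets of
size `t`. -/
theorem tree_pos (A : Finset (Finset U)) (q : ℕ) (hA : ∀ I ∈ A, I.card ≤ q) (t : ℕ) :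
    ∃ T : Finset (Finset U), T.card ≤ q ^ t ∧ (∀ Y ∈ T, Y.card = t) ∧
      ∀ S : Finset U, AccC A S → (∃ X ⊆ S, X.card < t ∧ AccC A X) ∨ ∃ Y ∈ T, Y ⊆ S := by
  classical
  induction t with
  | zero => exact ⟨{∅}, by simp, by simp, fun S _ => Or.inr ⟨∅, by simp, by simp⟩⟩
  | succ t ih =>
    obtain ⟨T, hTc, hTt, hT⟩ := ih
    let I : Finset U → Finset U := fun Y =>
      if h : ∃ I ∈ A, ∀ v ∈ I, v ∉ Y then h.choose else ∅
    have hI1 : ∀ Y, (I Y).card ≤ q := by
      intro Y
      by_cases h : ∃ I ∈ A, ∀ v ∈ I, v ∉ Y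
      · simp only [I, dif_pos h]
        exact hA _ h.choose_spec.1
      · simp [I, dif_neg h]
    have hI2 : ∀ Y, ∀ v ∈ I Y, v ∉ Y := by
      intro Y v hv
      by_cases h : ∃ I ∈ A, ∀ v ∈ I, v ∉ Y
      · simp only [I, dif_pos h] at hv
        exact h.choose_spec.2 v hv
      · simp [I, dif_neg h] at hv
    refine ⟨T.biUnion (fun Y => (I Y).image (fun v => insert v Y)), ?_, ?_, ?_⟩
    · refine (card_biUnion_le_card_mul _ _ q ?_).trans ?_
      · intro Y _
        exact card_image_le.trans (hI1 Y)
      · rw [pow_succ]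
        exact Nat.mul_le_mul_right _ hTc
    · intro Y hY
      simp only [mem_biUnion, mem_image] at hY
      obtain ⟨Y', hY', v, hv, rfl⟩ := hY
      rw [card_insert_of_notMem (hI2 Y' v hv), hTt Y' hY']
    · intro S hS
      rcases hT S hS with ⟨X, hXS, hXt, hX⟩ | ⟨Y, hY, hYS⟩
      · exact Or.inl ⟨X, hXS, Nat.lt_succ_of_lt hXt, hX⟩
      · by_cases h : ∃ I ∈ A, ∀ v ∈ I, v ∉ Y
        · right
          have hIY : I Y = h.choose := by simp only [I, dif_pos h]
          obtain ⟨v, hv, hvS⟩ := hS _ h.choose_spec.1
          refine ⟨insert v Y, ?_, ?_⟩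
          · simp only [mem_biUnion, mem_image]
            exact ⟨Y, hY, v, by rw [hIY]; exact hv, rfl⟩
          · exact insert_subset hvS hYS
        · left
          refine ⟨Y, hYS, by rw [hTt Y hY]; exact Nat.lt_succ_self t, ?_⟩
          intro I' hI'
          by_contra hcon
          exact h ⟨I', hI', fun v hv hvY => hcon ⟨v, hv, hvY⟩⟩

/-- A set `E` of colourings is determined outside `B`. -/
def Det {K : ℕ} (E : Finset (U → Fin K)) (B : Finset U) : Prop :=
  ∀ c ∈ E, ∀ c' ∈ E, (∀ v, v ∉ B → c v = c' v) → c = c'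

/-- Branching on terms that are not rainbow: if no term of `D` is rainbow for the colouring `c`,
and `X` is rainbow, then either fewer than `t` vertices outside `X` meet all terms of `D`, or `c`
lies in one of few exceptional sets, each determined outside a set of `t` vertices. -/
theorem tree_neg [Fintype U] {K : ℕ} (D : Finset (Finset U)) (l : ℕ) (hD : ∀ X ∈ D, X.card ≤ l)
    (t : ℕ) :
    ∃ G : Finset (Finset U × Finset (U → Fin K)), G.card ≤ (l * l) ^ t ∧
      (∀ g ∈ G, g.1.card = t ∧ Det g.2 g.1) ∧
      ∀ (c : U → Fin K) (X : Finset U), Set.InjOn c X →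
        (∀ Z ∈ D, ¬ Set.InjOn c Z) →
        (∃ I : Finset U, I.card < t ∧ (∀ Z ∈ D, ∃ v ∈ I, v ∈ Z) ∧ ∀ v ∈ I, v ∉ X) ∨
          ∃ g ∈ G, c ∈ g.2 ∧ ∀ v ∈ g.1, v ∉ X := by
  classical
  induction t with
  | zero =>
    refine ⟨{(∅, univ)}, by simp, ?_, ?_⟩
    · intro g hg
      simp only [mem_singleton] at hg
      subst hg
      refine ⟨by simp, ?_⟩
      intro c _ c' _ h
      funext v
      exact h v (by simp)
    · intro c X _ _
      right
      exact ⟨(∅, univ), by simp, by simp, by simp⟩
  | succ t ih =>
    obtain ⟨G, hGc, hG, hGs⟩ := ih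
    let Z : Finset U → Finset U := fun B =>
      if h : ∃ Z ∈ D, ∀ v ∈ B, v ∉ Z then h.choose else ∅
    have hZ1 : ∀ B, (Z B).card ≤ l := by
      intro B
      by_cases h : ∃ Z ∈ D, ∀ v ∈ B, v ∉ Z
      · simp only [Z, dif_pos h]
        exact hD _ h.choose_spec.1
      · simp [Z, dif_neg h]
    have hZ2 : ∀ B, ∀ v ∈ Z B, v ∉ B := by
      intro B v hv hvB
      by_cases h : ∃ Z ∈ D, ∀ v ∈ B, v ∉ Z
      · simp only [Z, dif_pos h] at hv
        exact h.choose_spec.2 v hvB hv
      · simp [Z, dif_neg h] at hv
    refine ⟨G.biUnion (fun g => ((Z g.1 ×ˢ Z g.1).filter (fun e => e.1 ≠ e.2)).image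
      (fun e => (insert e.2 g.1, g.2.filter (fun c => c e.1 = c e.2)))), ?_, ?_, ?_⟩
    · refine (card_biUnion_le_card_mul _ _ (l * l) ?_).trans ?_
      · intro g _
        refine card_image_le.trans ((card_filter_le _ _).trans ?_)
        rw [card_product]
        exact Nat.mul_le_mul (hZ1 _) (hZ1 _)
      · rw [pow_succ]
        exact Nat.mul_le_mul_right _ hGc
    · intro g hg
      simp only [mem_biUnion, mem_image, mem_filter, mem_product] at hg
      obtain ⟨g', hg', e, ⟨⟨he1, he2⟩, hne⟩, rfl⟩ := hg
      obtain ⟨hcard, hdet⟩ := hG g' hg'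
      refine ⟨?_, ?_⟩
      · simp only
        rw [card_insert_of_notMem (hZ2 _ _ he2), hcard]
      · intro c hc c' hc' hcc
        simp only [mem_filter] at hc hc'
        refine hdet c hc.1 c' hc'.1 ?_
        intro v hv
        by_cases hve : v = e.2
        · subst hve
          have h1 : e.1 ∉ insert e.2 g'.1 := by
            simp only [mem_insert, not_or]
            exact ⟨hne, hZ2 _ _ he1⟩
          rw [← hc.2, ← hc'.2]
          exact hcc _ h1
        · refine hcc v ?_
          simp only [mem_insert, not_or]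
          exact ⟨hve, hv⟩
    · intro c X hcX hcD
      rcases hGs c X hcX hcD with ⟨I, hI, hID, hIX⟩ | ⟨g, hg, hcg, hgX⟩
      · exact Or.inl ⟨I, Nat.lt_succ_of_lt hI, hID, hIX⟩
      · by_cases h : ∃ Z ∈ D, ∀ v ∈ g.1, v ∉ Z
        · right
          have hZg : Z g.1 = h.choose := by simp only [Z, dif_pos h]
          have hZD : Z g.1 ∈ D := by rw [hZg]; exact h.choose_spec.1
          have hnot := hcD _ hZD
          simp only [Set.InjOn, mem_coe, not_forall] at hnot
          obtain ⟨a, ha, b, hb, hab, hne⟩ := hnot
          -- at least one of `a`, `b` is outside `X`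
          have hX : a ∉ X ∨ b ∉ X := by
            by_contra hcon
            push Not at hcon
            exact hne (hcX hcon.1 hcon.2 hab)
          have key : ∀ a b : U, a ∈ Z g.1 → b ∈ Z g.1 → c a = c b → a ≠ b → b ∉ X →
              ∃ g' ∈ G.biUnion (fun g => ((Z g.1 ×ˢ Z g.1).filter (fun e => e.1 ≠ e.2)).image
                (fun e => (insert e.2 g.1, g.2.filter (fun c => c e.1 = c e.2)))),
                c ∈ g'.2 ∧ ∀ v ∈ g'.1, v ∉ X := by
            intro a b ha hb hab hne hbX
            refine ⟨(insert b g.1, g.2.filter (fun c => c a = c b)), ?_, ?_, ?_⟩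
            · simp only [mem_biUnion, mem_image, mem_filter, mem_product]
              exact ⟨g, hg, (a, b), ⟨⟨ha, hb⟩, hne⟩, rfl⟩
            · simp only [mem_filter]
              exact ⟨hcg, hab⟩
            · intro v hv
              simp only [mem_insert] at hv
              rcases hv with rfl | hv
              · exact hbX
              · exact hgX v hv
          rcases hX with hX | hX
          · exact key b a hb ha hab.symm (fun h => hne h.symm) hX
          · exact key a b ha hb hab hne hX
        · left
          refine ⟨g.1, by rw [(hG g hg).1]; exact Nat.lt_succ_self t, ?_, hgX⟩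
          intro Z' hZ'
          by_contra hcon
          exact h ⟨Z', hZ', fun v hv hvZ => hcon ⟨v, hv, hvZ⟩⟩

/-- A set of colourings determined outside `B` is small. -/
theorem Det.card_le [Fintype U] {K : ℕ} {E : Finset (U → Fin K)} {B : Finset U} (h : Det E B) :
    E.card * K ^ B.card ≤ K ^ Fintype.card U := by
  classical
  have h1 : E.card ≤ K ^ (Fintype.card U - B.card) := by
    have : E.card ≤ (univ : Finset ({v // v ∉ B} → Fin K)).card := by
      refine card_le_card_of_injOn (fun c v => c v.1) (by simp) ?_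
      intro c hc c' hc' hcc
      refine h c hc c' hc' ?_
      intro v hv
      exact congrFun hcc ⟨v, hv⟩
    refine this.trans ?_
    rw [card_univ, Fintype.card_fun, Fintype.card_fin]
    have h2 : Fintype.card {v // v ∉ B} = Fintype.card U - B.card := by
      rw [Fintype.card_subtype_compl]
      simp
    rw [h2]
  calc E.card * K ^ B.card ≤ K ^ (Fintype.card U - B.card) * K ^ B.card :=
        Nat.mul_le_mul_right _ h1
    _ = K ^ Fintype.card U := by
        rw [← pow_add, Nat.sub_add_cancel (card_le_univ B)]

end Tree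

end Pool.Agent.CliqueCircuits
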