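import Pool.Agent.Lib.MP_0a1b52_lc.OrFinal
import Pool.Agent.Lib.MP_0a1b52_lc.Cells
import Pool.Agent.Lib.MP_0a1b52_lc.Defs3

/-!
Negation width: the hidden region argument.
-/

namespace Pool.Agent.CliqueCircuits

open Finset

/-- Averaging over hidden choices: `B γ p` has at most `w` elements and does not depend on `γ ξ`
for the labels `ξ` not used by `p`, so it rarely contains the choice of such a label. -/
theorem hidden_avg {Ξ P V : Type} [Fintype Ξ] [DecidableEq Ξ] [Fintype P] [DecidableEq V]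
    {h w : ℕ} (hh : 1 ≤ h) (B : (Ξ → Fin h) → P → Finset V) (hB : ∀ γ p, (B γ p).card ≤ w)
    (edge : Ξ → Fin h → V) (hinj : ∀ ξ i ξ' i', edge ξ i = edge ξ' i' → ξ = ξ' ∧ i = i')
    (M : P → Ξ → Prop) [∀ p, DecidablePred (M p)]
    (hdep : ∀ γ p ξ i, ¬ M p ξ → B (Function.update γ ξ i) p = B γ p) :
    ∃ γ : Ξ → Fin h, h * (univ.filter
      (fun p => ∃ ξ, ¬ M p ξ ∧ edge ξ (γ ξ) ∈ B γ p)).card ≤ w * Fintype.card P := by
  classical
  by_contra hcon
  push Not at hcon
  have hpos : Nonempty (Ξ → Fin h) := ⟨fun _ => ⟨0, hh⟩⟩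
  -- one label
  have hone : ∀ (p : P) (ξ : Ξ), ¬ M p ξ →
      h * (univ.filter (fun γ : Ξ → Fin h => edge ξ (γ ξ) ∈ B γ p)).card ≤
      ∑ γ : Ξ → Fin h, (univ.filter (fun i : Fin h => edge ξ i ∈ B γ p)).card := by
    intro p ξ hξ
    have e1 : h * (univ.filter (fun γ : Ξ → Fin h => edge ξ (γ ξ) ∈ B γ p)).card =
        ((univ.filter (fun γ : Ξ → Fin h => edge ξ (γ ξ) ∈ B γ p)) ×ˢ
          (univ : Finset (Fin h))).card := by
      rw [card_product, card_univ, Fintype.card_fin, Nat.mul_comm]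
    have e2 : ∑ γ : Ξ → Fin h, (univ.filter (fun i : Fin h => edge ξ i ∈ B γ p)).card =
        ((univ : Finset (Ξ → Fin h)).sigma
          (fun γ => univ.filter (fun i : Fin h => edge ξ i ∈ B γ p))).card := by
      rw [card_sigma]
    rw [e1, e2]
    refine card_le_card_of_injOn (fun γi => ⟨Function.update γi.1 ξ γi.2, γi.1 ξ⟩) ?_ ?_
    · rintro ⟨γ, i⟩ hγi
      simp only [coe_product, coe_filter, coe_univ, Set.mem_prod, Set.mem_univ,
        Set.mem_ofPred_eq, mem_univ, true_and, and_true] at hγi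
      simp only [coe_sigma, coe_univ, Set.mem_sigma_iff, Set.mem_univ, true_and,
        coe_filter, mem_univ, Set.mem_ofPred_eq]
      rw [hdep γ p ξ i hξ]
      exact hγi
    · rintro ⟨γ, i⟩ _ ⟨γ', i'⟩ _ h
      simp only [Sigma.mk.injEq, heq_eq_eq] at h
      obtain ⟨h1, h2⟩ := h
      have hi : i = i' := by
        have := congrFun h1 ξ
        simpa using this
      have hγ : γ = γ' := by
        funext ξ'
        by_cases hx : ξ' = ξ
        · rw [hx]; exact h2
        · have := congrFun h1 ξ'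
          simpa [Function.update_of_ne hx] using this
      rw [hi, hγ]
  -- all labels
  have hall : ∀ p : P, h * (univ.filter (fun γ : Ξ → Fin h =>
      ∃ ξ, ¬ M p ξ ∧ edge ξ (γ ξ) ∈ B γ p)).card ≤ w * Fintype.card (Ξ → Fin h) := by
    intro p
    have hsub : (univ.filter (fun γ : Ξ → Fin h => ∃ ξ, ¬ M p ξ ∧ edge ξ (γ ξ) ∈ B γ p)) ⊆
        (univ.filter (fun ξ => ¬ M p ξ)).biUnion
          (fun ξ => univ.filter (fun γ : Ξ → Fin h => edge ξ (γ ξ) ∈ B γ p)) := by
      intro γ hγ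
      simp only [mem_filter, mem_univ, true_and] at hγ
      obtain ⟨ξ, h1, h2⟩ := hγ
      simp only [mem_biUnion, mem_filter, mem_univ, true_and]
      exact ⟨ξ, h1, h2⟩
    calc h * (univ.filter (fun γ : Ξ → Fin h =>
            ∃ ξ, ¬ M p ξ ∧ edge ξ (γ ξ) ∈ B γ p)).card
        ≤ h * ∑ ξ ∈ univ.filter (fun ξ => ¬ M p ξ),
            (univ.filter (fun γ : Ξ → Fin h => edge ξ (γ ξ) ∈ B γ p)).card :=
          Nat.mul_le_mul_left _ ((card_le_card hsub).trans card_biUnion_le)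
      _ = ∑ ξ ∈ univ.filter (fun ξ => ¬ M p ξ),
            h * (univ.filter (fun γ : Ξ → Fin h => edge ξ (γ ξ) ∈ B γ p)).card := mul_sum _ _ _
      _ ≤ ∑ ξ ∈ univ.filter (fun ξ => ¬ M p ξ),
            ∑ γ : Ξ → Fin h, (univ.filter (fun i : Fin h => edge ξ i ∈ B γ p)).card :=
          sum_le_sum fun ξ hξ => hone p ξ (mem_filter.1 hξ).2
      _ = ∑ γ : Ξ → Fin h, ∑ ξ ∈ univ.filter (fun ξ => ¬ M p ξ),
            (univ.filter (fun i : Fin h => edge ξ i ∈ B γ p)).card := sum_comm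
      _ ≤ ∑ _γ : Ξ → Fin h, w := by
          refine sum_le_sum fun γ _ => ?_
          refine le_trans ?_ (hB γ p)
          rw [← card_sigma]
          refine card_le_card_of_injOn (fun x => edge x.1 x.2) ?_ ?_
          · rintro ⟨ξ, i⟩ hx
            simp only [coe_sigma, Set.mem_sigma_iff, coe_filter, mem_univ, true_and,
              Set.mem_ofPred_eq] at hx
            exact hx.2
          · rintro ⟨ξ, i⟩ _ ⟨ξ', i'⟩ _ hx
            obtain ⟨h1, h2⟩ := hinj ξ i ξ' i' hx
            rw [h1, h2]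
      _ = w * Fintype.card (Ξ → Fin h) := by
          rw [sum_const, card_univ, smul_eq_mul, Nat.mul_comm]
  -- double counting
  have hdouble : ∑ γ : Ξ → Fin h, (univ.filter
      (fun p => ∃ ξ, ¬ M p ξ ∧ edge ξ (γ ξ) ∈ B γ p)).card =
      ∑ p : P, (univ.filter (fun γ : Ξ → Fin h =>
        ∃ ξ, ¬ M p ξ ∧ edge ξ (γ ξ) ∈ B γ p)).card := by
    simp only [card_filter]
    exact sum_comm
  have h1 : ∑ _γ : Ξ → Fin h, w * Fintype.card P < ∑ γ : Ξ → Fin h, h * (univ.filter
      (fun p => ∃ ξ, ¬ M p ξ ∧ edge ξ (γ ξ) ∈ B γ p)).card :=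
    sum_lt_sum_of_nonempty univ_nonempty fun γ _ => hcon γ
  rw [sum_const, card_univ, smul_eq_mul, ← mul_sum, hdouble, mul_sum] at h1
  have h2 : ∑ p : P, h * (univ.filter (fun γ : Ξ → Fin h =>
        ∃ ξ, ¬ M p ξ ∧ edge ξ (γ ξ) ∈ B γ p)).card ≤
      ∑ _p : P, w * Fintype.card (Ξ → Fin h) := sum_le_sum fun p _ => hall p
  rw [sum_const, card_univ, smul_eq_mul] at h2
  have h3 : Fintype.card (Ξ → Fin h) * (w * Fintype.card P) =
      Fintype.card P * (w * Fintype.card (Ξ → Fin h)) := by ring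
  rw [h3] at h1
  omega

/-- The data of a gadget with a hidden region: the edge of the label `ξ` is one of the `h`
candidate edges `z ξ i`, `w ξ i`. -/
structure HidData (n k m e h : ℕ) where
  Η : Type
  Sc : Type
  fintypeSc : Fintype Sc
  nonemptySc : Nonempty Sc
  role : Fin n → Role Unit Unit Η k m e
  σc : Η → Sc
  π : PairT k m → Η
  z : PairT k m → Fin h → Fin n
  w : PairT k m → Fin h → Fin n
  zsel : (PairT k m → Fin h) → Η → Fin n
  U : Fin e → Fin n
  roleU : ∀ a, role (U a) = Role.uni a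
  rolez : ∀ γ η, role (zsel γ η) = Role.ctr () η
  zsel_eq : ∀ γ ξ, zsel γ (π ξ) = z ξ (γ ξ)
  rolew : ∀ ξ i, role (w ξ i) = Role.leaf () ξ
  hsel : ∀ p : Fin k → Fin m, ∃ g : Sc → Η, (∀ σ, σc (g σ) = σ) ∧
    ∀ ab : CP k, g (σc (π (pairOf p ab))) = π (pairOf p ab)
  inj : ∀ ξ i j, z ξ i = z ξ j → w ξ i = w ξ j → i = j

namespace HidData

variable {n k m e h K : ℕ} (D : HidData n k m e h)

/-- the gadget for a given choice -/
def toRole (γ : PairT k m → Fin h) : RoleData n 1 k m e where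
  X := Unit
  Y := Unit
  Η := D.Η
  Sc := D.Sc
  fintypeSc := D.fintypeSc
  nonemptySc := D.nonemptySc
  role := D.role
  σc := D.σc
  π := D.π
  xj := fun _ => ()
  yj := fun _ => ()
  zc := fun _ => D.zsel γ
  wl := fun _ ξ => D.w ξ (γ ξ)
  U := D.U
  inj := fun _ _ _ _ => Subsingleton.elim _ _
  roleU := D.roleU
  rolez := fun _ η => D.rolez γ η
  rolew := fun _ ξ => D.rolew ξ _
  hsel := D.hsel

theorem half_congr (γ γ' : PairT k m → Fin h) (x : Xi 1 k m → Prop)
    (hx : ∀ j ξ, x (j, ξ) → γ ξ = γ' ξ) (s t : Fin n)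
    (hh : (D.toRole γ).half x s t) : (D.toRole γ').half x s t := by
  unfold RoleData.half at hh ⊢
  have e1 : (D.toRole γ).role = D.role := rfl
  have e2 : (D.toRole γ').role = D.role := rfl
  rw [e1] at hh
  rw [e2]
  cases hs : D.role s <;> cases ht : D.role t <;> rw [hs, ht] at hh <;> try exact hh
  obtain ⟨j, h1, h2, h3⟩ := hh
  refine ⟨j, h1, h2, ?_⟩
  rcases h3 with h3 | ⟨h3, h4, h5⟩
  · exact Or.inl h3
  · right
    have hγ := hx j _ h5
    refine ⟨?_, ?_, h5⟩
    · change D.zsel γ (D.π _) = s at h3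
      change D.zsel γ' (D.π _) = s
      rw [D.zsel_eq] at h3 ⊢
      rw [← hγ]
      exact h3
    · change D.w _ (γ _) = t at h4
      change D.w _ (γ' _) = t
      rw [← hγ]
      exact h4

theorem graph_congr (γ γ' : PairT k m → Fin h) (x : Xi 1 k m → Prop)
    (hx : ∀ j ξ, x (j, ξ) → γ ξ = γ' ξ) :
    (D.toRole γ).graph x = (D.toRole γ').graph x := by
  ext s t
  constructor
  · rintro (h | h)
    · exact Or.inl (D.half_congr γ γ' x hx _ _ h)
    · exact Or.inr (D.half_congr γ γ' x hx _ _ h)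
  · rintro (h | h)
    · exact Or.inl (D.half_congr γ' γ x (fun j ξ h => (hx j ξ h).symm) _ _ h)
    · exact Or.inr (D.half_congr γ' γ x (fun j ξ h => (hx j ξ h).symm) _ _ h)

end HidData

theorem pair_unique {n : ℕ} {a b : Fin n} {e e' : {p : Fin n × Fin n // p.1 < p.2}}
    (h : (e.1.1 = a ∧ e.1.2 = b) ∨ (e.1.1 = b ∧ e.1.2 = a))
    (h' : (e'.1.1 = a ∧ e'.1.2 = b) ∨ (e'.1.1 = b ∧ e'.1.2 = a)) : e = e' := by
  have h1 := e.2
  have h2 := e'.2
  apply Subtype.ext
  rcases h with ⟨c1, c2⟩ | ⟨c1, c2⟩ <;> rcases h' with ⟨c3, c4⟩ | ⟨c3, c4⟩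
  · exact Prod.ext (c1.trans c3.symm) (c2.trans c4.symm)
  · rw [c1, c2] at h1; rw [c3, c4] at h2; exact absurd h2 (lt_asymm h1)
  · rw [c1, c2] at h1; rw [c3, c4] at h2; exact absurd h2 (lt_asymm h1)
  · exact Prod.ext (c1.trans c3.symm) (c2.trans c4.symm)

/-- finite form of the width bound -/
theorem width_finite {n s k m K e h w : ℕ} (D : HidData n k m e h)
    (C : Circuit ({p : Fin n × Fin n // p.1 < p.2} × Bool) s)
    (hnot : ∀ i, C.kind i ≠ GateKind.not)
    (hC : ∀ G : SimpleGraph (Fin n), ∃ val : Fin s → Prop,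
      C.IsEvalM (litVal (fun e => G.Adj e.1.1 e.1.2)) val ∧
      (val C.out ↔ ∃ c : Finset (Fin n), G.IsClique (c : Set (Fin n)) ∧
        Real.sqrt (n : ℝ) < (c.card : ℝ)))
    (T : Finset {p : Fin n × Fin n // p.1 < p.2})
    (hT : ∀ ξ i, HR T (D.z ξ i) (D.w ξ i))
    (hw : ∀ G : SimpleGraph (Fin n), (∃ c : Finset (Fin n), G.IsClique (c : Set (Fin n)) ∧
        Real.sqrt (n : ℝ) < (c.card : ℝ)) →
      ∃ (B : Finset {p : Fin n × Fin n // p.1 < p.2}) (val : Fin s → Prop), B.card ≤ w ∧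
        C.IsEvalM (litValOn T B (fun e => G.Adj e.1.1 e.1.2)) val ∧ val C.out)
    (hh1 : 1 ≤ h) (hwh : 2 * w ≤ h) (hK : K < k) (hk2 : 2 ≤ k) (hn : 1 ≤ n) (q l : ℕ)
    (hq : 1 ≤ q) (hl : 2 ≤ l)
    (h1 : s * (l * l) ^ (q + 1) < K ^ (q + 1))
    (h2 : 4 * (s * q ^ (l + 1)) < m ^ (l + 1))
    (h3 : 4 * q ^ 2 ≤ m ^ 2)
    (hslots : ∀ γ, (D.toRole γ).slots = Nat.sqrt n + 1) : False := by
  classical
  have hmpos : 0 < m := by
    rcases Nat.eq_zero_or_pos m with hm | hm
    · subst hm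
      simp at h3
      omega
    · exact hm
  -- the positive graphs
  let Gp : (PairT k m → Fin h) → (Fin k → Fin m) → SimpleGraph (Fin n) := fun γ p =>
    (D.toRole γ).graph (xOfO (K := K) (fun _ : Fin 1 => OState.tr p))
  have hGp : ∀ γ p, ∃ c : Finset (Fin n), (Gp γ p).IsClique (c : Set (Fin n)) ∧
      Real.sqrt (n : ℝ) < (c.card : ℝ) := by
    intro γ p
    obtain ⟨S, hS, hcard⟩ := (D.toRole γ).clique_of_tr (K := K)
      (fun _ : Fin 1 => OState.tr p) 0 p rfl
    refine ⟨S, hS, ?_⟩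
    rw [hcard, hslots]
    push_cast
    exact Real.real_sqrt_lt_nat_sqrt_succ
  choose! Bf valf hB1 hB2 hB3 using hw
  let B : (PairT k m → Fin h) → (Fin k → Fin m) → Finset {p : Fin n × Fin n // p.1 < p.2} :=
    fun γ p => Bf (Gp γ p)
  have hBc : ∀ γ p, (B γ p).card ≤ w := fun γ p => hB1 _ (hGp γ p)
  -- the candidate edges
  have hedge : ∀ ξ i, ∃ ed : {p : Fin n × Fin n // p.1 < p.2}, ed ∈ T ∧
      ((ed.1.1 = D.z ξ i ∧ ed.1.2 = D.w ξ i) ∨ (ed.1.1 = D.w ξ i ∧ ed.1.2 = D.z ξ i)) := by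
    intro ξ i
    obtain ⟨ed, h1, h2⟩ := hT ξ i
    exact ⟨ed, h1, h2⟩
  choose edge hedT hedge using hedge
  have hrolez : ∀ ξ i, D.role (D.z ξ i) = Role.ctr () (D.π ξ) := by
    intro ξ i
    rw [← D.zsel_eq (fun _ => i) ξ]
    exact D.rolez _ _
  have hedinj : ∀ ξ i ξ' i', edge ξ i = edge ξ' i' → ξ = ξ' ∧ i = i' := by
    intro ξ i ξ' i' hee
    have key : D.z ξ i = D.z ξ' i' ∧ D.w ξ i = D.w ξ' i' := by
      have a1 := hedge ξ i
      have a2 := hedge ξ' i'
      rw [hee] at a1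
      have hne : ∀ ξ i ξ' i', D.z ξ i ≠ D.w ξ' i' := by
        intro ξ i ξ' i' hzw
        have r1 := hrolez ξ i
        rw [hzw, D.rolew] at r1
        cases r1
      rcases a1 with ⟨b1, b2⟩ | ⟨b1, b2⟩ <;> rcases a2 with ⟨b3, b4⟩ | ⟨b3, b4⟩
      · exact ⟨b1.symm.trans b3, b2.symm.trans b4⟩
      · exact absurd (b1.symm.trans b3) (hne _ _ _ _)
      · exact absurd (b3.symm.trans b1) (hne _ _ _ _)
      · exact ⟨b2.symm.trans b4, b1.symm.trans b3⟩
    have hξ : ξ = ξ' := by
      have r1 := D.rolew ξ i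
      rw [key.2, D.rolew] at r1
      injection r1 with _ r2
      exact r2.symm
    subst hξ
    exact ⟨rfl, D.inj _ _ _ key.1 key.2⟩
  let M : (Fin k → Fin m) → PairT k m → Prop := fun p ξ =>
    p ξ.1.1.1 = ξ.1.1.2 ∧ p ξ.1.2.1 = ξ.1.2.2
  have hxM : ∀ p (j : Fin 1) ξ, xOfO (K := K) (fun _ : Fin 1 => OState.tr p) (j, ξ) ↔ M p ξ :=
    fun p j ξ => Iff.rfl
  obtain ⟨γ, hγ⟩ := hidden_avg hh1 B hBc edge hedinj M (by
    intro γ p ξ i hM
    change Bf (Gp (Function.update γ ξ i) p) = Bf (Gp γ p)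
    have : Gp (Function.update γ ξ i) p = Gp γ p := by
      refine D.graph_congr _ _ _ ?_
      intro j ξ' hx
      have hne : ξ' ≠ ξ := by
        rintro rfl
        exact hM ((hxM p j _).1 hx)
      rw [Function.update_of_ne hne]
    rw [this])
  -- bad transversals
  set bad : Finset (Fin k → Fin m) :=
    univ.filter (fun p => ∃ ξ, ¬ M p ξ ∧ edge ξ (γ ξ) ∈ B γ p) with hbad
  have hbadc : 2 * bad.card ≤ m ^ k := by
    have hcardP : Fintype.card (Fin k → Fin m) = m ^ k := by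
      rw [Fintype.card_fun, Fintype.card_fin, Fintype.card_fin]
    rw [hcardP] at hγ
    rcases Nat.eq_zero_or_pos w with hw0 | hw0
    · rw [hw0, Nat.zero_mul] at hγ
      have : bad.card = 0 := by
        by_contra hne
        have : 0 < h * bad.card := Nat.mul_pos (by omega) (by omega)
        omega
      rw [this]
      simp
    · have e1 : (2 * w) * bad.card ≤ h * bad.card := Nat.mul_le_mul_right _ hwh
      have e2 : w * (2 * bad.card) ≤ w * m ^ k := by
        calc w * (2 * bad.card) = (2 * w) * bad.card := by ring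
          _ ≤ h * bad.card := e1
          _ ≤ w * m ^ k := hγ
      exact Nat.le_of_mul_le_mul_left e2 hw0
  -- the types of the inputs
  let D' := D.toRole γ
  let F : OrFamily {p : Fin n × Fin n // p.1 < p.2} 1 k m K := D'.family
  obtain ⟨τ, hτ, hτP, hτN⟩ := F.loc (fun _ => OState.zero) 0
  have hupd : ∀ st : OState k m K, Function.update (fun _ : Fin 1 => (OState.zero : OState k m K))
      0 st = fun _ => st := by
    intro st
    funext j
    have : j = 0 := Subsingleton.elim _ _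
    subst this
    simp
  simp only [hupd] at hτP hτN
  let live : {p : Fin n × Fin n // p.1 < p.2} → Prop := fun ed =>
    ∃ ξ, D'.IsVar ξ ed.1.1 ed.1.2
  have hlive : ∀ ed, live ed → ∃ ξ, ed = edge ξ (γ ξ) ∧
      ∀ x, (D'.graph x).Adj ed.1.1 ed.1.2 ↔ x (0, ξ) := by
    rintro ed ⟨⟨j, ξ⟩, hv⟩
    have hj : j = 0 := Subsingleton.elim _ _
    subst hj
    refine ⟨ξ, ?_, fun x => D'.adj_var x (0, ξ) hv⟩
    refine pair_unique (a := D.z ξ (γ ξ)) (b := D.w ξ (γ ξ)) ?_ (hedge ξ (γ ξ))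
    have e1 : D'.zc 0 (D'.π ξ) = D.z ξ (γ ξ) := D.zsel_eq γ ξ
    have e2 : D'.wl 0 ξ = D.w ξ (γ ξ) := rfl
    rcases hv with ⟨a1, a2⟩ | ⟨a1, a2⟩
    · left; exact ⟨a1.symm.trans e1, a2.symm.trans e2⟩
    · right; exact ⟨a1.symm.trans e2, a2.symm.trans e1⟩
  have hnlive : ∀ ed, ¬ live ed → ∀ x x' : Xi 1 k m → Prop,
      (D'.graph x).Adj ed.1.1 ed.1.2 → (D'.graph x').Adj ed.1.1 ed.1.2 := by
    intro ed hed x x'
    exact D'.adj_congr (fun ξ hξ => absurd ⟨ξ, hξ⟩ hed)
  let x0 : Xi 1 k m → Prop := xOfO (K := K) (fun _ : Fin 1 => OState.zero)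
  let τ' : {p : Fin n × Fin n // p.1 < p.2} × Bool → InTy (Fin k × Fin m) := fun lt =>
    match lt with
    | (v, true) => τ v
    | (v, false) => if ¬ live v ∧ ¬ (D'.graph x0).Adj v.1.1 v.1.2 then InTy.tt else InTy.ff
  have hτ' : ∀ v u u', τ' v = InTy.pair u u' → u ≠ u' := by
    rintro ⟨v, b⟩ u u' hh
    cases b with
    | true => exact hτ v u u' hh
    | false =>
      simp only [τ'] at hh
      split_ifs at hh
  obtain ⟨BadP, BadN, hPc, hNc, hdich⟩ := approx_main C (fun _ => False) τ' hτ' K q l hq hl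
  -- positive side
  have hpos : ∀ p, p ∉ bad → ∀ val, C.IsEvalM (fun v => (τ' v).pos p) val → val C.out := by
    intro p hp val hval
    have hev := hB2 _ (hGp γ p)
    have hout := hB3 _ (hGp γ p)
    refine hev.mono_out hnot hval ?_ hout
    rintro ⟨v, b⟩ hv
    cases b with
    | true =>
      exact (hτP p v).2 hv
    | false =>
      obtain ⟨hv1, hv2⟩ := hv
      have hnl : ¬ live v := by
        intro hl
        obtain ⟨ξ, hξ, hadj⟩ := hlive v hl
        have hM : ¬ M p ξ := by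
          intro hM
          exact hv1 ((hadj _).2 hM)
        apply hp
        rw [hbad, mem_filter]
        refine ⟨mem_univ _, ξ, hM, ?_⟩
        rw [← hξ]
        refine hv2 ?_
        rw [hξ]
        exact hedT ξ (γ ξ)
      have hn0 : ¬ (D'.graph x0).Adj v.1.1 v.1.2 := fun h0 => hv1 (hnlive v hnl _ _ h0)
      simp only [τ', if_pos (And.intro hnl hn0), InTy.pos]
  -- negative side
  have hneg : ∀ c : Fin k × Fin m → Fin K, ∀ val, C.IsEvalM (fun v => (τ' v).neg c) val → ¬ val C.out := by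
    intro c val hval hout
    obtain ⟨valN, hvN, hoN⟩ := hC (D'.graph (xOfO (K := K) (fun _ : Fin 1 => OState.col c)))
    have hN : valN C.out := by
      refine hval.mono_out hnot hvN ?_ hout
      rintro ⟨v, b⟩ hv
      cases b with
      | true => exact (hτN c v).1 hv
      | false =>
        by_cases hcond : ¬ live v ∧ ¬ (D'.graph x0).Adj v.1.1 v.1.2
        · exact fun h0 => hcond.2 (hnlive v hcond.1 _ _ h0)
        · simp only [τ', if_neg hcond, InTy.neg] at hv
    rw [hoN] at hN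
    obtain ⟨S, hS, hcardS⟩ := hN
    have hsqrt : (Nat.sqrt n : ℝ) ≤ Real.sqrt n := Real.nat_sqrt_le_real_sqrt
    have hcard' : Nat.sqrt n < S.card := by
      have : (Nat.sqrt n : ℝ) < (S.card : ℝ) := hsqrt.trans_lt hcardS
      exact_mod_cast this
    have hsq1 : 1 ≤ Nat.sqrt n := Nat.sqrt_pos.2 hn
    exact D'.no_clique _ hK hk2 (fun _ => Or.inr ⟨c, rfl⟩) S hS
      (by rw [hslots]; exact hcard') (by omega)
  rcases hdich (Sum.inr C.out) with hd | ⟨Y, hYc, hY2, hd⟩
  · -- accepting most negative tests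
    have hc : ∃ c : Fin k × Fin m → Fin K, c ∉ BadN := by
      by_contra hcon
      push Not at hcon
      have huniv : (univ : Finset (Fin k × Fin m → Fin K)) ⊆ BadN := fun c _ => hcon c
      have hcard := card_le_card huniv
      rw [card_univ, Fintype.card_fun, Fintype.card_fin, Fintype.card_prod, Fintype.card_fin,
        Fintype.card_fin] at hcard
      have hKpos : 0 < K := by
        rcases Nat.eq_zero_or_pos K with h | h
        · subst h
          rw [zero_pow (Nat.succ_ne_zero q)] at h1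
          exact absurd h1 (Nat.not_lt_zero _)
        · exact h
      have hlt : s * (l * l) ^ (q + 1) * K ^ (k * m) < K ^ (q + 1) * K ^ (k * m) :=
        Nat.mul_lt_mul_of_pos_right h1 (pow_pos hKpos _)
      have := (Nat.mul_le_mul_right (K ^ (q + 1)) hcard).trans hNc
      rw [← mul_assoc] at this
      have h5 := this.trans_lt hlt
      rw [Nat.mul_comm] at h5
      exact absurd h5 (lt_irrefl _)
    obtain ⟨c, hc⟩ := hc
    obtain ⟨val, hval⟩ := C.exists_eval (fun v => (τ' v).neg c)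
    exact hneg c val hval (hd c hc val (hval.toFrozen hnot _))
  · -- rejecting most positive tests
    let hits : Finset (Fin k → Fin m) := Y.biUnion (fun y => univ.filter (fun p => y ⊆ trans p))
    have huniv : (univ : Finset (Fin k → Fin m)) ⊆ (BadP ∪ hits) ∪ bad := by
      intro p _
      rw [mem_union, mem_union]
      by_cases hp : p ∈ bad
      · exact Or.inr hp
      left
      by_cases hpB : p ∈ BadP
      · exact Or.inl hpB
      right
      obtain ⟨val, hval⟩ := C.exists_eval (fun v => (τ' v).pos p)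
      obtain ⟨y, hy, hyp⟩ := hd p hpB val (hval.toFrozen hnot _) (hpos p hp val hval)
      simp only [hits, mem_biUnion, mem_filter, mem_univ, true_and]
      exact ⟨y, hy, hyp⟩
    have hcard := (card_le_card huniv).trans ((card_union_le _ _).trans
      (Nat.add_le_add_right (card_union_le _ _) _))
    rw [card_univ, Fintype.card_fun, Fintype.card_fin, Fintype.card_fin] at hcard
    have hX : 4 * BadP.card < m ^ k := by
      have hpos' : 0 < m ^ (l + 1) := pow_pos hmpos _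
      refine Nat.lt_of_mul_lt_mul_right (a := m ^ (l + 1)) ?_
      calc 4 * BadP.card * m ^ (l + 1) = 4 * (BadP.card * m ^ (l + 1)) := by ring
        _ ≤ 4 * (s * (q ^ (l + 1) * m ^ k)) := Nat.mul_le_mul_left _ hPc
        _ = 4 * (s * q ^ (l + 1)) * m ^ k := by ring
        _ < m ^ (l + 1) * m ^ k := Nat.mul_lt_mul_of_pos_right h2 (pow_pos hmpos _)
        _ = m ^ k * m ^ (l + 1) := by ring
    have hH : 4 * hits.card ≤ m ^ k := by
      have hpos' : 0 < m ^ 2 := pow_pos hmpos _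
      refine Nat.le_of_mul_le_mul_right ?_ hpos'
      have e1 : hits.card * m ^ 2 ≤ q ^ 2 * m ^ k := by
        calc hits.card * m ^ 2 ≤ (∑ y ∈ Y,
              (univ.filter (fun p : Fin k → Fin m => y ⊆ trans p)).card) * m ^ 2 :=
              Nat.mul_le_mul_right _ card_biUnion_le
          _ = ∑ y ∈ Y, (univ.filter (fun p : Fin k → Fin m => y ⊆ trans p)).card * m ^ 2 := by
              rw [sum_mul]
          _ ≤ ∑ y ∈ Y, m ^ k := sum_le_sum fun y hy => by
              have := trans_card_le (m := m) y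
              rwa [hY2 _ hy] at this
          _ = Y.card * m ^ k := by rw [sum_const, smul_eq_mul]
          _ ≤ q ^ 2 * m ^ k := Nat.mul_le_mul_right _ hYc
      calc 4 * hits.card * m ^ 2 = 4 * (hits.card * m ^ 2) := by ring
        _ ≤ 4 * (q ^ 2 * m ^ k) := Nat.mul_le_mul_left _ e1
        _ = 4 * q ^ 2 * m ^ k := by ring
        _ ≤ m ^ 2 * m ^ k := Nat.mul_le_mul_right _ h3
        _ = m ^ k * m ^ 2 := by ring
    omega

end Pool.Agent.CliqueCircuits
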